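import Pool.Agent.TQF.StT

/-!
# TQF, part T: one step of the noetherian induction
-/

set_option autoImplicit false

namespace Pool.Agent.TQF

open Function MvPolynomial TensorProduct Pool.Agent.Helper11 Pool.Agent.Helper67.Bass

theorem TLoc_isLoc {B B' : Type} [CommRing B] [CommRing B'] [Algebra B B'] (s : B)
    (h1 : IsUnit (algebraMap B B' s))
    (h2 : ∀ b' : B', ∃ (n : ℕ) (b : B), algebraMap B B' s ^ n * b' = algebraMap B B' b)
    (h3 : ∀ b : B, algebraMap B B' b = 0 → ∃ n : ℕ, s ^ n * b = 0) :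
    IsLocalization.Away s B' := by
  refine (isLocalization_iff (Submonoid.powers s) B').2 ⟨?_, ?_, ?_⟩
  · rintro ⟨_, n, rfl⟩
    show IsUnit (algebraMap B B' (s ^ n))
    rw [map_pow]
    exact h1.pow n
  · intro z
    obtain ⟨n, b, h⟩ := h2 z
    refine ⟨(b, ⟨s ^ n, n, rfl⟩), ?_⟩
    show z * algebraMap B B' (s ^ n) = algebraMap B B' b
    rw [map_pow, mul_comm]
    exact h
  · intro x y hxy
    obtain ⟨n, hn⟩ := h3 (x - y) (by rw [map_sub, hxy, sub_self])
    refine ⟨⟨s ^ n, n, rfl⟩, ?_⟩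
    show s ^ n * x = s ^ n * y
    rw [mul_sub, sub_eq_zero] at hn
    exact hn

section

variable {R V : Type} [CommRing R] [CommRing V] (φ : R →+* V) (s : R) {n : ℕ}

theorem TLoc_surj (h : ∀ v : V, ∃ (k : ℕ) (r : R), φ s ^ k * v = φ r)
    (v : MvPolynomial (Fin n) V) : ∃ (k : ℕ) (r : MvPolynomial (Fin n) R),
      C (φ s) ^ k * v = MvPolynomial.map φ r := by
  induction v using MvPolynomial.induction_on with
  | C a =>
    obtain ⟨k, r, hr⟩ := h a
    refine ⟨k, C r, ?_⟩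
    rw [map_C, ← hr, C_mul, C_pow]
  | add p q hp hq =>
    obtain ⟨k, r, hr⟩ := hp
    obtain ⟨k', r', hr'⟩ := hq
    refine ⟨k + k', C s ^ k' * r + C s ^ k * r', ?_⟩
    rw [map_add, map_mul, map_mul, map_pow, map_pow, map_C, ← hr, ← hr']
    ring
  | mul_X p i hp =>
    obtain ⟨k, r, hr⟩ := hp
    refine ⟨k, r * X i, ?_⟩
    rw [map_mul, map_X, ← hr, mul_assoc]

theorem TLoc_inj (p : Ideal R) (h : ∀ r : R, φ r = 0 → ∃ k : ℕ, s ^ k * r ∈ p)
    (x : MvPolynomial (Fin n) R) (hx : MvPolynomial.map φ x = 0) :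
    ∃ k : ℕ, C s ^ k * x ∈ p.map (C : R →+* MvPolynomial (Fin n) R) := by
  have h1 : ∀ m, ∃ k : ℕ, s ^ k * x.coeff m ∈ p := by
    intro m
    refine h _ ?_
    rw [← coeff_map, hx, coeff_zero]
  choose k hk using h1
  refine ⟨x.support.sup k, ?_⟩
  rw [mem_map_C_iff]
  intro m
  rw [← C_pow, coeff_C_mul]
  by_cases hm : m ∈ x.support
  · have hle : k m ≤ x.support.sup k := Finset.le_sup hm
    rw [← Nat.sub_add_cancel hle, pow_add, mul_assoc]
    exact p.mul_mem_left _ (hk m)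
  · rw [notMem_support_iff.1 hm, mul_zero]
    exact p.zero_mem

end

theorem thm_Loc : St_Loc := by
  intro R _ _ p s V _ _ _ n f h1 h2
  set φ : R →+* V := (algebraMap (R ⧸ p) V).comp (Ideal.Quotient.mk p) with hφ
  have hsu : IsUnit (φ s) := IsLocalization.Away.algebraMap_isUnit (Ideal.Quotient.mk p s)
  have hs : ∀ v : V, ∃ (k : ℕ) (r : R), φ s ^ k * v = φ r := by
    intro v
    obtain ⟨k, r, hr⟩ := IsLocalization.Away.surj (Ideal.Quotient.mk p s) v
    obtain ⟨r, rfl⟩ := Ideal.Quotient.mk_surjective r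
    exact ⟨k, r, by rw [mul_comm]; exact hr⟩
  have hi : ∀ r : R, φ r = 0 → ∃ k : ℕ, s ^ k * r ∈ p := by
    intro r hr
    have h3 : algebraMap (R ⧸ p) V (Ideal.Quotient.mk p r) = algebraMap (R ⧸ p) V 0 := by
      rw [map_zero]; exact hr
    obtain ⟨⟨_, k, rfl⟩, hk⟩ := IsLocalization.exists_of_eq
      (M := Submonoid.powers (Ideal.Quotient.mk p s)) h3
    refine ⟨k, ?_⟩
    have h4 : Ideal.Quotient.mk p s ^ k * Ideal.Quotient.mk p r = Ideal.Quotient.mk p s ^ k * 0 :=
      hk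
    rw [mul_zero, ← map_pow, ← map_mul, Ideal.Quotient.eq_zero_iff_mem] at h4
    exact h4
  set I : Ideal (MvPolynomial (Fin n) R) := p.map (C : R →+* _) ⊔ Ideal.span {f} with hI
  set J : Ideal (MvPolynomial (Fin n) V) := Ideal.span {MvPolynomial.map φ f} with hJ
  have hIJ : I ≤ J.comap (MvPolynomial.map φ) := by
    rw [hI, sup_le_iff]
    constructor
    · rw [Ideal.map_le_iff_le_comap]
      intro r hr
      rw [Ideal.mem_comap, Ideal.mem_comap, map_C]
      have : φ r = 0 := by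
        show algebraMap (R ⧸ p) V (Ideal.Quotient.mk p r) = 0
        rw [Ideal.Quotient.eq_zero_iff_mem.2 hr, map_zero]
      rw [this, C_0]
      exact J.zero_mem
    · rw [Ideal.span_le, Set.singleton_subset_iff]
      exact Ideal.subset_span rfl
  let alg : Algebra (MvPolynomial (Fin n) R ⧸ I) (MvPolynomial (Fin n) V ⧸ J) :=
    (Ideal.quotientMap J (MvPolynomial.map φ) hIJ).toAlgebra
  have halg : ∀ x : MvPolynomial (Fin n) R,
      algebraMap (MvPolynomial (Fin n) R ⧸ I) (MvPolynomial (Fin n) V ⧸ J)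
        (Ideal.Quotient.mk I x) = Ideal.Quotient.mk J (MvPolynomial.map φ x) := fun x => rfl
  have hloc : IsLocalization.Away (Ideal.Quotient.mk I (C s)) (MvPolynomial (Fin n) V ⧸ J) := by
    refine TLoc_isLoc _ ?_ ?_ ?_
    · rw [halg, map_C]
      exact (hsu.map (C : V →+* MvPolynomial (Fin n) V)).map (Ideal.Quotient.mk J)
    · intro b'
      obtain ⟨b', rfl⟩ := Ideal.Quotient.mk_surjective b'
      obtain ⟨k, r, hr⟩ := TLoc_surj φ s hs b'
      refine ⟨k, Ideal.Quotient.mk I r, ?_⟩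
      rw [halg, halg, map_C, ← hr, map_mul, map_pow]
    · intro b hb
      obtain ⟨x, rfl⟩ := Ideal.Quotient.mk_surjective b
      rw [halg, Ideal.Quotient.eq_zero_iff_mem, hJ, Ideal.mem_span_singleton'] at hb
      obtain ⟨h, hh⟩ := hb
      obtain ⟨k, h', hh'⟩ := TLoc_surj φ s hs h
      obtain ⟨k', hk'⟩ := TLoc_inj φ s p hi (C s ^ k * x - h' * f) (by
        rw [map_sub, map_mul, map_mul, map_pow, map_C, ← hh, ← hh']
        ring)
      refine ⟨k' + k, ?_⟩
      rw [← map_pow, ← map_mul, Ideal.Quotient.eq_zero_iff_mem, hI]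
      have h5 : C s ^ (k' + k) * x = C s ^ k' * (C s ^ k * x - h' * f) + (C s ^ k' * h') * f := by
        ring
      rw [h5]
      exact Ideal.add_mem _ (Ideal.mem_sup_left hk')
        (Ideal.mem_sup_right (Ideal.mul_mem_left _ _ (Ideal.subset_span rfl)))
  refine FinGn.of_away (V := MvPolynomial (Fin n) V ⧸ J) (s := Ideal.Quotient.mk I (C s)) ?_ h1
  have e1 := DoubleQuot.quotQuotEquivQuotSup I (Ideal.span {C s})
  have h6 : (Ideal.span {C s} : Ideal (MvPolynomial (Fin n) R)).map (Ideal.Quotient.mk I) =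
      Ideal.span {Ideal.Quotient.mk I (C s)} := by
    rw [Ideal.map_span, Set.image_singleton]
  have h7 : I ⊔ Ideal.span {C s} =
      (p ⊔ Ideal.span {s}).map (C : R →+* MvPolynomial (Fin n) R) ⊔ Ideal.span {f} := by
    rw [hI, Ideal.map_sup, Ideal.map_span, Set.image_singleton]
    rw [sup_assoc, sup_comm (Ideal.span {f}), ← sup_assoc]
  rw [h6, h7] at e1
  exact FinGn.of_equiv e1.symm h2

end Pool.Agent.TQF
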