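import Pool.Agent.TQF.StN

/-!
# TQF: orders exist
-/

set_option autoImplicit false

namespace Pool.Agent.TQF

open Function

theorem thm_Ord0 : St_Ord0 := by
  intro R0 _ _ _ E _ _ _ D _ _ _ _ _
  classical
  let b := Module.finBasis E D
  let g : Option (Fin (Module.finrank E D)) → D := fun o => o.elim 1 b
  let X : Submodule R0 D := Submodule.span R0 (Set.range g)
  have h1X : (1 : D) ∈ X := Submodule.subset_span ⟨none, rfl⟩
  let Δ : Subalgebra R0 D :=
    { carrier := {x | ∀ y ∈ X, x * y ∈ X}
      mul_mem' := fun {x y} hx hy z hz => by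
        rw [mul_assoc]
        exact hx _ (hy z hz)
      add_mem' := fun {x y} hx hy z hz => by
        rw [add_mul]
        exact X.add_mem (hx z hz) (hy z hz)
      algebraMap_mem' := fun r y hy => by
        rw [← Algebra.smul_def]
        exact X.smul_mem r hy }
  refine ⟨Δ, ?_, fun x => ?_⟩
  · have hX : X.FG := Submodule.fg_span (Set.finite_range g)
    refine hX.of_le fun x hx => ?_
    have h2 : x * 1 ∈ X := hx 1 h1X
    rwa [mul_one] at h2
  · have key : ∀ z : D, ∃ r : R0, r ≠ 0 ∧ r • z ∈ X := by
      intro z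
      obtain ⟨r, hr⟩ := IsLocalization.exist_integer_multiples (nonZeroDivisors R0) Finset.univ
        (fun i => b.repr z i)
      refine ⟨r, nonZeroDivisors.ne_zero r.2, ?_⟩
      rw [← b.sum_repr z, Finset.smul_sum]
      refine X.sum_mem fun i hi => ?_
      obtain ⟨c, hc⟩ := hr i hi
      have h3 : (r : R0) • (b.repr z i • b i) = c • b i := by
        rw [← smul_assoc, ← algebraMap_smul E c (b i), hc]
      rw [h3]
      exact X.smul_mem c (Submodule.subset_span ⟨some i, rfl⟩)
    choose r hr0 hr using fun o => key (x * g o)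
    refine ⟨∏ o, r o, Finset.prod_ne_zero_iff.2 fun o _ => hr0 o, ?_⟩
    show ∀ y ∈ X, (∏ o, r o) • x * y ∈ X
    intro y hy
    induction hy using Submodule.span_induction with
    | mem y hy =>
      obtain ⟨o, rfl⟩ := hy
      obtain ⟨c, hc⟩ := Finset.dvd_prod_of_mem r (Finset.mem_univ o)
      rw [hc, smul_mul_assoc, mul_comm, mul_smul]
      exact X.smul_mem c (hr o)
    | zero =>
      rw [mul_zero]
      exact X.zero_mem
    | add y z _ _ hy hz =>
      rw [mul_add]
      exact X.add_mem hy hz
    | smul c y _ hy =>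
      rw [mul_smul_comm]
      exact X.smul_mem c hy

end Pool.Agent.TQF
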