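import Pool.Agent.TQF.Basic
import Pool.Agent.Helper67.Bass.Defs

/-!
# TQF, statements, part N: noncommutative orders

Conventions: `modC L` is the exact structure of finitely generated LEFT modules over the (not
necessarily commutative) ring `L`; `Ideal L` are the left ideals. `(modC L).FinG` means that
finitely many modules generate all of them under two out of three (`Defs.lean`). Basic lemmas
(`LMod.t3_iso`, `LMod.t3_sub`, `EC.T3.comap`) are in `Basic.lean`.
-/

set_option autoImplicit false

namespace Pool.Agent.TQF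

open Function MvPolynomial TensorProduct Pool.Agent.Helper67.Bass

/-- **Cyc** (30 min). Cyclic modules generate.
Proof. Let `P` be a class as in the statement. Show by induction on `n`: every module `M` which is
generated by `n` elements (`x : Fin n → M`, span of the range `= ⊤`) lies in `P`. `n = 0`: `M = 0`.
`n + 1`: let `N` be the submodule generated by the first `n` elements. `N` is finitely generated
(no noetherian hypothesis is needed), so `N ∈ P` by induction, and `M ⧸ N` is generated by one
element, hence isomorphic to `L ⧸ I` with `I` the kernel of `L → M ⧸ N`. Use `LMod.t3_sub`. -/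
def St_Cyc : Prop :=
  ∀ (L : Type) [Ring L] (P : LMod L → Prop), (modC L).T3 P →
    (∀ I : Submodule L L, P (LMod.of L (L ⧸ I))) → ∀ M, P M

/-- **Lp** (30 min). A domain in which all left ideals are principal: the single module `L`
generates. Proof. By `St_Cyc` (hypothesis) one needs `L ⧸ I ∈ P` for a left ideal `I = L a`. If
`a = 0` then `L ⧸ I ≅ L`. If `a ≠ 0` then `x ↦ x a` is an injective left linear map `L → L` with
image `I`, and `0 → L → L → L ⧸ I → 0` is exact. -/
def St_Lp : Prop :=
  ∀ (L : Type) [Ring L] [IsDomain L], (∀ I : Ideal L, ∃ a, I = Ideal.span {a}) → (modC L).FinG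

/-- **Nil** (1 h). A surjection with nilpotent kernel.
Proof. Let `J = ker π`, `J ^ r = 0`, and let `U` be a finite generating set for `L'`. Take the
finite set of all restrictions `π^* N`, `N ∈ U` (the same additive group, `x • n = π x • n`; these
are finitely generated as `π` is surjective). Let `P` be a two out of three class over `L` containing
them. `N ↦ P (π^* N)` is two out of three over `L'`, so all `π^* N` are in `P`, and hence every
`L`-module killed by `J` (it is isomorphic to some `π^* N`). Show by induction on `k`: `J ^ k M = 0`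
implies `M ∈ P`: consider `J M ⊆ M`. (`L` is left noetherian, so submodules of finitely generated
modules are finitely generated. `J` is a two-sided ideal.) -/
def St_Nil : Prop :=
  ∀ (L L' : Type) [Ring L] [Ring L'] [IsNoetherianRing L] (π : L →+* L'), Surjective π →
    IsNilpotent (RingHom.ker π) → (modC L').FinG → (modC L).FinG

/-- **Pi** (1 h). Finite products of rings.
Proof. Let `e_i = Pi.single i 1` (central idempotents with sum `1`). For every `i` restriction along
the projection `Π L → L_i` gives a functor `R_i`; take the union of the finite sets `R_i (U_i)`. If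
`P` contains them then it contains all `R_i N`. For a `Π L`-module `M` let
`M_k = {x | e_i x = 0 for all i ≥ k}`, submodules with `M_0 = 0`, `M_n = M`; `M_{k+1} / M_k` is
isomorphic to `e_k M`, which is of the form `R_k N`. (Submodules and quotients are finitely
generated, being direct summands: `M_k` is the image of multiplication by `∑_{i<k} e_i`.) -/
def St_Pi : Prop :=
  ∀ (n : ℕ) (L : Fin n → Type) [∀ i, Ring (L i)], (∀ i, (modC (L i)).FinG) →
    (modC (∀ i, L i)).FinG

/-- **Mat** (1.5 h). Matrix rings (Morita). Proof. For `N ∈ LMod L` let `N ^ n` be the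
`M_n(L)`-module of columns (`(A v)_i = ∑ A_ij v_j`); it is finitely generated (if `N` is generated by
`x_1, …, x_r`, the columns with a single nonzero entry `x_k` generate). `N ↦ N ^ n` is exact. Take
the image of a finite generating set. Every `M_n(L)`-module `M` is isomorphic to `N ^ n` with
`N = E_11 M` an `L`-module through `a • x = (a E_11) x`; the isomorphism is `x ↦ (E_1i x)_i`.
(`n = 0`: the zero ring, all modules are zero. Mathlib has `Mathlib/RingTheory/Morita/Matrix.lean`,
use it if it helps.) -/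
def St_Mat : Prop :=
  ∀ (L : Type) [Ring L] (n : ℕ), (modC L).FinG → (modC (Matrix (Fin n) (Fin n) L)).FinG

/-- **Pig** (2.5 h). Minkowski's pigeonhole argument for orders over `ℤ` and `F_q[t]`.
`D` is a ring without zero divisors, free of finite rank over the Euclidean domain `R0` (`R0` maps
to the centre of `D`).
Proof. Let `b` be a basis, `n` the rank (`D` is nontrivial, so `n ≥ 1`). For `x ∈ D` let
`N(x) = det (y ↦ y x) ∈ R0`, the determinant of the `R0`-linear map right multiplication by `x`.
`N(x y) = N(x) N(y)`, `N(r) = r ^ n` for `r ∈ R0`, `N(x) ≠ 0` for `x ≠ 0` (the map is injective, `R0` is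
a domain). The matrix of right multiplication by `x = ∑ x_i b_i` is `∑ x_i M_i` with fixed matrices
`M_i`, so there is a constant `C > 0` (real) with `|N(x)| ≤ C y ^ n` if all `|x_i| ≤ y`
(`Matrix.det_sum_smul_le`; `|·| = abv`). Choose `ε > 0` with `C ε ^ n < 1`. Let
`M = adm.card ε ^ n` and choose distinct elements `t_0, …, t_M` of `R0` (`Infinite R0`). Let `s` be the
product of all `t_j - t_k`, `j ≠ k`. Claim: `s` works.
Let `I` be a left ideal. If `I = 0` take `a = 0`. Otherwise choose `a ∈ I`, `a ≠ 0` with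
`|N(a)| ∈ ℕ` minimal. Let `b ∈ I`. Let `d = N(a) ≠ 0`. There is `u ∈ D` with `u a = d` (the adjugate of
the map `y ↦ y a` applied to `1`; e.g. `LinearMap` or matrix `adjugate`, `adjugate_mul`); then also
`a u = d` (as `a (u a) = d a = (d) a`, so `(a u - d) a = 0`). Let `β = b u ∈ D` with coordinates
`β_k ∈ R0`. By `AbsoluteValue.IsAdmissible.exists_approx` applied to the vectors `(t_j β_k)_k` modulo
`d` there are `i ≠ j` with `|t_j β_k % d - t_i β_k % d| < ε |d|` for all `k`. Put `r = t_j - t_i`,
`q = ∑ (t_j β_k / d - t_i β_k / d) b_k`, `δ = ∑ (t_j β_k % d - t_i β_k % d) b_k`, so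
`r β = d q + δ`. Multiply by `a` on the right: `β a = b u a = d b`, so `d (r b - q a) = δ a`. Hence
`|d| ^ n |N(r b - q a)| = |N(δ)| |N(a)| ≤ C (ε |d|) ^ n |N(a)| < |d| ^ n |N(a)|`. As
`r b - q a ∈ I`, minimality gives `r b = q a`. Since `r` divides `s`, `s b ∈ D a`. -/
def St_Pig : Prop :=
  ∀ (R0 : Type) [EuclideanDomain R0] [Infinite R0] (abv : AbsoluteValue R0 ℤ)
    (_ : abv.IsAdmissible) (D : Type) [Ring D] [IsDomain D] [Algebra R0 D] [Module.Finite R0 D]
    [Module.Free R0 D], ∃ s : R0, s ≠ 0 ∧ ∀ I : Ideal D, ∃ a ∈ I, ∀ b ∈ I, s • b ∈ Ideal.span {a}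

/-- **Ord0** (1 h). Orders exist. Proof. Let `b_1, …, b_n` be an `E`-basis of `D` and let `X` be the
`R0`-submodule of `D` spanned by `1, b_1, …, b_n`. Let `Δ = {x ∈ D | x y ∈ X for all y ∈ X}`. It is a
subalgebra; `Δ ⊆ X` because `1 ∈ X`, so `Δ` is finitely generated (`R0` is noetherian). If `x ∈ D`
then `x ∈ E`-span, so finitely many coefficients in `E = Frac R0`: there is `r ≠ 0` in `R0` with
`r x ∈ X` and `r x b_i ∈ X` for all `i` (`IsLocalization.exist_integer_multiples` or a product of
denominators). -/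
def St_Ord0 : Prop :=
  ∀ (R0 : Type) [CommRing R0] [IsDomain R0] [IsNoetherianRing R0] (E : Type) [Field E]
    [Algebra R0 E] [IsFractionRing R0 E] (D : Type) [DivisionRing D] [Algebra R0 D] [Algebra E D]
    [IsScalarTower R0 E D] [FiniteDimensional E D],
    ∃ Δ : Subalgebra R0 D, (Subalgebra.toSubmodule Δ).FG ∧ ∀ x : D, ∃ r : R0, r ≠ 0 ∧ r • x ∈ Δ

/-- `K` is a finite extension of the fraction field of `ℤ` or `F_q[t]` (or another Euclidean domain
with an admissible absolute value) -/
def Glob (K : Type) [Field K] : Prop :=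
  ∃ (R0 : Type) (_ : EuclideanDomain R0) (_ : Infinite R0) (_ : Algebra.FiniteType ℤ R0)
    (abv : AbsoluteValue R0 ℤ) (_ : abv.IsAdmissible) (E : Type) (_ : Field E) (_ : Algebra R0 E) (_ : IsFractionRing R0 E)
    (_ : Algebra E K), FiniteDimensional E K

/-- **Glob** (1 h). Proof. This is contained in the proof of `exists_pid` in
`Pool/Agent/Helper67/Bass/Small.lean`: in characteristic `0` the field `K` is finite over
`E = ℚ`, `R0 = ℤ` (`AbsoluteValue.absIsAdmissible`); in characteristic `p` either `K` is finite or `K` is a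
finite extension of `E = F_p(x)`, `R0 = F_p[X]` (`Polynomial.cardPowDegreeIsAdmissible`). Copy the proofs of
`pid_char0`, `pid_curve`, `pid_charp` and `exists_pid` up to the point where these facts are
established (`Algebra.FiniteType ℤ (ZMod p)[X]` is also shown there). -/
def St_Glob : Prop :=
  ∀ (A K : Type) [CommRing A] [IsDomain A] [Algebra.FiniteType ℤ A] [Field K] [Algebra A K]
    [IsFractionRing A K], KroneckerLeOne K → Finite K ∨ Glob K

/-- Every division algebra over `K` contains an order over `A` all of whose left ideals become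
principal after inverting one fixed element `s` of `A`. -/
def OrdH (A K : Type) [CommRing A] [Field K] [Algebra A K] : Prop :=
  ∀ (D : Type) [DivisionRing D] [Algebra A D] [Algebra K D] [IsScalarTower A K D]
    [FiniteDimensional K D],
    ∃ Δ : Subalgebra A D, (Subalgebra.toSubmodule Δ).FG ∧ (∀ x : D, ∃ a : A, a ≠ 0 ∧ a • x ∈ Δ) ∧
      ∃ s : A, s ≠ 0 ∧ ∀ I : Ideal Δ, ∃ a ∈ I, ∀ b ∈ I, ∃ n : ℕ, s ^ n • b ∈ Ideal.span {a}

/-- **OrdF** (30 min). Proof. `A` is a subring of the finite field `K`, so `A` is a finite domain, a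
field, and `A → K` is bijective. Take `Δ = ⊤`, `s = 1`; `Δ ≅ D` is a division ring: a left ideal `I` is
`0` (`a = 0`) or contains some `a ≠ 0`, and then `b = (b a⁻¹) a`. `Δ` is finitely generated because `D`
is finite dimensional over `K` (or because `D` is finite). -/
def St_OrdF : Prop :=
  ∀ (A K : Type) [CommRing A] [IsDomain A] [Field K] [Algebra A K] [IsFractionRing A K],
    Finite K → OrdH A K

/-- **OrdG** (2.5 h), with the hypotheses `St_Ord0`, `St_Pig`: passing from `R0` to `A`.
Proof. Let `R0, E, abv` be as in `Glob K`; give `K` and `D` the algebra structures over `R0` and `E`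
(compositions of `R0 → E → K → D`). `D` is a finite dimensional division algebra over `E` and `K`.
Let `Δ0 ⊆ D` be the `R0`-order of `St_Ord0` (`R0` is a PID, hence noetherian; `Δ0` is a domain, finite
and torsion free, hence free over `R0`) and `s0 ∈ R0` the element of `St_Pig` for `Δ0`. Let `Δ ⊆ D` be
the `A`-order of `St_Ord0` for `A` and `K` (`A` is noetherian). All elements are viewed in `D`, where
the images of `R0` and `A` are central and injective.
(1) There is `f ∈ R0`, `f ≠ 0`, such that for every `x ∈ Δ` there is `n` with `f ^ n x ∈ Δ0`. First for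
`x ∈ A`: `A` is generated as a ring by finitely many `x_i`, `r_i x_i ∈ Δ0` with `r_i ≠ 0`; `∏ r_i`
works for all elements of `A` by `Algebra.adjoin_induction` (if `n`, `m` work for `a`, `b` then
`n + m` works for `a b` and `a + b`). Then `Δ = ∑ A δ_j` with `r'_j δ_j ∈ Δ0`, `r'_j ≠ 0`; take
`f = ∏ r_i ∏ r'_j`.
(2) There is `e ∈ A`, `e ≠ 0`, such that for every `r ∈ R0` there is `n` with `e ^ n r ∈ A`
(`Pool.Agent.Helper67.Bass.exists_den` in `Pid.lean`, as `R0` is a finitely generated ring), and
hence `e' ∈ A`, `e' ≠ 0` (a multiple of `e`) such that moreover for every `x ∈ Δ0` there is `n` with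
`e' ^ n x ∈ Δ` (`Δ0 = ∑ R0 δ'_j`, `c δ'_j ∈ Δ`, `e' = e c`).
(3) Put `s1 = s0 f ∈ R0`. There are `c', d ∈ A ∖ 0` with `d = c' s1` in `K`
(`IsFractionRing.div_surjective`). Claim: `s = d e'` works for `Δ`.
Let `I` be a left ideal of `Δ`. Let `I0 = {y ∈ Δ0 | ∃ n, e' ^ n y ∈ I}`, a left ideal of `Δ0` (if
`x ∈ Δ0`, `e' ^ m x ∈ Δ`, `e' ^ n y ∈ I` then `e' ^ (n+m) x y ∈ I`). Let `a0 ∈ I0` be such that
`s0 y ∈ Δ0 a0` for all `y ∈ I0`, and `a = e' ^ n0 a0 ∈ I`. Let `b ∈ I`. Choose `n ≥ 1` with
`f ^ n b ∈ Δ0`. It lies in `I0`, because `e' ^ m f ^ n ∈ A` for some `m`. So `s0 f ^ n b = y a0` with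
`y ∈ Δ0`, and `s1 ^ n b = (s0 ^ (n-1) y) a0`. Hence for `N` large `s ^ N b =
d ^ N e' ^ N b = d ^ (N - n) c' ^ n e' ^ (N - n0) (s0 ^ (n-1) y) (e' ^ n0 a0) ∈ Δ a`. -/
def St_OrdG : Prop :=
  ∀ (A K : Type) [CommRing A] [IsDomain A] [Algebra.FiniteType ℤ A] [Field K] [Algebra A K]
    [IsFractionRing A K], Glob K → OrdH A K

/-! ### localised subalgebras -/

/-- `{x | s ^ n x ∈ Γ for some n}` -/
def locA {A E : Type} [CommRing A] [Ring E] [Algebra A E] (Γ : Subalgebra A E) (s : A) :
    Subalgebra A E where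
  carrier := {x | ∃ n : ℕ, s ^ n • x ∈ Γ}
  mul_mem' := by
    rintro x y ⟨n, hn⟩ ⟨k, hk⟩
    refine ⟨n + k, ?_⟩
    have := Γ.mul_mem hn hk
    rwa [smul_mul_smul_comm, ← pow_add] at this
  add_mem' := by
    rintro x y ⟨n, hn⟩ ⟨k, hk⟩
    refine ⟨n + k, ?_⟩
    rw [smul_add]
    apply Γ.add_mem
    · rw [add_comm n k, pow_add, mul_smul]; exact Γ.smul_mem hn _
    · rw [pow_add, mul_smul]; exact Γ.smul_mem hk _
  algebraMap_mem' r := ⟨0, by rw [pow_zero, one_smul]; exact Γ.algebraMap_mem r⟩

/-- **LocP** (1 h), with the hypothesis `St_Lp`. Proof. Put `D' = locA Δ (s * t) ⊆ D`; it has no zero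
divisors and contains the inverse of `s` (in `D`; `s ≠ 0` in `D` because `A → K → D` is injective) and of
`t`. Let `J` be a left ideal of `D'` and `I = J ∩ Δ` (comap along `Δ → D'`). Let `a ∈ I` be as in
the hypothesis. If `x ∈ J` then `(s t) ^ n x ∈ Δ ∩ J = I` for some `n`, so
`s ^ k (s t) ^ n x = y a` with `y ∈ Δ`, and `x = (s ^ k (s t) ^ n)⁻¹ y a ∈ D' a`. -/
def St_LocP : Prop :=
  ∀ (A K : Type) [CommRing A] [IsDomain A] [Field K] [Algebra A K] [IsFractionRing A K]
    (D : Type) [DivisionRing D] [Algebra A D] [Algebra K D] [IsScalarTower A K D]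
    (Δ : Subalgebra A D) (s t : A), s ≠ 0 → t ≠ 0 →
    (∀ I : Ideal Δ, ∃ a ∈ I, ∀ b ∈ I, ∃ n : ℕ, s ^ n • b ∈ Ideal.span {a}) →
    (modC (locA Δ (s * t))).FinG

/-- **LocM** (1.5 h), with the hypotheses `St_Pi`, `St_Mat`. Proof. Let
`Γ = {x | ∀ i j k, x i j k ∈ Δ i}`, a subalgebra. It is finitely generated (by the elements with one
entry a generator of `Δ i` and the other entries `0`); multiply the finitely many denominators for
the second property. `locA Γ s = {x | ∀ i j k, x i j k ∈ locA (Δ i) s}` (finitely many entries, take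
the maximum of the exponents) is isomorphic, as a ring, to `∏ M_{d i} (locA (Δ i) s)`. Transport
`FinG` along the ring isomorphism `e : L ≃+* L'` (restriction of modules along `e`; this can be
proved directly, it is the case of kernel `0` of `St_Nil`, without noetherian hypothesis). -/
def St_LocM : Prop :=
  ∀ (A : Type) [CommRing A] [IsDomain A] (n : ℕ) (d : Fin n → ℕ) (D : Fin n → Type)
    [∀ i, Ring (D i)] [∀ i, Algebra A (D i)] (Δ : ∀ i, Subalgebra A (D i)),
    (∀ i, (Subalgebra.toSubmodule (Δ i)).FG) → (∀ i, ∀ x : D i, ∃ a : A, a ≠ 0 ∧ a • x ∈ Δ i) →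
    ∃ Γ : Subalgebra A (∀ i, Matrix (Fin (d i)) (Fin (d i)) (D i)),
      (Subalgebra.toSubmodule Γ).FG ∧
      (∀ x : (∀ i, Matrix (Fin (d i)) (Fin (d i)) (D i)), ∃ a : A, a ≠ 0 ∧ a • x ∈ Γ) ∧
      ∀ s : A, (∀ i, (modC (locA (Δ i) s)).FinG) → (modC (locA Γ s)).FinG

/-- **LocC** (30 min). Two orders agree after inverting an element. Proof. If `x_1, …, x_r` generate
`Γ` choose `a_i ≠ 0` with `a_i x_i ∈ Γ'`; then `a = ∏ a_i` satisfies `a Γ ⊆ Γ'`; similarly
`a' Γ' ⊆ Γ`. Take `t = a a'`. -/
def St_LocC : Prop :=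
  ∀ (A : Type) [CommRing A] [IsDomain A] (E : Type) [Ring E] [Algebra A E]
    (Γ Γ' : Subalgebra A E), (Subalgebra.toSubmodule Γ).FG → (Subalgebra.toSubmodule Γ').FG →
    (∀ x : E, ∃ a : A, a ≠ 0 ∧ a • x ∈ Γ) → (∀ x : E, ∃ a : A, a ≠ 0 ∧ a • x ∈ Γ') →
    ∃ t : A, t ≠ 0 ∧ ∀ s, t ∣ s → locA Γ s = locA Γ' s

/-- **LocK** (2 h). Proof. Let `φ : Λ → E`, `φ x = π (1 ⊗ x)`, an `A`-algebra homomorphism, and `Γ'` its
range: finitely generated; every element of `K ⊗ Λ` has a nonzero multiple `a z = 1 ⊗ x`, whence the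
second property. The submodule `τ = {x ∈ Λ | 1 ⊗ x = 0 in K ⊗ Λ}` consists of the `x` killed by some
`a ≠ 0` in `A` (`K ⊗ Λ` is the localisation of `Λ` at `A ∖ 0`, `IsLocalizedModule`), is finitely
generated, so `t τ = 0` for some `t ≠ 0`. Let `t ∣ s`, `s ≠ 0`. `ρ` is the ring homomorphism
`A_s ⊗ Λ → K ⊗ Λ → E` (`Algebra.TensorProduct.map` or `lift`; `A_s → K` by the universal property,
`s ≠ 0` in `K`), its range is `locA Γ' s` (an element of `A_s ⊗ Λ` multiplied by a power of `s` is
`1 ⊗ x`; `s` is invertible in `E` and `E` is a `K`-algebra). Its kernel is nilpotent: let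
`(ker π) ^ r = 0`, `r ≥ 1`. For `z_1, …, z_r` in the kernel `s ^ n z_i = 1 ⊗ x_i` for a common `n`, with
`1 ⊗ x_i ∈ ker π` in `K ⊗ Λ`, so `x_1 ⋯ x_r ∈ τ`, `t` kills it, `t` divides `s`, `s` is invertible on
`A_s ⊗ Λ`, so `z_1 ⋯ z_r = 0`. (For two-sided ideals: `I ^ r = ⊥` if all products of `r` elements
vanish; e.g. by induction `I ^ r` is contained in the set of `z` such that ..., or show that the map
of ideals: `I ^ k ≤ comap of (ker π) ^ k` and use this for `k = r`.) -/
def St_LocK : Prop :=
  ∀ (A K : Type) [CommRing A] [IsDomain A] [IsNoetherianRing A] [Field K] [Algebra A K]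
    [IsFractionRing A K] (Λ : Type) [Ring Λ] [Algebra A Λ] [Module.Finite A Λ] (E : Type) [Ring E]
    [Algebra A E] [Algebra K E] [IsScalarTower A K E] (π : K ⊗[A] Λ →ₐ[K] E), Surjective π →
    IsNilpotent (RingHom.ker π) → ∃ Γ' : Subalgebra A E, (Subalgebra.toSubmodule Γ').FG ∧
      (∀ x : E, ∃ a : A, a ≠ 0 ∧ a • x ∈ Γ') ∧ ∃ t : A, t ≠ 0 ∧ ∀ s : A, s ≠ 0 → t ∣ s →
        ∃ ρ : (Localization.Away s ⊗[A] Λ) →+* locA Γ' s, Surjective ρ ∧
          IsNilpotent (RingHom.ker ρ)

/-- **Wed** (45 min). Wedderburn. Proof. `Λ` is artinian, hence `IsSemiprimaryRing`: the Jacobson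
radical `J` is nilpotent and `Λ ⧸ J` is semisimple, a finite dimensional `K`-algebra. Compose
`Λ → Λ ⧸ J` with the isomorphism of
`IsSemisimpleRing.exists_algEquiv_pi_matrix_divisionRing_finite`. -/
def St_Wed : Prop :=
  ∀ (K : Type) [Field K] (Λ : Type) [Ring Λ] [Algebra K Λ] [FiniteDimensional K Λ],
    ∃ (n : ℕ) (d : Fin n → ℕ) (D : Fin n → Type) (_ : ∀ i, DivisionRing (D i))
      (_ : ∀ i, Algebra K (D i)) (_ : ∀ i, FiniteDimensional K (D i))
      (π : Λ →ₐ[K] (∀ i, Matrix (Fin (d i)) (Fin (d i)) (D i))),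
      Surjective π ∧ IsNilpotent (RingHom.ker π)

/-- **NC**, assembly of part N. -/
def St_NC : Prop :=
  ∀ (A K : Type) [CommRing A] [IsDomain A] [Algebra.FiniteType ℤ A] [Field K] [Algebra A K]
    [IsFractionRing A K], KroneckerLeOne K → ∀ (Λ : Type) [Ring Λ] [Algebra A Λ]
    [Module.Finite A Λ], ∃ s : A, s ≠ 0 ∧ (modC (Localization.Away s ⊗[A] Λ)).FinG

/-! ### the algebra `Lam q` -/

/-- **LamF** (1 h). Proof. For a word `w` (a `List (Fin (m+1))`) let `[w] ∈ Lam q` be the product of the
generators `η_i` (images of `FreeAlgebra.ι`). Let `W k` be the `A`-span of the `[w]` with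
`w.length < k`. Claim: if `w ~ w'` (`List.Perm`) then `[w] - [w'] ∈ W k` or `[w] + [w'] ∈ W k`,
`k = w.length`. Induction on `List.Perm`: `cons`: multiply by `η_x` on the left (`η_x W k ⊆ W (k+1)`);
`swap`: `[y :: x :: w] + [x :: y :: w] = -(λ_x η_y + λ_y η_x + γ_xy + γ_yx) [w] ∈ W k` if `x ≠ y`,
trivial if `x = y`; `trans`. If `w.length > m + 1` then `w` has a repeated letter, so
`w ~ i :: i :: w'` and `[i :: i :: w'] = -λ_i [i :: w'] - γ_ii [w'] ∈ W k`; so `[w] ∈ W k`. By
induction every `[w]` lies in `W (m + 2)`, which is finitely generated (finitely many lists of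
length `< m + 2` over a finite type). The words span (`FreeAlgebra.induction` and
`RingQuot.mkAlgHom_surjective`). -/
def St_LamF : Prop :=
  ∀ (A : Type) [CommRing A] (m : ℕ) (q : QD A m), Module.Finite A (Lam q)

/-- **LamC** (1.5 h), with the hypothesis `St_LamF`. Proof. Put `L = A' ⊗[A] Lam q`. An `L`-module `N`
(finitely generated) is an `A'`-module via `a ↦ a ⊗ 1` (finitely generated: `L` is a finite
`A'`-module by `St_LamF`), with the operators `e_i = ` multiplication by `1 ⊗ η_i`, which are
`A'`-linear and satisfy the relations. This gives a map `G : LMod L → CMod (q.map _)`, which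
respects short exact sequences. Take the image of a finite generating set. If `P` contains it then
`P (G N)` for all `N`. Finally every object `M` of `CMod` is isomorphic to some `G N`: the operators
define an algebra homomorphism `FreeAlgebra A (Fin (m+1)) → End_{A'} M`, which factors through
`Lam q` (`RingQuot.liftAlgHom`), and together with `A' → End_{A'} M` a ring homomorphism
`L → End_{A'} M` (`Algebra.TensorProduct.lift`), i.e. an `L`-module structure (`Module.compHom`),
finitely generated since it is so over `A'`. -/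
def St_LamC : Prop :=
  ∀ (A A' : Type) [CommRing A] [CommRing A'] [Algebra A A'] (m : ℕ) (q : QD A m),
    (modC (A' ⊗[A] Lam q)).FinG → (cC (q.map (algebraMap A A'))).FinG

end Pool.Agent.TQF
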