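import Pool.Agent.TQF.StN

/-!
# TQF, part N: assembly
-/

set_option autoImplicit false

namespace Pool.Agent.TQF

open Function MvPolynomial TensorProduct Pool.Agent.Helper67.Bass

theorem thm_NC (hGlob : St_Glob) (hOrdF : St_OrdF) (hOrdG : St_OrdG) (hLocP : St_LocP)
    (hLocM : St_LocM) (hLocC : St_LocC) (hLocK : St_LocK) (hWed : St_Wed) (hNil : St_Nil) :
    St_NC := by
  intro A K _ _ _ _ _ _ hK Λ _ _ _
  have hord : OrdH A K := by
    rcases hGlob A K hK with h | h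
    · exact hOrdF A K h
    · exact hOrdG A K h
  haveI : IsNoetherianRing A := Algebra.FiniteType.isNoetherianRing ℤ A
  obtain ⟨n, d, D, _, _, _, π, hπ, hnil⟩ := hWed K (K ⊗[A] Λ)
  letI : ∀ i, Algebra A (D i) := fun i => Algebra.compHom (D i) (algebraMap A K)
  haveI : ∀ i, IsScalarTower A K (D i) := fun i => IsScalarTower.of_algebraMap_eq fun _ => rfl
  choose Δ hfg hsp s hs hlp using fun i => hord (D i)
  obtain ⟨Γ, hΓ1, hΓ2, hΓ3⟩ := hLocM A n d D Δ hfg hsp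
  obtain ⟨Γ', hΓ'1, hΓ'2, t, ht, hρ⟩ := hLocK A K Λ (∀ i, Matrix (Fin (d i)) (Fin (d i)) (D i))
    π hπ hnil
  obtain ⟨t', ht', heq⟩ := hLocC A (∀ i, Matrix (Fin (d i)) (Fin (d i)) (D i)) Γ Γ' hΓ1 hΓ'1 hΓ2
    hΓ'2
  have hprod : ∏ i, s i ≠ 0 := Finset.prod_ne_zero_iff.2 fun i _ => hs i
  have hs0 : (∏ i, s i) * t * t' ≠ 0 := mul_ne_zero (mul_ne_zero hprod ht) ht'
  obtain ⟨ρ, hρ1, hρ2⟩ := hρ ((∏ i, s i) * t * t') hs0 ((Dvd.intro_left _ rfl).mul_right _)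
  refine ⟨(∏ i, s i) * t * t', hs0, ?_⟩
  haveI : IsNoetherianRing (Localization.Away ((∏ i, s i) * t * t') ⊗[A] Λ) :=
    IsNoetherianRing.of_finite (Localization.Away ((∏ i, s i) * t * t')) _
  refine hNil _ _ ρ hρ1 hρ2 ?_
  rw [← heq _ (Dvd.intro_left _ rfl)]
  refine hΓ3 _ fun i => ?_
  have h1 : (∏ i, s i) * t * t' = s i * ((∏ j ∈ Finset.univ.erase i, s j) * t * t') := by
    rw [← Finset.mul_prod_erase Finset.univ s (Finset.mem_univ i)]
    ring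
  have h2 : (∏ j ∈ Finset.univ.erase i, s j) * t * t' ≠ 0 := by
    intro h
    rw [h1, h, mul_zero] at hs0
    exact hs0 rfl
  rw [h1]
  exact hLocP A K (D i) (Δ i) (s i) _ (hs i) h2 (hlp i)

end Pool.Agent.TQF
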