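import Pool.Agent.TQF.Basic

/-!
# TQF, statements, part G: from the residue fields to a noetherian base ring
-/

set_option autoImplicit false

namespace Pool.Agent.TQF

open Function MvPolynomial TensorProduct

/-- `E` is a lattice in `X`: there is an additive map `j : E → X`, semilinear along `φ : S → S'`,
compatible with `z`, with `W`-torsion kernel, and such that every element of `X` has a multiple by an
element of `W` in the image. -/
def IsLatQ {S S' : Type} [CommRing S] [CommRing S'] (φ : S →+* S') (W : Submonoid S) {l g : S}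
    {l' g' : S'} (E : QM l g) (X : QM l' g') : Prop :=
  ∃ j : E.carrier →+ X.carrier, (∀ (s : S) (e : E.carrier), j (s • e) = φ s • j e) ∧
    (∀ e : E.carrier, j (E.z e) = X.z (j e)) ∧
    (∀ e : E.carrier, j e = 0 → ∃ w ∈ W, w • e = 0) ∧
    ∀ x : X.carrier, ∃ w ∈ W, ∃ e : E.carrier, φ w • x = j e

/-- **G1** (2.5 h). The localisation principle. `S' = W⁻¹ S`.
Proof. Adapt `Pool/Agent/Helper67/Bass/Away.lean` (`tors_all`, `tors_map`, `exists_lat`, `lat_unique`,
`lat_exact`, `two3_lat`, `FinGn.of_away`), where the case of the powers of one element `s` is done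
for modules without `z`. Write `lattice` for `IsLatQ φ W`.
(1) If `E` is an object of `QM l g` in which every element is killed by some element of `W`, then one
`w ∈ W` kills all of `E` (`E` is finitely generated, multiply), so `P E`.
(2) If `f : E → E'` is `S`-linear, compatible with `z`, with `W`-torsion kernel and cokernel, then
`P E ↔ P E'` (kernel, image, cokernel are objects, `QM.sub`, `QM.quot`).
(3) Every object `X` over `S'` has a lattice: `x_1, …, x_r` generators of `X`; the `S`-submodule `E` of
`X` spanned by all `x_i` and `z x_i`; it is stable under `z` since `z z x = -l z x - g x`; and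
`l' = φ l`, `g' = φ g`.
(4) Two lattices `E`, `E'` of the same `X` satisfy `P E ↔ P E'`: `E'' = j(E) + j'(E') ⊆ X` is an
object, and (2) applies to `E → E''` and `E' → E''`.
(5) Let `P'(X) := ∀ E, lattice E X → P E`. Then `P'` is a two out of three class: zero by (1); for
`0 → X' → X → X'' → 0` with lattice `j : E → X` of `X`, `E' = j⁻¹(X')` and `E'' = E ⧸ E'` are
lattices of `X'`, `X''`; use (3), (4).
(6) By (4) and the hypothesis `P'` holds for the objects of `U`, so for all `X`.
(7) Finally for an object `E` let `X = S' ⊗[S] E` with `z = id ⊗ z`: `E` is a lattice of `X` (the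
kernel of `E → S' ⊗ E` is `W`-torsion, `IsLocalizedModule`). So `P E`. -/
def St_G1 : Prop :=
  ∀ (S S' : Type) [CommRing S] [IsNoetherianRing S] [CommRing S'] [Algebra S S'] (W : Submonoid S)
    [IsLocalization W S'] (l g : S) (l' g' : S'), l' = algebraMap S S' l → g' = algebraMap S S' g →
    ∀ (P : QM l g → Prop), (qC l g).T3 P →
      (∀ X : QM l g, (∃ w ∈ W, ∀ x : X.carrier, w • x = 0) → P X) →
      ∀ U : Set (QM l' g'), (qC l' g').Gen U →
        (∀ X ∈ U, ∃ E : QM l g, IsLatQ (algebraMap S S') W E X ∧ P E) → ∀ E, P E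

/-- **G2** (1.5 h), with the hypothesis `Module.Finite A (Lam q)`. Lattices of `phi N`.
Proof. Let `x_1, …, x_r` generate `N` over `K`. The operators `e_i` of `N` satisfy the relations, with
coefficients in `A`, so the algebra homomorphism `FreeAlgebra A (Fin (m+1)) → End_A N` factors through
`Lam q` (`RingQuot.liftAlgHom`); `N0` is the `Lam q`-submodule of `N` generated by the `x_i`: it is
finitely generated over `A`, stable under the `e_i`, and spans `N` over `K`, so that every `x ∈ N`
has a multiple `a x ∈ N0`, `a ≠ 0` in `A`. `N0` with the restrictions of the `e_i` is the object.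
The lattice map is `S ⊗[A] N0 → S' ⊗[K] N`, `p ⊗ n ↦ φ p ⊗ n` (`S = A[X]`, `S' = K[X]`). It is
injective: `S ⊗[A] N0` consists of the polynomials with coefficients in `N0` (`N0 ⊆ N`); e.g. use the
isomorphisms of `S ⊗[A] N0` with `(Fin m →₀ ℕ) →₀ N0` and of `S' ⊗[K] N` with
`(Fin m →₀ ℕ) →₀ N` (`MvPolynomial.basisMonomials`, `TensorProduct.equivFinsuppOfBasisLeft`). Every
element of `S' ⊗ N` is a finite sum of `X^d ⊗ n`; multiply by a common denominator. -/
def St_G2 : Prop :=
  ∀ (A K : Type) [CommRing A] [IsDomain A] [IsNoetherianRing A] [Field K] [Algebra A K]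
    [IsFractionRing A K] (m : ℕ) (q : QD A m), Module.Finite A (Lam q) →
    ∀ N : CMod (q.map (algebraMap A K)), ∃ N0 : CMod q,
      IsLatQ (MvPolynomial.map (algebraMap A K))
        ((nonZeroDivisors A).map (C : A →+* MvPolynomial (Fin m) A)) N0.phi N.phi

/-- **Gd** (45 min), with the hypotheses `St_G1`, `St_G2`, `St_LamF` and the field theorem. The case
of a domain `A` with fraction field `K`.
Proof. Apply `St_G1` with `S = A[X_1, …, X_m]`, `S' = K[X_1, …, X_m]`
(`Algebra := MvPolynomial.algebraMvPolynomial`, `algebraMap = MvPolynomial.map (algebraMap A K)`;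
`MvPolynomial.isLocalization`), `l' = (q.map _).l`, `g' = (q.map _).g` (`QD.map_l`, `QD.map_g`), and the
set `U` consisting of `QM.ind _ _ S'` and of all `N.phi`; `U` generates by the field theorem `hF`. The
lattice of `QM.ind _ _ S'` is `QM.ind _ _ S`, the lattices of the `N.phi` come from `St_G2`. -/
def St_Gd : Prop :=
  ∀ (A K : Type) [CommRing A] [IsDomain A] [IsNoetherianRing A] [Field K] [Algebra A K]
    [IsFractionRing A K] (m : ℕ) (q : QD A m),
    (∀ P : QM (q.map (algebraMap A K)).l (q.map (algebraMap A K)).g → Prop,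
      (qC (q.map (algebraMap A K)).l (q.map (algebraMap A K)).g).T3 P →
      P (QM.ind _ _ (MvPolynomial (Fin m) K)) →
      (∀ N : CMod (q.map (algebraMap A K)), P N.phi) → ∀ X, P X) →
    ∀ P : QM q.l q.g → Prop, (qC q.l q.g).T3 P →
      (∀ X : QM q.l q.g, (∃ a : A, a ≠ 0 ∧ ∀ x : X.carrier, (C a : MvPolynomial (Fin m) A) • x = 0) →
        P X) →
      P (QM.ind q.l q.g (MvPolynomial (Fin m) A)) → (∀ N : CMod q, P N.phi) → ∀ X, P X

/-- **Gm** (2 h), with the hypotheses `St_Gd`, `St_F`. Noetherian induction.
Proof. For an ideal `I` of `A` let `claim I`: every object `X` of `QM q.l q.g` with `C a • x = 0` for all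
`a ∈ I`, `x ∈ X` lies in `P`. We want `claim ⊥`. By noetherian induction assume `claim J` for all
`J > I`. If `I = ⊤`, `X` is zero. If `I` is not prime and not `⊤` there are `a, b ∉ I` with
`a b ∈ I`; for `X` killed by `I` consider the stable submodule `a X`: it is killed by `I + (b)`, and
`X / a X` by `I + (a)`. If `I` is prime: let `A' = A ⧸ I`, `K = FractionRing A'`,
`π = Ideal.Quotient.mk I`, `q' = q.map π`. For an object `Y` of `QM q'.l q'.g` let `res Y` be the same
group with `s • y = (map π s) • y` and the same `z` (finitely generated, `map π` is surjective; the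
relation holds by `QD.map_l`, `QD.map_g`). `P' Y := P (res Y)` is a two out of three class; apply
`St_Gd` to it (the field theorem for `K` is `St_F`): an object killed by `a' ≠ 0` in `A'` restricts to
one killed by `I + (a)`, `a ∉ I`; `res (QM.ind (A'[X]))` is isomorphic to
`QM.ind (A[X] ⊗[A] A')`, which is the first hypothesis for `M = A'`; for `N ∈ CMod q'` let `res N` be
the `A`-module `N` with the same operators; `res (N.phi) ≅ (res N).phi` (`A'[X] ⊗[A'] N ≅
A[X] ⊗[A] N`). Finally an object `X` of `QM q.l q.g` killed by `I` is isomorphic to some `res Y`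
(`Pool.Agent.Helper11.exists_desc` is a similar statement for modules; the kernel of `map π` is
generated by the `C a`, `a ∈ I`, `MvPolynomial.ker_map` or `MvPolynomial.mem_map_C_iff`). -/
def St_Gm : Prop :=
  ∀ (A : Type) [CommRing A] [IsNoetherianRing A] (m : ℕ) (q : QD A m) (P : QM q.l q.g → Prop),
    (qC q.l q.g).T3 P →
    (∀ M : LMod A, P (QM.ind q.l q.g (MvPolynomial (Fin m) A ⊗[A] M))) →
    (∀ N : CMod q, P N.phi) → ∀ X, P X

/-- **FinQ** (45 min), with the hypothesis `St_Gm`. Proof. `M ↦ QM.ind (S ⊗[A] M)` and
`N ↦ N.phi` (`S = A[X]`, free over `A`, so flat) respect short exact sequences and zero objects. Take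
the images of the two finite generating sets, use `EC.T3.comap` and `St_Gm`. -/
def St_FinQ : Prop :=
  ∀ (A : Type) [CommRing A] [IsNoetherianRing A] (m : ℕ) (q : QD A m),
    (modC A).FinG → (cC q).FinG → (qC q.l q.g).FinG

end Pool.Agent.TQF
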