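import Pool.Agent.TQF.Basic
import Pool.Agent.Helper67.Bass.Main1
import Pool.Agent.BassH.Enc

/-!
# TQF, statements, part T: hypersurfaces
-/

set_option autoImplicit false

namespace Pool.Agent.TQF

open Function MvPolynomial TensorProduct Pool.Agent.Helper11 Pool.Agent.Helper67.Bass

/-- **T0** (30 min). Comparison with `FinGn` of `Pool/Agent/Helper67/Bass/Two3.lean` for a commutative
ring: `FGMod R` and `LMod R` are the same structures (bundled finitely generated modules), and a
class is `Two3` if and only if the corresponding class is `T3` (`Two3.iso` follows from `T3.ext` and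
`T3.zero`). -/
def St_T0 : Prop := ∀ (R : Type) [CommRing R], FinGn R ↔ (modC R).FinG

/-- **T1** (1.5 h). Proof. Let `B = S[X] / (X ^ 2 + l X + g)`, `x` the class of `X`. For an object `M` of
`QM l g` let `G M` be the `B`-module `M` on which `x` acts as `z`: the `S[X]`-module
`Module.AEval' M.z` is killed by `X ^ 2 + l X + g` (or: the algebra homomorphism
`Polynomial.aeval M.z : S[X] →ₐ[S] Module.End S M` kills the ideal; `Ideal.Quotient.lift`,
`Module.compHom`). It is finitely generated, `G` respects short exact sequences and zero objects, so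
if `P` is `Two3` over `B` then `P (G M)` is `T3` on `QM l g`. Take the image of a finite generating
set. Every finitely generated `B`-module `N` is isomorphic to `G M`, `M = N` as an `S`-module (finitely
generated: `B` is generated by `1, x` as an `S`-module, by division with remainder) with
`z = ` multiplication by `x`. -/
def St_T1 : Prop := ∀ (S : Type) [CommRing S] (l g : S), (qC l g).FinG →
  FinGn (Polynomial S ⧸ Ideal.span {(Polynomial.X ^ 2 + Polynomial.C l * Polynomial.X +
    Polynomial.C g : Polynomial S)})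

/-- **Mon** (3 h). A quadric with a unit value of the quadratic part is `S[X] / (X ^ 2 + l X + g)`,
uniformly for all `A`-algebras `V`.
Proof. Write `n = m + 1` (`n = 0` is impossible). First apply an automorphism of
`MvPolynomial (Fin (m+1)) A` to reduce to the case that the coefficient of `X_0 ^ 2` is a unit: in the
first case the variable `i` is renamed to `0` (`renameEquiv` of the swap of `0` and `i`); in the second
case use first the automorphism `X_j ↦ X_j + X_i` (other variables fixed; inverse
`X_j ↦ X_j - X_i`): the coefficient of `X_i ^ 2` becomes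
`coeff (2 e_i) f + coeff (e_i + e_j) f + coeff (2 e_j) f`, a unit, and the total degree remains `≤ 2`
(a substitution by polynomials of degree `≤ 1`). These automorphisms commute with
`MvPolynomial.map (algebraMap A V)`, so in both cases the claim for the new `f` implies the claim for
`f`. Then use
`MvPolynomial.finSuccEquiv A m : MvPolynomial (Fin (m+1)) A ≃ₐ[A] (MvPolynomial (Fin m) A)[X]` (it also
commutes with base change, check on `C` and on the variables): the
image of `f` is `C (C u) X ^ 2 + C l' X + C g'` with `u` a unit, `l'.totalDegree ≤ 1`,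
`g'.totalDegree ≤ 2` (coefficients: `MvPolynomial.finSuccEquiv_coeff_coeff`,
`totalDegree_coeff_finSuccEquiv_add_le`). Every polynomial of total degree `≤ 1` is
`∑ C (λ_i) y_i`, and every polynomial of total degree `≤ 2` is
`∑ C (γ_ij) y_i y_j` (`y = yv A m = (1, X_1, …, X_m)`); apply this to `u⁻¹ l'`, `u⁻¹ g'`. So the
image of `f` is `C (C u) (X ^ 2 + C q.l X + C q.g)` and, after base change, the image of
`map (algebraMap A V) f` is the unit `u` times `X ^ 2 + C (q.map _).l X + C (q.map _).g`
(`QD.map_l`, `QD.map_g`), which generates the same ideal. -/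
def St_Mon : Prop :=
  ∀ (A : Type) [CommRing A] (n : ℕ) (f : MvPolynomial (Fin n) A), f.totalDegree ≤ 2 →
    ((∃ i, IsUnit (f.coeff (Finsupp.single i 2))) ∨ ∃ i j, i ≠ j ∧
      IsUnit (f.coeff (Finsupp.single i 2) + f.coeff (Finsupp.single j 2) +
        f.coeff (Finsupp.single i 1 + Finsupp.single j 1))) →
    ∃ (m : ℕ) (q : QD A m), ∀ (V : Type) [CommRing V] [Algebra A V], Nonempty
      ((MvPolynomial (Fin n) V ⧸ Ideal.span {MvPolynomial.map (algebraMap A V) f}) ≃+*
        (Polynomial (MvPolynomial (Fin m) V) ⧸ Ideal.span {(Polynomial.X ^ 2 +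
          Polynomial.C (q.map (algebraMap A V)).l * Polynomial.X +
          Polynomial.C (q.map (algebraMap A V)).g : Polynomial (MvPolynomial (Fin m) V))}))

/-- **Lin** (1 h). A hypersurface of degree one. Proof. As in `Mon`: rename the variable `i` to `0`;
under `finSuccEquiv` the image of `f` is `C (C u) X + C g'` with a unit `u`, and
`S[X] / (C u' X + C g')` is isomorphic to `S` for a unit `u'` of `S` (evaluation at `-u'⁻¹ g'`; e.g.
`Polynomial.quotientSpanXSubCAlgEquiv` after multiplying by `u⁻¹`). -/
def St_Lin : Prop :=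
  ∀ (A : Type) [CommRing A] (n : ℕ) (f : MvPolynomial (Fin n) A), f.totalDegree ≤ 1 →
    (∃ i, IsUnit (f.coeff (Finsupp.single i 1))) →
    ∃ m : ℕ, Nonempty ((MvPolynomial (Fin n) A ⧸ Ideal.span {f}) ≃+* MvPolynomial (Fin m) A)

/-- **Loc** (2 h). One step of the noetherian induction. Proof. Let
`B = R[y] ⧸ (p R[y] + (f))` and `B' = V[y] ⧸ (f)`. The map `B → B'` induced by
`R → R ⧸ p → V` makes `B'` the localisation of `B` away from the class of `C s`: `C s` becomes
invertible; every element of `V[y]` multiplied by a power of `s` comes from `R[y]` (finitely many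
coefficients); if `x ∈ R[y]` maps to a multiple `f h` in `V[y]` then `s ^ n h` comes from
`h' ∈ R[y]`, and `s ^ n x - f h'` maps to `0` in `V[y]`, so for some `k` the element
`s ^ k (s ^ n x - f h')` has its coefficients in `p`, i.e. lies in `p R[y]`. Now apply
`FinGn.of_away` (`Pool/Agent/Helper67/Bass/Away.lean`) with `B` for `R`, and `FinGn.of_equiv`:
`B ⧸ (C s) ≅ R[y] ⧸ ((p + (s)) R[y] + (f))` (`DoubleQuot.quotQuotEquivQuotSup`). -/
def St_Loc : Prop :=
  ∀ (R : Type) [CommRing R] [IsNoetherianRing R] (p : Ideal R) (s : R) (V : Type) [CommRing V]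
    [Algebra (R ⧸ p) V] [IsLocalization.Away (Ideal.Quotient.mk p s) V] (n : ℕ)
    (f : MvPolynomial (Fin n) R),
    FinGn (MvPolynomial (Fin n) V ⧸
      Ideal.span {MvPolynomial.map ((algebraMap (R ⧸ p) V).comp (Ideal.Quotient.mk p)) f}) →
    FinGn (MvPolynomial (Fin n) R ⧸ ((p ⊔ Ideal.span {s}).map (C : R →+* _) ⊔ Ideal.span {f})) →
    FinGn (MvPolynomial (Fin n) R ⧸ (p.map (C : R →+* _) ⊔ Ideal.span {f}))

/-- **Tr** (45 min). Composition of localisations. Proof. `y = b / x ^ k` up to a unit:
`algebraMap b = y x ^ k` for some `b ∈ A`; take `x' = x b` (`IsLocalization.Away.mul` and the fact that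
`IsLocalization.Away` only depends on the element up to units; or directly from the definition).
`x' ≠ 0` since `A → B` is injective (`x ≠ 0`, `A` a domain). -/
def St_Tr : Prop :=
  ∀ (A B V : Type) [CommRing A] [IsDomain A] [CommRing B] [IsDomain B] [CommRing V] [Algebra A B]
    [Algebra B V] [Algebra A V] [IsScalarTower A B V] (x : A) (y : B), x ≠ 0 → y ≠ 0 →
    IsLocalization.Away x B → IsLocalization.Away y V →
    ∃ x' : A, x' ≠ 0 ∧ IsLocalization.Away x' V

/-- **Gen**, the generic statement; assembly of the parts N, F, G, T. -/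
def St_Gen : Prop :=
  ∀ (A K : Type) [CommRing A] [IsDomain A] [Algebra.FiniteType ℤ A] [Field K] [Algebra A K]
    [IsFractionRing A K], KroneckerLeOne K → ∀ (n : ℕ) (f : MvPolynomial (Fin n) A),
    f.totalDegree ≤ 2 → ∃ (x : A) (V : Type) (_ : CommRing V) (_ : Algebra A V), x ≠ 0 ∧
      IsLocalization.Away x V ∧
      FinGn (MvPolynomial (Fin n) V ⧸ Ideal.span {MvPolynomial.map (algebraMap A V) f})

/-- **Ta** (1.5 h), with the hypotheses `St_Loc`, `St_Gen`: part (a) of the theorem, stronger form.
Proof. Show by noetherian induction on the ideal `I` of `R`: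
`FinGn (R[y] ⧸ (I R[y] + (f)))`; the case `I = ⊥` is the claim (`FinGn.of_equiv`). Assume it for all
`J > I`. `I = ⊤`: the zero ring. If `I ≠ ⊤` is not prime, let `a, b ∉ I`, `a b ∈ I`; use
`FinGn.of_mul` in `R[y] ⧸ (I R[y] + (f))` with the ideals generated by `C a` and `C b`, whose quotients
are the rings for `I + (a)`, `I + (b)` (see the proof of `finGn_graded_quotient` in
`Pool/Agent/Helper67/Bass/Main1.lean`). If `I` is prime apply `St_Gen` to `A = R ⧸ I` (finitely
generated), `K = FractionRing A` and the image of `f` (total degree `≤ 2`), write `x` as the class of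
`s ∉ I`, and apply `St_Loc` (`MvPolynomial.map_map`). -/
def St_Ta : Prop :=
  ∀ (R : Type) [CommRing R] [Algebra.FiniteType ℤ R],
    (∀ (P : Ideal R) [P.IsPrime], KroneckerLeOne (FractionRing (R ⧸ P))) →
    ∀ (n : ℕ) (f : MvPolynomial (Fin n) R), f.totalDegree ≤ 2 →
      FinGn (MvPolynomial (Fin n) R ⧸ Ideal.span {f})

/-- **Kt** (1.5 h). The rings `k[t]`, `k` a finite field: all residue fields have Kronecker dimension at
most one. Proof. `L = FractionRing (k[t] ⧸ P)` is generated as a field by the finite field `k` and the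
image of `t`; `k` is algebraic over `F_p`, so any two elements of `L` are algebraically dependent over
`F_p` (transcendence degree at most one), i.e. there is a nonzero `F' ∈ F_p[X, Y]` with
`F'(x, y) = 0`; lift it to `ℤ[X, Y]`. See `kronecker_of_trdeg` and `trdeg_lt` in
`Pool/Agent/Helper67/Bass/Gen2.lean`, `base_rational` in `Wt.lean`, `KroneckerLeOne.of_hom`. The second claim
is the case of the field `k` itself (no variable). -/
def St_Kt : Prop :=
  ∀ (k : Type) [Field k] [Finite k],
    (∀ (P : Ideal (Polynomial k)) [P.IsPrime], KroneckerLeOne (FractionRing (Polynomial k ⧸ P))) ∧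
    (∀ (P : Ideal k) [P.IsPrime], KroneckerLeOne (FractionRing (k ⧸ P)))

/-- **Tb** (1 h). From `∑ x_i g_i` to `(g_0, g_1)`. Proof. `kos_step`
(`Pool/Agent/Helper11/KosStep.lean`) applied to `R`, `g` and the additive function
`M ↦ G0.mk (desc π _ M)`, `π : R → R ⧸ (g)` (`isAdd_desc`), then `BassH.surj_of_isAdd`; see
`pipe_lin` and the end of `Pool/Agent/BassH/Enc.lean` (around line 560-586), where this is done. A
quotient of a finitely generated group is finitely generated. -/
def St_Tb : Prop :=
  ∀ (R : Type) [CommRing R] [IsNoetherianRing R] (σ : Type) [Fintype σ] (g : σ → R),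
    AddGroup.FG (G0 (MvPolynomial σ R ⧸ Ideal.span {bigF g})) →
    AddGroup.FG (G0 (R ⧸ Ideal.span (Set.range g)))

/-- **Pow** (30 min). Proof by induction on `N`: `N = 0` is the second hypothesis. For `N + 1` use
`FinGn.of_mul` in `R ⧸ (x ^ (N+1) q)` with the ideals generated by `x` and by `x ^ N q`; the quotients
are `R ⧸ (x)` and `R ⧸ (x ^ N q)` (`DoubleQuot.quotQuotEquivQuotSup`; the sum of `(x ^ (N+1) q)` and
`(x)` is `(x)`). -/
def St_Pow : Prop :=
  ∀ (R : Type) [CommRing R] [IsNoetherianRing R] (x g : R) (N : ℕ),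
    FinGn (R ⧸ Ideal.span {x}) → FinGn (R ⧸ Ideal.span {g}) →
    FinGn (R ⧸ Ideal.span {x ^ N * g})

/-- **Tc** (3 h), with the hypotheses `St_Ta`, `St_Kt`, `St_Pow`: part (c) in the ring
`k[y][x_0, x_1]` (`MvPolynomial (Fin 2) (MvPolynomial (Fin n) k)`). `H = ∑_d c_d x ^ d`, where only
`d = (i, j)` with `N ≤ i + j ≤ N + 2` occur and `deg c_d ≤ N + 2 - i - j`.
Proof. Let `B = k[y][x_0, x_1] / (H)`. By `FinGn.of_away` for the class of `x_0` one needs
(i) `FinGn (B / (x_0))`: this ring is `k[y][x_1] / (H(0, x_1))`, and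
`H(0, x_1) = x_1 ^ N q_1` with `q_1 = ∑_{j} c_{(0,j)} x_1 ^ (j - N)` of total degree `≤ 2` in `y, x_1`;
by `St_Pow` it suffices to treat `k[y][x_1] / (x_1) ≅ k[y]` (`FinGn.mvPolynomial`, a field is a
PID, `FinGn.of_pid`) and `k[y][x_1] / (q_1)`, which is `St_Ta` for `R = k`.
(ii) `FinGn (B_{x_0})`: with `t = x_1 / x_0` one has `H(x_0, t x_0) = x_0 ^ N q_2`,
`q_2 = ∑_d t ^ (d 1) x_0 ^ (d.degree - N) c_d(y) ∈ k[t][y, x_0]` of total degree `≤ 2` in `y, x_0`. So
`B_{x_0}` is isomorphic to the localisation of `B' = k[t][y, x_0] / (q_2)` away from `x_0` (the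
mutually inverse maps are `y ↦ y`, `x_0 ↦ x_0`, `x_1 ↦ t x_0` and `t ↦ x_1 / x_0`); `B'` is `FinGn` by
`St_Ta` for `R = k[t]` (`Polynomial k`, `St_Kt`); use `FinGn.away`. -/
def St_Tc : Prop :=
  ∀ (k : Type) [Field k] [Finite k] (n N : ℕ) (H : MvPolynomial (Fin 2) (MvPolynomial (Fin n) k)),
    (∀ d, H.coeff d ≠ 0 → N ≤ d.degree ∧ (H.coeff d).totalDegree + d.degree ≤ N + 2) →
    FinGn (MvPolynomial (Fin 2) (MvPolynomial (Fin n) k) ⧸ Ideal.span {H})

/-- **Tf** (1.5 h), with the hypothesis `St_Tc`: the flat form of part (c). Proof. Let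
`H = sumAlgEquiv k (Fin 2) (Fin n) F` (or `sumRingEquiv`); the quotient rings are isomorphic. The
coefficient of `x ^ a y ^ b` in `F` is the coefficient of `y ^ b` in the coefficient of `x ^ a` in
`H`. If it is not `0` then `N ≤ a.degree` (membership in the power of the ideal generated by the two
variables: e.g. the `k`-submodule of all `F` all of whose monomials satisfy
`N ≤ d (inl 0) + d (inl 1)` contains the `N`-th power, by induction on `N`), and
`a.degree + b.degree ≤ N + 2`. -/
def St_Tf : Prop :=
  ∀ (k : Type) [Field k] [Finite k] (n N : ℕ) (F : MvPolynomial (Fin 2 ⊕ Fin n) k),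
    F.totalDegree ≤ N + 2 →
    F ∈ (Ideal.span {X (Sum.inl 0), X (Sum.inl 1)} : Ideal (MvPolynomial (Fin 2 ⊕ Fin n) k)) ^ N →
    FinGn (MvPolynomial (Fin 2 ⊕ Fin n) k ⧸ Ideal.span {F})

end Pool.Agent.TQF
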