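import Pool.Agent.TQF.StN
import Pool.Agent.TQF.StG
import Pool.Agent.TQF.StT

/-!
# TQF, part T: the generic statement
-/

set_option autoImplicit false
set_option linter.style.haveILetI false

namespace Pool.Agent.TQF

open Function MvPolynomial TensorProduct Pool.Agent.Helper11 Pool.Agent.Helper67.Bass

theorem gen_kron {A K B : Type} [CommRing A] [IsDomain A] [Field K] [Algebra A K]
    [IsFractionRing A K] [CommRing B] [IsDomain B] [Algebra A B] (p : A) (hp : p ≠ 0)
    [IsLocalization.Away p B] (h : KroneckerLeOne K) : KroneckerLeOne (FractionRing B) := by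
  have hinjK : Injective (algebraMap A K) := IsFractionRing.injective A K
  have hu : IsUnit (algebraMap A K p) := isUnit_iff_ne_zero.2 ((map_ne_zero_iff _ hinjK).2 hp)
  let ρ : B →+* K := IsLocalization.Away.lift (S := B) p hu
  have hρ : ∀ a, ρ (algebraMap A B a) = algebraMap A K a := IsLocalization.Away.lift_eq p hu
  have hinj : Injective ρ := by
    rw [injective_iff_map_eq_zero]
    intro b hb
    obtain ⟨n, a, hab⟩ := IsLocalization.Away.surj p b
    have h1 : algebraMap A K a = 0 := by rw [← hρ, ← hab, map_mul, hb, zero_mul]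
    have h2 : a = 0 := (map_eq_zero_iff _ hinjK).1 h1
    rw [h2, map_zero] at hab
    exact (((IsLocalization.Away.algebraMap_isUnit p).pow n).mul_left_eq_zero).1 hab
  exact KroneckerLeOne.of_hom (IsFractionRing.lift (A := B) (K := FractionRing B) (g := ρ) hinj) h

theorem gen_tdmap {A B σ : Type} [CommRing A] [CommRing B] (φ : A →+* B)
    (f : MvPolynomial σ A) : (MvPolynomial.map φ f).totalDegree ≤ f.totalDegree :=
  Finset.sup_mono (support_map_subset φ f)

theorem gen_ft {A B : Type} [CommRing A] [CommRing B] [Algebra A B] [Algebra.FiniteType ℤ A]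
    (p : A) [IsLocalization.Away p B] : Algebra.FiniteType ℤ B :=
  haveI : Algebra.FiniteType A B := IsLocalization.finiteType_of_monoid_fg (Submonoid.powers p) B
  Algebra.FiniteType.trans (S := A) inferInstance inferInstance

theorem gen_dom {A B : Type} [CommRing A] [IsDomain A] [CommRing B] [Algebra A B] (p : A)
    (hp : p ≠ 0) [IsLocalization.Away p B] : IsDomain B ∧ Injective (algebraMap A B) :=
  ⟨IsLocalization.isDomain_of_le_nonZeroDivisors B (M := Submonoid.powers p)
    (powers_le_nonZeroDivisors_of_noZeroDivisors hp),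
    IsLocalization.injective (M := Submonoid.powers p) B
      (powers_le_nonZeroDivisors_of_noZeroDivisors hp)⟩

theorem gen_core (hT0 : St_T0) (hT1 : St_T1) (hMon : St_Mon) (hLin : St_Lin) (hNC : St_NC)
    (hLamF : St_LamF) (hLamC : St_LamC) (hFinQ : St_FinQ) {A : Type} [CommRing A] [IsDomain A]
    [Algebra.FiniteType ℤ A] (hA : FinGn A) (hK : KroneckerLeOne (FractionRing A)) (n : ℕ)
    (f : MvPolynomial (Fin n) A) (hf : f.totalDegree ≤ 2)
    (hc : ((∃ i, IsUnit (f.coeff (Finsupp.single i 2))) ∨ ∃ i j, i ≠ j ∧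
      IsUnit (f.coeff (Finsupp.single i 2) + f.coeff (Finsupp.single j 2) +
        f.coeff (Finsupp.single i 1 + Finsupp.single j 1))) ∨
      (f.totalDegree ≤ 1 ∧ ∃ i, IsUnit (f.coeff (Finsupp.single i 1))) ∨
      (∃ c, IsUnit c ∧ f = C c) ∨ f = 0) :
    ∃ s : A, s ≠ 0 ∧ FinGn (MvPolynomial (Fin n) (Localization.Away s) ⧸
      Ideal.span {MvPolynomial.map (algebraMap A (Localization.Away s)) f}) := by
  haveI : IsNoetherianRing A := Algebra.FiniteType.isNoetherianRing ℤ A
  have hV : ∀ s : A, IsNoetherianRing (Localization.Away s) := fun s => inferInstance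
  have hFV : ∀ s : A, FinGn (Localization.Away s) := fun s => FinGn.away s hA
  rcases hc with hc | ⟨h1, i, hi⟩ | ⟨c, hc, rfl⟩ | rfl
  · obtain ⟨m, q, hq⟩ := hMon A n f hf hc
    haveI : Module.Finite A (Lam q) := hLamF A m q
    obtain ⟨s, hs, hfin⟩ := hNC A (FractionRing A) hK (Lam q)
    refine ⟨s, hs, ?_⟩
    haveI := hV s
    have h2 := hLamC A (Localization.Away s) m q hfin
    have h3 := hFinQ (Localization.Away s) m (q.map (algebraMap A (Localization.Away s)))
      ((hT0 _).1 (hFV s)) h2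
    obtain ⟨e⟩ := hq (Localization.Away s)
    exact FinGn.of_equiv e.symm (hT1 _ _ _ h3)
  · refine ⟨1, one_ne_zero, ?_⟩
    haveI := hV 1
    obtain ⟨m, ⟨e⟩⟩ := hLin (Localization.Away (1 : A)) n
      (MvPolynomial.map (algebraMap A (Localization.Away (1 : A))) f)
      ((gen_tdmap _ _).trans h1) ⟨i, by rw [coeff_map]; exact hi.map _⟩
    exact FinGn.of_equiv e.symm ((hFV 1).mvPolynomial (Fin m))
  · refine ⟨1, one_ne_zero, ?_⟩
    haveI := hV 1
    have h2 : Ideal.span {MvPolynomial.map (algebraMap A (Localization.Away (1 : A)))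
        (C c : MvPolynomial (Fin n) A)} = ⊤ := by
      rw [Ideal.span_singleton_eq_top, map_C]
      exact (hc.map _).map C
    haveI : Subsingleton (MvPolynomial (Fin n) (Localization.Away (1 : A)) ⧸
        Ideal.span {MvPolynomial.map (algebraMap A (Localization.Away (1 : A)))
          (C c : MvPolynomial (Fin n) A)}) := Ideal.Quotient.subsingleton_iff.2 h2
    exact FinGn.of_subsingleton _
  · refine ⟨1, one_ne_zero, ?_⟩
    haveI := hV 1
    have h2 : Ideal.span {MvPolynomial.map (algebraMap A (Localization.Away (1 : A)))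
        (0 : MvPolynomial (Fin n) A)} = ⊥ := by
      rw [map_zero, Ideal.span_singleton_eq_bot]
    rw [h2]
    exact FinGn.of_equiv (RingEquiv.quotientBot _).symm ((hFV 1).mvPolynomial (Fin n))

/-- the coefficient to be inverted -/
theorem gen_cases {A : Type} [CommRing A] [IsDomain A] (n : ℕ) (f : MvPolynomial (Fin n) A)
    (hf : f.totalDegree ≤ 2) : ∃ u : A, u ≠ 0 ∧ ∀ (B : Type) [CommRing B] (φ : A →+* B),
      IsUnit (φ u) → ((∃ i, IsUnit ((MvPolynomial.map φ f).coeff (Finsupp.single i 2))) ∨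
        ∃ i j, i ≠ j ∧ IsUnit ((MvPolynomial.map φ f).coeff (Finsupp.single i 2) +
          (MvPolynomial.map φ f).coeff (Finsupp.single j 2) +
          (MvPolynomial.map φ f).coeff (Finsupp.single i 1 + Finsupp.single j 1))) ∨
      ((MvPolynomial.map φ f).totalDegree ≤ 1 ∧
        ∃ i, IsUnit ((MvPolynomial.map φ f).coeff (Finsupp.single i 1))) ∨
      (∃ c, IsUnit c ∧ MvPolynomial.map φ f = C c) ∨ MvPolynomial.map φ f = 0 := by
  by_cases h1 : ∃ i, f.coeff (Finsupp.single i 2) ≠ 0
  · obtain ⟨i, hi⟩ := h1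
    exact ⟨_, hi, fun B _ φ hu => Or.inl (Or.inl ⟨i, by rw [coeff_map]; exact hu⟩)⟩
  push Not at h1
  by_cases h2 : ∃ i j, i ≠ j ∧ f.coeff (Finsupp.single i 1 + Finsupp.single j 1) ≠ 0
  · obtain ⟨i, j, hij, h2⟩ := h2
    refine ⟨_, h2, fun B _ φ hu => Or.inl (Or.inr ⟨i, j, hij, ?_⟩)⟩
    rw [coeff_map, coeff_map, coeff_map, h1, h1, map_zero, zero_add, zero_add]
    exact hu
  push Not at h2
  -- total degree at most one
  have hd2 : ∀ d : Fin n →₀ ℕ, d.degree = 2 → f.coeff d = 0 := by
    intro d hd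
    by_contra hne
    have hd0 : d ≠ 0 := by rintro rfl; simp at hd
    obtain ⟨i, hi⟩ := Finsupp.support_nonempty_iff.2 hd0
    have hi' : Finsupp.single i 1 ≤ d := by
      rw [Finsupp.single_le_iff]
      exact Nat.one_le_iff_ne_zero.2 (Finsupp.mem_support_iff.1 hi)
    obtain ⟨d', rfl⟩ := exists_add_of_le hi'
    have hd' : d'.degree = 1 := by
      have := Finsupp.degree.map_add (Finsupp.single i 1) d'
      rw [hd, Finsupp.degree_single] at this
      omega
    have hd0' : d' ≠ 0 := by rintro rfl; simp at hd'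
    obtain ⟨j, hj⟩ := Finsupp.support_nonempty_iff.2 hd0'
    have hj' : Finsupp.single j 1 ≤ d' := by
      rw [Finsupp.single_le_iff]
      exact Nat.one_le_iff_ne_zero.2 (Finsupp.mem_support_iff.1 hj)
    obtain ⟨d'', rfl⟩ := exists_add_of_le hj'
    have hd'' : d''.degree = 0 := by
      have := Finsupp.degree.map_add (Finsupp.single j 1) d''
      rw [hd', Finsupp.degree_single] at this
      omega
    have hz : d'' = 0 := by rwa [Finsupp.degree_eq_zero_iff] at hd''
    subst hz
    rw [add_zero] at hne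
    by_cases hij : i = j
    · subst hij
      rw [← Finsupp.single_add] at hne
      exact hne (h1 i)
    · exact hne (h2 i j hij)
  have hdeg1 : f.totalDegree ≤ 1 := by
    rw [MvPolynomial.totalDegree]
    refine Finset.sup_le fun d hd => ?_
    have hle : d.degree ≤ 2 := by
      have := (MvPolynomial.le_totalDegree hd).trans hf
      exact this
    have hne : d.degree ≠ 2 := fun h => (mem_support_iff.1 hd) (hd2 d h)
    have : d.degree ≤ 1 := by omega
    exact this
  by_cases h3 : ∃ i, f.coeff (Finsupp.single i 1) ≠ 0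
  · obtain ⟨i, hi⟩ := h3
    exact ⟨_, hi, fun B _ φ hu => Or.inr (Or.inl ⟨(gen_tdmap _ _).trans hdeg1, i, by
      rw [coeff_map]; exact hu⟩)⟩
  push Not at h3
  have hconst : f = C (f.coeff 0) := by
    rw [← totalDegree_eq_zero_iff_eq_C]
    rw [MvPolynomial.totalDegree_eq_zero_iff]
    intro d hd i
    by_contra hne
    have hle : d.degree ≤ 1 := (MvPolynomial.le_totalDegree hd).trans hdeg1
    have hi' : Finsupp.single i 1 ≤ d := by
      rw [Finsupp.single_le_iff]
      exact Nat.one_le_iff_ne_zero.2 hne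
    obtain ⟨d', rfl⟩ := exists_add_of_le hi'
    have := Finsupp.degree.map_add (Finsupp.single i 1) d'
    rw [Finsupp.degree_single] at this
    have hz : d'.degree = 0 := by omega
    rw [Finsupp.degree_eq_zero_iff] at hz
    subst hz
    rw [add_zero] at hd
    exact (mem_support_iff.1 hd) (h3 i)
  by_cases h4 : f.coeff 0 = 0
  · refine ⟨1, one_ne_zero, fun B _ φ _ => Or.inr (Or.inr (Or.inr ?_))⟩
    rw [hconst, h4, map_C, map_zero, C_0]
  · refine ⟨_, h4, fun B _ φ hu => Or.inr (Or.inr (Or.inl ⟨φ (f.coeff 0), hu, ?_⟩))⟩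
    conv_lhs => rw [hconst]
    rw [map_C]

theorem gen_step (hT0 : St_T0) (hT1 : St_T1) (hMon : St_Mon) (hLin : St_Lin) (hTr : St_Tr)
    (hNC : St_NC) (hLamF : St_LamF) (hLamC : St_LamC) (hFinQ : St_FinQ)
    {A K A1 A2 : Type} [CommRing A] [IsDomain A] [Algebra.FiniteType ℤ A] [Field K] [Algebra A K]
    [IsFractionRing A K] (hK : KroneckerLeOne K) [CommRing A1] [IsDomain A1] [Algebra A A1]
    [CommRing A2] [IsDomain A2] [Algebra A A2] [Algebra A1 A2] [IsScalarTower A A1 A2]
    (p : A) (hp : p ≠ 0) [IsLocalization.Away p A1] (h1 : FinGn A1) (u : A) (hu : u ≠ 0)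
    [IsLocalization.Away (algebraMap A A1 u) A2] (n : ℕ) (f : MvPolynomial (Fin n) A)
    (hf : f.totalDegree ≤ 2)
    (hc : ∀ (B : Type) [CommRing B] (φ : A →+* B),
      IsUnit (φ u) → ((∃ i, IsUnit ((MvPolynomial.map φ f).coeff (Finsupp.single i 2))) ∨
        ∃ i j, i ≠ j ∧ IsUnit ((MvPolynomial.map φ f).coeff (Finsupp.single i 2) +
          (MvPolynomial.map φ f).coeff (Finsupp.single j 2) +
          (MvPolynomial.map φ f).coeff (Finsupp.single i 1 + Finsupp.single j 1))) ∨
      ((MvPolynomial.map φ f).totalDegree ≤ 1 ∧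
        ∃ i, IsUnit ((MvPolynomial.map φ f).coeff (Finsupp.single i 1))) ∨
      (∃ c, IsUnit c ∧ MvPolynomial.map φ f = C c) ∨ MvPolynomial.map φ f = 0) :
    ∃ (x : A) (V : Type) (_ : CommRing V) (_ : Algebra A V), x ≠ 0 ∧
      IsLocalization.Away x V ∧
      FinGn (MvPolynomial (Fin n) V ⧸ Ideal.span {MvPolynomial.map (algebraMap A V) f}) := by
  haveI : Algebra.FiniteType ℤ A1 := gen_ft p
  have hinj1 := (gen_dom (B := A1) p hp).2
  have hu1 : algebraMap A A1 u ≠ 0 := (map_ne_zero_iff _ hinj1).2 hu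
  haveI : Algebra.FiniteType ℤ A2 := gen_ft (algebraMap A A1 u)
  have hK1 : KroneckerLeOne (FractionRing A1) := gen_kron (B := A1) p hp hK
  have hK2 : KroneckerLeOne (FractionRing A2) := gen_kron (B := A2) (algebraMap A A1 u) hu1 hK1
  have h2 : FinGn A2 := FinGn.away (algebraMap A A1 u) h1
  have hunit : IsUnit (algebraMap A A2 u) := by
    rw [IsScalarTower.algebraMap_apply A A1 A2]
    exact IsLocalization.Away.algebraMap_isUnit _
  obtain ⟨s, hs, hfin⟩ := gen_core hT0 hT1 hMon hLin hNC hLamF hLamC hFinQ h2 hK2 n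
    (MvPolynomial.map (algebraMap A A2) f) ((gen_tdmap _ _).trans hf)
    (hc A2 (algebraMap A A2) hunit)
  obtain ⟨x', hx', hloc'⟩ := hTr A A1 A2 p (algebraMap A A1 u) hp hu1 inferInstance inferInstance
  obtain ⟨x, hx, hloc⟩ := hTr A A2 (Localization.Away s) x' s hx' hs hloc' inferInstance
  refine ⟨x, Localization.Away s, inferInstance, inferInstance, hx, hloc, ?_⟩
  rw [MvPolynomial.map_map] at hfin
  exact hfin

theorem thm_Gen (hT0 : St_T0) (hT1 : St_T1) (hMon : St_Mon) (hLin : St_Lin) (hTr : St_Tr)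
    (hNC : St_NC) (hLamF : St_LamF) (hLamC : St_LamC) (hFinQ : St_FinQ) : St_Gen := by
  intro A K _ _ _ _ _ _ hK n f hf
  obtain ⟨u, hu0, hu⟩ := gen_cases n f hf
  obtain ⟨p, hp0, hp⟩ := exists_pid A K hK
  obtain ⟨hd1, hinj1⟩ := gen_dom (B := Localization.Away p) p hp0
  have hu1 : algebraMap A (Localization.Away p) u ≠ 0 := (map_ne_zero_iff _ hinj1).2 hu0
  obtain ⟨hd2, hinj2⟩ := gen_dom
    (B := Localization.Away (algebraMap A (Localization.Away p) u)) _ hu1
  have h1 : FinGn (Localization.Away p) := FinGn.of_pid (Localization.Away p)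
  exact gen_step hT0 hT1 hMon hLin hTr hNC hLamF hLamC hFinQ hK (A1 := Localization.Away p)
    (A2 := Localization.Away (algebraMap A (Localization.Away p) u)) p hp0 h1 u hu0 n f hf hu

end Pool.Agent.TQF
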