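import Pool.Agent.TQF.StF

/-!
# TQF, module F1a: linear matrices come from `CMod q`
-/

set_option autoImplicit false

namespace Pool.Agent.TQF

open Function MvPolynomial TensorProduct

section F1a

variable {F : Type} [Field F] {m : ℕ} {q : QD F m}

/-- the coefficient matrices of a matrix of linear forms -/
noncomputable def F1aH (M : Amb q) (k : Fin (m + 1)) : Matrix M.ι M.ι F :=
  fun i j => (M.Y i j).coeff (Finsupp.single k 1)

theorem F1a_Y (M : Amb q) (ha : ∀ i j, M.a i = M.a j) (i j : M.ι) :
    M.Y i j = ∑ k, C (F1aH M k i j) * X k := by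
  ext d
  rw [coeff_sum]
  simp only [coeff_C_mul, coeff_X]
  by_cases hd : (M.Y i j).coeff d = 0
  · rw [hd]
    symm
    apply Finset.sum_eq_zero
    intro k _
    split_ifs with h
    · subst h
      unfold F1aH
      rw [hd, zero_mul]
    · rw [mul_zero]
  · have h1 : d.degree = 1 := by
      have h2 := M.hom i j d hd
      have h3 := ha i j
      omega
    obtain ⟨k, hk⟩ := (Finsupp.sum_eq_one_iff d).1 h1
    subst hk
    rw [Finset.sum_eq_single k]
    · unfold F1aH
      simp
    · intro l _ hl
      rw [if_neg, mul_zero]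
      intro h
      exact hl (Finsupp.single_left_injective one_ne_zero h)
    · intro h
      exact absurd (Finset.mem_univ k) h

theorem F1a_quad (c : Fin (m + 1) → Fin (m + 1) → F)
    (h : ∑ k, ∑ l, C (c k l) * ((X k : MvPolynomial (Fin (m + 1)) F) * X l) = 0) :
    (∀ k, c k k = 0) ∧ ∀ k l, k ≠ l → c k l + c l k = 0 := by
  have h1 : ∀ d : Fin (m + 1) →₀ ℕ, ∑ k, ∑ l, (if Finsupp.single k 1 + Finsupp.single l 1 = d
      then c k l else 0) = 0 := by
    intro d
    have h2 := congrArg (coeff d) h
    rw [coeff_zero, coeff_sum] at h2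
    refine Eq.trans ?_ h2
    refine Finset.sum_congr rfl fun k _ => ?_
    rw [coeff_sum]
    refine Finset.sum_congr rfl fun l _ => ?_
    have h3 : (X k : MvPolynomial (Fin (m + 1)) F) * X l =
        monomial (Finsupp.single k 1 + Finsupp.single l 1) 1 := by
      rw [X, X, monomial_mul, one_mul]
    rw [coeff_C_mul, h3, coeff_monomial]
    split_ifs
    · rw [mul_one]
    · rw [mul_zero]
  constructor
  · intro k
    have h2 := h1 (Finsupp.single k 1 + Finsupp.single k 1)
    rw [Finset.sum_eq_single k, Finset.sum_eq_single k, if_pos rfl] at h2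
    · exact h2
    · intro l _ hl
      rw [if_neg]
      intro h3
      rcases (Finsupp.single_add_single_eq_single_add_single one_ne_zero one_ne_zero).1 h3 with
        h4 | h4 | h4
      · exact hl h4.2
      · exact hl h4.2.2
      · exact absurd h4.1 (by norm_num)
    · intro h3
      exact absurd (Finset.mem_univ k) h3
    · intro l _ hl
      apply Finset.sum_eq_zero
      intro l' _
      rw [if_neg]
      intro h3
      rcases (Finsupp.single_add_single_eq_single_add_single one_ne_zero one_ne_zero).1 h3 with
        h4 | h4 | h4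
      · exact hl h4.1
      · exact hl h4.2.1
      · exact absurd h4.1 (by norm_num)
    · intro h3
      exact absurd (Finset.mem_univ k) h3
  · intro k l hkl
    have h2 := h1 (Finsupp.single k 1 + Finsupp.single l 1)
    have h3 : ∀ a b : Fin (m + 1), (if Finsupp.single a 1 + Finsupp.single b 1 =
        (Finsupp.single k 1 + Finsupp.single l 1 : Fin (m + 1) →₀ ℕ) then c a b else 0) =
        (if a = k then (if b = l then c k l else 0) else 0) +
        (if a = l then (if b = k then c l k else 0) else 0) := by
      intro a b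
      by_cases h4 : a = k ∧ b = l
      · obtain ⟨rfl, rfl⟩ := h4
        rw [if_pos rfl, if_pos rfl, if_pos rfl, if_neg hkl, add_zero]
      · by_cases h5 : a = l ∧ b = k
        · obtain ⟨rfl, rfl⟩ := h5
          rw [if_pos (add_comm _ _), if_neg hkl.symm, if_pos rfl, if_pos rfl, zero_add]
        · rw [if_neg]
          · have h6 : (if a = k then (if b = l then c k l else 0) else 0) = 0 := by
              by_cases h7 : a = k
              · rw [if_pos h7, if_neg fun h8 => h4 ⟨h7, h8⟩]
              · rw [if_neg h7]
            have h7 : (if a = l then (if b = k then c l k else 0) else 0) = 0 := by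
              by_cases h7 : a = l
              · rw [if_pos h7, if_neg fun h8 => h5 ⟨h7, h8⟩]
              · rw [if_neg h7]
            rw [h6, h7, add_zero]
          · intro h6
            rcases (Finsupp.single_add_single_eq_single_add_single one_ne_zero one_ne_zero).1 h6
              with h7 | h7 | h7
            · exact h4 h7
            · exact h5 h7.2
            · exact absurd h7.1 (by norm_num)
    rw [Finset.sum_congr rfl fun a _ => Finset.sum_congr rfl fun b _ => h3 a b] at h2
    simp only [Finset.sum_add_distrib, Finset.sum_ite_eq', Finset.mem_univ, if_true,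
      Finset.sum_ite_irrel, Finset.sum_const_zero] at h2
    exact h2

/-- the matrices of the relations -/
noncomputable def F1aR (M : Amb q) (k l : Fin (m + 1)) : Matrix M.ι M.ι F :=
  F1aH M k * F1aH M l + q.lam k • F1aH M l + q.gam k l • 1

theorem F1a_rel (M : Amb q) (ha : ∀ i j, M.a i = M.a j) :
    (∀ k, F1aR M k k = 0) ∧ ∀ k l, k ≠ l → F1aR M k l + F1aR M l k = 0 := by
  have key : ∀ i j : M.ι, ∑ k, ∑ l, C (F1aR M k l i j) *
      ((X k : MvPolynomial (Fin (m + 1)) F) * X l) = 0 := by
    intro i j
    have h := congrFun (congrFun M.rel i) j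
    simp only [Matrix.add_apply, Matrix.mul_apply, Matrix.smul_apply, smul_eq_mul,
      Matrix.zero_apply] at h
    rw [← h]
    have h1 : ∑ p, M.Y i p * M.Y p j = ∑ k, ∑ l, C ((F1aH M k * F1aH M l) i j) *
        ((X k : MvPolynomial (Fin (m + 1)) F) * X l) := by
      have h2 : ∀ p, M.Y i p * M.Y p j = ∑ k, ∑ l, C (F1aH M k i p * F1aH M l p j) *
          ((X k : MvPolynomial (Fin (m + 1)) F) * X l) := by
        intro p
        rw [F1a_Y M ha i p, F1a_Y M ha p j, Finset.sum_mul_sum]
        refine Finset.sum_congr rfl fun k _ => Finset.sum_congr rfl fun l _ => ?_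
        rw [C_mul]
        ring
      rw [Finset.sum_congr rfl fun p _ => h2 p, Finset.sum_comm]
      refine Finset.sum_congr rfl fun k _ => ?_
      rw [Finset.sum_comm]
      refine Finset.sum_congr rfl fun l _ => ?_
      rw [← Finset.sum_mul, Matrix.mul_apply, map_sum]
    have h2 : q.L * M.Y i j = ∑ k, ∑ l, C (q.lam k * F1aH M l i j) *
        ((X k : MvPolynomial (Fin (m + 1)) F) * X l) := by
      unfold QD.L
      rw [F1a_Y M ha i j, Finset.sum_mul_sum]
      refine Finset.sum_congr rfl fun k _ => Finset.sum_congr rfl fun l _ => ?_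
      rw [C_mul]
      ring
    have h3 : q.G * (1 : Matrix M.ι M.ι (MvPolynomial (Fin (m + 1)) F)) i j =
        ∑ k, ∑ l, C (q.gam k l * (1 : Matrix M.ι M.ι F) i j) *
        ((X k : MvPolynomial (Fin (m + 1)) F) * X l) := by
      have h4 : (1 : Matrix M.ι M.ι (MvPolynomial (Fin (m + 1)) F)) i j =
          C ((1 : Matrix M.ι M.ι F) i j) := by
        by_cases hij : i = j
        · subst hij
          rw [Matrix.one_apply_eq, Matrix.one_apply_eq, C_1]
        · rw [Matrix.one_apply_ne hij, Matrix.one_apply_ne hij, C_0]
      unfold QD.G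
      rw [h4, Finset.sum_mul]
      refine Finset.sum_congr rfl fun k _ => ?_
      rw [Finset.sum_mul]
      refine Finset.sum_congr rfl fun l _ => ?_
      rw [C_mul]
      ring
    rw [h1, h2, h3, ← Finset.sum_add_distrib, ← Finset.sum_add_distrib]
    refine Finset.sum_congr rfl fun k _ => ?_
    rw [← Finset.sum_add_distrib, ← Finset.sum_add_distrib]
    refine Finset.sum_congr rfl fun l _ => ?_
    rw [← add_mul, ← add_mul, ← C_add, ← C_add]
    rfl
  constructor
  · intro k
    ext i j
    exact (F1a_quad _ (key i j)).1 k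
  · intro k l hkl
    ext i j
    exact (F1a_quad _ (key i j)).2 k l hkl

/-- the object of `CMod q` -/
noncomputable abbrev F1aN (M : Amb q) (ha : ∀ i j, M.a i = M.a j) : CMod q where
  carrier := M.ι → F
  e := fun k => (F1aH M k).mulVecLin
  rel1 := fun k x => by
    have h := congrArg (fun B : Matrix M.ι M.ι F => B.mulVec x) ((F1a_rel M ha).1 k)
    simp only [F1aR, Matrix.add_mulVec, Matrix.smul_mulVec, Matrix.one_mulVec,
      Matrix.zero_mulVec, ← Matrix.mulVec_mulVec] at h
    exact h
  rel2 := fun k l hkl x => by
    have h := congrArg (fun B : Matrix M.ι M.ι F => B.mulVec x) ((F1a_rel M ha).2 k l hkl)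
    simp only [F1aR, Matrix.add_mulVec, Matrix.smul_mulVec, Matrix.one_mulVec,
      Matrix.zero_mulVec, ← Matrix.mulVec_mulVec] at h
    simp only [Matrix.mulVecLin_apply]
    rw [← h, add_smul]
    abel

theorem F1a_z (M : Amb q) (ha : ∀ i j, M.a i = M.a j)
    (x : MvPolynomial (Fin m) F ⊗[F] (M.ι → F)) :
    TensorProduct.piScalarRight F (MvPolynomial (Fin m) F) (MvPolynomial (Fin m) F) M.ι
      ((F1aN M ha).phiz x) = (M.Y.map (dl F m)).mulVecLin
        (TensorProduct.piScalarRight F (MvPolynomial (Fin m) F) (MvPolynomial (Fin m) F) M.ι x)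
    := by
  induction x using TensorProduct.induction_on with
  | zero => rw [map_zero, map_zero, map_zero]
  | add x y hx hy => rw [map_add, map_add, map_add, map_add, hx, hy]
  | tmul s v =>
      have h0 := (F1aN M ha).phiz_tmul s v
      rw [h0, map_sum]
      funext i
      rw [Finset.sum_apply]
      have h1 : ∀ k, (TensorProduct.piScalarRight F (MvPolynomial (Fin m) F)
          (MvPolynomial (Fin m) F) M.ι ((yv F m k * s) ⊗ₜ[F] ((F1aN M ha).e k v))) i =
          ∑ j, C (F1aH M k i j) * yv F m k * (v j • s) := by
        intro k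
        have h2 : (TensorProduct.piScalarRight F (MvPolynomial (Fin m) F)
          (MvPolynomial (Fin m) F) M.ι ((yv F m k * s) ⊗ₜ[F] ((F1aN M ha).e k v))) i =
          ((F1aH M k).mulVec v) i • (yv F m k * s) := rfl
        rw [h2]
        simp only [Matrix.mulVec, dotProduct]
        rw [Finset.sum_smul]
        refine Finset.sum_congr rfl fun j _ => ?_
        rw [MvPolynomial.smul_eq_C_mul, MvPolynomial.smul_eq_C_mul, C_mul]
        ring
      have h2 : (TensorProduct.piScalarRight F (MvPolynomial (Fin m) F)
          (MvPolynomial (Fin m) F) M.ι (s ⊗ₜ[F] v)) = fun j => v j • s := rfl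
      rw [h2, Matrix.mulVecLin_apply]
      simp only [Matrix.mulVec, dotProduct, Matrix.map_apply]
      rw [Finset.sum_congr rfl fun k _ => h1 k, Finset.sum_comm]
      refine Finset.sum_congr rfl fun j _ => ?_
      rw [F1a_Y M ha i j, map_sum, Finset.sum_mul]
      refine Finset.sum_congr rfl fun k _ => ?_
      rw [map_mul, dl_X]
      congr 2
      exact (algHom_C (dl F m) _).symm

end F1a

theorem thm_F1a : St_F1a := by
  intro F _ m q M ha
  exact ⟨F1aN M ha, TensorProduct.piScalarRight F (MvPolynomial (Fin m) F)
    (MvPolynomial (Fin m) F) M.ι, F1a_z M ha⟩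

end Pool.Agent.TQF
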