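import Pool.Agent.TQF.StF

/-!
# TQF, module F1b: splitting off a free summand of rank one from a graded matrix
-/

set_option autoImplicit false

namespace Pool.Agent.TQF

open Function MvPolynomial

section gen

variable {R : Type} [CommRing R] {ι : Type} [Fintype ι] [DecidableEq ι] (Y : Matrix ι ι R)
  (L G : R) (i0 j0 : ι) (u : R)

/-- the remaining indices -/
abbrev F1bI (i0 j0 : ι) : Type := {i : ι // i ≠ i0 ∧ i ≠ j0}

theorem F1b_split (hne : i0 ≠ j0) (f : ι → R) :
    ∑ k, f k = f i0 + f j0 + ∑ k : F1bI i0 j0, f k := by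
  rw [← Finset.add_sum_erase Finset.univ f (Finset.mem_univ i0),
    ← Finset.add_sum_erase (Finset.univ.erase i0) f
      (Finset.mem_erase.2 ⟨hne.symm, Finset.mem_univ j0⟩), add_assoc]
  congr 2
  apply Finset.sum_subtype
  intro x
  simp only [Finset.mem_erase, Finset.mem_univ, and_true]
  exact and_comm

/-- the modified matrix -/
def F1bZ : Matrix (F1bI i0 j0) ι R := fun i j => Y i j - u * Y i j0 * Y i0 j

/-- the new matrix -/
def F1bY : Matrix (F1bI i0 j0) (F1bI i0 j0) R := fun i j => Y i j - u * Y i j0 * Y i0 j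

/-- the projection -/
def F1bg : (ι → R) →ₗ[R] (F1bI i0 j0 → R) where
  toFun v i := v i - u * Y i j0 * v i0
  map_add' v w := by
    funext i
    simp only [Pi.add_apply]
    ring
  map_smul' r v := by
    funext i
    simp only [Pi.smul_apply, smul_eq_mul, RingHom.id_apply]
    ring

variable {Y L G i0 j0 u}

theorem F1b_sq (hrel : Y * Y + L • Y + G • (1 : Matrix ι ι R) = 0) (i j : ι) :
    ∑ k, Y i k * Y k j = -(L * Y i j) - G * (1 : Matrix ι ι R) i j := by
  have h := congrFun (congrFun hrel i) j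
  simp only [Matrix.add_apply, Matrix.mul_apply, Matrix.smul_apply, smul_eq_mul,
    Matrix.zero_apply] at h
  linear_combination h

theorem F1b_comm (hrel : Y * Y + L • Y + G • (1 : Matrix ι ι R) = 0) (hne : i0 ≠ j0)
    (hu : u * Y i0 j0 = 1) (v : ι → R) :
    F1bg Y i0 j0 u (Y.mulVec v) = (F1bY Y i0 j0 u).mulVec (F1bg Y i0 j0 u v) := by
  funext i
  have hZ0 : F1bZ Y i0 j0 u i j0 = 0 := by
    unfold F1bZ
    linear_combination (-(Y i j0)) * hu
  have key : ∑ k, F1bZ Y i0 j0 u i k * Y k j0 = 0 := by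
    have h1 : ∀ k, F1bZ Y i0 j0 u i k * Y k j0 = Y i k * Y k j0 -
        u * Y i j0 * (Y i0 k * Y k j0) := by
      intro k
      unfold F1bZ
      ring
    rw [Finset.sum_congr rfl fun k _ => h1 k, Finset.sum_sub_distrib, ← Finset.mul_sum,
      F1b_sq hrel, F1b_sq hrel, Matrix.one_apply_ne i.2.2, Matrix.one_apply_ne hne]
    linear_combination (L * Y i j0) * hu
  rw [F1b_split i0 j0 hne, hZ0, zero_mul, add_zero] at key
  have hl : F1bg Y i0 j0 u (Y.mulVec v) i = ∑ k, F1bZ Y i0 j0 u i k * v k := by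
    show (Y.mulVec v) i - u * Y i j0 * (Y.mulVec v) i0 = _
    simp only [Matrix.mulVec, dotProduct]
    rw [Finset.mul_sum, ← Finset.sum_sub_distrib]
    refine Finset.sum_congr rfl fun k _ => ?_
    unfold F1bZ
    ring
  have hr : (F1bY Y i0 j0 u).mulVec (F1bg Y i0 j0 u v) i =
      ∑ k : F1bI i0 j0, F1bZ Y i0 j0 u i k * v k -
        u * v i0 * ∑ k : F1bI i0 j0, F1bZ Y i0 j0 u i k * Y k j0 := by
    show ∑ k : F1bI i0 j0, (F1bZ Y i0 j0 u i k) * (v k - u * Y k j0 * v i0) = _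
    rw [Finset.mul_sum, ← Finset.sum_sub_distrib]
    refine Finset.sum_congr rfl fun k _ => ?_
    ring
  rw [hl, hr, F1b_split i0 j0 hne, hZ0, zero_mul, add_zero]
  linear_combination (u * v i0) * key - (F1bZ Y i0 j0 u i i0 * v i0) * hu

omit [Fintype ι] in
theorem F1b_surj : Surjective (F1bg Y i0 j0 u) := by
  intro w
  refine ⟨fun i => if h : i ≠ i0 ∧ i ≠ j0 then w ⟨i, h⟩ else 0, ?_⟩
  funext i
  show (if h : (i : ι) ≠ i0 ∧ (i : ι) ≠ j0 then w ⟨i, h⟩ else 0) -
    u * Y i j0 * (if h : i0 ≠ i0 ∧ i0 ≠ j0 then w ⟨i0, h⟩ else 0) = w i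
  rw [dif_pos i.2, dif_neg (fun h => h.1 rfl), mul_zero, sub_zero]

theorem F1b_mulVec (B : Matrix ι ι R) (hB : B = Y * Y + L • Y + G • (1 : Matrix ι ι R))
    (v : ι → R) : B.mulVec v = Y.mulVec (Y.mulVec v) + L • Y.mulVec v + G • v := by
  rw [hB, Matrix.add_mulVec, Matrix.add_mulVec, Matrix.smul_mulVec, Matrix.smul_mulVec,
    Matrix.one_mulVec, Matrix.mulVec_mulVec]

theorem F1b_rel (hrel : Y * Y + L • Y + G • (1 : Matrix ι ι R) = 0) (hne : i0 ≠ j0)
    (hu : u * Y i0 j0 = 1) :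
    F1bY Y i0 j0 u * F1bY Y i0 j0 u + L • F1bY Y i0 j0 u +
      G • (1 : Matrix (F1bI i0 j0) (F1bI i0 j0) R) = 0 := by
  have H : ∀ w : F1bI i0 j0 → R, (F1bY Y i0 j0 u * F1bY Y i0 j0 u + L • F1bY Y i0 j0 u +
      G • (1 : Matrix (F1bI i0 j0) (F1bI i0 j0) R)).mulVec w = 0 := by
    intro w
    obtain ⟨v, rfl⟩ := F1b_surj (Y := Y) (u := u) w
    rw [F1b_mulVec _ rfl, ← F1b_comm hrel hne hu, ← F1b_comm hrel hne hu, ← map_smul, ← map_smul,
      ← map_add, ← map_add, ← F1b_mulVec _ rfl, hrel, Matrix.zero_mulVec, map_zero]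
  ext i j
  have h1 := congrFun (H (Pi.single j 1)) i
  rw [Matrix.mulVec_single_one] at h1
  exact h1

/-- the embedding of the free object of rank one -/
def F1bf (Y : Matrix ι ι R) (j0 : ι) : R × R →ₗ[R] (ι → R) where
  toFun x := fun i => (1 : Matrix ι ι R) i j0 * x.1 + Y i j0 * x.2
  map_add' x y := by
    funext i
    simp only [Prod.fst_add, Prod.snd_add, Pi.add_apply]
    ring
  map_smul' r x := by
    funext i
    simp only [Prod.smul_fst, Prod.smul_snd, Pi.smul_apply, smul_eq_mul, RingHom.id_apply]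
    ring

omit [Fintype ι] in
theorem F1bf_inj (hne : i0 ≠ j0) (hu : u * Y i0 j0 = 1) : Injective (F1bf Y j0) := by
  rw [injective_iff_map_eq_zero]
  rintro ⟨x, y⟩ hxy
  have h1 : (1 : Matrix ι ι R) i0 j0 * x + Y i0 j0 * y = 0 := congrFun hxy i0
  have h2 : (1 : Matrix ι ι R) j0 j0 * x + Y j0 j0 * y = 0 := congrFun hxy j0
  rw [Matrix.one_apply_ne hne, zero_mul, zero_add] at h1
  rw [Matrix.one_apply_eq, one_mul] at h2
  have hy : y = 0 := by linear_combination u * h1 - y * hu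
  subst hy
  rw [mul_zero, add_zero] at h2
  rw [h2]
  rfl

omit [Fintype ι] in
theorem F1b_exact (hne : i0 ≠ j0) (hu : u * Y i0 j0 = 1) :
    Exact (F1bf Y j0) (F1bg Y i0 j0 u) := by
  intro v
  constructor
  · intro hv
    refine ⟨(v j0 - Y j0 j0 * (u * v i0), u * v i0), ?_⟩
    funext i
    show (1 : Matrix ι ι R) i j0 * (v j0 - Y j0 j0 * (u * v i0)) + Y i j0 * (u * v i0) = v i
    by_cases h1 : i = j0
    · subst h1
      rw [Matrix.one_apply_eq]
      ring
    · rw [Matrix.one_apply_ne h1, zero_mul, zero_add]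
      by_cases h2 : i = i0
      · subst h2
        linear_combination (v i) * hu
      · have h3 : v i - u * Y i j0 * v i0 = 0 := congrFun hv ⟨i, h2, h1⟩
        linear_combination -h3
  · rintro ⟨⟨x, y⟩, rfl⟩
    funext i
    show ((1 : Matrix ι ι R) i j0 * x + Y i j0 * y) -
      u * Y i j0 * ((1 : Matrix ι ι R) i0 j0 * x + Y i0 j0 * y) = 0
    rw [Matrix.one_apply_ne hne, Matrix.one_apply_ne i.2.2]
    linear_combination (-(Y i j0 * y)) * hu

theorem F1bf_z (hrel : Y * Y + L • Y + G • (1 : Matrix ι ι R) = 0) (x : R × R) :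
    F1bf Y j0 (QM.indz L G R x) = Y.mulVec (F1bf Y j0 x) := by
  obtain ⟨x, y⟩ := x
  funext i
  have h1 : Y.mulVec (F1bf Y j0 (x, y)) i = ∑ k, Y i k * ((1 : Matrix ι ι R) k j0 * x +
      Y k j0 * y) := rfl
  have h2 : ∑ k, Y i k * ((1 : Matrix ι ι R) k j0 * x + Y k j0 * y) =
      (∑ k, Y i k * (1 : Matrix ι ι R) k j0) * x + (∑ k, Y i k * Y k j0) * y := by
    rw [Finset.sum_mul, Finset.sum_mul, ← Finset.sum_add_distrib]
    refine Finset.sum_congr rfl fun k _ => ?_
    ring
  have h3 : ∑ k, Y i k * (1 : Matrix ι ι R) k j0 = Y i j0 := by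
    rw [← Matrix.mul_apply, Matrix.mul_one]
  rw [h1, h2, h3, F1b_sq hrel]
  show (1 : Matrix ι ι R) i j0 * (-(G * y)) + Y i j0 * (x - L * y) = _
  ring

end gen

theorem thm_F1b : St_F1b := by
  intro F _ m q M i0 j0 hij hY
  have hne : i0 ≠ j0 := by
    rintro rfl
    omega
  -- the constant
  have hc : M.Y i0 j0 = C ((M.Y i0 j0).coeff 0) := by
    rw [← totalDegree_eq_zero_iff_eq_C, MvPolynomial.totalDegree_eq_zero_iff]
    intro d hd i
    have h1 := M.hom i0 j0 d (mem_support_iff.1 hd)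
    have h2 : d.degree = 0 := by omega
    rw [Finsupp.degree_eq_zero_iff] at h2
    rw [h2]
    rfl
  set c := (M.Y i0 j0).coeff 0 with hcdef
  have hc0 : c ≠ 0 := by
    intro h
    rw [h, C_0] at hc
    exact hY hc
  have hu : (C c⁻¹ : MvPolynomial (Fin (m + 1)) F) * M.Y i0 j0 = 1 := by
    rw [hc, ← C_mul, inv_mul_cancel₀ hc0, C_1]
  let M' : Amb q :=
    { ι := F1bI i0 j0
      a := fun i => M.a i
      Y := F1bY M.Y i0 j0 (C c⁻¹)
      hom := by
        intro i j d hd
        have h1 : coeff d (M.Y i j) - c⁻¹ * coeff d (M.Y i j0 * M.Y i0 j) ≠ 0 := by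
          rw [← coeff_C_mul, ← coeff_sub, ← mul_assoc]
          exact hd
        by_cases h2 : coeff d (M.Y i j) = 0
        · have h3 : coeff d (M.Y i j0 * M.Y i0 j) ≠ 0 := by
            intro h
            rw [h2, h, mul_zero, sub_zero] at h1
            exact h1 rfl
          rw [coeff_mul] at h3
          obtain ⟨⟨d1, d2⟩, hd12, h4⟩ := Finset.exists_ne_zero_of_sum_ne_zero h3
          have h5 := M.hom _ _ _ (left_ne_zero_of_mul h4)
          have h6 := M.hom _ _ _ (right_ne_zero_of_mul h4)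
          have hd12 := Finset.HasAntidiagonal.mem_antidiagonal.1 hd12
          have h7 : d.degree = d1.degree + d2.degree := by
            rw [← hd12]
            exact Finsupp.degree.map_add d1 d2
          simp only at h5 h6
          show d.degree + M.a i = M.a j + 1
          omega
        · exact M.hom _ _ _ h2
      rel := F1b_rel M.rel hne hu }
  refine ⟨M', ?_, ?_⟩
  · show Fintype.card (F1bI i0 j0) < Fintype.card M.ι
    exact Fintype.card_subtype_lt (x := i0) (fun h => h.1 rfl)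
  · have hrel : (M.Y.map (dl F m)) * (M.Y.map (dl F m)) + q.l • (M.Y.map (dl F m)) +
        q.g • (1 : Matrix M.ι M.ι (MvPolynomial (Fin m) F)) = 0 := by
      ext i j
      have h1 := congrArg (fun B : Matrix M.ι M.ι (MvPolynomial (Fin (m + 1)) F) => dl F m (B i j))
        M.rel
      rw [← dl_L, ← dl_G]
      simp only [Matrix.map_apply, Matrix.add_apply, Matrix.mul_apply, Matrix.smul_apply,
        smul_eq_mul, map_add, map_sum, map_mul, Matrix.zero_apply, map_zero] at h1 ⊢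
      rw [← h1]
      congr 2
      by_cases hij : i = j
      · subst hij; simp only [Matrix.one_apply_eq, map_one]
      · simp only [Matrix.one_apply_ne hij, map_zero]
    have hu' : dl F m (C c⁻¹) * (M.Y.map (dl F m)) i0 j0 = 1 := by
      rw [Matrix.map_apply, ← map_mul, hu, map_one]
    have hY' : (F1bY M.Y i0 j0 (C c⁻¹)).map (dl F m) =
        F1bY (M.Y.map (dl F m)) i0 j0 (dl F m (C c⁻¹)) := by
      ext1 i j
      simp only [Matrix.map_apply, F1bY, map_sub, map_mul]
    refine ⟨F1bf (M.Y.map (dl F m)) j0, F1bg (M.Y.map (dl F m)) i0 j0 (dl F m (C c⁻¹)),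
      F1bf_inj hne hu', F1b_surj, F1b_exact hne hu', fun x => F1bf_z hrel x, fun y => ?_⟩
    show F1bg (M.Y.map (dl F m)) i0 j0 (dl F m (C c⁻¹)) ((M.Y.map (dl F m)).mulVec y) =
      ((F1bY M.Y i0 j0 (C c⁻¹)).map (dl F m)).mulVec _
    rw [hY']
    exact F1b_comm hrel hne hu' y

end Pool.Agent.TQF
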