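import Pool.Agent.TQF.StF

/-!
# TQF, module F1c: the block of smallest degree
-/

set_option autoImplicit false
set_option linter.style.haveILetI false

namespace Pool.Agent.TQF

open Function MvPolynomial

section gen

variable {R : Type} [CommRing R] {ι : Type} [Fintype ι] (D : ι → Prop) [DecidablePred D]

theorem F1c_split (f : ι → R) :
    ∑ k, f k = ∑ k : {i // D i}, f k + ∑ k : {i // ¬ D i}, f k :=
  (Fintype.sum_subtype_add_sum_subtype D f).symm

/-- the inclusion of a block -/
def F1ci : ({i // D i} → R) →ₗ[R] (ι → R) where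
  toFun v i := if h : D i then v ⟨i, h⟩ else 0
  map_add' v w := by
    funext i
    by_cases h : D i
    · simp only [Pi.add_apply, dif_pos h]
    · simp only [Pi.add_apply, dif_neg h, add_zero]
  map_smul' r v := by
    funext i
    by_cases h : D i
    · simp only [Pi.smul_apply, dif_pos h, RingHom.id_apply]
    · simp only [Pi.smul_apply, dif_neg h, smul_zero, RingHom.id_apply]

/-- the projection to a block -/
def F1cp : (ι → R) →ₗ[R] ({i // ¬ D i} → R) where
  toFun v i := v i
  map_add' _ _ := rfl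
  map_smul' _ _ := rfl

variable {D}

omit [Fintype ι] in
theorem F1ci_pos (v : {i // D i} → R) (i : {i // D i}) : F1ci D v i = v i := by
  show (if h : D i then v ⟨i, h⟩ else 0) = v i
  rw [dif_pos i.2]

omit [Fintype ι] in
theorem F1ci_neg (v : {i // D i} → R) (i : ι) (h : ¬ D i) : F1ci D v i = 0 := dif_neg h

variable {Y : Matrix ι ι R} (hY : ∀ i j, ¬ D i → D j → Y i j = 0)
include hY

theorem F1c_comm1 (v : {i // D i} → R) :
    F1ci D ((Y.submatrix (fun i : {i // D i} => (i : ι)) (fun i : {i // D i} => (i : ι))).mulVec v)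
      = Y.mulVec (F1ci D v) := by
  funext i
  show _ = ∑ k, Y i k * F1ci D v k
  rw [F1c_split D]
  have h1 : ∑ k : {i // ¬ D i}, Y i k * F1ci D v k = 0 :=
    Finset.sum_eq_zero fun k _ => by rw [F1ci_neg _ _ k.2, mul_zero]
  rw [h1, add_zero]
  by_cases h : D i
  · have h2 := F1ci_pos ((Y.submatrix (fun i : {i // D i} => (i : ι))
      (fun i : {i // D i} => (i : ι))).mulVec v) ⟨i, h⟩
    rw [h2]
    show ∑ k : {i // D i}, Y i k * v k = _
    refine Finset.sum_congr rfl fun k _ => ?_
    rw [F1ci_pos]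
  · rw [F1ci_neg _ _ h]
    symm
    refine Finset.sum_eq_zero fun k _ => ?_
    rw [hY i k h k.2, zero_mul]

theorem F1c_comm2 (v : ι → R) :
    F1cp D (Y.mulVec v) = (Y.submatrix (fun i : {i // ¬ D i} => (i : ι))
      (fun i : {i // ¬ D i} => (i : ι))).mulVec (F1cp D v) := by
  funext i
  show ∑ k, Y i k * v k = ∑ k : {i // ¬ D i}, Y i k * v k
  rw [F1c_split D]
  have h1 : ∑ k : {i // D i}, Y i k * v k = 0 :=
    Finset.sum_eq_zero fun k _ => by rw [hY i k i.2 k.2, zero_mul]
  rw [h1, zero_add]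

variable [DecidableEq ι] {L G : R} (hrel : Y * Y + L • Y + G • (1 : Matrix ι ι R) = 0)
include hrel

theorem F1c_rel1 : (Y.submatrix (fun i : {i // D i} => (i : ι)) (fun i : {i // D i} => (i : ι))) *
    (Y.submatrix (fun i : {i // D i} => (i : ι)) (fun i : {i // D i} => (i : ι))) +
    L • (Y.submatrix (fun i : {i // D i} => (i : ι)) (fun i : {i // D i} => (i : ι))) +
    G • (1 : Matrix {i // D i} {i // D i} R) = 0 := by
  ext i j
  have h := congrFun (congrFun hrel i) j
  simp only [Matrix.add_apply, Matrix.mul_apply, Matrix.smul_apply, smul_eq_mul,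
    Matrix.zero_apply, Matrix.submatrix_apply] at h ⊢
  rw [F1c_split D] at h
  have h1 : ∑ k : {i // ¬ D i}, Y i k * Y k j = 0 :=
    Finset.sum_eq_zero fun k _ => by rw [hY k j k.2 j.2, mul_zero]
  rw [h1, add_zero] at h
  rw [← h]
  congr 2
  by_cases hij : i = j
  · subst hij; simp only [Matrix.one_apply_eq]
  · rw [Matrix.one_apply_ne hij, Matrix.one_apply_ne (fun h => hij (Subtype.ext h))]

theorem F1c_rel2 : (Y.submatrix (fun i : {i // ¬ D i} => (i : ι))
      (fun i : {i // ¬ D i} => (i : ι))) *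
    (Y.submatrix (fun i : {i // ¬ D i} => (i : ι)) (fun i : {i // ¬ D i} => (i : ι))) +
    L • (Y.submatrix (fun i : {i // ¬ D i} => (i : ι)) (fun i : {i // ¬ D i} => (i : ι))) +
    G • (1 : Matrix {i // ¬ D i} {i // ¬ D i} R) = 0 := by
  ext i j
  have h := congrFun (congrFun hrel i) j
  simp only [Matrix.add_apply, Matrix.mul_apply, Matrix.smul_apply, smul_eq_mul,
    Matrix.zero_apply, Matrix.submatrix_apply] at h ⊢
  rw [F1c_split D] at h
  have h1 : ∑ k : {i // D i}, Y i k * Y k j = 0 :=
    Finset.sum_eq_zero fun k _ => by rw [hY i k i.2 k.2, zero_mul]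
  rw [h1, zero_add] at h
  rw [← h]
  congr 2
  by_cases hij : i = j
  · subst hij; simp only [Matrix.one_apply_eq]
  · rw [Matrix.one_apply_ne hij, Matrix.one_apply_ne (fun h => hij (Subtype.ext h))]

end gen

theorem thm_F1c : St_F1c := by
  intro F _ m q M hne h0
  classical
  obtain ⟨j0, hj0⟩ := Finite.exists_min M.a
  let D : M.ι → Prop := fun i => M.a i = M.a j0
  have hY : ∀ i j, ¬ D i → D j → M.Y i j = 0 := by
    intro i j hi hj
    by_cases h1 : M.a i = M.a j + 1
    · exact h0 i j (fun k => by rw [show M.a j = M.a j0 from hj]; exact hj0 k) h1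
    · ext d
      rw [coeff_zero]
      by_contra hd
      have h2 := M.hom i j d hd
      have h3 := hj0 i
      have h4 : M.a j = M.a j0 := hj
      have h5 : M.a i ≠ M.a j0 := hi
      omega
  let M1 : Amb q :=
    { ι := {i // D i}
      a := fun i => M.a i
      Y := M.Y.submatrix (fun i : {i // D i} => (i : M.ι)) (fun i : {i // D i} => (i : M.ι))
      hom := fun i j d hd => M.hom i j d hd
      rel := F1c_rel1 hY M.rel }
  let M2 : Amb q :=
    { ι := {i // ¬ D i}
      a := fun i => M.a i
      Y := M.Y.submatrix (fun i : {i // ¬ D i} => (i : M.ι)) (fun i : {i // ¬ D i} => (i : M.ι))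
      hom := fun i j d hd => M.hom i j d hd
      rel := F1c_rel2 hY M.rel }
  have hYS : ∀ i j, ¬ D i → D j → (M.Y.map (dl F m)) i j = 0 := by
    intro i j hi hj
    rw [Matrix.map_apply, hY i j hi hj, map_zero]
  refine ⟨M1, M2, fun i j => i.2.trans j.2.symm, ?_, ⟨F1ci D, F1cp D, ?_, ?_, ?_, ?_, ?_⟩⟩
  · show Fintype.card {i // ¬ D i} < Fintype.card M.ι
    exact Fintype.card_subtype_lt (x := j0) (fun h => h rfl)
  · intro v w hvw
    funext i
    rw [← F1ci_pos v i, ← F1ci_pos w i, hvw]
  · intro w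
    refine ⟨fun i => if h : ¬ D i then w ⟨i, h⟩ else 0, ?_⟩
    funext i
    show (if h : ¬ D i then w ⟨i, h⟩ else 0) = w i
    rw [dif_pos i.2]
  · intro v
    constructor
    · intro hv
      refine ⟨fun i => v i, ?_⟩
      funext i
      by_cases h : D i
      · exact F1ci_pos (fun i : {i // D i} => v i) ⟨i, h⟩
      · rw [F1ci_neg _ _ h]
        exact (congrFun hv ⟨i, h⟩).symm
    · rintro ⟨w, rfl⟩
      funext i
      exact F1ci_neg w i i.2
  · intro x
    exact F1c_comm1 hYS x
  · intro y
    exact F1c_comm2 hYS y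

end Pool.Agent.TQF
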