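import Pool.Agent.TQF.StF

/-!
# TQF, module CP: calculus of homogeneous components of vectors
-/

set_option autoImplicit false

namespace Pool.Agent.TQF

open Function MvPolynomial

theorem FCP_coeff {F : Type} [Field F] {m : ℕ} {ι : Type} (a : ι → ℕ) (h : ℕ)
    (v : ι → MvPolynomial (Fin (m + 1)) F) (i : ι) (d : Fin (m + 1) →₀ ℕ) :
    coeff d (cp a h v i) = if d.degree + a i = h then coeff d (v i) else 0 := by
  unfold cp
  by_cases h1 : a i ≤ h
  · rw [if_pos h1, coeff_homogeneousComponent]
    by_cases h2 : d.degree = h - a i
    · rw [if_pos h2, if_pos (by omega)]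
    · rw [if_neg h2, if_neg (by omega)]
  · rw [if_neg h1, if_neg (by omega), coeff_zero]

theorem thm_CP : St_CP where
  hv F _ m ι a h v := by
    intro i d hd
    rw [FCP_coeff] at hd
    by_contra hne
    rw [if_neg hne] at hd
    exact hd rfl
  self F _ m ι a h v hv := by
    funext i
    ext d
    rw [FCP_coeff]
    by_cases h1 : coeff d (v i) = 0
    · rw [h1, ite_self]
    · rw [if_pos (hv i d h1)]
  ne F _ m ι a h h' v hv hne := by
    funext i
    ext d
    rw [FCP_coeff]
    by_cases h1 : coeff d (v i) = 0
    · rw [h1, ite_self]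
      rfl
    · rw [if_neg (by rw [hv i d h1]; exact hne.symm)]
      rfl
  add F _ m ι a h v w := by
    funext i
    ext d
    rw [Pi.add_apply, coeff_add, FCP_coeff, FCP_coeff, FCP_coeff, Pi.add_apply, coeff_add]
    split_ifs
    · rfl
    · rw [add_zero]
  sum F _ m ι _ a v := by
    cases nonempty_fintype ι
    refine ⟨Finset.univ.sup (fun i => (v i).totalDegree + a i) + 1, fun N' hN' => ?_⟩
    funext i
    ext d
    rw [Finset.sum_apply, coeff_sum, Finset.sum_congr rfl fun h _ => FCP_coeff a h v i d,
      Finset.sum_ite_eq]
    by_cases h1 : coeff d (v i) = 0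
    · rw [h1, ite_self]
    · have h2 : d.degree ≤ (v i).totalDegree := le_totalDegree (mem_support_iff.2 h1)
      have h3 : (v i).totalDegree + a i ≤ Finset.univ.sup fun i => (v i).totalDegree + a i :=
        Finset.le_sup (f := fun i => (v i).totalDegree + a i) (Finset.mem_univ i)
      rw [if_pos (Finset.mem_range.2 (by omega))]
  mul F _ m ι κ _ a b V hV h c := by
    classical
    funext i
    ext d
    rw [FCP_coeff]
    simp only [Matrix.mulVec, dotProduct, coeff_sum]
    have key : ∀ k, coeff d (V i k * cp b h c k) =
        if d.degree + a i = h then coeff d (V i k * c k) else 0 := by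
      intro k
      rw [coeff_mul, coeff_mul]
      split_ifs with hd
      · refine Finset.sum_congr rfl fun p hp => ?_
        rw [FCP_coeff]
        by_cases h1 : coeff p.1 (V i k) = 0
        · rw [h1, zero_mul, zero_mul]
        · have h2 := hV i k p.1 h1
          have h3 : d.degree = p.1.degree + p.2.degree := by
            rw [← Finset.HasAntidiagonal.mem_antidiagonal.1 hp]
            exact Finsupp.degree.map_add p.1 p.2
          rw [if_pos (by omega)]
      · refine Finset.sum_eq_zero fun p hp => ?_
        rw [FCP_coeff]
        by_cases h1 : coeff p.1 (V i k) = 0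
        · rw [h1, zero_mul]
        · have h2 := hV i k p.1 h1
          have h3 : d.degree = p.1.degree + p.2.degree := by
            rw [← Finset.HasAntidiagonal.mem_antidiagonal.1 hp]
            exact Finsupp.degree.map_add p.1 p.2
          rw [if_neg (by omega), mul_zero]
    rw [Finset.sum_congr rfl fun k _ => key k]
    split_ifs
    · rfl
    · rw [Finset.sum_const_zero]
  hvmul F _ m ι κ _ a b V hV h c hc := by
    classical
    intro i d hd
    simp only [Matrix.mulVec, dotProduct, coeff_sum] at hd
    obtain ⟨k, -, hk⟩ := Finset.exists_ne_zero_of_sum_ne_zero hd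
    rw [coeff_mul] at hk
    obtain ⟨p, hp, h4⟩ := Finset.exists_ne_zero_of_sum_ne_zero hk
    have h1 := hV i k p.1 (left_ne_zero_of_mul h4)
    have h2 := hc k p.2 (right_ne_zero_of_mul h4)
    have h3 : d.degree = p.1.degree + p.2.degree := by
      rw [← Finset.HasAntidiagonal.mem_antidiagonal.1 hp]
      exact Finsupp.degree.map_add p.1 p.2
    omega

end Pool.Agent.TQF
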