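import Pool.Agent.TQF.StF

/-!
# TQF, module Cmp: the companion object
-/

set_option autoImplicit false
set_option linter.style.haveILetI false

namespace Pool.Agent.TQF

open Function MvPolynomial

section

variable {F : Type} [Field F] {m : ℕ} (q : QD F m) (r : ℕ) (b : Fin r → ℕ)

/-- the companion matrix -/
noncomputable def FCmpY : Matrix (Fin r × Fin 2) (Fin r × Fin 2) (MvPolynomial (Fin (m + 1)) F) :=
  fun i j => if i.1 = j.1 then
    (if j.2 = 0 then (if i.2 = 0 then 0 else 1) else (if i.2 = 0 then -q.G else -q.L)) else 0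

theorem FCmp_mulVec0 (v : Fin r × Fin 2 → MvPolynomial (Fin (m + 1)) F) (k : Fin r) :
    (FCmpY q r).mulVec v (k, 0) = -(q.G * v (k, 1)) := by
  simp only [Matrix.mulVec, dotProduct]
  rw [Fintype.sum_prod_type, Finset.sum_eq_single k]
  · rw [Fin.sum_univ_two]
    simp [FCmpY]
  · intro k' _ hne
    rw [Fin.sum_univ_two]
    have h1 : ¬ k = k' := fun h => hne h.symm
    simp [FCmpY, h1]
  · intro h
    exact absurd (Finset.mem_univ k) h

theorem FCmp_mulVec1 (v : Fin r × Fin 2 → MvPolynomial (Fin (m + 1)) F) (k : Fin r) :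
    (FCmpY q r).mulVec v (k, 1) = v (k, 0) - q.L * v (k, 1) := by
  simp only [Matrix.mulVec, dotProduct]
  rw [Fintype.sum_prod_type, Finset.sum_eq_single k]
  · rw [Fin.sum_univ_two]
    simp [FCmpY]
    ring
  · intro k' _ hne
    rw [Fin.sum_univ_two]
    have h1 : ¬ k = k' := fun h => hne h.symm
    simp [FCmpY, h1]
  · intro h
    exact absurd (Finset.mem_univ k) h

theorem FCmp_rel : FCmpY q r * FCmpY q r + q.L • FCmpY q r +
    q.G • (1 : Matrix (Fin r × Fin 2) (Fin r × Fin 2) (MvPolynomial (Fin (m + 1)) F)) = 0 := by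
  have H : ∀ w : Fin r × Fin 2 → MvPolynomial (Fin (m + 1)) F,
      (FCmpY q r * FCmpY q r + q.L • FCmpY q r +
        q.G • (1 : Matrix (Fin r × Fin 2) (Fin r × Fin 2)
          (MvPolynomial (Fin (m + 1)) F))).mulVec w = 0 := by
    intro w
    rw [Matrix.add_mulVec, Matrix.add_mulVec, Matrix.smul_mulVec, Matrix.smul_mulVec,
      Matrix.one_mulVec, ← Matrix.mulVec_mulVec]
    funext i
    obtain ⟨k, ε⟩ := i
    have h2 : ε = 0 ∨ ε = 1 := by
      by_cases h : ε = 0
      · exact Or.inl h
      · exact Or.inr (Fin.eq_one_of_ne_zero _ h)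
    rcases h2 with rfl | rfl
    · simp only [Pi.add_apply, Pi.smul_apply, smul_eq_mul, Pi.zero_apply]
      rw [FCmp_mulVec0, FCmp_mulVec1, FCmp_mulVec0]
      ring
    · simp only [Pi.add_apply, Pi.smul_apply, smul_eq_mul, Pi.zero_apply]
      rw [FCmp_mulVec1, FCmp_mulVec0, FCmp_mulVec1]
      ring
  ext1 i j
  have h1 := congrFun (H (Pi.single j 1)) i
  rw [Matrix.mulVec_single_one] at h1
  exact h1

theorem FCmp_L (d : Fin (m + 1) →₀ ℕ) (h : coeff d q.L ≠ 0) : d.degree = 1 := by
  classical
  unfold QD.L at h
  rw [coeff_sum] at h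
  obtain ⟨i, -, hi⟩ := Finset.exists_ne_zero_of_sum_ne_zero h
  rw [coeff_C_mul, coeff_X] at hi
  by_cases h1 : Finsupp.single i 1 = d
  · rw [← h1, Finsupp.degree_single]
  · rw [if_neg h1, mul_zero] at hi
    exact absurd rfl hi

theorem FCmp_G (d : Fin (m + 1) →₀ ℕ) (h : coeff d q.G ≠ 0) : d.degree = 2 := by
  classical
  unfold QD.G at h
  rw [coeff_sum] at h
  obtain ⟨i, -, hi⟩ := Finset.exists_ne_zero_of_sum_ne_zero h
  rw [coeff_sum] at hi
  obtain ⟨j, -, hj⟩ := Finset.exists_ne_zero_of_sum_ne_zero hi
  rw [coeff_C_mul] at hj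
  have hj2 := right_ne_zero_of_mul hj
  have h2 : (X i * X j : MvPolynomial (Fin (m + 1)) F) =
      monomial (Finsupp.single i 1 + Finsupp.single j 1) 1 := by
    rw [X, X, monomial_mul, one_mul]
  rw [h2, coeff_monomial] at hj2
  by_cases h1 : Finsupp.single i 1 + Finsupp.single j 1 = d
  · rw [← h1]
    have := Finsupp.degree.map_add (Finsupp.single i 1) (Finsupp.single j 1)
    rw [Finsupp.degree_single, Finsupp.degree_single] at this
    exact this
  · rw [if_neg h1] at hj2
    exact absurd rfl hj2

/-- the companion object -/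
noncomputable abbrev FCmpM : Amb q where
  ι := Fin r × Fin 2
  a := fun i => b i.1 + (i.2 : ℕ)
  Y := FCmpY q r
  hom := by
    rintro ⟨k, ε⟩ ⟨k', ε'⟩ d hd
    unfold FCmpY at hd
    by_cases hk : k = k'
    · subst hk
      rw [if_pos rfl] at hd
      by_cases h0 : ε' = 0
      · subst h0
        rw [if_pos rfl] at hd
        by_cases h1 : ε = 0
        · subst h1
          rw [if_pos rfl, coeff_zero] at hd
          exact absurd rfl hd
        · rw [if_neg h1, coeff_one] at hd
          have h2 := Fin.eq_one_of_ne_zero _ h1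
          subst h2
          by_cases h3 : 0 = d
          · subst h3
            show (0 : Fin (m + 1) →₀ ℕ).degree + (b k + 1) = b k + 0 + 1
            rw [map_zero]
            omega
          · rw [if_neg h3] at hd
            exact absurd rfl hd
      · have h2 := Fin.eq_one_of_ne_zero _ h0
        subst h2
        rw [if_neg h0] at hd
        by_cases h1 : ε = 0
        · subst h1
          rw [if_pos rfl, coeff_neg] at hd
          have h4 := FCmp_G q d (neg_ne_zero.1 hd)
          show d.degree + (b k + 0) = b k + 1 + 1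
          omega
        · have h3 := Fin.eq_one_of_ne_zero _ h1
          subst h3
          rw [if_neg h1, coeff_neg] at hd
          have h4 := FCmp_L q d (neg_ne_zero.1 hd)
          show d.degree + (b k + 1) = b k + 1 + 1
          omega
    · rw [if_neg hk, coeff_zero] at hd
      exact absurd rfl hd
  rel := FCmp_rel q r

end

theorem FCmp_ind {S : Type} [CommRing S] {l g : S} {P : QM l g → Prop} (hP : (qC l g).T3 P)
    (h : P (QM.ind l g S)) : ∀ r : ℕ, P (QM.ind l g (Fin r → S)) := by
  intro r
  induction r with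
  | zero =>
    apply hP.zero
    show Subsingleton ((Fin 0 → S) × (Fin 0 → S))
    infer_instance
  | succ r ih =>
    let i : (Fin r → S) →ₗ[S] (Fin (r + 1) → S) :=
      { toFun := fun x => Fin.cons 0 x
        map_add' := fun x y => by
          funext j
          refine Fin.cases ?_ (fun j => ?_) j
          · simp
          · simp
        map_smul' := fun c x => by
          funext j
          refine Fin.cases ?_ (fun j => ?_) j
          · simp
          · simp }
    let p : (Fin (r + 1) → S) →ₗ[S] S := LinearMap.proj 0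
    have hi : Injective i := by
      intro x y hxy
      funext j
      have := congrFun hxy j.succ
      simpa [i] using this
    refine hP.ext (QM.ind l g (Fin r → S)) (QM.ind l g (Fin (r + 1) → S)) (QM.ind l g S)
      ⟨LinearMap.prodMap i i, LinearMap.prodMap p p, ?_, ?_, ?_, ?_, ?_⟩ ih h
    · intro x y hxy
      have h1 : i x.1 = i y.1 := congrArg Prod.fst hxy
      have h2 : i x.2 = i y.2 := congrArg Prod.snd hxy
      exact Prod.ext (hi h1) (hi h2)
    · rintro ⟨x, y⟩
      exact ⟨(fun _ => x, fun _ => y), rfl⟩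
    · rintro ⟨x, y⟩
      constructor
      · intro hxy
        have h1 : x 0 = 0 := congrArg Prod.fst hxy
        have h2 : y 0 = 0 := congrArg Prod.snd hxy
        refine ⟨(fun j => x j.succ, fun j => y j.succ), ?_⟩
        refine Prod.ext ?_ ?_
        · funext j
          refine Fin.cases ?_ (fun j => ?_) j
          · exact h1.symm
          · rfl
        · funext j
          refine Fin.cases ?_ (fun j => ?_) j
          · exact h2.symm
          · rfl
      · rintro ⟨⟨x', y'⟩, h1⟩
        rw [← h1]
        rfl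
    · rintro ⟨x, y⟩
      show (i (-(g • y)), i (x - l • y)) = (-(g • i y), i x - l • i y)
      rw [map_neg, map_smul, map_sub, map_smul]
    · rintro ⟨x, y⟩
      rfl

theorem thm_Cmp : St_Cmp := by
  intro F _ m q r b
  refine ⟨FCmpM q r b, Equiv.refl _, fun i => rfl, ?_, fun v k => FCmp_mulVec0 q r v k,
    fun v k => FCmp_mulVec1 q r v k⟩
  intro P hP hfree
  let S := MvPolynomial (Fin m) F
  let e : ((Fin r → S) × (Fin r → S)) ≃ₗ[S] (Fin r × Fin 2 → S) :=
    { toFun := fun x i => if i.2 = 0 then x.1 i.1 else x.2 i.1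
      invFun := fun v => (fun k => v (k, 0), fun k => v (k, 1))
      map_add' := fun x y => by
        funext i
        show (if i.2 = 0 then (x + y).1 i.1 else (x + y).2 i.1) = _ + _
        by_cases h : i.2 = 0
        · simp only [if_pos h]; rfl
        · simp only [if_neg h]; rfl
      map_smul' := fun c x => by
        funext i
        show (if i.2 = 0 then (c • x).1 i.1 else (c • x).2 i.1) = c • _
        by_cases h : i.2 = 0
        · simp only [if_pos h]; rfl
        · simp only [if_neg h]; rfl
      left_inv := fun x => by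
        refine Prod.ext ?_ ?_
        · funext k; rfl
        · funext k; rfl
      right_inv := fun v => by
        funext i
        obtain ⟨k, ε⟩ := i
        by_cases h : ε = 0
        · subst h; rfl
        · have h2 := Fin.eq_one_of_ne_zero _ h
          subst h2; rfl }
  refine QM.t3_iso hP (X := QM.ind q.l q.g (Fin r → S)) (Y := (FCmpM q r b).ob) e ?_
    (FCmp_ind hP hfree r)
  rintro ⟨x, y⟩
  -- lift to `T`
  have hsurj : ∀ p : S, ∃ p' : MvPolynomial (Fin (m + 1)) F, dl F m p' = p := by
    intro p
    refine ⟨rename Fin.succ p, ?_⟩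
    unfold dl
    rw [aeval_rename]
    have : (yv F m ∘ Fin.succ) = X := rfl
    rw [this, aeval_X_left_apply]
  choose s hs using hsurj
  let v : Fin r × Fin 2 → MvPolynomial (Fin (m + 1)) F := fun i =>
    if i.2 = 0 then s (x i.1) else s (y i.1)
  have hv : (fun i => dl F m (v i)) = e (x, y) := by
    funext i
    show dl F m (if i.2 = 0 then s (x i.1) else s (y i.1)) = if i.2 = 0 then x i.1 else y i.1
    by_cases h : i.2 = 0
    · rw [if_pos h, if_pos h, hs]
    · rw [if_neg h, if_neg h, hs]
  show e (-(q.g • y), x - q.l • y) = ((FCmpY q r).map (dl F m)).mulVec (e (x, y))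
  rw [← hv, ← dl_mulVec]
  funext i
  obtain ⟨k, ε⟩ := i
  have h2 : ε = 0 ∨ ε = 1 := by
    by_cases h : ε = 0
    · exact Or.inl h
    · exact Or.inr (Fin.eq_one_of_ne_zero _ h)
  rcases h2 with rfl | rfl
  · rw [FCmp_mulVec0, map_neg, map_mul, dl_G]
    show -(q.g * y k) = -(q.g * dl F m (s (y k)))
    rw [hs]
  · rw [FCmp_mulVec1, map_sub, map_mul, dl_L]
    show x k - q.l * y k = dl F m (s (x k)) - q.l * dl F m (s (y k))
    rw [hs, hs]

end Pool.Agent.TQF
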