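import Pool.Agent.TQF.StF

/-!
# TQF, module Cov: covering a stable homogeneous submodule
-/

set_option autoImplicit false
set_option linter.style.haveILetI false

namespace Pool.Agent.TQF

open Function MvPolynomial

section

variable {F : Type} [Field F] {m : ℕ} {q : QD F m}

theorem FCov_deg {σ R : Type} [CommRing R] (p p' : MvPolynomial σ R) (d : σ →₀ ℕ)
    (h : coeff d (p * p') ≠ 0) : ∃ d1 d2, d1 + d2 = d ∧ coeff d1 p ≠ 0 ∧ coeff d2 p' ≠ 0 := by
  classical
  rw [coeff_mul] at h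
  obtain ⟨⟨d1, d2⟩, hd12, h4⟩ := Finset.exists_ne_zero_of_sum_ne_zero h
  exact ⟨d1, d2, Finset.HasAntidiagonal.mem_antidiagonal.1 hd12, left_ne_zero_of_mul h4,
    right_ne_zero_of_mul h4⟩

/-- the product of homogeneous matrices -/
theorem FCov_HM {ι κ ν : Type} [Fintype κ] {a : ι → ℕ} {b : κ → ℕ} {c : ν → ℕ}
    {Y : Matrix ι κ (MvPolynomial (Fin (m + 1)) F)} {V : Matrix κ ν (MvPolynomial (Fin (m + 1)) F)}
    (e : ℕ) (hY : ∀ i j d, (Y i j).coeff d ≠ 0 → d.degree + a i = b j + e) (hV : HM b c V) :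
    ∀ i k d, ((Y * V) i k).coeff d ≠ 0 → d.degree + a i = c k + e := by
  intro i k d hd
  rw [Matrix.mul_apply, coeff_sum] at hd
  obtain ⟨l, -, hl⟩ := Finset.exists_ne_zero_of_sum_ne_zero hd
  obtain ⟨d1, d2, h12, h1, h2⟩ := FCov_deg _ _ _ hl
  have h3 := hY i l d1 h1
  have h4 := hV l k d2 h2
  have h5 : d.degree = d1.degree + d2.degree := by
    rw [← h12]
    exact Finsupp.degree.map_add d1 d2
  omega

theorem FCov_cp0 {ι : Type} (a : ι → ℕ) (h : ℕ) :
    cp a h (0 : ι → MvPolynomial (Fin (m + 1)) F) = 0 := by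
  funext i
  unfold cp
  split_ifs
  · rw [Pi.zero_apply, map_zero]
  · rfl

theorem FCov_rel (M : Amb q) (w : M.ι → MvPolynomial (Fin (m + 1)) F) :
    M.Y.mulVec (M.Y.mulVec w) = -(q.L • M.Y.mulVec w) - q.G • w := by
  have h2 := congrArg (fun B : Matrix M.ι M.ι (MvPolynomial (Fin (m + 1)) F) => B.mulVec w) M.rel
  simp only [Matrix.add_mulVec, Matrix.smul_mulVec, Matrix.one_mulVec, Matrix.zero_mulVec,
    ← Matrix.mulVec_mulVec] at h2
  have h3 : M.Y.mulVec (M.Y.mulVec w) = (M.Y.mulVec (M.Y.mulVec w) + q.L • M.Y.mulVec w +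
      q.G • w) - q.L • M.Y.mulVec w - q.G • w := by abel
  rw [h3, h2]
  abel

/-- lifting vectors along `dl` -/
theorem FCov_lift (hDL : St_DL) {ι : Type} [Finite ι] (w : ι → MvPolynomial (Fin m) F) :
    ∃ v : ι → MvPolynomial (Fin (m + 1)) F, (fun i => dl F m (v i)) = w := by
  obtain ⟨h0, h⟩ := hDL.lift F m ι (fun _ => 0) w
  obtain ⟨v, -, hv⟩ := h h0 le_rfl
  exact ⟨v, funext hv⟩

end

theorem thm_Cov (hCP : St_CP) (hDL : St_DL) (hHG : St_HG) (hCmp : St_Cmp) : St_Cov := by
  intro F _ m q M K hK hH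
  obtain ⟨r, b, V, hV, hrange⟩ := hHG F m M.ι M.a K hH
  obtain ⟨M', E, hE, hcl, hY0, hY1⟩ := hCmp F m q r b
  let T := MvPolynomial (Fin (m + 1)) F
  let W : Matrix M.ι M'.ι T := fun i j => if (E j).2 = 0 then V i (E j).1 else (M.Y * V) i (E j).1
  have hVK : ∀ x, V.mulVec x ∈ K := fun x => by rw [← hrange]; exact ⟨x, rfl⟩
  -- homogeneity
  have hW : HM M.a M'.a W := by
    intro i j d hd
    rw [hE j]
    by_cases h0 : (E j).2 = 0
    · have h1 : W i j = V i (E j).1 := if_pos h0
      rw [h1] at hd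
      rw [h0]
      exact hV i _ d hd
    · have h1 : W i j = (M.Y * V) i (E j).1 := if_neg h0
      rw [h1] at hd
      have h2 : (((E j).2 : Fin 2) : ℕ) = 1 := by
        have h3 : ((E j).2 : Fin 2) = 1 := Fin.eq_one_of_ne_zero _ h0
        rw [h3]
        rfl
      rw [h2]
      exact FCov_HM 1 M.hom hV i _ d hd
  -- the formula for `W`
  have hWv : ∀ v, W.mulVec v = V.mulVec (fun k => v (E.symm (k, 0))) +
      M.Y.mulVec (V.mulVec (fun k => v (E.symm (k, 1)))) := by
    intro v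
    rw [Matrix.mulVec_mulVec]
    funext i
    simp only [Matrix.mulVec, dotProduct, Pi.add_apply]
    rw [← Equiv.sum_comp E.symm, Fintype.sum_prod_type, ← Finset.sum_add_distrib]
    refine Finset.sum_congr rfl fun k _ => ?_
    rw [Fin.sum_univ_two]
    have h1 : W i (E.symm (k, 0)) = V i k := by
      show (if (E (E.symm (k, 0))).2 = 0 then V i (E (E.symm (k, 0))).1
        else (M.Y * V) i (E (E.symm (k, 0))).1) = _
      rw [Equiv.apply_symm_apply]
      exact if_pos rfl
    have h2 : W i (E.symm (k, 1)) = (M.Y * V) i k := by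
      show (if (E (E.symm (k, 1))).2 = 0 then V i (E (E.symm (k, 1))).1
        else (M.Y * V) i (E (E.symm (k, 1))).1) = _
      rw [Equiv.apply_symm_apply]
      exact if_neg (by
        show ¬ (1 : Fin 2) = 0
        decide)
    rw [h1, h2]
  have hcomm : ∀ v, W.mulVec (M'.Y.mulVec v) = M.Y.mulVec (W.mulVec v) := by
    intro v
    rw [hWv, hWv]
    have h1 : (fun k => M'.Y.mulVec v (E.symm (k, 0))) =
        -(q.G • fun k => v (E.symm (k, 1))) := by
      funext k
      rw [hY0]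
      rfl
    have h2 : (fun k => M'.Y.mulVec v (E.symm (k, 1))) =
        (fun k => v (E.symm (k, 0))) - q.L • fun k => v (E.symm (k, 1)) := by
      funext k
      rw [hY1]
      rfl
    rw [h1, h2, Matrix.mulVec_neg, Matrix.mulVec_smul, Matrix.mulVec_sub, Matrix.mulVec_smul,
      Matrix.mulVec_sub, Matrix.mulVec_smul, Matrix.mulVec_add, FCov_rel]
    abel
  have hWK : ∀ v, W.mulVec v ∈ K := fun v => by
    rw [hWv]
    exact K.add_mem (hVK _) (hK _ (hVK _))
  have hsurjT : ∀ w ∈ K, ∃ v, W.mulVec v = w := by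
    intro w hw
    rw [← hrange] at hw
    obtain ⟨x, rfl⟩ := hw
    refine ⟨fun j => if (E j).2 = 0 then x (E j).1 else 0, ?_⟩
    rw [hWv]
    have h1 : (fun k => (fun j => if (E j).2 = 0 then x (E j).1 else 0) (E.symm (k, 0))) = x := by
      funext k
      show (if (E (E.symm (k, 0))).2 = 0 then x (E (E.symm (k, 0))).1 else 0) = x k
      rw [Equiv.apply_symm_apply]
      exact if_pos rfl
    have h2 : (fun k => (fun j => if (E j).2 = 0 then x (E j).1 else 0) (E.symm (k, 1))) = 0 := by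
      funext k
      show (if (E (E.symm (k, 1))).2 = 0 then x (E (E.symm (k, 1))).1 else 0) = 0
      rw [Equiv.apply_symm_apply]
      exact if_neg (by
        show ¬ (1 : Fin 2) = 0
        decide)
    rw [h1, h2, Matrix.mulVec_zero, Matrix.mulVec_zero, add_zero]
    rfl
  let K' : Submodule T (M'.ι → T) := LinearMap.ker W.mulVecLin
  have hK' : ∀ v ∈ K', M'.Y.mulVec v ∈ K' := by
    intro v hv
    have hv' : W.mulVec v = 0 := hv
    show W.mulVec (M'.Y.mulVec v) = 0
    rw [hcomm, hv', Matrix.mulVec_zero]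
  have hH' : HSub M'.a K' := by
    intro v hv h
    have hv' : W.mulVec v = 0 := hv
    show W.mulVec (cp M'.a h v) = 0
    rw [← hCP.mul F m M.ι M'.ι M.a M'.a W hW h v, hv']
    exact FCov_cp0 _ _
  -- over `S`
  have hdl : ∀ v : M'.ι → T, (W.map (dl F m)).mulVec (fun i => dl F m (v i)) =
      fun i => dl F m (W.mulVec v i) := fun v => (dl_mulVec W v).symm
  have hmem : ∀ c : M'.ι → MvPolynomial (Fin m) F, (W.map (dl F m)).mulVecLin c ∈ dK K := by
    intro c
    obtain ⟨v, rfl⟩ := FCov_lift hDL c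
    have : (W.map (dl F m)).mulVecLin (fun i => dl F m (v i)) = fun i => dl F m (W.mulVec v i) :=
      hdl v
    rw [this]
    exact Submodule.subset_span ⟨_, hWK v, rfl⟩
  let gS : (M'.ι → MvPolynomial (Fin m) F) →ₗ[MvPolynomial (Fin m) F] dK K :=
    LinearMap.codRestrict (dK K) (W.map (dl F m)).mulVecLin hmem
  refine ⟨M', K', hK', hH', hcl, ⟨(dK K').subtype, gS, (dK K').subtype_injective, ?_, ?_,
    fun _ => rfl, ?_⟩, LinearMap.codRestrict K W.mulVecLin hWK, ?_, ?_⟩
  · -- surjective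
    rintro ⟨x, hx⟩
    have h1 : dK K ≤ LinearMap.range (W.map (dl F m)).mulVecLin := by
      unfold dK
      rw [Submodule.span_le]
      rintro _ ⟨v, hv, rfl⟩
      obtain ⟨c, rfl⟩ := hsurjT v hv
      exact ⟨fun i => dl F m (c i), hdl c⟩
    obtain ⟨c, hc⟩ := h1 hx
    exact ⟨c, Subtype.ext hc⟩
  · -- exact
    intro c
    constructor
    · intro hc
      have hc' : (W.map (dl F m)).mulVec c = 0 := congrArg Subtype.val hc
      obtain ⟨h0, hl⟩ := hDL.lift F m M'.ι M'.a c
      obtain ⟨v, hv, hvc⟩ := hl h0 le_rfl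
      have hvc' : (fun i => dl F m (v i)) = c := funext hvc
      have h1 : HV M.a h0 (W.mulVec v) := hCP.hvmul F m M.ι M'.ι M.a M'.a W hW h0 v hv
      have h2 : W.mulVec v = 0 := by
        apply hDL.inj F m M.ι M.a h0 _ h1
        intro i
        have := congrFun (hdl v) i
        rw [hvc', hc'] at this
        exact this.symm
      have h3 : c ∈ dK K' := by
        rw [← hvc']
        exact Submodule.subset_span ⟨v, h2, rfl⟩
      exact ⟨⟨c, h3⟩, rfl⟩
    · rintro ⟨⟨c, hc⟩, rfl⟩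
      apply Subtype.ext
      show (W.map (dl F m)).mulVecLin c = 0
      have h1 : dK K' ≤ LinearMap.ker (W.map (dl F m)).mulVecLin := by
        unfold dK
        rw [Submodule.span_le]
        rintro _ ⟨v, hv, rfl⟩
        have hv' : W.mulVec v = 0 := hv
        show (W.map (dl F m)).mulVec (fun i => dl F m (v i)) = 0
        rw [hdl, hv']
        funext i
        exact map_zero _
      exact h1 hc
  · -- compatible
    intro c
    obtain ⟨v, rfl⟩ := FCov_lift hDL c
    apply Subtype.ext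
    show (W.map (dl F m)).mulVec ((M'.Y.map (dl F m)).mulVec (fun i => dl F m (v i))) =
      (M.Y.map (dl F m)).mulVec ((W.map (dl F m)).mulVec (fun i => dl F m (v i)))
    rw [← dl_mulVec, ← dl_mulVec, ← dl_mulVec, ← dl_mulVec, hcomm]
  · rintro ⟨w, hw⟩
    obtain ⟨v, hv⟩ := hsurjT w hw
    exact ⟨v, Subtype.ext hv⟩
  · exact LinearMap.ker_codRestrict K W.mulVecLin hWK

end Pool.Agent.TQF
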