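import Pool.Agent.TQF.StF

/-!
# TQF, module DL: dehomogenisation and homogenisation of vectors
-/

set_option autoImplicit false

namespace Pool.Agent.TQF

open Function MvPolynomial

section

variable {F : Type} [Field F] {m : ℕ}

theorem FDL_mono (d : Fin (m + 1) →₀ ℕ) (c : F) :
    dl F m (monomial d c) = monomial (Finsupp.tail d) c := by
  unfold dl
  rw [aeval_monomial, Finsupp.prod_fintype _ _ (fun i => pow_zero _), Fin.prod_univ_succ]
  have h1 : yv F m 0 = 1 := rfl
  have h2 : ∀ i : Fin m, yv F m i.succ = X i := fun i => rfl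
  rw [h1, one_pow, one_mul, monomial_eq, Finsupp.prod_fintype _ _ (fun i => pow_zero _)]
  rfl

theorem FDL_degree (d : Fin (m + 1) →₀ ℕ) : d.degree = d 0 + (Finsupp.tail d).degree := by
  rw [Finsupp.degree_eq_sum, Finsupp.degree_eq_sum, Fin.sum_univ_succ]
  rfl

theorem FDL_coeff (p : MvPolynomial (Fin (m + 1)) F) (e : Fin m →₀ ℕ) :
    coeff e (dl F m p) = ∑ d ∈ p.support, if Finsupp.tail d = e then coeff d p else 0 := by
  classical
  conv_lhs => rw [p.as_sum]
  rw [map_sum, coeff_sum]
  refine Finset.sum_congr rfl fun d _ => ?_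
  rw [FDL_mono, coeff_monomial]

end

theorem thm_DL : St_DL where
  inj F _ m ι a h v hv h0 := by
    funext i
    ext d
    rw [Pi.zero_apply, coeff_zero]
    by_contra hd
    have h1 := FDL_coeff (v i) (Finsupp.tail d)
    rw [h0 i, coeff_zero] at h1
    rw [Finset.sum_eq_single d, if_pos rfl] at h1
    · exact hd h1.symm
    · intro d' hd' hne
      by_cases ht : Finsupp.tail d' = Finsupp.tail d
      · exfalso
        apply hne
        have e1 := hv i d hd
        have e2 := hv i d' (mem_support_iff.1 hd')
        rw [FDL_degree] at e1 e2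
        rw [ht] at e2
        have e3 : d' 0 = d 0 := by omega
        rw [← Finsupp.cons_tail d, ← Finsupp.cons_tail d', ht, e3]
      · rw [if_neg ht]
    · intro hnd
      exact absurd (mem_support_iff.2 hd) hnd
  lift F _ m ι _ a w := by
    classical
    cases nonempty_fintype ι
    refine ⟨Finset.univ.sup (fun i => a i + (w i).totalDegree), fun h hh => ?_⟩
    have hle : ∀ i, ∀ e ∈ (w i).support, a i + e.degree ≤ h := by
      intro i e he
      have h1 : e.degree ≤ (w i).totalDegree := le_totalDegree he
      have h2 : a i + (w i).totalDegree ≤ Finset.univ.sup fun i => a i + (w i).totalDegree :=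
        Finset.le_sup (f := fun i => a i + (w i).totalDegree) (Finset.mem_univ i)
      omega
    refine ⟨fun i => ∑ e ∈ (w i).support,
      monomial (Finsupp.cons (h - a i - e.degree) e) (coeff e (w i)), ?_, ?_⟩
    · intro i d hd
      rw [coeff_sum] at hd
      obtain ⟨e, he, h1⟩ := Finset.exists_ne_zero_of_sum_ne_zero hd
      rw [coeff_monomial] at h1
      by_cases h2 : Finsupp.cons (h - a i - e.degree) e = d
      · rw [← h2, FDL_degree, Finsupp.cons_zero, Finsupp.tail_cons]
        have := hle i e he
        omega
      · rw [if_neg h2] at h1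
        exact absurd rfl h1
    · intro i
      rw [map_sum]
      conv_rhs => rw [(w i).as_sum]
      refine Finset.sum_congr rfl fun e _ => ?_
      rw [FDL_mono, Finsupp.tail_cons]

end Pool.Agent.TQF
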