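import Pool.Agent.TQF.StF

/-!
# TQF, module HG: finite homogeneous generating families
-/

set_option autoImplicit false
set_option linter.style.haveILetI false

namespace Pool.Agent.TQF

open Function MvPolynomial

theorem thm_HG (hCP : St_CP) : St_HG := by
  intro F _ m ι _ a K hK
  let T := MvPolynomial (Fin (m + 1)) F
  haveI : IsNoetherian T (ι → T) := inferInstance
  obtain ⟨G, hG⟩ : K.FG := IsNoetherian.noetherian K
  choose N hN using fun g : (ι → T) => hCP.sum F m ι a g
  let κ := Σ g : G, Fin (N g)
  haveI : Fintype κ := inferInstance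
  let e : Fin (Fintype.card κ) ≃ κ := (Fintype.equivFin κ).symm
  let V : Matrix ι (Fin (Fintype.card κ)) T := fun i k => cp a ((e k).2 : ℕ) ((e k).1 : ι → T) i
  have hcol : ∀ k, V.col k = cp a ((e k).2 : ℕ) ((e k).1 : ι → T) := fun k => rfl
  refine ⟨Fintype.card κ, fun k => ((e k).2 : ℕ), V, ?_, ?_⟩
  · intro i k d hd
    exact hCP.hv F m ι a _ _ i d hd
  · rw [Matrix.range_mulVecLin]
    apply le_antisymm
    · rw [Submodule.span_le]
      rintro _ ⟨k, rfl⟩
      have h1 : ((e k).1 : ι → T) ∈ K := by
        rw [← hG]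
        exact Submodule.subset_span (e k).1.2
      exact hK _ h1 _
    · rw [← hG, Submodule.span_le]
      intro g hg
      have h1 := hN g (N g) le_rfl
      show g ∈ Submodule.span T (Set.range V.col)
      rw [← h1]
      refine Submodule.sum_mem _ fun h hh => ?_
      apply Submodule.subset_span
      refine ⟨e.symm ⟨⟨g, hg⟩, ⟨h, Finset.mem_range.1 hh⟩⟩, ?_⟩
      rw [hcol, Equiv.apply_symm_apply]

end Pool.Agent.TQF
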