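import Pool.Agent.TQF.StF

/-!
# TQF, module PB: homogeneous bases of homogeneous projective submodules
-/

set_option autoImplicit false

namespace Pool.Agent.TQF

open Function MvPolynomial

section

variable {F : Type} [Field F] {m : ℕ} {ι κ : Type}

private theorem FPB_var (p : MvPolynomial (Fin (m + 1)) F) :
    ∃ t : Fin (m + 1) → MvPolynomial (Fin (m + 1)) F,
      p - C (constantCoeff p) = ∑ i, X i * t i := by
  induction p using MvPolynomial.induction_on with
  | C a => exact ⟨0, by simp⟩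
  | add p q hp hq =>
    obtain ⟨t, ht⟩ := hp
    obtain ⟨s, hs⟩ := hq
    refine ⟨t + s, ?_⟩
    have h1 : p + q - C (constantCoeff (p + q)) =
        (p - C (constantCoeff p)) + (q - C (constantCoeff q)) := by
      rw [map_add, C_add]
      ring
    rw [h1, ht, hs, ← Finset.sum_add_distrib]
    refine Finset.sum_congr rfl fun i _ => ?_
    rw [Pi.add_apply]
    ring
  | mul_X p n _ =>
    refine ⟨Pi.single n p, ?_⟩
    rw [Finset.sum_eq_single n]
    · rw [Pi.single_eq_same, map_mul, constantCoeff_X, mul_zero, C_0, sub_zero, mul_comm]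
    · intro i _ hi
      rw [Pi.single_eq_of_ne hi, mul_zero]
    · intro h
      exact absurd (Finset.mem_univ n) h

private theorem FPB_cp_zero (h1 : St_CP) (a : ι → ℕ) (h : ℕ) :
    cp a h (0 : ι → MvPolynomial (Fin (m + 1)) F) = 0 := by
  have h2 := h1.add F m ι a h 0 0
  rw [add_zero] at h2
  exact left_eq_add.1 h2

private theorem FPB_cp_sum (h1 : St_CP) (a : ι → ℕ) (h : ℕ) {α : Type} (s : Finset α)
    (v : α → ι → MvPolynomial (Fin (m + 1)) F) :
    cp a h (∑ x ∈ s, v x) = ∑ x ∈ s, cp a h (v x) := by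
  classical
  induction s using Finset.induction_on with
  | empty => rw [Finset.sum_empty, Finset.sum_empty, FPB_cp_zero h1]
  | insert x s hx ih => rw [Finset.sum_insert hx, Finset.sum_insert hx, h1.add, ih]

/-- the kernel of a homogeneous matrix is homogeneous -/
private theorem FPB_ker (h1 : St_CP) [Fintype κ] (a : ι → ℕ) (b : κ → ℕ)
    (V : Matrix ι κ (MvPolynomial (Fin (m + 1)) F)) (hV : HM a b V)
    (x : κ → MvPolynomial (Fin (m + 1)) F) (hx : V.mulVec x = 0) (h : ℕ) :
    V.mulVec (cp b h x) = 0 := by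
  rw [← h1.mul F m ι κ a b V hV h x, hx, FPB_cp_zero h1]

/-- the component of a multiple by a variable -/
private theorem FPB_X (h1 : St_CP) [Fintype κ] [DecidableEq κ] (b : κ → ℕ) (i : Fin (m + 1))
    (l : κ → MvPolynomial (Fin (m + 1)) F) (h : ℕ) :
    cp b h ((X i : MvPolynomial (Fin (m + 1)) F) • l) =
      (X i : MvPolynomial (Fin (m + 1)) F) • cp (fun k => b k + 1) h l := by
  have hHM : HM b (fun k => b k + 1) ((X i : MvPolynomial (Fin (m + 1)) F) •
      (1 : Matrix κ κ (MvPolynomial (Fin (m + 1)) F))) := by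
    intro k k' d hd
    rw [Matrix.smul_apply, smul_eq_mul] at hd
    by_cases h2 : k = k'
    · subst h2
      rw [Matrix.one_apply_eq, mul_one, coeff_X] at hd
      have h3 : Finsupp.single i 1 = d := by
        by_contra h4
        exact hd (if_neg h4)
      rw [← h3, Finsupp.degree_single]
      ring
    · rw [Matrix.one_apply_ne h2, mul_zero, coeff_zero] at hd
      exact absurd rfl hd
  have h2 := h1.mul F m κ κ b (fun k => b k + 1) _ hHM h l
  rwa [Matrix.smul_mulVec, Matrix.one_mulVec, Matrix.smul_mulVec, Matrix.one_mulVec] at h2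

private theorem FPB_shift (b : κ → ℕ) (l : κ → MvPolynomial (Fin (m + 1)) F) (h : ℕ) :
    cp (fun k => b k + 1) (h + 1) l = cp b h l := by
  funext k
  unfold cp
  simp only [Nat.add_le_add_iff_right, Nat.add_sub_add_right]

private theorem FPB_shift0 (b : κ → ℕ) (l : κ → MvPolynomial (Fin (m + 1)) F) :
    cp (fun k => b k + 1) 0 l = 0 := by
  funext k
  exact if_neg (show ¬ b k + 1 ≤ 0 by omega)

/-- a generator with a relation with nonzero constant coefficient can be omitted -/
private theorem FPB_min (a : ι → ℕ) (r : ℕ) (b : Fin (r + 1) → ℕ)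
    (V : Matrix ι (Fin (r + 1)) (MvPolynomial (Fin (m + 1)) F)) (hV : HM a b V)
    (k : Fin (r + 1)) (y : Fin (r + 1) → MvPolynomial (Fin (m + 1)) F)
    (hy : V.mulVec y = 0) (c : F) (hc : c ≠ 0) (hk : y k = C c) :
    HM a (fun j => b (k.succAbove j)) (V.submatrix id k.succAbove) ∧
      LinearMap.range (V.submatrix id k.succAbove).mulVecLin = LinearMap.range V.mulVecLin := by
  refine ⟨fun i j d hd => hV i _ d hd, le_antisymm ?_ ?_⟩
  · rintro _ ⟨x, rfl⟩
    refine ⟨k.insertNth 0 x, ?_⟩
    funext i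
    show ∑ j, V i j * (k.insertNth 0 x : Fin (r + 1) → _) j =
      ∑ j, V i (k.succAbove j) * x j
    rw [Fin.sum_univ_succAbove _ k, Fin.insertNth_apply_same, mul_zero, zero_add]
    exact Finset.sum_congr rfl fun j _ => by rw [Fin.insertNth_apply_succAbove]
  · rintro _ ⟨x, rfl⟩
    have h1 : V.mulVec x = V.mulVec (x - (C c⁻¹ * x k) • y) := by
      rw [Matrix.mulVec_sub, Matrix.mulVec_smul, hy, smul_zero, sub_zero]
    have h2 : (x - (C c⁻¹ * x k) • y) k = 0 := by
      rw [Pi.sub_apply, Pi.smul_apply, hk, smul_eq_mul]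
      have h3 : (C c⁻¹ * C c : MvPolynomial (Fin (m + 1)) F) = 1 := by
        rw [← C_mul, inv_mul_cancel₀ hc, C_1]
      linear_combination (-(x k)) * h3
    refine ⟨fun j => (x - (C c⁻¹ * x k) • y) (k.succAbove j), ?_⟩
    rw [Matrix.mulVecLin_apply, Matrix.mulVecLin_apply, h1]
    funext i
    show ∑ j, V i (k.succAbove j) * (x - (C c⁻¹ * x k) • y) (k.succAbove j) =
      ∑ j, V i j * (x - (C c⁻¹ * x k) • y) j
    rw [Fin.sum_univ_succAbove _ k, h2, mul_zero, zero_add]

end

theorem thm_PB (h1 : St_CP) (h2 : St_HG) : St_PB := by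
  intro F _ m ι _ a K hK hP
  classical
  have hex : ∃ r : ℕ, ∃ (b : Fin r → ℕ) (V : Matrix ι (Fin r) (MvPolynomial (Fin (m + 1)) F)),
      HM a b V ∧ LinearMap.range V.mulVecLin = K := h2 F m ι a K hK
  obtain ⟨b, V, hV, hr⟩ := Nat.find_spec hex
  have hmin := fun n (hn : n < Nat.find hex) => Nat.find_min hex hn
  generalize Nat.find hex = r at b V hV hr hmin
  refine ⟨r, b, V, hV, hr, ?_⟩
  -- constant coefficients
  have hc : ∀ x, V.mulVec x = 0 → ∀ k, constantCoeff (x k) = 0 := by
    intro x hx k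
    by_contra hne
    obtain ⟨r', rfl⟩ : ∃ r', r = r' + 1 := ⟨r - 1, by have := k.2; omega⟩
    have hy := FPB_ker h1 a b V hV x hx (b k)
    have hyk : cp b (b k) x k = C (constantCoeff (x k)) := by
      unfold cp
      rw [if_pos le_rfl, Nat.sub_self, homogeneousComponent_zero]
      rfl
    obtain ⟨k1, k2⟩ := FPB_min a r' b V hV k _ hy _ hne hyk
    exact hmin r' (Nat.lt_succ_self r') ⟨_, _, k1, k2.trans hr⟩
  -- the projection
  have hmem : ∀ x, V.mulVecLin x ∈ K := fun x => hr ▸ ⟨x, rfl⟩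
  obtain ⟨f, hf⟩ : ∃ f : (Fin r → MvPolynomial (Fin (m + 1)) F)
      →ₗ[MvPolynomial (Fin (m + 1)) F] K, f = V.mulVecLin.codRestrict K hmem := ⟨_, rfl⟩
  have hfv : ∀ x, ((f x : K) : ι → MvPolynomial (Fin (m + 1)) F) = V.mulVec x := by
    intro x
    rw [hf]
    rfl
  have hfs : Surjective f := by
    rintro ⟨y, hy⟩
    rw [← hr] at hy
    obtain ⟨x, hx⟩ := hy
    refine ⟨x, Subtype.ext ?_⟩
    rw [hfv]
    exact hx
  obtain ⟨s, hs⟩ := Module.projective_lifting_property f LinearMap.id hfs
  have he : ∀ x, V.mulVec (x - s (f x)) = 0 := by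
    intro x
    rw [Matrix.mulVec_sub, ← hfv, ← hfv]
    have h3 : f (s (f x)) = f x := by
      have := congrArg (fun g => g (f x)) hs
      exact this
    rw [h3, sub_self]
  have hdec : ∀ x, V.mulVec x = 0 → ∃ l : Fin (m + 1) → Fin r → MvPolynomial (Fin (m + 1)) F,
      (∀ i, V.mulVec (l i) = 0) ∧ x = ∑ i, (X i : MvPolynomial (Fin (m + 1)) F) • l i := by
    intro x hx
    have h3 : ∀ k, ∃ t : Fin (m + 1) → MvPolynomial (Fin (m + 1)) F,
        x k = ∑ i, X i * t i := by
      intro k
      obtain ⟨t, ht⟩ := FPB_var (x k)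
      rw [hc x hx k, C_0, sub_zero] at ht
      exact ⟨t, ht⟩
    choose t ht using h3
    have hx2 : x = ∑ i, (X i : MvPolynomial (Fin (m + 1)) F) • (fun k => t k i) := by
      funext k
      rw [Finset.sum_apply, ht k]
      rfl
    have hf0 : f x = 0 := by
      apply Subtype.ext
      rw [hfv, hx]
      rfl
    refine ⟨fun i => (fun k => t k i) - s (f fun k => t k i), fun i => he _, ?_⟩
    have h4 : ∑ i, (X i : MvPolynomial (Fin (m + 1)) F) •
        ((fun k => t k i) - s (f fun k => t k i)) = x - s (f x) := by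
      conv_rhs => rw [hx2]
      rw [map_sum, map_sum, ← Finset.sum_sub_distrib]
      refine Finset.sum_congr rfl fun i _ => ?_
      rw [smul_sub, map_smul, map_smul]
    rw [h4, hf0, map_zero, sub_zero]
  -- homogeneous elements of the kernel
  have hz : ∀ h x, HV b h x → V.mulVec x = 0 → x = 0 := by
    intro h
    induction h with
    | zero =>
      intro x hx hVx
      obtain ⟨l, hl, hxl⟩ := hdec x hVx
      have h3 := h1.self F m (Fin r) b 0 x hx
      rw [hxl, FPB_cp_sum h1] at h3
      have h4 : ∀ i, cp b 0 ((X i : MvPolynomial (Fin (m + 1)) F) • l i) = 0 := by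
        intro i
        rw [FPB_X h1, FPB_shift0, smul_zero]
      rw [Finset.sum_congr rfl fun i _ => h4 i, Finset.sum_const_zero] at h3
      rw [hxl, ← h3]
    | succ h ih =>
      intro x hx hVx
      obtain ⟨l, hl, hxl⟩ := hdec x hVx
      have h3 := h1.self F m (Fin r) b (h + 1) x hx
      rw [hxl, FPB_cp_sum h1] at h3
      have h4 : ∀ i, cp b (h + 1) ((X i : MvPolynomial (Fin (m + 1)) F) • l i) = 0 := by
        intro i
        rw [FPB_X h1, FPB_shift, ih (cp b h (l i)) (h1.hv F m (Fin r) b h (l i))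
          (FPB_ker h1 a b V hV (l i) (hl i) h), smul_zero]
      rw [Finset.sum_congr rfl fun i _ => h4 i, Finset.sum_const_zero] at h3
      rw [hxl, ← h3]
  rw [← LinearMap.ker_eq_bot, LinearMap.ker_eq_bot']
  intro x hx
  obtain ⟨N, hN⟩ := h1.sum F m (Fin r) b x
  have h3 := hN N le_rfl
  rw [← h3]
  refine Finset.sum_eq_zero fun h _ => ?_
  exact hz h _ (h1.hv F m (Fin r) b h x) (FPB_ker h1 a b V hV x hx h)

end Pool.Agent.TQF
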