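import Pool.Agent.TQF.StF

/-!
# TQF, part F: projective dimension over polynomial rings over fields
-/

set_option autoImplicit false

namespace Pool.Agent.TQF

open Function MvPolynomial CategoryTheory

theorem FPd_projective (T : Type) [CommRing T] (M : Type) [AddCommGroup M] [Module T M]
    [Module.Projective T M] (n : ℕ) : HasProjectiveDimensionLT (ModuleCat.of T M) (n + 1) := by
  have h1 : Projective (ModuleCat.of T M) :=
    ModuleCat.projective_of_categoryTheory_projective (ModuleCat.of T M)
  have h2 : HasProjectiveDimensionLT (ModuleCat.of T M) 1 :=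
    projective_iff_hasProjectiveDimensionLT_one.1 h1
  rw [add_comm]
  infer_instance

theorem FPd_of_FFR {T : Type} [CommRing T] [IsNoetherianRing T] :
    ∀ (n : ℕ) (M : Pool.Agent.Helper11.FGMod T), Pool.Agent.Helper11.FFR n M → Pd T n M
  | 0, M, h => by
    have : Module.Free T M := h
    exact FPd_projective T M 0
  | n + 1, M, h => by
    obtain ⟨k, p, hp, hK⟩ := (Pool.Agent.Helper11.FFR.succ_iff n M).1 h
    have h1 : Pd T n (LinearMap.ker p) := FPd_of_FFR n _ hK
    have hS := LinearMap.shortExact_shortComplexKer hp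
    exact hS.hasProjectiveDimensionLT_X₃ (n + 1) h1 (FPd_projective T (Fin k → T) (n + 1))

theorem FPd_all (F : Type) [Field F] (m : ℕ) :
    Pool.Agent.Helper11.AllFFR (MvPolynomial (Fin m) F) := by
  induction m with
  | zero =>
      exact Pool.Agent.Helper11.AllFFR.of_equiv
        (MvPolynomial.isEmptyRingEquiv F (Fin 0)).symm (Pool.Agent.Helper11.AllFFR.pid F)
  | succ n ih =>
      exact Pool.Agent.Helper11.AllFFR.of_equiv (MvPolynomial.finSuccEquiv F n).toRingEquiv.symm
        (Pool.Agent.Helper11.AllFFR.polynomial ih)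

theorem thm_Pd : St_Pd where
  ex := by
    intro F _ m M _ _ _
    obtain ⟨n, hn⟩ := FPd_all F m (Pool.Agent.Helper11.FGMod.of (MvPolynomial (Fin m) F) M)
    exact ⟨n, FPd_of_FFR n _ hn⟩
  zero := by
    intro T _ M _ _ h
    have h1 : HasProjectiveDimensionLT (ModuleCat.of T M) 1 := h
    exact (IsProjective.iff_projective M).2 (projective_iff_hasProjectiveDimensionLT_one.2 h1)
  step := by
    intro T _ M _ _ ι _ p n hp h
    have hS := LinearMap.shortExact_shortComplexKer hp
    exact hS.hasProjectiveDimensionLT_X₁ (n + 1) (FPd_projective T (ι → T) n) h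

end Pool.Agent.TQF
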