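import Pool.Agent.TQF.FCov

/-!
# TQF, module Prj: the projective case
-/

set_option autoImplicit false
set_option linter.style.haveILetI false

namespace Pool.Agent.TQF

open Function MvPolynomial

theorem thm_Prj (hCP : St_CP) (hDL : St_DL) (hPB : St_PB) : St_Prj := by
  intro F _ m q M K hK hH hproj
  obtain ⟨r, b, V, hV, hrange, hinj⟩ := hPB F m M.ι M.a K hH hproj
  let T := MvPolynomial (Fin (m + 1)) F
  have hVK : ∀ x, V.mulVec x ∈ K := fun x => by rw [← hrange]; exact ⟨x, rfl⟩
  have hinj' : ∀ x y : Fin r → T, V.mulVec x = V.mulVec y → x = y := fun x y h => hinj h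
  have hex : ∀ k : Fin r, ∃ y : Fin r → T, V.mulVec y = M.Y.mulVec (V.mulVec (Pi.single k 1)) := by
    intro k
    have h1 := hK _ (hVK (Pi.single k 1))
    rw [← hrange] at h1
    obtain ⟨y, hy⟩ := h1
    exact ⟨y, hy⟩
  choose y hy using hex
  let Y' : Matrix (Fin r) (Fin r) T := Matrix.of fun j k => y k j
  have hVY : V * Y' = M.Y * V := by
    ext1 i k
    have h1 := congrFun (hy k) i
    rw [Matrix.mulVec_mulVec, Matrix.mulVec_single_one] at h1
    exact h1
  have hcomm : ∀ v, V.mulVec (Y'.mulVec v) = M.Y.mulVec (V.mulVec v) := by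
    intro v
    rw [Matrix.mulVec_mulVec, hVY, Matrix.mulVec_mulVec]
  have hhom : ∀ k, HV b (b k + 1) (y k) := by
    intro k
    have h1 : HV M.a (b k + 1) (V.mulVec (y k)) := by
      intro i d hd
      have h2 : V.mulVec (y k) i = (M.Y * V) i k := by
        rw [← hVY]
        rfl
      rw [h2] at hd
      exact FCov_HM 1 M.hom hV i k d hd
    have h2 := hCP.mul F m M.ι (Fin r) M.a b V hV (b k + 1) (y k)
    rw [hCP.self F m M.ι M.a (b k + 1) _ h1] at h2
    have h3 := hinj' _ _ h2
    rw [h3]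
    exact hCP.hv F m (Fin r) b (b k + 1) (y k)
  have hrel : Y' * Y' + q.L • Y' + q.G • (1 : Matrix (Fin r) (Fin r) T) = 0 := by
    have H : ∀ w : Fin r → T, (Y' * Y' + q.L • Y' +
        q.G • (1 : Matrix (Fin r) (Fin r) T)).mulVec w = 0 := by
      intro w
      apply hinj'
      rw [Matrix.add_mulVec, Matrix.add_mulVec, Matrix.smul_mulVec, Matrix.smul_mulVec,
        Matrix.one_mulVec, ← Matrix.mulVec_mulVec, Matrix.mulVec_add, Matrix.mulVec_add,
        Matrix.mulVec_smul, Matrix.mulVec_smul, hcomm, hcomm, FCov_rel, Matrix.mulVec_zero]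
      abel
    ext1 i j
    have h1 := congrFun (H (Pi.single j 1)) i
    rw [Matrix.mulVec_single_one] at h1
    exact h1
  let M' : Amb q :=
    { ι := Fin r
      a := b
      Y := Y'
      hom := fun i j d hd => hhom j i d hd
      rel := hrel }
  have hdl : ∀ v : Fin r → T, (V.map (dl F m)).mulVec (fun i => dl F m (v i)) =
      fun i => dl F m (V.mulVec v i) := fun v => (dl_mulVec V v).symm
  have hmem : ∀ c : Fin r → MvPolynomial (Fin m) F, (V.map (dl F m)).mulVecLin c ∈ dK K := by
    intro c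
    obtain ⟨v, rfl⟩ := FCov_lift hDL c
    have : (V.map (dl F m)).mulVecLin (fun i => dl F m (v i)) = fun i => dl F m (V.mulVec v i) :=
      hdl v
    rw [this]
    exact Submodule.subset_span ⟨_, hVK v, rfl⟩
  let gS : (Fin r → MvPolynomial (Fin m) F) →ₗ[MvPolynomial (Fin m) F] dK K :=
    LinearMap.codRestrict (dK K) (V.map (dl F m)).mulVecLin hmem
  have hgi : Injective gS := by
    rw [injective_iff_map_eq_zero]
    intro c hc
    have hc' : (V.map (dl F m)).mulVec c = 0 := congrArg Subtype.val hc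
    obtain ⟨h0, hl⟩ := hDL.lift F m (Fin r) b c
    obtain ⟨v, hv, hvc⟩ := hl h0 le_rfl
    have hvc' : (fun i => dl F m (v i)) = c := funext hvc
    have h1 : HV M.a h0 (V.mulVec v) := hCP.hvmul F m M.ι (Fin r) M.a b V hV h0 v hv
    have h2 : V.mulVec v = 0 := by
      apply hDL.inj F m M.ι M.a h0 _ h1
      intro i
      have := congrFun (hdl v) i
      rw [hvc', hc'] at this
      exact this.symm
    have h3 : v = 0 := hinj' _ _ (by rw [h2, Matrix.mulVec_zero])
    rw [← hvc', h3]
    funext i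
    exact map_zero _
  have hgs : Surjective gS := by
    rintro ⟨x, hx⟩
    have h1 : dK K ≤ LinearMap.range (V.map (dl F m)).mulVecLin := by
      unfold dK
      rw [Submodule.span_le]
      rintro _ ⟨v, hv, rfl⟩
      have hv' : v ∈ LinearMap.range V.mulVecLin := by rw [hrange]; exact hv
      obtain ⟨c, rfl⟩ := hv'
      exact ⟨fun i => dl F m (c i), hdl c⟩
    obtain ⟨c, hc⟩ := h1 hx
    exact ⟨c, Subtype.ext hc⟩
  refine ⟨M', LinearEquiv.ofBijective gS ⟨hgi, hgs⟩, fun c => ?_⟩
  apply Subtype.ext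
  have key : ∀ c : Fin r → MvPolynomial (Fin m) F,
      (V.map (dl F m)).mulVec ((Y'.map (dl F m)).mulVec c) =
      (M.Y.map (dl F m)).mulVec ((V.map (dl F m)).mulVec c) := by
    intro c
    obtain ⟨v, rfl⟩ := FCov_lift hDL c
    rw [← dl_mulVec, ← dl_mulVec, ← dl_mulVec, ← dl_mulVec, hcomm]
  exact key c

end Pool.Agent.TQF
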