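import Pool.Agent.TQF.StF

/-!
# TQF, part F: presentation of an object
-/

set_option autoImplicit false

namespace Pool.Agent.TQF

open Function MvPolynomial TensorProduct

theorem thm_Prs (h1 : St_CP) (h2 : St_DL) (h3 : St_Cmp) : St_Prs := by
  intro F _ m q X
  obtain ⟨r, x, hx⟩ := Module.Finite.exists_fin (R := MvPolynomial (Fin m) F) (M := X.carrier)
  obtain ⟨M, E, ha, hP, hY0, hY1⟩ := h3 F m q r (fun _ => 0)
  -- the matrix over `S`
  have hlift : ∀ c : M.ι → MvPolynomial (Fin m) F, ∃ v : M.ι → MvPolynomial (Fin (m + 1)) F,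
      (fun i => dl F m (v i)) = c := by
    intro c
    obtain ⟨h0, hh⟩ := h2.lift F m M.ι M.a c
    obtain ⟨v, _, hv⟩ := hh h0 le_rfl
    exact ⟨v, funext hv⟩
  have hS0 : ∀ (c : M.ι → MvPolynomial (Fin m) F) (k : Fin r),
      (M.Y.map (dl F m)).mulVec c (E.symm (k, 0)) = -(q.g * c (E.symm (k, 1))) := by
    intro c k
    obtain ⟨v, rfl⟩ := hlift c
    rw [← dl_mulVec]
    show dl F m (M.Y.mulVec v (E.symm (k, 0))) = -(q.g * dl F m (v (E.symm (k, 1))))
    rw [hY0, map_neg, map_mul, dl_G]
  have hS1 : ∀ (c : M.ι → MvPolynomial (Fin m) F) (k : Fin r),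
      (M.Y.map (dl F m)).mulVec c (E.symm (k, 1)) =
        c (E.symm (k, 0)) - q.l * c (E.symm (k, 1)) := by
    intro c k
    obtain ⟨v, rfl⟩ := hlift c
    rw [← dl_mulVec]
    show dl F m (M.Y.mulVec v (E.symm (k, 1))) =
      dl F m (v (E.symm (k, 0))) - q.l * dl F m (v (E.symm (k, 1)))
    rw [hY1, map_sub, map_mul, dl_L]
  -- the map `π`
  let π : (M.ι → MvPolynomial (Fin m) F) →ₗ[MvPolynomial (Fin m) F] X.carrier :=
    { toFun := fun c => ∑ k, (c (E.symm (k, 0)) • x k + c (E.symm (k, 1)) • X.z (x k))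
      map_add' := fun c c' => by
        rw [← Finset.sum_add_distrib]
        refine Finset.sum_congr rfl fun k _ => ?_
        rw [Pi.add_apply, Pi.add_apply, add_smul, add_smul]
        abel
      map_smul' := fun t c => by
        rw [RingHom.id_apply, Finset.smul_sum]
        refine Finset.sum_congr rfl fun k _ => ?_
        rw [Pi.smul_apply, Pi.smul_apply, smul_eq_mul, smul_eq_mul, mul_smul, mul_smul, smul_add] }
  have hπ : ∀ c, π c = ∑ k, (c (E.symm (k, 0)) • x k + c (E.symm (k, 1)) • X.z (x k)) :=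
    fun c => rfl
  have hπs : Surjective π := by
    intro y
    have hy : y ∈ Submodule.span (MvPolynomial (Fin m) F) (Set.range x) := by
      rw [hx]; exact Submodule.mem_top
    obtain ⟨c, hc⟩ := (Submodule.mem_span_range_iff_exists_fun _).1 hy
    refine ⟨fun i => if (E i).2 = 0 then c (E i).1 else 0, ?_⟩
    rw [hπ, ← hc]
    refine Finset.sum_congr rfl fun k _ => ?_
    simp
  have hπz : ∀ c, π (M.ob.z c) = X.z (π c) := by
    intro c
    have hz : M.ob.z c = (M.Y.map (dl F m)).mulVec c := rfl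
    rw [hπ, hπ, map_sum]
    refine Finset.sum_congr rfl fun k _ => ?_
    have hr := X.rel (x k)
    have hr' : X.z (X.z (x k)) = -(q.l • X.z (x k)) - q.g • x k := by
      rw [← sub_eq_zero, ← hr]; abel
    rw [hz, hS0, hS1, map_add, map_smul, map_smul, hr', sub_smul, neg_smul, smul_sub, smul_neg,
      mul_smul, mul_smul, smul_comm q.g, smul_comm q.l]
    abel
  -- generators of the kernel
  have hfg : (LinearMap.ker π).FG := IsNoetherian.noetherian _
  obtain ⟨t, w, hw⟩ := Submodule.fg_iff_exists_fin_generating_family.1 hfg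
  have hv : ∀ j : Fin t, ∃ (h : ℕ) (v : M.ι → MvPolynomial (Fin (m + 1)) F), HV M.a h v ∧
      (fun i => dl F m (v i)) = w j := by
    intro j
    obtain ⟨h0, hh⟩ := h2.lift F m M.ι M.a (w j)
    obtain ⟨v, hv1, hv2⟩ := hh h0 le_rfl
    exact ⟨h0, v, hv1, funext hv2⟩
  choose hd v hv1 hv2 using hv
  let V : Matrix M.ι (Fin t ⊕ Fin t) (MvPolynomial (Fin (m + 1)) F) := fun i k =>
    Sum.elim (fun j => v j i) (fun j => M.Y.mulVec (v j) i) k
  let b : Fin t ⊕ Fin t → ℕ := Sum.elim hd (fun j => hd j + 1)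
  have hHM : HM M.a b V := by
    rintro i (j | j) d hd'
    · exact hv1 j i d hd'
    · have h5 : HV M.a (hd j + 1) (M.Y.mulVec (v j)) := by
        refine h1.hvmul F m M.ι M.ι M.a (fun k => M.a k + 1) M.Y M.hom (hd j + 1) (v j) ?_
        intro i d h6
        have := hv1 j i d h6
        show d.degree + (M.a i + 1) = hd j + 1
        omega
      exact h5 i d hd'
  have hcol0 : ∀ j, V.col (Sum.inl j) = v j := fun j => rfl
  have hcol1 : ∀ j, V.col (Sum.inr j) = M.Y.mulVec (v j) := fun j => rfl
  have hYY : ∀ u : M.ι → MvPolynomial (Fin (m + 1)) F,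
      M.Y.mulVec (M.Y.mulVec u) = -(q.L • M.Y.mulVec u) - q.G • u := by
    intro u
    have h5 := congrArg (fun B : Matrix M.ι M.ι (MvPolynomial (Fin (m + 1)) F) => B.mulVec u) M.rel
    simp only [Matrix.add_mulVec, Matrix.smul_mulVec, Matrix.one_mulVec, Matrix.zero_mulVec,
      ← Matrix.mulVec_mulVec] at h5
    rw [← sub_eq_zero, ← h5]
    abel
  have hrange : LinearMap.range V.mulVecLin =
      Submodule.span (MvPolynomial (Fin (m + 1)) F) (Set.range V.col) := Matrix.range_mulVecLin V
  have hmem0 : ∀ j, v j ∈ LinearMap.range V.mulVecLin := fun j => by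
    rw [hrange]; exact Submodule.subset_span ⟨Sum.inl j, hcol0 j⟩
  have hmem1 : ∀ j, M.Y.mulVec (v j) ∈ LinearMap.range V.mulVecLin := fun j => by
    rw [hrange]; exact Submodule.subset_span ⟨Sum.inr j, hcol1 j⟩
  have hK : ∀ u ∈ LinearMap.range V.mulVecLin, M.Y.mulVec u ∈ LinearMap.range V.mulVecLin := by
    intro u hu
    rw [hrange] at hu
    induction hu using Submodule.span_induction with
    | mem u h =>
      obtain ⟨j | j, rfl⟩ := h
      · rw [hcol0]; exact hmem1 j
      · rw [hcol1, hYY]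
        exact sub_mem (neg_mem (Submodule.smul_mem _ _ (hmem1 j))) (Submodule.smul_mem _ _ (hmem0 j))
    | zero => rw [Matrix.mulVec_zero]; exact zero_mem _
    | add u u' _ _ hu hu' => rw [Matrix.mulVec_add]; exact add_mem hu hu'
    | smul c u _ hu => rw [Matrix.mulVec_smul]; exact Submodule.smul_mem _ _ hu
  have hHS : HSub M.a (LinearMap.range V.mulVecLin) := by
    rintro _ ⟨c, rfl⟩ h
    have h5 := h1.mul F m M.ι (Fin t ⊕ Fin t) M.a b V hHM h c
    rw [Matrix.mulVecLin_apply, h5]
    exact ⟨_, rfl⟩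
  have hzk : ∀ c ∈ LinearMap.ker π, (M.Y.map (dl F m)).mulVec c ∈ LinearMap.ker π := by
    intro c hc
    rw [LinearMap.mem_ker] at hc ⊢
    have := hπz c
    rw [hc, map_zero] at this
    exact this
  have hwk : ∀ j, w j ∈ LinearMap.ker π := fun j => by
    rw [← hw]; exact Submodule.subset_span ⟨j, rfl⟩
  have hdK : dK (LinearMap.range V.mulVecLin) = LinearMap.ker π := by
    apply le_antisymm
    · unfold dK
      rw [Submodule.span_le]
      rintro _ ⟨u, hu, rfl⟩
      show (fun i => dl F m (u i)) ∈ LinearMap.ker π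
      have hu' : u ∈ Submodule.span (MvPolynomial (Fin (m + 1)) F) (Set.range V.col) := by
        rw [← hrange]; exact hu
      clear hu
      induction hu' using Submodule.span_induction with
      | mem u h =>
        obtain ⟨j | j, rfl⟩ := h
        · rw [hcol0, hv2]; exact hwk j
        · rw [hcol1, dl_mulVec, hv2]; exact hzk _ (hwk j)
      | zero =>
        have : (fun i : M.ι => dl F m ((0 : M.ι → MvPolynomial (Fin (m + 1)) F) i)) = 0 := by
          funext i; simp
        rw [this]; exact zero_mem _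
      | add u u' _ _ hu hu' =>
        have : (fun i => dl F m ((u + u') i)) =
            (fun i => dl F m (u i)) + fun i => dl F m (u' i) := by
          funext i; simp
        rw [this]; exact add_mem hu hu'
      | smul c u _ hu =>
        have : (fun i => dl F m ((c • u) i)) = dl F m c • fun i => dl F m (u i) := by
          funext i; simp
        rw [this]; exact Submodule.smul_mem _ _ hu
    · rw [← hw, Submodule.span_le]
      rintro _ ⟨j, rfl⟩
      show w j ∈ dK (LinearMap.range V.mulVecLin)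
      rw [← hv2 j]
      exact Submodule.subset_span ⟨v j, hmem0 j, rfl⟩
  refine ⟨M, LinearMap.range V.mulVecLin, hK, hHS, hP, ?_⟩
  refine ⟨(dK (LinearMap.range V.mulVecLin)).subtype, π, Submodule.injective_subtype _, hπs, ?_,
    fun _ => rfl, hπz⟩
  intro y
  constructor
  · intro hy
    have : y ∈ dK (LinearMap.range V.mulVecLin) := by rw [hdK]; exact hy
    exact ⟨⟨y, this⟩, rfl⟩
  · rintro ⟨⟨y, hy⟩, rfl⟩
    have : y ∈ LinearMap.ker π := by rw [← hdK]; exact hy
    exact this

end Pool.Agent.TQF
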