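import Pool.Agent.TQF.StG

/-!
# TQF, module G1: the localisation principle
-/

set_option autoImplicit false

namespace Pool.Agent.TQF

open Function TensorProduct

/-! ### torsion objects -/

section tors

variable {S : Type} [CommRing S] {W : Submonoid S} {l g : S} {P : QM l g → Prop}

private theorem G1_tors (hW : ∀ X : QM l g, (∃ w ∈ W, ∀ x : X.carrier, w • x = 0) → P X)
    (E : QM l g) (hE : ∀ e : E.carrier, ∃ w ∈ W, w • e = 0) : P E := by
  classical
  obtain ⟨T, hT⟩ := (inferInstance : Module.Finite S E.carrier).fg_top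
  choose w hw hwe using hE
  refine hW E ⟨∏ t ∈ T, w t, prod_mem fun t _ => hw t, fun x => ?_⟩
  have hx : x ∈ Submodule.span S (T : Set E.carrier) := by rw [hT]; trivial
  induction hx using Submodule.span_induction with
  | mem x h =>
    rw [← Finset.prod_erase_mul T w h, mul_smul, hwe, smul_zero]
  | zero => rw [smul_zero]
  | add x y _ _ hx hy => rw [smul_add, hx, hy, add_zero]
  | smul r x _ hx => rw [smul_comm, hx, smul_zero]

variable [IsNoetherianRing S]

/-- a map with torsion kernel and cokernel -/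
private theorem G1_map (hP : (qC l g).T3 P)
    (hW : ∀ X : QM l g, (∃ w ∈ W, ∀ x : X.carrier, w • x = 0) → P X)
    (E E' : QM l g) (f : E.carrier →ₗ[S] E'.carrier) (hz : ∀ e, f (E.z e) = E'.z (f e))
    (hk : ∀ e, f e = 0 → ∃ w ∈ W, w • e = 0) (hc : ∀ x, ∃ w ∈ W, ∃ e, w • x = f e) :
    P E ↔ P E' := by
  have hK : ∀ x ∈ LinearMap.ker f, E.z x ∈ LinearMap.ker f := by
    intro x hx
    rw [LinearMap.mem_ker] at hx ⊢
    rw [hz, hx, map_zero]
  have hR : ∀ x ∈ LinearMap.range f, E'.z x ∈ LinearMap.range f := by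
    rintro _ ⟨e, rfl⟩
    exact ⟨E.z e, hz e⟩
  have hker : P (E.sub (LinearMap.ker f) hK) := G1_tors hW _ (by
    rintro ⟨m, hm⟩
    obtain ⟨w, hw, h1⟩ := hk m hm
    exact ⟨w, hw, Subtype.ext h1⟩)
  have hcok : P (E'.quot (LinearMap.range f) hR) := G1_tors hW _ (by
    intro x
    obtain ⟨x, rfl⟩ := Submodule.mkQ_surjective _ x
    obtain ⟨w, hw, e, h1⟩ := hc x
    refine ⟨w, hw, ?_⟩
    rw [← map_smul, Submodule.mkQ_apply, Submodule.Quotient.mk_eq_zero, h1]
    exact ⟨e, rfl⟩)
  have s1 : QM.Ses (E.sub (LinearMap.ker f) hK) E (E'.sub (LinearMap.range f) hR) := by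
    refine ⟨(LinearMap.ker f).subtype, f.rangeRestrict, (LinearMap.ker f).subtype_injective,
      f.surjective_rangeRestrict, ?_, fun x => rfl, fun y => Subtype.ext (hz y)⟩
    intro x
    constructor
    · intro hx
      refine ⟨⟨x, ?_⟩, rfl⟩
      exact congrArg Subtype.val hx
    · rintro ⟨y, rfl⟩
      exact Subtype.ext y.2
  have s2 := E'.ses_sub (LinearMap.range f) hR
  constructor
  · intro h
    exact hP.ext _ _ _ s2 (hP.coker _ _ _ s1 hker h) hcok
  · intro h
    exact hP.ext _ _ _ s1 hker (hP.ker _ _ _ s2 h hcok)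

end tors

/-! ### lattices -/

section lat

variable {S S' : Type} [CommRing S] [CommRing S'] [Algebra S S'] {W : Submonoid S}
  {l g : S}

private theorem G1_exists (hfrac : ∀ v : S', ∃ w ∈ W, ∃ r : S, algebraMap S S' w * v =
    algebraMap S S' r) (X : QM (algebraMap S S' l) (algebraMap S S' g)) :
    ∃ E : QM l g, IsLatQ (algebraMap S S') W E X := by
  classical
  let _ : Module S X.carrier := Module.compHom X.carrier (algebraMap S S')
  have hsm : ∀ (r : S) (x : X.carrier), r • x = algebraMap S S' r • x := fun _ _ => rfl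
  obtain ⟨T, hT⟩ := (inferInstance : Module.Finite S' X.carrier).fg_top
  let zS : X.carrier →ₗ[S] X.carrier :=
    { toFun := X.z
      map_add' := fun x y => map_add X.z x y
      map_smul' := fun r x => map_smul X.z (algebraMap S S' r) x }
  have hzS : ∀ x, zS x = X.z x := fun _ => rfl
  let N : Submodule S X.carrier := Submodule.span S ((T : Set X.carrier) ∪ X.z '' T)
  have hN : ∀ x ∈ N, zS x ∈ N := by
    intro x hx
    induction hx using Submodule.span_induction with
    | mem x h =>
      rcases h with h | ⟨t, ht, rfl⟩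
      · exact Submodule.subset_span (Or.inr ⟨x, h, rfl⟩)
      · have h1 := X.rel t
        have h2 : zS (X.z t) = -(l • X.z t) - g • t := by
          rw [hzS, hsm, hsm, eq_sub_iff_add_eq, eq_neg_iff_add_eq_zero, ← h1]
          abel
        rw [h2]
        exact N.sub_mem (N.neg_mem (N.smul_mem _ (Submodule.subset_span (Or.inr ⟨t, ht, rfl⟩))))
          (N.smul_mem _ (Submodule.subset_span (Or.inl ht)))
    | zero => rw [map_zero]; exact N.zero_mem
    | add x y _ _ hx hy => rw [map_add]; exact N.add_mem hx hy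
    | smul r x _ hx => rw [map_smul]; exact N.smul_mem r hx
  have hfin : Module.Finite S N := Module.Finite.iff_fg.mpr
    ⟨T ∪ T.image X.z, by rw [Finset.coe_union, Finset.coe_image]⟩
  let E : QM l g :=
    { carrier := N
      z := zS.restrict hN
      rel := fun x => Subtype.ext (X.rel x.1) }
  refine ⟨E, N.subtype.toAddMonoidHom, fun r e => rfl, fun e => rfl,
    fun e he => ⟨1, W.one_mem, ?_⟩, fun x => ?_⟩
  · rw [one_smul]
    exact Subtype.ext he
  · have hx : x ∈ Submodule.span S' (T : Set X.carrier) := by rw [hT]; trivial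
    have key : ∃ w ∈ W, algebraMap S S' w • x ∈ N := by
      induction hx using Submodule.span_induction with
      | mem x h =>
        exact ⟨1, W.one_mem, by
          rw [map_one, one_smul]; exact Submodule.subset_span (Or.inl h)⟩
      | zero => exact ⟨1, W.one_mem, by rw [smul_zero]; exact N.zero_mem⟩
      | add x y _ _ hx hy =>
        obtain ⟨w, hw, hx⟩ := hx
        obtain ⟨w', hw', hy⟩ := hy
        refine ⟨w * w', W.mul_mem hw hw', ?_⟩
        rw [smul_add]
        refine N.add_mem ?_ ?_
        · rw [mul_comm, map_mul, mul_smul]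
          exact N.smul_mem w' hx
        · rw [map_mul, mul_smul]
          exact N.smul_mem w hy
      | smul v x _ hx =>
        obtain ⟨w, hw, hx⟩ := hx
        obtain ⟨w', hw', r, hr⟩ := hfrac v
        refine ⟨w * w', W.mul_mem hw hw', ?_⟩
        have h3 : algebraMap S S' (w * w') * v = algebraMap S S' r * algebraMap S S' w := by
          rw [map_mul, mul_assoc, hr, mul_comm]
        rw [← mul_smul, h3, mul_smul]
        exact N.smul_mem r hx
    obtain ⟨w, hw, h⟩ := key
    exact ⟨w, hw, ⟨_, h⟩, rfl⟩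

variable [IsNoetherianRing S] {P : QM l g → Prop}

private theorem G1_unique (hP : (qC l g).T3 P)
    (hW : ∀ X : QM l g, (∃ w ∈ W, ∀ x : X.carrier, w • x = 0) → P X)
    {X : QM (algebraMap S S' l) (algebraMap S S' g)} {E E' : QM l g}
    (h : IsLatQ (algebraMap S S') W E X) (h' : IsLatQ (algebraMap S S') W E' X) (hE : P E) :
    P E' := by
  let _ : Module S X.carrier := Module.compHom X.carrier (algebraMap S S')
  have hsm : ∀ (r : S) (x : X.carrier), r • x = algebraMap S S' r • x := fun _ _ => rfl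
  obtain ⟨j, j1, j2, j3, j4⟩ := h
  obtain ⟨j', j1', j2', j3', j4'⟩ := h'
  let zS : X.carrier →ₗ[S] X.carrier :=
    { toFun := X.z
      map_add' := fun x y => map_add X.z x y
      map_smul' := fun r x => map_smul X.z (algebraMap S S' r) x }
  let J : E.carrier →ₗ[S] X.carrier := { j with map_smul' := j1 }
  let J' : E'.carrier →ₗ[S] X.carrier := { j' with map_smul' := j1' }
  let N : Submodule S X.carrier := LinearMap.range J ⊔ LinearMap.range J'
  have hfin : Module.Finite S N := by
    have h1 : Module.Finite S (LinearMap.range J) := inferInstance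
    have h2 : Module.Finite S (LinearMap.range J') := inferInstance
    exact Submodule.finite_sup _ _
  have hN : ∀ x ∈ N, zS x ∈ N := by
    intro x hx
    obtain ⟨a, ⟨e, rfl⟩, b, ⟨e', rfl⟩, rfl⟩ := Submodule.mem_sup.1 hx
    rw [map_add]
    refine N.add_mem (Submodule.mem_sup_left ⟨E.z e, j2 e⟩)
      (Submodule.mem_sup_right ⟨E'.z e', j2' e'⟩)
  let L : QM l g :=
    { carrier := N
      z := zS.restrict hN
      rel := fun x => Subtype.ext (X.rel x.1) }
  have h1 : P E ↔ P L := by
    refine G1_map hP hW E L (J.codRestrict N (fun e => Submodule.mem_sup_left ⟨e, rfl⟩))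
      (fun e => Subtype.ext (j2 e)) ?_ ?_
    · intro e he
      exact j3 e (congrArg Subtype.val he)
    · rintro ⟨x, hx⟩
      obtain ⟨w, hw, e, h1⟩ := j4 x
      exact ⟨w, hw, e, Subtype.ext h1⟩
  have h2 : P E' ↔ P L := by
    refine G1_map hP hW E' L (J'.codRestrict N (fun e => Submodule.mem_sup_right ⟨e, rfl⟩))
      (fun e => Subtype.ext (j2' e)) ?_ ?_
    · intro e he
      exact j3' e (congrArg Subtype.val he)
    · rintro ⟨x, hx⟩
      obtain ⟨w, hw, e, h1⟩ := j4' x
      exact ⟨w, hw, e, Subtype.ext h1⟩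
  exact h2.2 (h1.1 hE)

/-- lattices in a short exact sequence -/
private theorem G1_exact {X Y Z : QM (algebraMap S S' l) (algebraMap S S' g)}
    (hs : QM.Ses X Y Z) {E : QM l g} (h : IsLatQ (algebraMap S S') W E Y) :
    ∃ E' E'' : QM l g, QM.Ses E' E E'' ∧ IsLatQ (algebraMap S S') W E' X ∧
      IsLatQ (algebraMap S S') W E'' Z := by
  obtain ⟨f, k, hf, hk, hfk, fz, kz⟩ := hs
  let _ : Module S Z.carrier := Module.compHom Z.carrier (algebraMap S S')
  obtain ⟨j, j1, j2, j3, j4⟩ := h
  let J : E.carrier →ₗ[S] Z.carrier :=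
    { toFun := fun e => k (j e)
      map_add' := fun x y => by rw [map_add, map_add]
      map_smul' := fun r x => by rw [j1, map_smul]; rfl }
  let zS : Z.carrier →ₗ[S] Z.carrier :=
    { toFun := Z.z
      map_add' := fun x y => map_add Z.z x y
      map_smul' := fun r x => map_smul Z.z (algebraMap S S' r) x }
  have hJz : ∀ e, J (E.z e) = zS (J e) := fun e => by
    show k (j (E.z e)) = Z.z (k (j e))
    rw [j2, kz]
  have hK : ∀ e ∈ LinearMap.ker J, E.z e ∈ LinearMap.ker J := by
    intro e he
    rw [LinearMap.mem_ker] at he ⊢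
    rw [hJz, he, map_zero]
  have hR : ∀ x ∈ LinearMap.range J, zS x ∈ LinearMap.range J := by
    rintro _ ⟨e, rfl⟩
    exact ⟨E.z e, hJz e⟩
  have hfin : Module.Finite S (LinearMap.range J) := inferInstance
  let R : QM l g :=
    { carrier := LinearMap.range J
      z := zS.restrict hR
      rel := fun x => Subtype.ext (Z.rel x.1) }
  have hx : ∀ e : LinearMap.ker J, ∃ x : X.carrier, f x = j e := by
    rintro ⟨e, he⟩
    exact (hfk (j e)).1 he
  choose φ hφ using hx
  refine ⟨E.sub (LinearMap.ker J) hK, R, ?_, ?_, ?_⟩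
  · refine ⟨(LinearMap.ker J).subtype, J.rangeRestrict, (LinearMap.ker J).subtype_injective,
      J.surjective_rangeRestrict, ?_, fun x => rfl, fun y => Subtype.ext (hJz y)⟩
    intro x
    constructor
    · intro hx
      exact ⟨⟨x, congrArg Subtype.val hx⟩, rfl⟩
    · rintro ⟨y, rfl⟩
      exact Subtype.ext y.2
  · refine ⟨{ toFun := φ
              map_zero' := hf (by rw [hφ, map_zero]; exact map_zero j)
              map_add' := fun x y => hf (by rw [hφ, map_add, hφ, hφ]; exact map_add j _ _) },
      fun r e => hf ?_, fun e => hf ?_, fun e he => ?_, fun x => ?_⟩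
    · show f (φ (r • e)) = f (algebraMap S S' r • φ e)
      rw [hφ, map_smul, hφ]
      exact j1 r _
    · show f (φ ⟨E.z e, _⟩) = f (X.z (φ e))
      rw [hφ, fz, hφ]
      exact j2 _
    · have h1 : j e = 0 := by
        rw [← hφ]
        have h2 : φ e = 0 := he
        rw [h2, map_zero]
      obtain ⟨w, hw, h2⟩ := j3 _ h1
      exact ⟨w, hw, Subtype.ext h2⟩
    · obtain ⟨w, hw, e, h1⟩ := j4 (f x)
      have he : e ∈ LinearMap.ker J := by
        show k (j e) = 0
        rw [← h1, map_smul, (hfk (f x)).2 ⟨x, rfl⟩, smul_zero]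
      refine ⟨w, hw, ⟨e, he⟩, hf ?_⟩
      show f (algebraMap S S' w • x) = f (φ ⟨e, he⟩)
      rw [hφ, map_smul, h1]
  · refine ⟨(LinearMap.range J).subtype.toAddMonoidHom, fun r e => rfl, fun e => rfl,
      fun e he => ⟨1, W.one_mem, ?_⟩, fun x => ?_⟩
    · rw [one_smul]
      exact Subtype.ext he
    · obtain ⟨x, rfl⟩ := hk x
      obtain ⟨w, hw, e, h1⟩ := j4 x
      refine ⟨w, hw, ⟨J e, e, rfl⟩, ?_⟩
      show algebraMap S S' w • k x = k (j e)
      rw [← h1, map_smul]

/-- the class on the objects over `S'` induced by a class on the objects over `S` -/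
private theorem G1_t3 (hfrac : ∀ v : S', ∃ w ∈ W, ∃ r : S, algebraMap S S' w * v =
    algebraMap S S' r) (hP : (qC l g).T3 P)
    (hW : ∀ X : QM l g, (∃ w ∈ W, ∀ x : X.carrier, w • x = 0) → P X) :
    (qC (algebraMap S S' l) (algebraMap S S' g)).T3
      (fun X => ∀ E, IsLatQ (algebraMap S S') W E X → P E) where
  zero X hX := fun E hE => by
    obtain ⟨j, j1, j2, j3, j4⟩ := hE
    have hX' : Subsingleton X.carrier := hX
    exact G1_tors hW E fun e => j3 e (Subsingleton.elim _ _)
  ext X Y Z hs h1 h2 := fun E hE => by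
    obtain ⟨E', E'', hs', hE', hE''⟩ := G1_exact hs hE
    exact hP.ext E' E E'' hs' (h1 E' hE') (h2 E'' hE'')
  coker X Y Z hs h1 h2 := fun F hF => by
    obtain ⟨E, hE⟩ := G1_exists (l := l) (g := g) hfrac Y
    obtain ⟨E', E'', hs', hE', hE''⟩ := G1_exact hs hE
    exact G1_unique hP hW hE'' hF (hP.coker E' E E'' hs' (h1 E' hE') (h2 E hE))
  ker X Y Z hs h1 h2 := fun F hF => by
    obtain ⟨E, hE⟩ := G1_exists (l := l) (g := g) hfrac Y
    obtain ⟨E', E'', hs', hE', hE''⟩ := G1_exact hs hE
    exact G1_unique hP hW hE' hF (hP.ker E' E E'' hs' (h1 E hE) (h2 E'' hE''))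

end lat

theorem thm_G1 : St_G1 := by
  intro S S' _ _ _ _ W _ l g l' g' hl hg P hP hW U hU hL E
  subst hl hg
  have hfrac : ∀ v : S', ∃ w ∈ W, ∃ r : S, algebraMap S S' w * v = algebraMap S S' r := by
    intro v
    obtain ⟨⟨r, w⟩, h⟩ := IsLocalization.surj W v
    exact ⟨w, w.2, r, by rw [mul_comm]; exact h⟩
  have h2 := hU _ (G1_t3 hfrac hP hW) (by
    intro X hX E' hE'
    obtain ⟨E, hE, hPE⟩ := hL X hX
    exact G1_unique hP hW hE hE' hPE)
  -- the localisation of `E`
  have htm : ∀ (c : S) (s : S') (e : E.carrier), algebraMap S S' c • (s ⊗ₜ[S] e) =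
      s ⊗ₜ[S] (c • e) := by
    intro c s e
    rw [algebraMap_smul, TensorProduct.smul_tmul', TensorProduct.smul_tmul]
  let X : QM (algebraMap S S' l) (algebraMap S S' g) :=
    { carrier := S' ⊗[S] E.carrier
      z := LinearMap.baseChange S' E.z
      rel := fun x => by
        induction x using TensorProduct.induction_on with
        | zero => simp
        | add x y hx hy =>
          rw [map_add, map_add, smul_add, smul_add]
          have := congrArg₂ (· + ·) hx hy
          simp only [add_zero] at this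
          rw [← this]
          abel
        | tmul s e =>
          rw [LinearMap.baseChange_tmul, LinearMap.baseChange_tmul, htm, htm,
            ← TensorProduct.tmul_add, ← TensorProduct.tmul_add, E.rel, TensorProduct.tmul_zero] }
  refine h2 X E ?_
  have hloc : IsLocalizedModule W (TensorProduct.mk S S' E.carrier 1) := inferInstance
  refine ⟨(TensorProduct.mk S S' E.carrier 1).toAddMonoidHom, fun r e => ?_, fun e => ?_,
    fun e he => ?_, fun x => ?_⟩
  · show (1 : S') ⊗ₜ[S] (r • e) = algebraMap S S' r • ((1 : S') ⊗ₜ[S] e)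
    rw [htm]
  · show (1 : S') ⊗ₜ[S] (E.z e) = LinearMap.baseChange S' E.z ((1 : S') ⊗ₜ[S] e)
    rw [LinearMap.baseChange_tmul]
  · obtain ⟨w, hw⟩ := (IsLocalizedModule.eq_zero_iff W (TensorProduct.mk S S' E.carrier 1)).1 he
    exact ⟨w, w.2, hw⟩
  · obtain ⟨⟨m, w⟩, hm⟩ := IsLocalizedModule.surj W (TensorProduct.mk S S' E.carrier 1) x
    refine ⟨w, w.2, m, ?_⟩
    show algebraMap S S' w • x = (1 : S') ⊗ₜ[S] m
    have h3 : (w : S) • x = (1 : S') ⊗ₜ[S] m := hm
    rw [← h3, algebraMap_smul]

end Pool.Agent.TQF
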