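import Pool.Agent.TQF.StG

/-!
# TQF, module G2: lattices of `phi N`
-/

set_option autoImplicit false

namespace Pool.Agent.TQF

open Function MvPolynomial TensorProduct

section G2

variable {A K : Type} [CommRing A] [Field K] [Algebra A K] {m : ℕ}
variable {N : Type} [AddCommGroup N] [Module K N] [Module A N] [IsScalarTower A K N]

theorem G2_smul (c : A) (p : MvPolynomial (Fin m) K) (n : N) :
    p ⊗ₜ[K] (c • n) = (c • p) ⊗ₜ[K] n := by
  rw [← algebraMap_smul K c n, TensorProduct.tmul_smul, TensorProduct.smul_tmul', algebraMap_smul]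

theorem G2_map_smul (c : A) (p : MvPolynomial (Fin m) A) :
    MvPolynomial.map (algebraMap A K) (c • p) = c • MvPolynomial.map (algebraMap A K) p := by
  rw [MvPolynomial.smul_eq_C_mul, map_mul, map_C, ← MvPolynomial.smul_eq_C_mul, algebraMap_smul]

/-- the lattice map -/
noncomputable def G2_j (m : ℕ) (N0 : Submodule A N) :
    MvPolynomial (Fin m) A ⊗[A] N0 →ₗ[A] MvPolynomial (Fin m) K ⊗[K] N :=
  TensorProduct.lift (LinearMap.mk₂ A
    (fun p (n : N0) => MvPolynomial.map (algebraMap A K) p ⊗ₜ[K] (n : N))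
    (fun p p' n => by rw [map_add, TensorProduct.add_tmul])
    (fun c p n => by rw [G2_map_smul, TensorProduct.smul_tmul'])
    (fun p n n' => by rw [Submodule.coe_add, TensorProduct.tmul_add])
    (fun c p n => by rw [Submodule.coe_smul, G2_smul, TensorProduct.smul_tmul']))

theorem G2_j_tmul (N0 : Submodule A N) (p : MvPolynomial (Fin m) A) (n : N0) :
    G2_j (K := K) m N0 (p ⊗ₜ[A] n) = MvPolynomial.map (algebraMap A K) p ⊗ₜ[K] (n : N) := rfl

theorem G2_j_smul (N0 : Submodule A N) (s : MvPolynomial (Fin m) A)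
    (e : MvPolynomial (Fin m) A ⊗[A] N0) :
    G2_j (K := K) m N0 (s • e) = MvPolynomial.map (algebraMap A K) s • G2_j (K := K) m N0 e := by
  induction e using TensorProduct.induction_on with
  | zero => simp
  | add x y hx hy => rw [smul_add, map_add, map_add, smul_add, hx, hy]
  | tmul p n =>
    rw [TensorProduct.smul_tmul', smul_eq_mul, G2_j_tmul, G2_j_tmul, map_mul,
      TensorProduct.smul_tmul', smul_eq_mul]

theorem G2_j_inj (N0 : Submodule A N) (e : MvPolynomial (Fin m) A ⊗[A] N0)
    (he : G2_j (K := K) m N0 e = 0) : e = 0 := by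
  have key : ∀ (e : MvPolynomial (Fin m) A ⊗[A] N0) (d : Fin m →₀ ℕ),
      TensorProduct.equivFinsuppOfBasisLeft (MvPolynomial.basisMonomials (Fin m) K)
        (G2_j (K := K) m N0 e) d =
      ((TensorProduct.equivFinsuppOfBasisLeft (MvPolynomial.basisMonomials (Fin m) A) e d : N0) :
        N) := by
    intro e d
    induction e using TensorProduct.induction_on with
    | zero => simp
    | add x y hx hy =>
      rw [map_add, map_add, map_add, Finsupp.add_apply, Finsupp.add_apply, hx, hy]
      rfl
    | tmul p n =>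
      rw [G2_j_tmul, TensorProduct.equivFinsuppOfBasisLeft_apply_tmul_apply,
        TensorProduct.equivFinsuppOfBasisLeft_apply_tmul_apply]
      change MvPolynomial.coeff d (MvPolynomial.map (algebraMap A K) p) • (n : N) =
        ((MvPolynomial.coeff d p • n : N0) : N)
      rw [MvPolynomial.coeff_map, algebraMap_smul]
      rfl
  apply (TensorProduct.equivFinsuppOfBasisLeft (MvPolynomial.basisMonomials (Fin m) A)).injective
  rw [map_zero]
  ext d
  rw [← key e d, he, map_zero]
  rfl

theorem G2_denom [IsDomain A] [IsFractionRing A K] (N0 : Submodule A N)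
    (h0 : ∀ n : N, ∃ a ∈ nonZeroDivisors A, a • n ∈ N0) (x : MvPolynomial (Fin m) K ⊗[K] N) :
    ∃ w ∈ (nonZeroDivisors A).map (C : A →+* MvPolynomial (Fin m) A),
      ∃ e : MvPolynomial (Fin m) A ⊗[A] N0,
        MvPolynomial.map (algebraMap A K) w • x = G2_j (K := K) m N0 e := by
  induction x using TensorProduct.induction_on with
  | zero => exact ⟨1, one_mem _, 0, by simp⟩
  | add x y hx hy =>
    obtain ⟨w, hw, e, he⟩ := hx
    obtain ⟨w', hw', e', he'⟩ := hy
    refine ⟨w * w', mul_mem hw hw', w' • e + w • e', ?_⟩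
    rw [map_add, G2_j_smul, G2_j_smul, ← he, ← he', map_mul, smul_add, smul_smul, smul_smul,
      mul_comm (MvPolynomial.map (algebraMap A K) w')]
  | tmul p n =>
    obtain ⟨a, ha, han⟩ := h0 n
    let _ := MvPolynomial.algebraMvPolynomial (σ := Fin m) (R := A) (S := K)
    obtain ⟨⟨p0, w⟩, hp⟩ := IsLocalization.surj
      ((nonZeroDivisors A).map (C : A →+* MvPolynomial (Fin m) A)) p
    have hp' : p * MvPolynomial.map (algebraMap A K) (w : MvPolynomial (Fin m) A) =
      MvPolynomial.map (algebraMap A K) p0 := hp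
    refine ⟨(w : MvPolynomial (Fin m) A) * C a, mul_mem w.2 ⟨a, ha, rfl⟩,
      p0 ⊗ₜ[A] ⟨a • n, han⟩, ?_⟩
    rw [G2_j_tmul, TensorProduct.smul_tmul', smul_eq_mul, G2_smul, ← hp', map_mul, map_C]
    congr 1
    rw [← algebraMap_smul K a, MvPolynomial.smul_eq_C_mul]
    ring

end G2

/-- the representation of `Lam q` on a module with operators which satisfy the relations -/
noncomputable def G2_rho {A : Type} [CommRing A] {m : ℕ} (q : QD A m) (N : Type) [AddCommGroup N]
    [Module A N] (e : Fin (m + 1) → N →ₗ[A] N)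
    (h1 : ∀ i x, e i (e i x) + q.lam i • e i x + q.gam i i • x = 0)
    (h2 : ∀ i j, i ≠ j → ∀ x, e i (e j x) + e j (e i x) + q.lam i • e j x + q.lam j • e i x +
      (q.gam i j + q.gam j i) • x = 0) : Lam q →ₐ[A] Module.End A N :=
  RingQuot.liftAlgHom A ⟨FreeAlgebra.lift A e, by
    intro x y hxy
    induction hxy with
    | sq i =>
      ext x
      simp only [map_add, map_mul, map_smul, FreeAlgebra.lift_ι_apply, AlgHom.commutes, map_zero]
      exact h1 i x
    | mul i j h =>
      ext x
      simp only [map_add, map_mul, map_smul, FreeAlgebra.lift_ι_apply, AlgHom.commutes, map_zero]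
      have := h2 i j h x
      rw [add_smul] at this
      exact this⟩

theorem thm_G2 : St_G2 := by
  intro A K _ _ _ _ _ _ m q hfin N
  let _ : Module A N.carrier := Module.compHom N.carrier (algebraMap A K)
  have _ : IsScalarTower A K N.carrier := ⟨fun a b n => by
    rw [Algebra.smul_def, mul_smul]; rfl⟩
  obtain ⟨r, x, hx⟩ := Module.Finite.exists_fin (R := K) (M := N.carrier)
  let eA : Fin (m + 1) → N.carrier →ₗ[A] N.carrier := fun i => (N.e i).restrictScalars A
  have hrel2 : ∀ i j, i ≠ j → ∀ x : N.carrier, N.e i (N.e j x) + N.e j (N.e i x) +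
      q.lam i • N.e j x + q.lam j • N.e i x + (q.gam i j + q.gam j i) • x = 0 := by
    intro i j h x
    have h1 := N.rel2 i j h x
    have h2 : (q.map (algebraMap A K)).gam i j + (q.map (algebraMap A K)).gam j i =
      algebraMap A K (q.gam i j + q.gam j i) := (map_add _ _ _).symm
    rw [h2] at h1
    exact h1
  let ρ : Lam q →ₐ[A] Module.End A N.carrier := G2_rho q N.carrier eA N.rel1 hrel2
  have hρ : ∀ i n, ρ (RingQuot.mkAlgHom A (LRel q) (FreeAlgebra.ι A i)) n = N.e i n := by
    intro i n
    have h1 : ρ (RingQuot.mkAlgHom A (LRel q) (FreeAlgebra.ι A i)) =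
        FreeAlgebra.lift A eA (FreeAlgebra.ι A i) := by
      change RingQuot.liftAlgHom A _ _ = _
      rw [RingQuot.liftAlgHom_mkAlgHom_apply]
    rw [h1, FreeAlgebra.lift_ι_apply]
    rfl
  let Φ : (Fin r → Lam q) →ₗ[A] N.carrier :=
    ∑ i, (LinearMap.applyₗ (x i)).comp (ρ.toLinearMap.comp (LinearMap.proj i))
  have hΦ : ∀ c, Φ c = ∑ i, ρ (c i) (x i) := by
    intro c
    change (∑ i, (LinearMap.applyₗ (x i)).comp (ρ.toLinearMap.comp (LinearMap.proj i)) :
      (Fin r → Lam q) →ₗ[A] N.carrier) c = _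
    rw [LinearMap.sum_apply]
    rfl
  let N1 : Submodule A N.carrier := LinearMap.range Φ
  have _ : Module.Finite A N1 := Module.Finite.range Φ
  have hst : ∀ i, ∀ n ∈ N1, eA i n ∈ N1 := by
    rintro i _ ⟨c, rfl⟩
    refine ⟨fun k => RingQuot.mkAlgHom A (LRel q) (FreeAlgebra.ι A i) * c k, ?_⟩
    rw [hΦ, hΦ, map_sum]
    refine Finset.sum_congr rfl fun k _ => ?_
    rw [map_mul, Module.End.mul_apply, hρ]
    rfl
  have hxN : ∀ i, x i ∈ N1 := by
    intro i
    refine ⟨Pi.single i 1, ?_⟩
    rw [hΦ, Finset.sum_eq_single i]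
    · rw [Pi.single_eq_same, map_one]; rfl
    · intro k _ hk
      rw [Pi.single_eq_of_ne hk, map_zero]; rfl
    · intro h; exact absurd (Finset.mem_univ i) h
  have hden : ∀ n : N.carrier, ∃ a ∈ nonZeroDivisors A, a • n ∈ N1 := by
    intro n
    have hn : n ∈ Submodule.span K (Set.range x) := by rw [hx]; trivial
    induction hn using Submodule.span_induction with
    | mem y hy =>
      obtain ⟨i, rfl⟩ := hy
      exact ⟨1, one_mem _, by rw [one_smul]; exact hxN i⟩
    | zero => exact ⟨1, one_mem _, by rw [smul_zero]; exact N1.zero_mem⟩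
    | add y z _ _ hy hz =>
      obtain ⟨a, ha, hay⟩ := hy
      obtain ⟨b, hb, hbz⟩ := hz
      refine ⟨a * b, mul_mem ha hb, ?_⟩
      rw [smul_add]
      refine N1.add_mem ?_ ?_
      · rw [mul_comm, mul_smul]; exact N1.smul_mem _ hay
      · rw [mul_smul]; exact N1.smul_mem _ hbz
    | smul c y _ hy =>
      obtain ⟨a, ha, hay⟩ := hy
      obtain ⟨⟨b, s⟩, hs⟩ := IsLocalization.surj (nonZeroDivisors A) c
      refine ⟨a * s, mul_mem ha s.2, ?_⟩
      have h1 : (a * (s : A)) • (c • y) = b • (a • y) := by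
        rw [← algebraMap_smul K (a * (s : A)), ← algebraMap_smul K b, ← algebraMap_smul K a y,
          smul_smul, smul_smul, ← hs, map_mul]
        congr 1
        ring
      rw [h1]
      exact N1.smul_mem _ hay
  let N0 : CMod q :=
    { carrier := N1
      e := fun i => (eA i).restrict (hst i)
      rel1 := fun i n => Subtype.ext (N.rel1 i n)
      rel2 := fun i j h n => Subtype.ext (hrel2 i j h n) }
  refine ⟨N0, (G2_j (K := K) m N1).toAddMonoidHom, ?_, ?_, ?_, ?_⟩
  · intro s e
    exact G2_j_smul N1 s e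
  · intro e
    change G2_j (K := K) m N1 (N0.phiz e) = N.phiz (G2_j (K := K) m N1 e)
    induction e using TensorProduct.induction_on with
    | zero => simp
    | add y z hy hz => rw [map_add, map_add, map_add, map_add, hy, hz]
    | tmul p n =>
      rw [CMod.phiz_tmul, map_sum, G2_j_tmul, CMod.phiz_tmul]
      refine Finset.sum_congr rfl fun i _ => ?_
      rw [G2_j_tmul, map_mul, yv_map]
      rfl
  · intro e he
    refine ⟨1, one_mem _, ?_⟩
    rw [one_smul]
    exact G2_j_inj N1 e he
  · intro y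
    exact G2_denom N1 hden y

end Pool.Agent.TQF
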