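import Pool.Agent.TQF.StG
import Pool.Agent.TQF.StN

/-!
# TQF, module GD: the case of a domain
-/

set_option autoImplicit false

namespace Pool.Agent.TQF

open Function MvPolynomial TensorProduct

/-- the lattice of the induced object -/
theorem Gd_ind {S S' : Type} [CommRing S] [CommRing S'] (φ : S →+* S') (W : Submonoid S)
    (hφ : ∀ s, φ s = 0 → s = 0) (hs : ∀ x : S', ∃ w ∈ W, ∃ s : S, φ w * x = φ s) {l g : S}
    {l' g' : S'} (hl : l' = φ l) (hg : g' = φ g) :
    IsLatQ φ W (QM.ind l g S) (QM.ind l' g' S') := by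
  refine ⟨⟨⟨fun e => (φ e.1, φ e.2), ?_⟩, ?_⟩, ?_, ?_, ?_, ?_⟩
  · exact Prod.ext (map_zero φ) (map_zero φ)
  · intro x y
    exact Prod.ext (map_add φ _ _) (map_add φ _ _)
  · intro s e
    exact Prod.ext (map_mul φ _ _) (map_mul φ _ _)
  · intro e
    subst hl
    subst hg
    refine Prod.ext ?_ ?_
    · show φ (-(g * e.2)) = -(φ g * φ e.2)
      rw [map_neg, map_mul]
    · show φ (e.1 - l * e.2) = φ e.1 - φ l * φ e.2
      rw [map_sub, map_mul]
  · intro e he
    refine ⟨1, W.one_mem, ?_⟩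
    have h1 : φ e.1 = 0 := congrArg Prod.fst he
    have h2 : φ e.2 = 0 := congrArg Prod.snd he
    rw [one_smul]
    exact Prod.ext (hφ _ h1) (hφ _ h2)
  · intro x
    obtain ⟨w, hw, s, hs1⟩ := hs x.1
    obtain ⟨w', hw', s', hs2⟩ := hs x.2
    refine ⟨w * w', W.mul_mem hw hw', (w' * s, w * s'), ?_⟩
    refine Prod.ext ?_ ?_
    · show φ (w * w') * x.1 = φ (w' * s)
      rw [map_mul, map_mul, ← hs1]
      ring
    · show φ (w * w') * x.2 = φ (w * s')
      rw [map_mul, map_mul, ← hs2]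
      ring

attribute [local instance] MvPolynomial.algebraMvPolynomial in
theorem thm_Gd (h1 : St_G1) (h2 : St_G2) (h3 : St_LamF) : St_Gd := by
  intro A K _ _ _ _ _ _ m q hF P hP htors hind hphi X
  have hloc : IsLocalization ((nonZeroDivisors A).map (C : A →+* MvPolynomial (Fin m) A))
      (MvPolynomial (Fin m) K) := MvPolynomial.isLocalization (nonZeroDivisors A) K
  have hmap : algebraMap (MvPolynomial (Fin m) A) (MvPolynomial (Fin m) K) =
      MvPolynomial.map (algebraMap A K) := MvPolynomial.algebraMap_def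
  refine h1 (MvPolynomial (Fin m) A) (MvPolynomial (Fin m) K)
    ((nonZeroDivisors A).map (C : A →+* MvPolynomial (Fin m) A)) q.l q.g
    (q.map (algebraMap A K)).l (q.map (algebraMap A K)).g (by rw [hmap, QD.map_l])
    (by rw [hmap, QD.map_g]) P hP ?_
    ({QM.ind _ _ (MvPolynomial (Fin m) K)} ∪ Set.range fun N : CMod (q.map (algebraMap A K)) =>
      N.phi) ?_ ?_ X
  · rintro X ⟨w, ⟨a, ha, rfl⟩, hw⟩
    exact htors X ⟨a, nonZeroDivisors.ne_zero ha, hw⟩
  · intro P' hP' hU
    exact hF P' hP' (hU _ (Or.inl rfl)) fun N => hU _ (Or.inr ⟨N, rfl⟩)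
  · rintro Y (hY | ⟨N, rfl⟩)
    · rw [Set.mem_singleton_iff] at hY
      subst hY
      refine ⟨QM.ind q.l q.g (MvPolynomial (Fin m) A), ?_, hind⟩
      refine Gd_ind _ _ ?_ ?_ (by rw [hmap, QD.map_l]) (by rw [hmap, QD.map_g])
      · intro s hs
        rw [hmap] at hs
        exact MvPolynomial.map_injective _ (IsFractionRing.injective A K)
          (hs.trans (map_zero _).symm)
      · intro x
        obtain ⟨⟨s, w⟩, hsw⟩ := IsLocalization.surj
          ((nonZeroDivisors A).map (C : A →+* MvPolynomial (Fin m) A)) x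
        exact ⟨w.1, w.2, s, (mul_comm _ _).trans hsw⟩
    · obtain ⟨N0, hN0⟩ := h2 A K m q (h3 A m q) N
      refine ⟨N0.phi, ?_, hphi N0⟩
      rw [hmap]
      exact hN0

end Pool.Agent.TQF
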