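import Pool.Agent.TQF.Basic
import Pool.Agent.Helper11.FFRPoly

/-!
# TQF, statements, part F: the theorem over a field

`T = F[X_0, …, X_m]`, `S = F[X_1, …, X_m]` (as `MvPolynomial (Fin (m+1)) F`, `MvPolynomial (Fin m) F`),
`dl F m : T → S` is `X_0 ↦ 1`, `X_{i+1} ↦ X_i`; `yv F m i = dl (X i)`.

Homogeneous vectors: with weights `a : ι → ℕ` a vector `v : ι → T` is homogeneous of degree `h`
(`HV a h v`) if every monomial `d` of `v i` satisfies `d.degree + a i = h`.
-/

set_option autoImplicit false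

namespace Pool.Agent.TQF

open Function MvPolynomial TensorProduct

section defs

variable {F : Type} [Field F] {m : ℕ} {ι κ : Type}

/-- homogeneous vectors -/
def HV (a : ι → ℕ) (h : ℕ) (v : ι → MvPolynomial (Fin (m + 1)) F) : Prop :=
  ∀ i d, (v i).coeff d ≠ 0 → d.degree + a i = h

/-- homogeneous matrices: the column `k` is homogeneous of degree `b k` -/
def HM (a : ι → ℕ) (b : κ → ℕ) (V : Matrix ι κ (MvPolynomial (Fin (m + 1)) F)) : Prop :=
  ∀ i k d, (V i k).coeff d ≠ 0 → d.degree + a i = b k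

/-- the homogeneous component of degree `h` of a vector -/
noncomputable def cp (a : ι → ℕ) (h : ℕ) (v : ι → MvPolynomial (Fin (m + 1)) F) :
    ι → MvPolynomial (Fin (m + 1)) F :=
  fun i => if a i ≤ h then homogeneousComponent (h - a i) (v i) else 0

/-- homogeneous submodules of `T ^ ι` -/
def HSub (a : ι → ℕ) (K : Submodule (MvPolynomial (Fin (m + 1)) F)
    (ι → MvPolynomial (Fin (m + 1)) F)) : Prop := ∀ v ∈ K, ∀ h, cp a h v ∈ K

/-- the dehomogenised submodule of `S ^ ι` -/
noncomputable def dK (K : Submodule (MvPolynomial (Fin (m + 1)) F)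
    (ι → MvPolynomial (Fin (m + 1)) F)) :
    Submodule (MvPolynomial (Fin m) F) (ι → MvPolynomial (Fin m) F) :=
  Submodule.span _ ((fun v i => dl F m (v i)) '' (K : Set (ι → MvPolynomial (Fin (m + 1)) F)))

/-- graded matrices with `Y ^ 2 + L Y + G = 0`, `Y` of degree one -/
structure Amb (q : QD F m) where
  ι : Type
  [fin : Fintype ι]
  [dec : DecidableEq ι]
  a : ι → ℕ
  Y : Matrix ι ι (MvPolynomial (Fin (m + 1)) F)
  hom : ∀ i j d, (Y i j).coeff d ≠ 0 → d.degree + a i = a j + 1
  rel : Y * Y + q.L • Y + q.G • (1 : Matrix ι ι (MvPolynomial (Fin (m + 1)) F)) = 0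

attribute [instance] Amb.fin Amb.dec

variable {q : QD F m}

theorem dl_mulVec [Fintype κ] (V : Matrix ι κ (MvPolynomial (Fin (m + 1)) F))
    (v : κ → MvPolynomial (Fin (m + 1)) F) :
    (fun i => dl F m (V.mulVec v i)) = (V.map (dl F m)).mulVec (fun k => dl F m (v k)) := by
  funext i
  simp only [Matrix.mulVec, dotProduct, map_sum, map_mul, Matrix.map_apply]

/-- the object `S ^ ι` with the endomorphism given by the dehomogenised matrix -/
noncomputable abbrev Amb.ob (M : Amb q) : QM q.l q.g where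
  carrier := M.ι → MvPolynomial (Fin m) F
  z := (M.Y.map (dl F m)).mulVecLin
  rel := fun x => by
    have h := congrArg (fun B : Matrix M.ι M.ι (MvPolynomial (Fin (m + 1)) F) => B.map (dl F m))
      M.rel
    have h1 : (M.Y.map (dl F m)) * (M.Y.map (dl F m)) + q.l • (M.Y.map (dl F m)) +
        q.g • (1 : Matrix M.ι M.ι (MvPolynomial (Fin m) F)) = 0 := by
      rw [← dl_L, ← dl_G]
      ext i j
      have h2 := congrArg (fun B : Matrix M.ι M.ι (MvPolynomial (Fin m) F) => B i j) h
      simp only [Matrix.map_apply, Matrix.add_apply, Matrix.mul_apply, Matrix.smul_apply,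
        smul_eq_mul, map_add, map_sum, map_mul, Matrix.zero_apply, map_zero] at h2 ⊢
      rw [← h2]
      congr 2
      by_cases hij : i = j
      · subst hij; simp only [Matrix.one_apply_eq, map_one]
      · simp only [Matrix.one_apply_ne hij, map_zero]
    have h2 := congrArg (fun B : Matrix M.ι M.ι (MvPolynomial (Fin m) F) => B.mulVec x) h1
    simp only [Matrix.add_mulVec, Matrix.smul_mulVec, Matrix.one_mulVec, Matrix.zero_mulVec,
      ← Matrix.mulVec_mulVec] at h2
    exact h2

theorem Amb.dK_stable (M : Amb q) (K : Submodule (MvPolynomial (Fin (m + 1)) F)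
    (M.ι → MvPolynomial (Fin (m + 1)) F)) (hK : ∀ v ∈ K, M.Y.mulVec v ∈ K) :
    ∀ x ∈ dK K, (M.Y.map (dl F m)).mulVecLin x ∈ dK K := by
  intro x hx
  unfold dK at hx
  induction hx using Submodule.span_induction with
  | mem x h =>
      obtain ⟨v, hv, rfl⟩ := h
      have : (M.Y.map (dl F m)).mulVecLin (fun i => dl F m (v i)) =
          fun i => dl F m (M.Y.mulVec v i) := (dl_mulVec M.Y v).symm
      rw [this]
      exact Submodule.subset_span ⟨_, hK v hv, rfl⟩
  | zero => rw [map_zero]; exact zero_mem _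
  | add x y _ _ hx hy => rw [map_add]; exact add_mem hx hy
  | smul r x _ hx => rw [map_smul]; exact Submodule.smul_mem _ _ hx

/-- the object given by a stable submodule of `T ^ ι` -/
noncomputable abbrev Amb.sb (M : Amb q) (K : Submodule (MvPolynomial (Fin (m + 1)) F)
    (M.ι → MvPolynomial (Fin (m + 1)) F)) (hK : ∀ v ∈ K, M.Y.mulVec v ∈ K) : QM q.l q.g :=
  haveI : Module.Finite (MvPolynomial (Fin m) F) (dK K) := by
    haveI : IsNoetherian (MvPolynomial (Fin m) F) (M.ι → MvPolynomial (Fin m) F) := inferInstance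
    exact Module.Finite.of_fg (IsNoetherian.noetherian (dK K))
  M.ob.sub (dK K) (M.dK_stable K hK)

end defs

/-- **F1a** (1.5 h). Linear matrices come from `CMod q`.
Proof. All degrees `a i` are equal, so every monomial of an entry of `Y` has degree one:
`Y i j = ∑_k C (H_k i j) X_k`, `H_k i j = coeff (single k 1) (Y i j)`. The relation becomes
`∑_{k,l} C (M_{kl} i j) X_k X_l = 0` with `M_{kl} = H_k H_l + λ_k H_l + γ_kl 1` (matrices over `F`);
comparing the coefficients of `X_k ^ 2` and of `X_k X_l` (`k ≠ l`) gives `M_kk = 0`,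
`M_kl + M_lk = 0`. So `N = F ^ ι` with `e_k = H_k.mulVecLin` is an object of `CMod q`, and
`TensorProduct.piScalarRight` (with `(F → S)`-structures: `S ⊗[F] (ι → F) ≃ₗ[S] (ι → S)`) is the
isomorphism; check compatibility on `s ⊗ (Pi.single j 1)` or `s ⊗ v`: both sides are
`∑_k y_k s (H_k v)_i`. -/
def St_F1a : Prop :=
  ∀ (F : Type) [Field F] (m : ℕ) (q : QD F m) (M : Amb q), (∀ i j, M.a i = M.a j) →
    ∃ (N : CMod q) (e : N.phi ≃ₗ[MvPolynomial (Fin m) F] M.ob), ∀ x, e (N.phi.z x) = M.ob.z (e x)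

/-- **F1b** (2.5 h). Splitting off a free summand of rank one.
Proof. `c := Y i0 j0` is a nonzero constant (its monomials `d` satisfy `d.degree + a i0 = a j0 + 1`, so
`d = 0`), `i0 ≠ j0`. Let `ι' = {i // i ≠ i0 ∧ i ≠ j0}`, `Y' i j = Y i j - C c⁻¹ Y i j0 Y i0 j`.
Degrees: if `d` is a monomial of `Y i j0 * Y i0 j` it is a sum `d1 + d2`,
`d1.degree + a i = a j0 + 1`, `d2.degree + a i0 = a j + 1`, so `d.degree + a i = a j + 1`.
Let `g : T ^ ι → T ^ ι'`, `g(v)_i = v_i - c⁻¹ Y i j0 v_i0` (and the same over `S`). With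
`Z i j = Y i j - c⁻¹ Y i j0 Y i0 j` for `i ∈ ι'` and ALL `j ∈ ι`: `Z i j0 = 0`, and
`∑_k Z i k Y k j0 = (Y²) i j0 - c⁻¹ Y i j0 (Y²) i0 j0 = -L Y i j0 + c⁻¹ Y i j0 L c = 0` because
`Y² = -L Y - G` and `i ≠ j0`, `i0 ≠ j0`. Hence `g (Y v) = Y' (g v)`:
`(g Y v)_i = ∑_j Z i j v_j` and `(Y' g v)_i = ∑_{k ∈ ι'} Z i k (v_k - c⁻¹ Y k j0 v_i0)`, and
`- c⁻¹ ∑_{k ∈ ι'} Z i k Y k j0 = c⁻¹ Z i i0 c = Z i i0` by the previous identity. As `g` is surjective
(over `T`) the relation for `Y'` follows from the one for `Y`. Over `S` the sequence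
`0 → S × S → S ^ ι → S ^ ι' → 0`, `(x, y) ↦ x e_j0 + y Y e_j0`, `g`, is exact: injective since the
coordinate `i0` is `c y` and the coordinate `j0` is `x + y Y j0 j0`; if `g(v) = 0` then
`v = (v_j0 - c⁻¹ v_i0 Y j0 j0) e_j0 + c⁻¹ v_i0 Y e_j0`. Compatible with `z`:
`z (x, y) = (-g y, x - l y)` (see `QM.ind`) and `Y (Y e_j0) = -L Y e_j0 - G e_j0`. -/
def St_F1b : Prop :=
  ∀ (F : Type) [Field F] (m : ℕ) (q : QD F m) (M : Amb q) (i0 j0 : M.ι),
    M.a i0 = M.a j0 + 1 → M.Y i0 j0 ≠ 0 →
    ∃ M' : Amb q, Fintype.card M'.ι < Fintype.card M.ι ∧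
      QM.Ses (QM.ind q.l q.g (MvPolynomial (Fin m) F)) M.ob M'.ob

/-- **F1c** (1.5 h). The block of smallest degree.
Proof. Let `D = {i // a i = a0}`, `a0` the minimum, `ι'` the complement. If `j ∈ D`, `i ∉ D` then
`Y i j = 0`: for a monomial `d`, `d.degree + a i = a0 + 1` and `a i > a0` give `a i = a0 + 1`, which
is excluded by `h`. So `Y` is block triangular; `M1` is the block on `D`, `M2` the block on `ι'`
(`Matrix.submatrix`), the relations hold blockwise, and `0 → S ^ D → S ^ ι → S ^ ι' → 0` is exact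
and compatible with `z`. -/
def St_F1c : Prop :=
  ∀ (F : Type) [Field F] (m : ℕ) (q : QD F m) (M : Amb q), Nonempty M.ι →
    (∀ i j, (∀ k, M.a j ≤ M.a k) → M.a i = M.a j + 1 → M.Y i j = 0) →
    ∃ M1 M2 : Amb q, (∀ i j, M1.a i = M1.a j) ∧ Fintype.card M2.ι < Fintype.card M.ι ∧
      QM.Ses M1.ob M.ob M2.ob

/-- **F1**, assembly of F1a, F1b, F1c by induction on the cardinality of `M.ι`. -/
def St_F1 : Prop :=
  ∀ (F : Type) [Field F] (m : ℕ) (q : QD F m) (P : QM q.l q.g → Prop), (qC q.l q.g).T3 P →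
    P (QM.ind q.l q.g (MvPolynomial (Fin m) F)) → (∀ N : CMod q, P N.phi) → ∀ M : Amb q, P M.ob

/-- **CP** (1.5 h). Calculus of homogeneous components. Proofs. Directly from
`MvPolynomial.coeff_homogeneousComponent`, `MvPolynomial.sum_homogeneousComponent`, ... . `mul`: compare
coefficients, or: it suffices (by additivity and `mulVec` = sum over `k`) to show
`cp a h (c • V_k) = (if b k ≤ h then homogeneousComponent (h - b k) c else 0) • V_k` for a
homogeneous vector `V_k` of degree `b k` and a polynomial `c`; decompose `c` into homogeneous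
components. -/
structure St_CP : Prop where
  hv : ∀ (F : Type) [Field F] (m : ℕ) (ι : Type) (a : ι → ℕ) (h : ℕ)
    (v : ι → MvPolynomial (Fin (m + 1)) F), HV a h (cp a h v)
  self : ∀ (F : Type) [Field F] (m : ℕ) (ι : Type) (a : ι → ℕ) (h : ℕ)
    (v : ι → MvPolynomial (Fin (m + 1)) F), HV a h v → cp a h v = v
  ne : ∀ (F : Type) [Field F] (m : ℕ) (ι : Type) (a : ι → ℕ) (h h' : ℕ)
    (v : ι → MvPolynomial (Fin (m + 1)) F), HV a h v → h' ≠ h → cp a h' v = 0
  add : ∀ (F : Type) [Field F] (m : ℕ) (ι : Type) (a : ι → ℕ) (h : ℕ)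
    (v w : ι → MvPolynomial (Fin (m + 1)) F), cp a h (v + w) = cp a h v + cp a h w
  sum : ∀ (F : Type) [Field F] (m : ℕ) (ι : Type) [Finite ι] (a : ι → ℕ)
    (v : ι → MvPolynomial (Fin (m + 1)) F), ∃ N : ℕ, ∀ N' ≥ N, ∑ h ∈ Finset.range N', cp a h v = v
  mul : ∀ (F : Type) [Field F] (m : ℕ) (ι κ : Type) [Fintype κ] (a : ι → ℕ) (b : κ → ℕ)
    (V : Matrix ι κ (MvPolynomial (Fin (m + 1)) F)), HM a b V → ∀ (h : ℕ)
    (c : κ → MvPolynomial (Fin (m + 1)) F), cp a h (V.mulVec c) = V.mulVec (cp b h c)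
  hvmul : ∀ (F : Type) [Field F] (m : ℕ) (ι κ : Type) [Fintype κ] (a : ι → ℕ) (b : κ → ℕ)
    (V : Matrix ι κ (MvPolynomial (Fin (m + 1)) F)), HM a b V → ∀ (h : ℕ)
    (c : κ → MvPolynomial (Fin (m + 1)) F), HV b h c → HV a h (V.mulVec c)

/-- **DL** (1.5 h). Dehomogenisation and homogenisation of vectors.
`inj`: on polynomials all of whose monomials have the same degree `n` the map `X_0 ↦ 1` is injective:
the coefficient of `e : Fin m →₀ ℕ` in `dl p` is the coefficient of the unique `d` with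
`d.degree = n` and tail `e` (`d = Finsupp.cons (n - e.degree) e`). E.g. show
`dl (monomial d c) = monomial (tail d) c` and that `tail` is injective on the support of `p`.
`lift`: the monomial `e` is lifted to `Finsupp.cons (h - a i - e.degree) e` if
`h ≥ a i + e.degree`; by linearity every polynomial of total degree `≤ h - a i` is lifted. Take `h0`
the maximum of the `a i + totalDegree (w i)`. -/
structure St_DL : Prop where
  inj : ∀ (F : Type) [Field F] (m : ℕ) (ι : Type) (a : ι → ℕ) (h : ℕ)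
    (v : ι → MvPolynomial (Fin (m + 1)) F), HV a h v → (∀ i, dl F m (v i) = 0) → v = 0
  lift : ∀ (F : Type) [Field F] (m : ℕ) (ι : Type) [Finite ι] (a : ι → ℕ)
    (w : ι → MvPolynomial (Fin m) F), ∃ h0 : ℕ, ∀ h ≥ h0,
      ∃ v : ι → MvPolynomial (Fin (m + 1)) F, HV a h v ∧ ∀ i, dl F m (v i) = w i

/-- **HG** (1 h), with the hypothesis `St_CP`. Homogeneous submodules have finite homogeneous
generating families. Proof. `T ^ ι` is noetherian, `K` is spanned by a finite set; replace every
generator by its finitely many nonzero homogeneous components (`St_CP.sum`), which lie in `K`. Index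
them by `Fin r` and let `V` have these columns (`range V.mulVecLin` is the span of the columns,
`Matrix.range_mulVecLin`). -/
def St_HG : Prop :=
  ∀ (F : Type) [Field F] (m : ℕ) (ι : Type) [Fintype ι] (a : ι → ℕ)
    (K : Submodule (MvPolynomial (Fin (m + 1)) F) (ι → MvPolynomial (Fin (m + 1)) F)),
    HSub a K → ∃ (r : ℕ) (b : Fin r → ℕ) (V : Matrix ι (Fin r) (MvPolynomial (Fin (m + 1)) F)),
      HM a b V ∧ LinearMap.range V.mulVecLin = K

/-- **PB** (2.5 h), with the hypotheses `St_CP`, `St_HG`. Homogeneous bases of homogeneous projective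
submodules. Proof. Choose `r, b, V` as in `St_HG` with `r` minimal. Let `L = ker V.mulVecLin`,
homogeneous for the weights `b` (`St_CP.mul`).
(1) Every `x ∈ L` has all `constantCoeff (x k) = 0`. Otherwise the homogeneous component
`y = cp b (b k) x ∈ L` has `y k` of degree `0`, a nonzero constant `c`, and
`V_k = -c⁻¹ ∑_{j ≠ k} y_j V_j`, so the column `V_k` can be omitted, contradicting minimality.
(2) `K` is projective, so `V.mulVecLin : T ^ r → K` has a section and there is a linear map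
`e : T ^ r → T ^ r` with image in `L` and `e x = x` for `x ∈ L`. By (1) every `x ∈ L` is
`∑_i X_i t_i` with `t_i ∈ T ^ r` (a polynomial with zero constant coefficient lies in the ideal
spanned by the variables), so `x = e x = ∑ X_i e(t_i)` with `e(t_i) ∈ L`.
(3) `L = 0`: if not, there is a homogeneous `x ≠ 0` in `L` (`St_CP.sum`), choose its degree `h`
minimal. `x = cp b h x = ∑_i cp b h (X_i l_i)`, `l_i ∈ L`, and `cp b h (X_i l_i) = X_i cp b (h-1) l_i`
if `h ≥ 1` and `0` if `h = 0` (from the definition or from `St_CP.sum`, `St_CP.self`, `St_CP.ne`). By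
minimality `cp b (h-1) l_i = 0`, so `x = 0`. So `V.mulVecLin` is injective. -/
def St_PB : Prop :=
  ∀ (F : Type) [Field F] (m : ℕ) (ι : Type) [Fintype ι] (a : ι → ℕ)
    (K : Submodule (MvPolynomial (Fin (m + 1)) F) (ι → MvPolynomial (Fin (m + 1)) F)),
    HSub a K → Module.Projective (MvPolynomial (Fin (m + 1)) F) K →
    ∃ (r : ℕ) (b : Fin r → ℕ) (V : Matrix ι (Fin r) (MvPolynomial (Fin (m + 1)) F)),
      HM a b V ∧ LinearMap.range V.mulVecLin = K ∧ Injective V.mulVecLin

/-- **Prj** (2 h), with the hypotheses `St_CP`, `St_DL`, `St_PB`. Proof. Let `V` be as in `St_PB` for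
`K`. For every `k` the vector `Y V_k ∈ K` is homogeneous of degree `b k + 1`, so `Y V_k = V y_k` for
some `y_k : Fin r → T`, and `V (cp b (b k + 1) y_k) = cp a (b k + 1) (Y V_k) = Y V_k`, so by
injectivity `y_k = cp b (b k + 1) y_k` is homogeneous. Let `Y'` be the matrix with columns `y_k`:
`Y V = V Y'` and `V (Y' Y' + L Y' + G) = (Y Y + L Y + G) V = 0`, so the relation holds for `Y'` by
injectivity. `M' = (Fin r, b, Y')`. The isomorphism: `S ^ r → S ^ ι`, `c ↦ (V.map dl) c`; its image
is `dK K` (`dl_mulVec`; `dl` is surjective); injective: if `(V.map dl) c = 0` lift `c` to a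
homogeneous vector `c'` of some degree `h` (`St_DL.lift`); `V c'` is homogeneous and
`dl (V c') = 0`, so `V c' = 0` by `St_DL.inj`, so `c' = 0`, `c = 0`. Compatible with `z` since
`Y V = V Y'`. -/
def St_Prj : Prop :=
  ∀ (F : Type) [Field F] (m : ℕ) (q : QD F m) (M : Amb q)
    (K : Submodule (MvPolynomial (Fin (m + 1)) F) (M.ι → MvPolynomial (Fin (m + 1)) F))
    (hK : ∀ v ∈ K, M.Y.mulVec v ∈ K), HSub M.a K →
    Module.Projective (MvPolynomial (Fin (m + 1)) F) K →
    ∃ (M' : Amb q) (e : M'.ob ≃ₗ[MvPolynomial (Fin m) F] M.sb K hK),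
      ∀ x, e (M'.ob.z x) = (M.sb K hK).z (e x)

/-- **Cmp** (1.5 h). The companion object: for weights `b : Fin r → ℕ` the matrix on
`Fin r × Fin 2` with weights `(b k, b k + 1)` and `Y (x, y) = (-G y, x - L y)`, i.e.
`Y (k,1) (k,0) = 1`, `Y (k,0) (k,1) = -G`, `Y (k,1) (k,1) = -L`, other entries `0`. The second claim:
`M.ob ≅ QM.ind (S ^ r)` has a filtration with `r` quotients `QM.ind S`; e.g. by induction on `r` show
`P (QM.ind q.l q.g (Fin r → S))`, using the exact sequence
`0 → S ^ r → S ^ (r+1) → S → 0` (`r = 0`: zero object). `col k ε` is the index of the basis vector;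
the last two claims describe `Y` on vectors. -/
def St_Cmp : Prop :=
  ∀ (F : Type) [Field F] (m : ℕ) (q : QD F m) (r : ℕ) (b : Fin r → ℕ),
    ∃ (M : Amb q) (E : M.ι ≃ Fin r × Fin 2), (∀ i, M.a i = b (E i).1 + ((E i).2 : ℕ)) ∧
      (∀ P : QM q.l q.g → Prop, (qC q.l q.g).T3 P →
        P (QM.ind q.l q.g (MvPolynomial (Fin m) F)) → P M.ob) ∧
      (∀ (v : M.ι → MvPolynomial (Fin (m + 1)) F) (k : Fin r),
        M.Y.mulVec v (E.symm (k, 0)) = -(q.G * v (E.symm (k, 1)))) ∧
      (∀ (v : M.ι → MvPolynomial (Fin (m + 1)) F) (k : Fin r),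
        M.Y.mulVec v (E.symm (k, 1)) = v (E.symm (k, 0)) - q.L * v (E.symm (k, 1)))

/-- **Cov** (2.5 h), with the hypotheses `St_CP`, `St_DL`, `St_HG`, `St_Cmp`. Covering a stable
homogeneous submodule. Proof. Let `r, b, V` be as in `St_HG` for `K`, `M'` as in `St_Cmp` for `b`. Let
`W : Matrix M.ι M'.ι T` have the columns `W_(k,0) = V_k` and `W_(k,1) = Y V_k` (homogeneous of degree
`b k`, `b k + 1`), i.e. `W i j = if (E j).2 = 0 then V i (E j).1 else (Y * V) i (E j).1`. Then
`HM M.a M'.a W`, `range W.mulVecLin = K` (`K` is stable under `Y`), and `W (Y' v) = Y (W v)`: with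
`W v = ∑ v_(k,0) V_k + v_(k,1) Y V_k` and `Y Y V_k = -L Y V_k - G V_k`. `K' = ker W.mulVecLin`:
stable, homogeneous (`St_CP.mul`). `p = W.mulVecLin` with values in `K`. Exactness of
`0 → dK K' → S ^ ι' → dK K → 0` (maps: inclusion and `W.map dl`): surjective since `dl` is
surjective and `range W = K` (`dl_mulVec`); composition zero; if `(W.map dl) c = 0` lift `c` to a
homogeneous `c'` (`St_DL.lift`), `W c'` is homogeneous with `dl (W c') = 0`, so `W c' = 0` by
`St_DL.inj` and `c ∈ dK K'`. -/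
def St_Cov : Prop :=
  ∀ (F : Type) [Field F] (m : ℕ) (q : QD F m) (M : Amb q)
    (K : Submodule (MvPolynomial (Fin (m + 1)) F) (M.ι → MvPolynomial (Fin (m + 1)) F))
    (hK : ∀ v ∈ K, M.Y.mulVec v ∈ K), HSub M.a K →
    ∃ (M' : Amb q) (K' : Submodule (MvPolynomial (Fin (m + 1)) F)
        (M'.ι → MvPolynomial (Fin (m + 1)) F)) (hK' : ∀ v ∈ K', M'.Y.mulVec v ∈ K'),
      HSub M'.a K' ∧
      (∀ P : QM q.l q.g → Prop, (qC q.l q.g).T3 P →
        P (QM.ind q.l q.g (MvPolynomial (Fin m) F)) → P M'.ob) ∧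
      QM.Ses (M'.sb K' hK') M'.ob (M.sb K hK) ∧
      ∃ p : (M'.ι → MvPolynomial (Fin (m + 1)) F) →ₗ[MvPolynomial (Fin (m + 1)) F] K,
        Surjective p ∧ LinearMap.ker p = K'

/-- **Prs** (2 h), with the hypotheses `St_CP`, `St_DL`, `St_Cmp`. Presentation of an object. Proof. Let
`x_1, …, x_r` generate `X`, `b = 0`, `M` as in `St_Cmp`. The map `π : S ^ ι → X`,
`π c = ∑ c_(k,0) x_k + c_(k,1) z x_k` is surjective and compatible with `z`. Let `w_1, …, w_t`
generate its kernel `N` (`S` is noetherian), lift them to homogeneous vectors `v_j` (`St_DL.lift`),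
and let `K` be the `T`-span of all `v_j` and `Y v_j`. It is stable under `Y`
(`Y Y v = -L Y v - G v`), homogeneous (a span of homogeneous vectors: by `St_CP.mul` for the matrix
with these columns), and `dK K = N` (`dl (Y v_j) = z w_j ∈ N`). -/
def St_Prs : Prop :=
  ∀ (F : Type) [Field F] (m : ℕ) (q : QD F m) (X : QM q.l q.g),
    ∃ (M : Amb q) (K : Submodule (MvPolynomial (Fin (m + 1)) F)
        (M.ι → MvPolynomial (Fin (m + 1)) F)) (hK : ∀ v ∈ K, M.Y.mulVec v ∈ K),
      HSub M.a K ∧
      (∀ P : QM q.l q.g → Prop, (qC q.l q.g).T3 P →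
        P (QM.ind q.l q.g (MvPolynomial (Fin m) F)) → P M.ob) ∧
      QM.Ses (M.sb K hK) M.ob X

/-- projective dimension at most `n` -/
def Pd (T : Type) [CommRing T] (n : ℕ) (M : Type) [AddCommGroup M] [Module T M] : Prop :=
  CategoryTheory.HasProjectiveDimensionLT (ModuleCat.of T M) (n + 1)

/-- **Pd** (1.5 h). Projective dimension over polynomial rings over fields. `ex`: `AllFFR` holds for
`MvPolynomial (Fin n) F` (`Pool/Agent/Helper11/FFRPoly.lean`: a field is a principal ideal domain,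
`AllFFR.pid`, `AllFFR.polynomial`, and the induction as in `AllFFR.mvPolynomial_fin`), and `FFR n M`
implies `Pd T n M` by induction on `n` with
`CategoryTheory.ShortComplex.ShortExact.hasProjectiveDimensionLT_X₃` (free modules are projective
objects). `zero`: `HasProjectiveDimensionLT X 1` is `Projective X`, and
`ModuleCat`-projective is projective (`IsProjective.iff_projective`). `step`: the short exact sequence
`0 → ker p → T ^ ι → M → 0` (`ShortExact.hasProjectiveDimensionLT_X₃_iff` or the corresponding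
implication for `X₁`; the middle term is projective). -/
structure St_Pd : Prop where
  ex : ∀ (F : Type) [Field F] (m : ℕ) (M : Type) [AddCommGroup M]
    [Module (MvPolynomial (Fin m) F) M] [Module.Finite (MvPolynomial (Fin m) F) M],
    ∃ n, Pd (MvPolynomial (Fin m) F) n M
  zero : ∀ (T : Type) [CommRing T] (M : Type) [AddCommGroup M] [Module T M], Pd T 0 M →
    Module.Projective T M
  step : ∀ (T : Type) [CommRing T] (M : Type) [AddCommGroup M] [Module T M] (ι : Type) [Finite ι]
    (p : (ι → T) →ₗ[T] M) (n : ℕ), Surjective p → Pd T (n + 1) M → Pd T n (LinearMap.ker p)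

/-- **F**, the theorem over a field; assembly. -/
def St_F : Prop :=
  ∀ (F : Type) [Field F] (m : ℕ) (q : QD F m) (P : QM q.l q.g → Prop), (qC q.l q.g).T3 P →
    P (QM.ind q.l q.g (MvPolynomial (Fin m) F)) → (∀ N : CMod q, P N.phi) → ∀ X, P X

end Pool.Agent.TQF
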