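import Pool.Agent.TQF.StG
import Pool.Agent.TQF.StF

/-!
# TQF, Gm: noetherian induction

Restriction of the objects of `QM` along a surjective ring homomorphism, and the reduction of the
general case to the case of a domain.
-/

set_option autoImplicit false

namespace Pool.Agent.TQF

open Function MvPolynomial TensorProduct

/-! ### restriction -/

section Res

variable {S S' : Type} [CommRing S] [CommRing S']

/-- `X` is the restriction of `Y` along `φ` -/
def GmRes (φ : S →+* S') {l g : S} {l' g' : S'} (X : QM l g) (Y : QM l' g') : Prop :=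
  ∃ e : X.carrier ≃+ Y.carrier, (∀ (s : S) (x : X.carrier), e (s • x) = φ s • e x) ∧
    ∀ x : X.carrier, e (X.z x) = Y.z (e x)

theorem Gm_fin {φ : S →+* S'} (hφ : Surjective φ) (N : Type) [AddCommGroup N] [Module S N]
    [Module S' N] [Module.Finite S' N] (h : ∀ (s : S) (x : N), s • x = φ s • x) :
    Module.Finite S N := by
  obtain ⟨s, hs⟩ := (inferInstance : Module.Finite S' N).fg_top
  refine ⟨⟨s, ?_⟩⟩
  rw [eq_top_iff]
  rintro x -
  have hx : x ∈ Submodule.span S' (s : Set N) := by rw [hs]; trivial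
  induction hx using Submodule.span_induction with
  | mem x h => exact Submodule.subset_span h
  | zero => exact Submodule.zero_mem _
  | add x y _ _ hx hy => exact Submodule.add_mem _ hx hy
  | smul r x _ hx =>
      obtain ⟨t, rfl⟩ := hφ r
      rw [← h]
      exact Submodule.smul_mem (Submodule.span S (s : Set N)) t hx

theorem Gm_exists {φ : S →+* S'} (hφ : Surjective φ) {l g : S} {l' g' : S'} (hl : l' = φ l)
    (hg : g' = φ g) (Y : QM l' g') : ∃ X : QM l g, GmRes φ X Y := by
  subst hl hg
  letI : Module S Y.carrier := Module.compHom Y.carrier φ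
  have hs : ∀ (s : S) (x : Y.carrier), s • x = φ s • x := fun _ _ => rfl
  haveI : Module.Finite S Y.carrier := Gm_fin hφ Y.carrier hs
  exact ⟨{ carrier := Y.carrier
           z := { toFun := Y.z
                  map_add' := map_add Y.z
                  map_smul' := fun s x => by rw [hs, map_smul]; rfl }
           rel := fun x => Y.rel x }, AddEquiv.refl _, fun _ _ => rfl, fun _ => rfl⟩

theorem Gm_unique {φ : S →+* S'} {l g : S} {l' g' : S'} {P : QM l g → Prop}
    (hP : (qC l g).T3 P) {X X' : QM l g} {Y : QM l' g'} (h : GmRes φ X Y) (h' : GmRes φ X' Y)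
    (hX : P X) : P X' := by
  obtain ⟨e, he, hz⟩ := h
  obtain ⟨e', he', hz'⟩ := h'
  refine QM.t3_iso hP (X := X) (Y := X')
    { e.trans e'.symm with
      map_smul' := fun s x => ?_ } (fun x => ?_) hX
  · show e'.symm (e (s • x)) = s • e'.symm (e x)
    apply e'.injective
    rw [he', e'.apply_symm_apply, e'.apply_symm_apply, he]
  · show e'.symm (e (X.z x)) = X'.z (e'.symm (e x))
    apply e'.injective
    rw [hz', e'.apply_symm_apply, e'.apply_symm_apply, hz]

theorem Gm_desc {φ : S →+* S'} (hφ : Surjective φ) {l g : S} {l' g' : S'} (hl : l' = φ l)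
    (hg : g' = φ g) (X : QM l g) (h : ∀ s : S, φ s = 0 → ∀ x : X.carrier, s • x = 0) :
    ∃ Y : QM l' g', GmRes φ X Y := by
  let sec : S' → S := surjInv hφ
  have hsec : ∀ r, φ (sec r) = r := surjInv_eq hφ
  have key : ∀ (s t : S) (x : X.carrier), φ s = φ t → s • x = t • x := by
    intro s t x hst
    rw [← sub_eq_zero, ← sub_smul]
    exact h _ (by rw [map_sub, hst, sub_self]) x
  letI : SMul S' X.carrier := ⟨fun r x => sec r • x⟩
  have hs : ∀ (r : S') (x : X.carrier), r • x = sec r • x := fun _ _ => rfl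
  letI : Module S' X.carrier :=
    { one_smul := fun x => by rw [hs, key (sec 1) 1 x (by rw [hsec, map_one]), one_smul]
      mul_smul := fun a b x => by
        rw [hs, hs, hs, ← mul_smul]
        exact key _ _ _ (by rw [map_mul, hsec, hsec, hsec])
      smul_zero := fun a => by rw [hs, smul_zero]
      smul_add := fun a x y => by rw [hs, hs, hs, smul_add]
      add_smul := fun a b x => by
        rw [hs, hs, hs, ← add_smul]
        exact key _ _ _ (by rw [map_add, hsec, hsec, hsec])
      zero_smul := fun x => by rw [hs, key (sec 0) 0 x (by rw [hsec, map_zero]), zero_smul] }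
  have hsm : ∀ (s : S) (x : X.carrier), s • x = φ s • x := fun s x => by
    rw [hs]
    exact key _ _ _ (by rw [hsec])
  haveI : Module.Finite S' X.carrier := by
    obtain ⟨s, hs'⟩ := (inferInstance : Module.Finite S X.carrier).fg_top
    refine ⟨⟨s, ?_⟩⟩
    rw [eq_top_iff]
    rintro x -
    have hx : x ∈ Submodule.span S (s : Set X.carrier) := by rw [hs']; trivial
    induction hx using Submodule.span_induction with
    | mem x h => exact Submodule.subset_span h
    | zero => exact Submodule.zero_mem _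
    | add x y _ _ hx hy => exact Submodule.add_mem _ hx hy
    | smul r x _ hx =>
        rw [hsm]
        exact Submodule.smul_mem (Submodule.span S' (s : Set X.carrier)) _ hx
  exact ⟨{ carrier := X.carrier
           z := { toFun := X.z
                  map_add' := map_add X.z
                  map_smul' := fun r x => by rw [hs, map_smul, RingHom.id_apply, hs] }
           rel := fun x => by
             have := X.rel x
             rw [hsm, hsm g] at this
             rw [hl, hg]
             exact this }, AddEquiv.refl _, hsm, fun _ => rfl⟩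

theorem Gm_ses {φ : S →+* S'} {l g : S} {l' g' : S'} {X₁ X₂ X₃ : QM l g} {Y₁ Y₂ Y₃ : QM l' g'}
    (h₁ : GmRes φ X₁ Y₁) (h₂ : GmRes φ X₂ Y₂) (h₃ : GmRes φ X₃ Y₃) (h : QM.Ses Y₁ Y₂ Y₃) :
    QM.Ses X₁ X₂ X₃ := by
  obtain ⟨e₁, he₁, hz₁⟩ := h₁
  obtain ⟨e₂, he₂, hz₂⟩ := h₂
  obtain ⟨e₃, he₃, hz₃⟩ := h₃
  obtain ⟨f, k, hf, hk, hfk, hfz, hkz⟩ := h
  refine ⟨{ toFun := fun x => e₂.symm (f (e₁ x))
            map_add' := fun x y => by rw [map_add, map_add, map_add]
            map_smul' := fun s x => ?_ },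
    { toFun := fun x => e₃.symm (k (e₂ x))
      map_add' := fun x y => by rw [map_add, map_add, map_add]
      map_smul' := fun s x => ?_ }, ?_, ?_, ?_, ?_, ?_⟩
  · apply e₂.injective
    rw [RingHom.id_apply, he₂, e₂.apply_symm_apply, e₂.apply_symm_apply, he₁, map_smul]
  · apply e₃.injective
    rw [RingHom.id_apply, he₃, e₃.apply_symm_apply, e₃.apply_symm_apply, he₂, map_smul]
  · intro x y hxy
    exact e₁.injective (hf (e₂.symm.injective hxy))
  · intro x
    obtain ⟨y, hy⟩ := hk (e₃ x)
    refine ⟨e₂.symm y, ?_⟩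
    show e₃.symm (k (e₂ (e₂.symm y))) = x
    rw [e₂.apply_symm_apply, hy, e₃.symm_apply_apply]
  · intro x
    show e₃.symm (k (e₂ x)) = 0 ↔ ∃ y, e₂.symm (f (e₁ y)) = x
    rw [e₃.symm.map_eq_zero_iff, hfk (e₂ x)]
    constructor
    · rintro ⟨y, hy⟩
      refine ⟨e₁.symm y, ?_⟩
      rw [e₁.apply_symm_apply, hy, e₂.symm_apply_apply]
    · rintro ⟨y, rfl⟩
      exact ⟨e₁ y, by rw [e₂.apply_symm_apply]⟩
  · intro x
    show e₂.symm (f (e₁ (X₁.z x))) = X₂.z (e₂.symm (f (e₁ x)))
    apply e₂.injective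
    rw [hz₂, e₂.apply_symm_apply, e₂.apply_symm_apply, hz₁, hfz]
  · intro x
    show e₃.symm (k (e₂ (X₂.z x))) = X₃.z (e₃.symm (k (e₂ x)))
    apply e₃.injective
    rw [hz₃, e₃.apply_symm_apply, e₃.apply_symm_apply, hz₂, hkz]

theorem Gm_t3 {φ : S →+* S'} (hφ : Surjective φ) {l g : S} {l' g' : S'} (hl : l' = φ l)
    (hg : g' = φ g) {P : QM l g → Prop} (hP : (qC l g).T3 P) :
    (qC l' g').T3 (fun Y : QM l' g' => ∀ X : QM l g, GmRes φ X Y → P X) where
  zero Y hY X h := by
    obtain ⟨e, -, -⟩ := h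
    haveI : Subsingleton Y.carrier := hY
    exact hP.zero X (e.injective.subsingleton : Subsingleton X.carrier)
  ext Y₁ Y₂ Y₃ h h₁ h₃ X₂ hX₂ := by
    obtain ⟨X₁, hX₁⟩ := Gm_exists hφ hl hg Y₁
    obtain ⟨X₃, hX₃⟩ := Gm_exists hφ hl hg Y₃
    exact hP.ext _ _ _ (Gm_ses hX₁ hX₂ hX₃ h) (h₁ _ hX₁) (h₃ _ hX₃)
  coker Y₁ Y₂ Y₃ h h₁ h₂ X₃ hX₃ := by
    obtain ⟨X₁, hX₁⟩ := Gm_exists hφ hl hg Y₁
    obtain ⟨X₂, hX₂⟩ := Gm_exists hφ hl hg Y₂
    exact hP.coker _ _ _ (Gm_ses hX₁ hX₂ hX₃ h) (h₁ _ hX₁) (h₂ _ hX₂)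
  ker Y₁ Y₂ Y₃ h h₂ h₃ X₁ hX₁ := by
    obtain ⟨X₂, hX₂⟩ := Gm_exists hφ hl hg Y₂
    obtain ⟨X₃, hX₃⟩ := Gm_exists hφ hl hg Y₃
    exact hP.ker _ _ _ (Gm_ses hX₁ hX₂ hX₃ h) (h₂ _ hX₂) (h₃ _ hX₃)

theorem Gm_ind {φ : S →+* S'} {l g : S} {l' g' : S'} (hl : l' = φ l) (hg : g' = φ g)
    (M M' : Type) [AddCommGroup M] [Module S M] [Module.Finite S M] [AddCommGroup M']
    [Module S' M'] [Module.Finite S' M'] (e : M ≃+ M')
    (he : ∀ (s : S) (x : M), e (s • x) = φ s • e x) :
    GmRes φ (QM.ind l g M) (QM.ind l' g' M') := by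
  subst hl hg
  refine ⟨AddEquiv.prodCongr e e, fun s x => ?_, fun x => ?_⟩
  · exact Prod.ext (he s x.1) (he s x.2)
  · refine Prod.ext ?_ ?_
    · show e (-(g • x.2)) = -(φ g • e x.2)
      rw [map_neg, he]
    · show e (x.1 - l • x.2) = e x.1 - φ l • e x.2
      rw [map_sub, he]

end Res

/-! ### base change of polynomial modules -/

section Pol

variable {A A' : Type} [CommRing A] [CommRing A'] {m : ℕ}

theorem Gm_tensor (π : A →+* A') (m : ℕ) (N N' : Type) [AddCommGroup N] [Module A N]
    [AddCommGroup N'] [Module A' N'] (f : N ≃+ N') (hf : ∀ (a : A) (n : N), f (a • n) = π a • f n) :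
    ∃ e : MvPolynomial (Fin m) A ⊗[A] N ≃+ MvPolynomial (Fin m) A' ⊗[A'] N',
      ∀ (p : MvPolynomial (Fin m) A) (n : N),
        e (p ⊗ₜ[A] n) = (MvPolynomial.map π p) ⊗ₜ[A'] (f n) := by
  let e₁ := TensorProduct.equivFinsuppOfBasisLeft (N := N) (MvPolynomial.basisMonomials (Fin m) A)
  let e₂ := TensorProduct.equivFinsuppOfBasisLeft (N := N') (MvPolynomial.basisMonomials (Fin m) A')
  let e₃ : ((Fin m →₀ ℕ) →₀ N) ≃+ ((Fin m →₀ ℕ) →₀ N') := Finsupp.mapRange.addEquiv f
  refine ⟨(e₁.toAddEquiv.trans e₃).trans e₂.toAddEquiv.symm, fun p n => ?_⟩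
  show e₂.symm (e₃ (e₁ (p ⊗ₜ[A] n))) = _
  apply e₂.injective
  rw [e₂.apply_symm_apply]
  ext d
  show f (e₁ (p ⊗ₜ[A] n) d) = e₂ _ d
  rw [TensorProduct.equivFinsuppOfBasisLeft_apply_tmul_apply,
    TensorProduct.equivFinsuppOfBasisLeft_apply_tmul_apply, hf]
  have h : (basisMonomials (Fin m) A').repr (MvPolynomial.map π p) d =
      π ((basisMonomials (Fin m) A).repr p d) := coeff_map π p d
  rw [h]

theorem Gm_tensor_smul (π : A →+* A') (N N' : Type) [AddCommGroup N] [Module A N]
    [AddCommGroup N'] [Module A' N'] (f : N → N')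
    (e : MvPolynomial (Fin m) A ⊗[A] N ≃+ MvPolynomial (Fin m) A' ⊗[A'] N')
    (he : ∀ (p : MvPolynomial (Fin m) A) (n : N),
        e (p ⊗ₜ[A] n) = (MvPolynomial.map π p) ⊗ₜ[A'] (f n))
    (s : MvPolynomial (Fin m) A) (x : MvPolynomial (Fin m) A ⊗[A] N) :
    e (s • x) = MvPolynomial.map π s • e x := by
  induction x using TensorProduct.induction_on with
  | zero => rw [smul_zero, map_zero, smul_zero]
  | add x y hx hy => rw [smul_add, map_add, hx, hy, map_add, smul_add]
  | tmul p n =>
      rw [TensorProduct.smul_tmul', smul_eq_mul, he, he, map_mul, TensorProduct.smul_tmul',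
        smul_eq_mul]

theorem Gm_phi {π : A →+* A'} (hπ : Surjective π) (q : QD A m) (N : CMod (q.map π)) :
    ∃ N0 : CMod q, GmRes (MvPolynomial.map π) N0.phi N.phi := by
  letI : Module A N.carrier := Module.compHom N.carrier π
  have hs : ∀ (s : A) (x : N.carrier), s • x = π s • x := fun _ _ => rfl
  haveI : Module.Finite A N.carrier := Gm_fin hπ N.carrier hs
  let N0 : CMod q :=
    { carrier := N.carrier
      e := fun i =>
        { toFun := N.e i
          map_add' := map_add (N.e i)
          map_smul' := fun s x => by rw [hs, map_smul]; rfl }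
      rel1 := fun i x => N.rel1 i x
      rel2 := fun i j hij x => by
        have h := N.rel2 i j hij x
        have h' : (q.map π).gam i j + (q.map π).gam j i = π (q.gam i j + q.gam j i) :=
          (map_add π _ _).symm
        rw [h'] at h
        exact h }
  obtain ⟨e, he⟩ := Gm_tensor π m N0.carrier N.carrier (AddEquiv.refl _) (fun _ _ => rfl)
  refine ⟨N0, e, Gm_tensor_smul π N0.carrier N.carrier _ e he, fun x => ?_⟩
  show e (N0.phiz x) = N.phiz (e x)
  induction x using TensorProduct.induction_on with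
  | zero => rw [map_zero, map_zero, map_zero]
  | add x y hx hy => rw [map_add, map_add, hx, hy, map_add, map_add]
  | tmul p n =>
      rw [he, CMod.phiz_tmul, CMod.phiz_tmul, map_sum]
      refine Finset.sum_congr rfl fun i _ => ?_
      rw [he, map_mul, yv_map]
      rfl

end Pol

/-! ### the induction -/

theorem thm_Gm (h1 : St_Gd) (h2 : St_F) : St_Gm := by
  intro A _ _ m q P hP hM hN
  have key : ∀ I : Ideal A, ∀ X : QM q.l q.g,
      I ≤ (Module.annihilator (MvPolynomial (Fin m) A) X.carrier).comap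
        (C : A →+* MvPolynomial (Fin m) A) → P X := by
    refine fun I₀ => IsNoetherian.induction (R := A) (M := A)
      (P := fun I : Ideal A => ∀ X : QM q.l q.g,
        I ≤ (Module.annihilator (MvPolynomial (Fin m) A) X.carrier).comap
          (C : A →+* MvPolynomial (Fin m) A) → P X) (fun (I : Ideal A) ih X hX => ?_) I₀
    have hX' : ∀ a ∈ I, ∀ x : X.carrier, (C a : MvPolynomial (Fin m) A) • x = 0 := fun a ha x =>
      Module.mem_annihilator.1 (Ideal.mem_comap.1 (hX ha)) x
    by_cases htop : I = ⊤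
    · refine hP.zero X (?_ : Subsingleton X.carrier)
      refine ⟨fun x y => ?_⟩
      have h0 : ∀ x : X.carrier, x = 0 := fun x => by
        have := hX' 1 (by rw [htop]; trivial) x
        rwa [map_one, one_smul] at this
      rw [h0 x, h0 y]
    by_cases hprime : Ideal.IsPrime I
    · let π : A →+* A ⧸ I := Ideal.Quotient.mk I
      have hπ : Surjective π := Ideal.Quotient.mk_surjective
      have hψ : Surjective (MvPolynomial.map (σ := Fin m) π) := MvPolynomial.map_surjective π hπ
      have hl := QD.map_l π q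
      have hg := QD.map_g π q
      obtain ⟨Y, hY⟩ := Gm_desc hψ hl hg X (by
        intro s hs x
        have hs' : s ∈ Ideal.map (C : A →+* MvPolynomial (Fin m) A) I := by
          rw [MvPolynomial.mem_map_C_iff]
          intro d
          rw [← Ideal.Quotient.eq_zero_iff_mem]
          have := congrArg (coeff d) hs
          rwa [coeff_map, coeff_zero] at this
        exact Module.mem_annihilator.1 (Ideal.map_le_iff_le_comap.2 hX hs') x)
      refine h1 (A ⧸ I) (FractionRing (A ⧸ I)) m (q.map π) (h2 _ m _)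
        (fun Y => ∀ X : QM q.l q.g, GmRes (MvPolynomial.map π) X Y → P X)
        (Gm_t3 hψ hl hg hP) ?_ ?_ ?_ Y X hY
      · rintro Y₀ ⟨a', ha', hY₀⟩ X₀ ⟨e, he, -⟩
        obtain ⟨a, rfl⟩ := hπ a'
        have ha : a ∉ I := fun h => ha' (Ideal.Quotient.eq_zero_iff_mem.2 h)
        refine ih _ (lt_of_le_of_ne le_sup_left fun h => ha ?_) X₀
          (?_ : I ⊔ Ideal.span {a} ≤ _)
        · rw [h]
          exact Ideal.mem_sup_right (Ideal.mem_span_singleton_self a)
        · rw [sup_le_iff, Ideal.span_singleton_le_iff_mem]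
          refine ⟨fun c hc => ?_, ?_⟩
          · rw [Ideal.mem_comap, Module.mem_annihilator]
            intro x
            apply e.injective
            rw [he, map_C, Ideal.Quotient.eq_zero_iff_mem.2 hc, map_zero, zero_smul, map_zero]
          · rw [Ideal.mem_comap, Module.mem_annihilator]
            intro x
            apply e.injective
            rw [he, map_C, hY₀, map_zero]
      · intro X₀ hX₀
        obtain ⟨e, he⟩ := Gm_tensor π m (A ⧸ I) (A ⧸ I) (AddEquiv.refl _) (fun a n => rfl)
        have he' := Gm_tensor_smul π (A ⧸ I) (A ⧸ I) _ e he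
        let e₂ := TensorProduct.AlgebraTensorModule.rid (A ⧸ I) (MvPolynomial (Fin m) (A ⧸ I))
          (MvPolynomial (Fin m) (A ⧸ I))
        refine Gm_unique hP (Gm_ind hl hg (MvPolynomial (Fin m) A ⊗[A] (A ⧸ I))
          (MvPolynomial (Fin m) (A ⧸ I)) (e.trans e₂.toAddEquiv) (fun s x => ?_)) hX₀
          (hM (LMod.of A (A ⧸ I)))
        show e₂ (e (s • x)) = MvPolynomial.map π s • e₂ (e x)
        rw [he', map_smul]
      · intro N X₀ hX₀
        obtain ⟨N0, hN0⟩ := Gm_phi hπ q N
        exact Gm_unique hP hN0 hX₀ (hN N0)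
    · have hex : ∃ a b : A, a ∉ I ∧ b ∉ I ∧ a * b ∈ I := by
        by_contra hcon
        apply hprime
        refine Ideal.isPrime_iff.2 ⟨htop, fun {a b} hab => ?_⟩
        by_contra hab'
        rw [not_or] at hab'
        exact hcon ⟨a, b, hab'.1, hab'.2, hab⟩
      obtain ⟨a, b, ha, hb, hab⟩ := hex
      have hlt : ∀ c : A, c ∉ I → I < I ⊔ Ideal.span {c} := by
        intro c hc
        refine lt_of_le_of_ne le_sup_left fun h => hc ?_
        rw [h]
        exact Ideal.mem_sup_right (Ideal.mem_span_singleton_self c)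
      let N : Submodule (MvPolynomial (Fin m) A) X.carrier :=
        LinearMap.range (LinearMap.lsmul (MvPolynomial (Fin m) A) X.carrier (C a))
      haveI : IsNoetherian (MvPolynomial (Fin m) A) X.carrier :=
        isNoetherian_of_isNoetherianRing_of_finite _ _
      haveI : Module.Finite (MvPolynomial (Fin m) A) N :=
        Module.Finite.of_fg (IsNoetherian.noetherian N)
      have hNz : ∀ x ∈ N, X.z x ∈ N := by
        rintro _ ⟨x, rfl⟩
        refine ⟨X.z x, ?_⟩
        show (C a : MvPolynomial (Fin m) A) • X.z x = X.z ((C a : MvPolynomial (Fin m) A) • x)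
        rw [map_smul]
      refine QM.t3_sub hP X N hNz (ih _ (hlt b hb) _ ?_) (ih _ (hlt a ha) _ ?_)
      · rw [sup_le_iff, Ideal.span_singleton_le_iff_mem]
        refine ⟨fun c hc => ?_, ?_⟩
        · rw [Ideal.mem_comap, Module.mem_annihilator]
          intro x
          exact Subtype.ext (hX' c hc x.1)
        · rw [Ideal.mem_comap, Module.mem_annihilator]
          rintro ⟨_, ⟨x, rfl⟩⟩
          refine Subtype.ext ?_
          show (C b : MvPolynomial (Fin m) A) • (C a : MvPolynomial (Fin m) A) • x = 0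
          rw [← mul_smul, ← map_mul, mul_comm b a]
          exact hX' _ hab x
      · rw [sup_le_iff, Ideal.span_singleton_le_iff_mem]
        refine ⟨fun c hc => ?_, ?_⟩
        · rw [Ideal.mem_comap, Module.mem_annihilator]
          intro x
          obtain ⟨x, rfl⟩ := N.mkQ_surjective x
          rw [← map_smul, hX' c hc x, map_zero]
        · rw [Ideal.mem_comap, Module.mem_annihilator]
          intro x
          obtain ⟨x, rfl⟩ := N.mkQ_surjective x
          rw [← map_smul]
          exact (Submodule.Quotient.mk_eq_zero N).2 ⟨x, rfl⟩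
  intro X
  exact key ⊥ X bot_le

end Pool.Agent.TQF
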