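import Pool.Agent.TQF.StN

/-!
# TQF / NCyc: cyclic modules generate; principal left ideal domains
-/

set_option autoImplicit false

namespace Pool.Agent.TQF

open Function MvPolynomial TensorProduct Pool.Agent.Helper67.Bass

theorem NCyc_step {L : Type} [Ring L] {M : Type} [AddCommGroup M] [Module L M] {n : ℕ}
    (x : Fin (n + 1) → M) (hx : Submodule.span L (Set.range x) = ⊤) :
    Surjective (LinearMap.toSpanSingleton L
      (M ⧸ Submodule.span L (Set.range fun i : Fin n => x i.castSucc))
      (Submodule.mkQ _ (x (Fin.last n)))) := by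
  rw [← LinearMap.range_eq_top, eq_top_iff]
  have h1 : (⊤ : Submodule L (M ⧸ Submodule.span L (Set.range fun i : Fin n => x i.castSucc))) =
      Submodule.map (Submodule.mkQ _) (Submodule.span L (Set.range x)) := by
    rw [hx, Submodule.map_top, Submodule.range_mkQ]
  rw [h1, Submodule.map_span, Submodule.span_le]
  rintro _ ⟨_, ⟨i, rfl⟩, rfl⟩
  refine Fin.lastCases ?_ (fun j => ?_) i
  · exact ⟨1, by simp⟩
  · have h2 : Submodule.mkQ (Submodule.span L (Set.range fun i : Fin n => x i.castSucc))
        (x j.castSucc) = 0 := by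
      rw [Submodule.mkQ_apply, Submodule.Quotient.mk_eq_zero]
      exact Submodule.subset_span ⟨j, rfl⟩
    rw [h2]
    exact Submodule.zero_mem _

theorem NCyc_ind {L : Type} [Ring L] {P : LMod L → Prop} (hP : (modC L).T3 P)
    (hI : ∀ I : Submodule L L, P (LMod.of L (L ⧸ I))) (n : ℕ) :
    ∀ (M : LMod L) (x : Fin n → M), Submodule.span L (Set.range x) = ⊤ → P M := by
  induction n with
  | zero =>
    intro M x hx
    refine hP.zero M ?_
    have h1 : Set.range x = ∅ := Set.range_eq_empty x
    rw [h1, Submodule.span_empty] at hx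
    exact (Submodule.subsingleton_iff L).1 (subsingleton_of_bot_eq_top hx)
  | succ n ih =>
    intro M x hx
    obtain ⟨N, hN⟩ : ∃ N : Submodule L M, N = Submodule.span L
      (Set.range fun i : Fin n => x i.castSucc) := ⟨_, rfl⟩
    have hfg : N.FG := by
      rw [hN]
      exact Submodule.fg_span (Set.finite_range _)
    haveI : Module.Finite L N := Module.Finite.iff_fg.2 hfg
    refine LMod.t3_sub hP M N ?_ ?_
    · have hmem : ∀ i : Fin n, x i.castSucc ∈ N := fun i => by
        rw [hN]
        exact Submodule.subset_span ⟨i, rfl⟩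
      refine ih (LMod.of L N) (fun i => ⟨x i.castSucc, hmem i⟩) ?_
      rw [eq_top_iff]
      rintro ⟨y, hy⟩ -
      have h2 : Submodule.map N.subtype (Submodule.span L
          (Set.range fun i : Fin n => (⟨x i.castSucc, hmem i⟩ : N))) = N := by
        rw [Submodule.map_span]
        conv_rhs => rw [hN]
        congr 1
        ext z
        simp only [Set.mem_image, Set.mem_range]
        constructor
        · rintro ⟨_, ⟨i, rfl⟩, rfl⟩
          exact ⟨i, rfl⟩
        · rintro ⟨i, rfl⟩
          exact ⟨_, ⟨i, rfl⟩, rfl⟩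
      have h3 : y ∈ Submodule.map N.subtype (Submodule.span L
          (Set.range fun i : Fin n => (⟨x i.castSucc, hmem i⟩ : N))) := by
        rw [h2]
        exact hy
      obtain ⟨z, hz, hzy⟩ := h3
      have h4 : z = ⟨y, hy⟩ := Subtype.ext hzy
      rw [← h4]
      exact hz
    · have h2 : Surjective (LinearMap.toSpanSingleton L (M ⧸ N) (N.mkQ (x (Fin.last n)))) := by
        subst hN
        exact NCyc_step x hx
      exact LMod.t3_iso hP (X := LMod.of L (L ⧸ LinearMap.ker _))
        (LinearMap.quotKerEquivOfSurjective _ h2) (hI _)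

theorem thm_Cyc : St_Cyc := by
  intro L _ P hP hI M
  obtain ⟨n, x, hx⟩ := Module.Finite.exists_fin (R := L) (M := M)
  exact NCyc_ind hP hI n M x hx

theorem thm_Lp (h : St_Cyc) : St_Lp := by
  intro L _ _ hL
  refine ⟨{LMod.of L L}, Set.finite_singleton _, ?_⟩
  intro P hP hU M
  have hPL : P (LMod.of L L) := hU _ rfl
  refine h L P hP (fun I => ?_) M
  obtain ⟨a, ha⟩ := hL I
  by_cases h0 : a = 0
  · have hI : I = ⊥ := by
      rw [ha, h0]
      exact Ideal.span_singleton_eq_bot.2 rfl
    exact LMod.t3_iso hP (X := LMod.of L L) (Submodule.quotEquivOfEqBot I hI).symm hPL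
  · refine hP.coker (LMod.of L L) (LMod.of L L) _ ?_ hPL hPL
    refine ⟨LinearMap.toSpanSingleton L L a, I.mkQ, ?_, I.mkQ_surjective, ?_⟩
    · rw [← LinearMap.ker_eq_bot, LinearMap.ker_eq_bot']
      intro y hy
      rw [LinearMap.toSpanSingleton_apply, smul_eq_mul] at hy
      exact (mul_eq_zero.1 hy).resolve_right h0
    · rw [LinearMap.exact_iff, Submodule.ker_mkQ, LinearMap.range_toSpanSingleton, ha]

end Pool.Agent.TQF
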