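import Pool.Agent.TQF.StN
import Pool.Agent.Helper67.Bass.Small

/-!
# TQF: finitely generated fields of Kronecker dimension at most one are finite or global
-/

set_option autoImplicit false
set_option linter.style.haveILetI false

namespace Pool.Agent.TQF

open Function MvPolynomial TensorProduct Pool.Agent.Helper67.Bass
open scoped nonZeroDivisors Polynomial

private theorem NGlob_char0 (B : Type) [CommRing B] [IsDomain B] [Algebra.FiniteType ℤ B]
    (K : Type) [Field K] [Algebra B K] [IsFractionRing B K] [CharZero K]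
    (h : ∀ x : K, IsAlgebraic ℤ x) : Glob K := by
  have := ess_int B K
  have : Algebra.EssFiniteType ℚ K := Algebra.EssFiniteType.of_comp ℤ ℚ K
  have : Algebra.IsAlgebraic ℚ K := ⟨fun x => by
    have hx : IsAlgebraic ℤ x := h x
    exact hx.extendScalars (algebraMap ℤ ℚ).injective_int⟩
  have hf : FiniteDimensional ℚ K := finite_of_ess ℚ K
  exact ⟨ℤ, inferInstance, inferInstance, inferInstance, AbsoluteValue.abs,
    AbsoluteValue.absIsAdmissible, ℚ, inferInstance, inferInstance, inferInstance,
    inferInstance, hf⟩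

private theorem NGlob_curve (p : ℕ) [Fact p.Prime]
    (K : Type) [Field K] [Algebra (ZMod p) K]
    [Algebra.EssFiniteType (ZMod p) K] (x : K) (hx : Transcendental (ZMod p) x)
    (hsep : Algebra.IsSeparable (IntermediateField.adjoin (ZMod p) {x}) K) : Glob K := by
  set E := IntermediateField.adjoin (ZMod p) ({x} : Set K) with hE
  let g : E := IntermediateField.AdjoinSimple.gen (ZMod p) x
  letI i1 : Algebra (ZMod p)[X] E := (Polynomial.aeval (R := ZMod p) g).toAlgebra
  letI i2 : Algebra (ZMod p)[X] K := (Polynomial.aeval (R := ZMod p) x).toAlgebra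
  haveI : IsScalarTower (ZMod p)[X] E K := by
    apply IsScalarTower.of_algebraMap_eq
    intro f
    show Polynomial.aeval x f = algebraMap E K (Polynomial.aeval g f)
    rw [← Polynomial.aeval_algebraMap_apply]
    rfl
  haveI : FaithfulSMul (ZMod p)[X] E := by
    rw [faithfulSMul_iff_algebraMap_injective]
    intro f f' hff
    apply (transcendental_iff_injective.1 hx)
    have := congrArg (algebraMap E K) hff
    rw [← IsScalarTower.algebraMap_apply, ← IsScalarTower.algebraMap_apply] at this
    exact this
  haveI i3 : IsFractionRing (ZMod p)[X] E := by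
    apply IsFractionRing.of_field
    intro z
    obtain ⟨r, s, h⟩ := (IntermediateField.mem_adjoin_simple_iff (ZMod p) (z : K)).1 z.2
    refine ⟨r, s, ?_⟩
    apply (algebraMap E K).injective
    rw [map_div₀, ← IsScalarTower.algebraMap_apply, ← IsScalarTower.algebraMap_apply]
    exact h
  haveI : Algebra.EssFiniteType E K := Algebra.EssFiniteType.of_comp (ZMod p) E K
  haveI : FiniteDimensional E K := finite_of_ess E K
  haveI i4 : Algebra.FiniteType ℤ (ZMod p)[X] := by
    haveI : Module.Finite ℤ (ZMod p) := inferInstance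
    haveI : Algebra.FiniteType ℤ (ZMod p) := inferInstance
    exact Algebra.FiniteType.trans (S := ZMod p) ‹_› inferInstance
  exact ⟨(ZMod p)[X], inferInstance, inferInstance, i4, Polynomial.cardPowDegree,
    Polynomial.cardPowDegreeIsAdmissible, E, inferInstance, i1, i3, inferInstance, inferInstance⟩

private theorem NGlob_charp (p : ℕ) [Fact p.Prime] (B : Type) [CommRing B] [IsDomain B]
    [Algebra.FiniteType ℤ B]
    (K : Type) [Field K] [Algebra B K] [IsFractionRing B K] (hp : (p : K) = 0)
    (h : ∀ x y : K, ∃ F : MvPolynomial (Fin 2) ℤ,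
      ¬ (MvPolynomial.C (p : ℤ) ∣ F) ∧ MvPolynomial.aeval ![x, y] F = 0) :
    Finite K ∨ Glob K := by
  have hpp : p.Prime := Fact.out
  haveI : CharP K p := by
    have h1 : ringChar K ∣ p := ringChar.dvd hp
    rcases (Nat.dvd_prime hpp).1 h1 with h2 | h2
    · exact absurd h2 (CharP.ringChar_ne_one (R := K))
    · exact ringChar.of_eq h2
  letI : Algebra (ZMod p) K := ZMod.algebra K p
  haveI := ess_int B K
  haveI : Algebra.EssFiniteType (ZMod p) K := Algebra.EssFiniteType.of_comp ℤ (ZMod p) K
  obtain ⟨s, hs, hsep⟩ := exists_isTranscendenceBasis_and_isSeparable_of_perfectField (ZMod p) K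
  -- at most one element
  have hsub : ∀ x ∈ s, ∀ y ∈ s, x = y := by
    intro x hx y hy
    by_contra hxy
    obtain ⟨F, hF, hF0⟩ := h x y
    have h1 := hs.1.comp (![⟨x, hx⟩, ⟨y, hy⟩] : Fin 2 → s) (by
        intro i j hij
        fin_cases i <;> fin_cases j <;> simp at hij ⊢
        · exact hxy hij
        · exact hxy hij.symm)
    have h2 : (Subtype.val ∘ (![⟨x, hx⟩, ⟨y, hy⟩] : Fin 2 → s)) = ![x, y] := by
      ext i
      fin_cases i <;> rfl
    rw [h2] at h1
    have hind : AlgebraicIndependent (ZMod p) ![x, y] := h1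
    apply hF
    rw [MvPolynomial.C_dvd_iff_map_hom_eq_zero (Int.castRingHom (ZMod p)) (p : ℤ)]
    · apply hind
      rw [map_zero, ← hF0, MvPolynomial.aeval_def, MvPolynomial.aeval_def,
        MvPolynomial.eval₂_map]
      congr 1
      exact RingHom.ext_int _ _
    · intro a
      rw [eq_intCast]
      exact ZMod.intCast_zmod_eq_zero_iff_dvd a p
  by_cases hse : s = ∅
  · left
    subst hse
    haveI : Algebra.IsAlgebraic (ZMod p) K := by
      have h1 : IntermediateField.adjoin (ZMod p) (((∅ : Finset K) : Set K)) = ⊥ := by simp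
      rw [h1] at hsep
      haveI : Algebra.IsAlgebraic (⊥ : IntermediateField (ZMod p) K) K := inferInstance
      haveI : Algebra.IsAlgebraic (ZMod p) (⊥ : IntermediateField (ZMod p) K) := inferInstance
      exact Algebra.IsAlgebraic.trans (ZMod p) (⊥ : IntermediateField (ZMod p) K) K
    haveI : FiniteDimensional (ZMod p) K := finite_of_ess (ZMod p) K
    exact Module.finite_of_finite (ZMod p)
  · right
    obtain ⟨x, hx⟩ := Finset.nonempty_iff_ne_empty.2 hse
    have hsx : (s : Set K) = {x} := by
      ext y
      simp only [Finset.mem_coe, Set.mem_singleton_iff]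
      exact ⟨fun hy => hsub y hy x hx, fun hy => hy ▸ hx⟩
    rw [hsx] at hsep
    have htr : Transcendental (ZMod p) x := hs.1.transcendental ⟨x, hx⟩
    exact NGlob_curve p K x htr hsep

theorem thm_Glob : St_Glob := by
  intro B K _ _ _ _ _ _ h
  rcases h with h | ⟨p, hp, hp0, h⟩
  · rcases CharP.exists' K with h0 | ⟨p, hp, hpc⟩
    · refine Or.inr (NGlob_char0 B K ?_)
      intro x
      obtain ⟨f, hf, hfx⟩ := h x
      exact ⟨f, hf.ne_zero, hfx⟩
    · haveI := hp
      apply NGlob_charp p B K (CharP.cast_eq_zero K p)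
      intro x y
      obtain ⟨f, hf, hfx⟩ := h x
      refine ⟨Polynomial.aeval (MvPolynomial.X 0 : MvPolynomial (Fin 2) ℤ) f, ?_, ?_⟩
      · intro hdvd
        obtain ⟨g, hg⟩ := hdvd
        have h1 := congrArg (MvPolynomial.aeval (R := ℤ)
          (![Polynomial.X, 0] : Fin 2 → ℤ[X])) hg
        rw [← Polynomial.aeval_algHom_apply, MvPolynomial.aeval_X, map_mul,
          MvPolynomial.aeval_C] at h1
        simp only [Matrix.cons_val_zero, Polynomial.aeval_X_left_apply] at h1
        have h2 := hf (p : ℤ) ⟨_, h1⟩
        have h3 := Int.isUnit_iff.1 h2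
        have h4 := hp.out.two_le
        omega
      · rw [← Polynomial.aeval_algHom_apply, MvPolynomial.aeval_X]
        exact hfx
  · haveI := Fact.mk hp
    exact NGlob_charp p B K hp0 h

end Pool.Agent.TQF
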