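import Pool.Agent.TQF.StN

/-!
# TQF, module LamC: modules with operators and modules over the algebra `Lam q`

Module of helper71, written by helper73.
-/

set_option autoImplicit false

namespace Pool.Agent.TQF

open Function MvPolynomial TensorProduct

section

variable {A : Type} [CommRing A] {m : ℕ}

/-- the generators of the algebra -/
noncomputable def NLamC_eta (q : QD A m) (i : Fin (m + 1)) : Lam q :=
  RingQuot.mkAlgHom A (LRel q) (FreeAlgebra.ι A i)

theorem NLamC_sq (q : QD A m) (i : Fin (m + 1)) :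
    NLamC_eta q i * NLamC_eta q i + q.lam i • NLamC_eta q i +
      algebraMap A (Lam q) (q.gam i i) = 0 := by
  have h := RingQuot.mkAlgHom_rel A (LRel.sq (q := q) i)
  rw [map_add, map_add, map_mul, map_smul, map_zero, AlgHom.commutes] at h
  exact h

theorem NLamC_mul (q : QD A m) (i j : Fin (m + 1)) (hij : i ≠ j) :
    NLamC_eta q i * NLamC_eta q j + NLamC_eta q j * NLamC_eta q i +
      q.lam i • NLamC_eta q j + q.lam j • NLamC_eta q i +
      algebraMap A (Lam q) (q.gam i j + q.gam j i) = 0 := by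
  have h := RingQuot.mkAlgHom_rel A (LRel.mul (q := q) i j hij)
  rw [map_add, map_add, map_add, map_add, map_mul, map_mul, map_smul, map_smul, map_zero,
    AlgHom.commutes] at h
  exact h

variable {A' : Type} [CommRing A'] [Algebra A A']

/-- the operator in the ring `A' ⊗ Lam q` -/
noncomputable def NLamC_y (A' : Type) [CommRing A'] [Algebra A A'] (q : QD A m)
    (i : Fin (m + 1)) : A' ⊗[A] Lam q := (1 : A') ⊗ₜ[A] NLamC_eta q i

theorem NLamC_Y (q : QD A m) (x : Lam q) (r : A) :
    (Algebra.TensorProduct.includeRight : Lam q →ₐ[A] A' ⊗[A] Lam q) (r • x) =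
      algebraMap A' (A' ⊗[A] Lam q) (algebraMap A A' r) *
        (Algebra.TensorProduct.includeRight : Lam q →ₐ[A] A' ⊗[A] Lam q) x := by
  rw [map_smul, Algebra.smul_def, IsScalarTower.algebraMap_apply A A' (A' ⊗[A] Lam q)]

theorem NLamC_Z (q : QD A m) (r : A) :
    (Algebra.TensorProduct.includeRight : Lam q →ₐ[A] A' ⊗[A] Lam q) (algebraMap A (Lam q) r) =
      algebraMap A' (A' ⊗[A] Lam q) (algebraMap A A' r) := by
  rw [AlgHom.commutes, IsScalarTower.algebraMap_apply A A' (A' ⊗[A] Lam q)]

theorem NLamC_Lsq (q : QD A m) (i : Fin (m + 1)) :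
    NLamC_y A' q i * NLamC_y A' q i +
      algebraMap A' (A' ⊗[A] Lam q) (algebraMap A A' (q.lam i)) * NLamC_y A' q i +
      algebraMap A' (A' ⊗[A] Lam q) (algebraMap A A' (q.gam i i)) = 0 := by
  have h := congrArg (Algebra.TensorProduct.includeRight : Lam q →ₐ[A] A' ⊗[A] Lam q)
    (NLamC_sq q i)
  rw [map_add, map_add, map_mul, map_zero, NLamC_Y, NLamC_Z] at h
  exact h

theorem NLamC_Lmul (q : QD A m) (i j : Fin (m + 1)) (hij : i ≠ j) :
    NLamC_y A' q i * NLamC_y A' q j + NLamC_y A' q j * NLamC_y A' q i +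
      algebraMap A' (A' ⊗[A] Lam q) (algebraMap A A' (q.lam i)) * NLamC_y A' q j +
      algebraMap A' (A' ⊗[A] Lam q) (algebraMap A A' (q.lam j)) * NLamC_y A' q i +
      algebraMap A' (A' ⊗[A] Lam q) (algebraMap A A' (q.gam i j) + algebraMap A A' (q.gam j i)) =
      0 := by
  have h := congrArg (Algebra.TensorProduct.includeRight : Lam q →ₐ[A] A' ⊗[A] Lam q)
    (NLamC_mul q i j hij)
  rw [map_add, map_add, map_add, map_add, map_mul, map_mul, map_zero, NLamC_Y, NLamC_Y, NLamC_Z,
    map_add (algebraMap A A')] at h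
  exact h

/-- the `A'`-module of a module -/
@[reducible] noncomputable def NLamC_mod {q : QD A m} (N : LMod (A' ⊗[A] Lam q)) :
    Module A' N.carrier :=
  Module.compHom N.carrier (algebraMap A' (A' ⊗[A] Lam q))

theorem NLamC_fin (hF : St_LamF) {q : QD A m} (N : LMod (A' ⊗[A] Lam q)) :
    letI := NLamC_mod N
    Module.Finite A' N.carrier := by
  let _ := NLamC_mod N
  have : IsScalarTower A' (A' ⊗[A] Lam q) N.carrier := by
    refine ⟨fun s b x => ?_⟩
    exact (congrArg (fun y => y • x) (Algebra.smul_def s b)).trans (mul_smul _ _ _)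
  have : Module.Finite A (Lam q) := hF A m q
  exact Module.Finite.trans (A' ⊗[A] Lam q) N.carrier

/-- the operators -/
noncomputable def NLamC_e {q : QD A m} (N : LMod (A' ⊗[A] Lam q)) (i : Fin (m + 1)) :
    letI := NLamC_mod N
    N.carrier →ₗ[A'] N.carrier :=
  letI := NLamC_mod N
  { toFun := fun x => NLamC_y A' q i • x
    map_add' := fun x y => smul_add _ x y
    map_smul' := fun r x => by
      show NLamC_y A' q i • (algebraMap A' (A' ⊗[A] Lam q) r) • x =
        (algebraMap A' (A' ⊗[A] Lam q) r) • NLamC_y A' q i • x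
      rw [smul_smul, smul_smul, Algebra.commutes] }

theorem NLamC_rel1 {q : QD A m} (N : LMod (A' ⊗[A] Lam q)) :
    letI := NLamC_mod N
    ∀ (i : Fin (m + 1)) (x : N.carrier), NLamC_e N i (NLamC_e N i x) +
      (q.map (algebraMap A A')).lam i • NLamC_e N i x +
        (q.map (algebraMap A A')).gam i i • x = 0 := by
  let _ := NLamC_mod N
  intro i x
  show NLamC_y A' q i • NLamC_y A' q i • x +
    (algebraMap A' (A' ⊗[A] Lam q) (algebraMap A A' (q.lam i))) • NLamC_y A' q i • x +
    (algebraMap A' (A' ⊗[A] Lam q) (algebraMap A A' (q.gam i i))) • x = 0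
  rw [smul_smul, smul_smul, ← add_smul, ← add_smul, NLamC_Lsq]
  exact zero_smul (A' ⊗[A] Lam q) x

theorem NLamC_rel2 {q : QD A m} (N : LMod (A' ⊗[A] Lam q)) :
    letI := NLamC_mod N
    ∀ (i j : Fin (m + 1)), i ≠ j → ∀ (x : N.carrier), NLamC_e N i (NLamC_e N j x) +
      NLamC_e N j (NLamC_e N i x) +
      (q.map (algebraMap A A')).lam i • NLamC_e N j x +
      (q.map (algebraMap A A')).lam j • NLamC_e N i x +
        ((q.map (algebraMap A A')).gam i j + (q.map (algebraMap A A')).gam j i) • x = 0 := by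
  let _ := NLamC_mod N
  intro i j hij x
  show NLamC_y A' q i • NLamC_y A' q j • x + NLamC_y A' q j • NLamC_y A' q i • x +
    (algebraMap A' (A' ⊗[A] Lam q) (algebraMap A A' (q.lam i))) • NLamC_y A' q j • x +
    (algebraMap A' (A' ⊗[A] Lam q) (algebraMap A A' (q.lam j))) • NLamC_y A' q i • x +
    (algebraMap A' (A' ⊗[A] Lam q)
      (algebraMap A A' (q.gam i j) + algebraMap A A' (q.gam j i))) • x = 0
  rw [smul_smul, smul_smul, smul_smul, smul_smul, ← add_smul, ← add_smul, ← add_smul, ← add_smul,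
    NLamC_Lmul q i j hij]
  exact zero_smul (A' ⊗[A] Lam q) x

/-- the functor from modules over the algebra to modules with operators -/
noncomputable def NLamC_G (hF : St_LamF) {q : QD A m} (N : LMod (A' ⊗[A] Lam q)) :
    CMod (q.map (algebraMap A A')) :=
  @CMod.mk A' _ m (q.map (algebraMap A A')) N.carrier N.acg (NLamC_mod N) (NLamC_fin hF N)
    (NLamC_e N) (NLamC_rel1 N) (NLamC_rel2 N)

/-- the linear map of a morphism -/
noncomputable def NLamC_map (hF : St_LamF) {q : QD A m} {X Y : LMod (A' ⊗[A] Lam q)}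
    (f : X →ₗ[A' ⊗[A] Lam q] Y) : (NLamC_G hF X) →ₗ[A'] (NLamC_G hF Y) where
  toFun := fun x => f x
  map_add' := fun x y => map_add f x y
  map_smul' := fun b (x : X.carrier) => map_smul f (algebraMap A' (A' ⊗[A] Lam q) b) x

theorem NLamC_ses (hF : St_LamF) {q : QD A m} (X Y Z : LMod (A' ⊗[A] Lam q))
    (h : LMod.Ses X Y Z) : CMod.Ses (NLamC_G hF X) (NLamC_G hF Y) (NLamC_G hF Z) := by
  obtain ⟨f, h, hf, hh, he⟩ := h
  exact ⟨NLamC_map hF f, NLamC_map hF h, hf, hh, he, 
    fun i (x : X.carrier) => map_smul f (NLamC_y A' q i) x,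
    fun i (x : Y.carrier) => map_smul h (NLamC_y A' q i) x⟩

/-- the `A`-algebra structure on the endomorphisms of an `A'`-module -/
@[reducible] noncomputable def NLamC_alg (A : Type) [CommRing A] [Algebra A A'] (M : Type)
    [AddCommGroup M] [Module A' M] : Algebra A (Module.End A' M) :=
  Algebra.compHom (Module.End A' M) (algebraMap A A')

/-- the operators define a representation of the algebra -/
noncomputable def NLamC_rep {q : QD A m} (M : CMod (q.map (algebraMap A A'))) :
    letI := NLamC_alg (A' := A') A M.carrier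
    Lam q →ₐ[A] Module.End A' M.carrier :=
  letI := NLamC_alg (A' := A') A M.carrier
  RingQuot.liftAlgHom A ⟨FreeAlgebra.lift A M.e, by
    intro x y h
    cases h with
    | sq i =>
      rw [map_add, map_add, map_mul, map_smul, map_zero, AlgHom.commutes,
        FreeAlgebra.lift_ι_apply]
      exact LinearMap.ext fun x => M.rel1 i x
    | mul i j hij =>
      rw [map_add, map_add, map_add, map_add, map_mul, map_mul, map_smul, map_smul, map_zero,
        AlgHom.commutes, FreeAlgebra.lift_ι_apply, FreeAlgebra.lift_ι_apply]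
      refine LinearMap.ext fun x => Eq.trans ?_ (M.rel2 i j hij x)
      show M.e i (M.e j x) + M.e j (M.e i x) + algebraMap A A' (q.lam i) • M.e j x +
        algebraMap A A' (q.lam j) • M.e i x + algebraMap A A' (q.gam i j + q.gam j i) • x = _
      rw [map_add]
      rfl⟩

theorem NLamC_rep_eta {q : QD A m} (M : CMod (q.map (algebraMap A A'))) (i : Fin (m + 1)) :
    NLamC_rep M (NLamC_eta q i) = M.e i := by
  let _ := NLamC_alg (A' := A') A M.carrier
  unfold NLamC_rep NLamC_eta
  rw [RingQuot.liftAlgHom_mkAlgHom_apply, FreeAlgebra.lift_ι_apply]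

/-- the representation of the ring -/
noncomputable def NLamC_Rep {q : QD A m} (M : CMod (q.map (algebraMap A A'))) :
    A' ⊗[A] Lam q →ₐ[A'] Module.End A' M.carrier :=
  letI := NLamC_alg (A' := A') A M.carrier
  haveI : IsScalarTower A A' (Module.End A' M.carrier) := IsScalarTower.of_algebraMap_eq fun _ => rfl
  Algebra.TensorProduct.lift (Algebra.ofId A' (Module.End A' M.carrier)) (NLamC_rep M)
    (fun a x => show Commute (algebraMap A' (Module.End A' M.carrier) a) (NLamC_rep M x) from
      Algebra.commutes a _)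

theorem NLamC_Rep_y {q : QD A m} (M : CMod (q.map (algebraMap A A'))) (i : Fin (m + 1)) :
    NLamC_Rep M (NLamC_y A' q i) = M.e i := by
  let _ := NLamC_alg (A' := A') A M.carrier
  have : IsScalarTower A A' (Module.End A' M.carrier) := IsScalarTower.of_algebraMap_eq fun _ => rfl
  unfold NLamC_Rep NLamC_y
  refine (Algebra.TensorProduct.lift_tmul _ _ _ _ _).trans ?_
  rw [map_one, one_mul, NLamC_rep_eta]

/-- the module structure over the ring -/
@[reducible] noncomputable def NLamC_M {q : QD A m} (M : CMod (q.map (algebraMap A A'))) :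
    Module (A' ⊗[A] Lam q) M.carrier :=
  Module.compHom M.carrier (NLamC_Rep M).toRingHom

theorem NLamC_Mfin {q : QD A m} (M : CMod (q.map (algebraMap A A'))) :
    letI := NLamC_M M
    Module.Finite (A' ⊗[A] Lam q) M.carrier := by
  let _ := NLamC_M M
  have : IsScalarTower A' (A' ⊗[A] Lam q) M.carrier := by
    refine ⟨fun s b x => ?_⟩
    show NLamC_Rep M (s • b) x = s • (NLamC_Rep M b x)
    rw [map_smul]
    rfl
  exact Module.Finite.of_restrictScalars_finite A' (A' ⊗[A] Lam q) M.carrier

/-- the module over the ring of an object -/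
noncomputable def NLamC_O {q : QD A m} (M : CMod (q.map (algebraMap A A'))) :
    LMod (A' ⊗[A] Lam q) :=
  @LMod.mk (A' ⊗[A] Lam q) _ M.carrier M.acg (NLamC_M M) (NLamC_Mfin M)

/-- essential surjectivity -/
noncomputable def NLamC_iso (hF : St_LamF) {q : QD A m} (M : CMod (q.map (algebraMap A A'))) :
    (NLamC_G hF (NLamC_O M)) ≃ₗ[A'] M where
  toFun := fun x => x
  invFun := fun x => x
  left_inv := fun _ => rfl
  right_inv := fun _ => rfl
  map_add' := fun _ _ => rfl
  map_smul' := fun b (x : M.carrier) => by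
    show NLamC_Rep M (algebraMap A' (A' ⊗[A] Lam q) b) x = (b • x : M.carrier)
    rw [AlgHom.commutes]
    rfl

theorem NLamC_iso_e (hF : St_LamF) {q : QD A m} (M : CMod (q.map (algebraMap A A')))
    (i : Fin (m + 1)) (x : NLamC_G hF (NLamC_O M)) :
    NLamC_iso hF M ((NLamC_G hF (NLamC_O M)).e i x) = M.e i (NLamC_iso hF M x) := by
  show NLamC_Rep M (NLamC_y A' q i) x = M.e i x
  rw [NLamC_Rep_y]

end

theorem thm_LamC (hF : St_LamF) : St_LamC := by
  intro A A' _ _ _ m q h
  obtain ⟨U, hU, hgU⟩ := h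
  refine ⟨NLamC_G hF '' U, hU.image _, ?_⟩
  intro P hP hN M
  refine CMod.t3_iso hP (NLamC_iso hF M) (NLamC_iso_e hF M) ?_
  exact hgU _ (hP.comap (C := modC _) (NLamC_G hF) (NLamC_ses hF) (fun X h => h))
    (fun X hX => hN _ ⟨X, hX, rfl⟩) (NLamC_O M)

end Pool.Agent.TQF
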