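import Pool.Agent.TQF.StN

/-!
# TQF, LamF: the algebra `Lam q` is a finite module
-/

set_option autoImplicit false

namespace Pool.Agent.TQF

open Function

section NLamF

variable {A : Type} [CommRing A] {m : ℕ} (q : QD A m)

/-- the generators of `Lam q` -/
noncomputable def NLamF_eta (i : Fin (m + 1)) : Lam q :=
  RingQuot.mkAlgHom A (LRel q) (FreeAlgebra.ι A i)

/-- the words in the generators -/
noncomputable def NLamF_wd (w : List (Fin (m + 1))) : Lam q := (w.map (NLamF_eta q)).prod

/-- the span of the words of length `< k` -/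
noncomputable def NLamF_W (k : ℕ) : Submodule A (Lam q) :=
  Submodule.span A (NLamF_wd q '' {w | w.length < k})

theorem NLamF_mem {w : List (Fin (m + 1))} {k : ℕ} (h : w.length < k) :
    NLamF_wd q w ∈ NLamF_W q k := Submodule.subset_span ⟨w, h, rfl⟩

theorem NLamF_mono {k k' : ℕ} (h : k ≤ k') : NLamF_W q k ≤ NLamF_W q k' := by
  refine Submodule.span_mono ?_
  rintro _ ⟨w, hw, rfl⟩
  exact ⟨w, lt_of_lt_of_le hw h, rfl⟩

theorem NLamF_cons (i : Fin (m + 1)) (w : List (Fin (m + 1))) :
    NLamF_wd q (i :: w) = NLamF_eta q i * NLamF_wd q w := by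
  simp [NLamF_wd]

theorem NLamF_sq (i : Fin (m + 1)) : NLamF_eta q i * NLamF_eta q i + q.lam i • NLamF_eta q i +
    algebraMap A _ (q.gam i i) = 0 := by
  have h := RingQuot.mkAlgHom_rel A (LRel.sq (q := q) i)
  simp only [map_add, map_mul, map_smul, AlgHom.commutes, map_zero] at h
  exact h

theorem NLamF_mul (i j : Fin (m + 1)) (hij : i ≠ j) : NLamF_eta q i * NLamF_eta q j +
    NLamF_eta q j * NLamF_eta q i + q.lam i • NLamF_eta q j + q.lam j • NLamF_eta q i +
    algebraMap A _ (q.gam i j + q.gam j i) = 0 := by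
  have h := RingQuot.mkAlgHom_rel A (LRel.mul (q := q) i j hij)
  simp only [map_add, map_mul, map_smul, AlgHom.commutes, map_zero] at h
  simp only [map_add]
  exact h

theorem NLamF_left (i : Fin (m + 1)) {k : ℕ} {x : Lam q} (hx : x ∈ NLamF_W q k) :
    NLamF_eta q i * x ∈ NLamF_W q (k + 1) := by
  have h : NLamF_W q k ≤ (NLamF_W q (k + 1)).comap (LinearMap.mulLeft A (NLamF_eta q i)) := by
    unfold NLamF_W
    rw [Submodule.span_le]
    rintro _ ⟨w, hw, rfl⟩
    change NLamF_eta q i * NLamF_wd q w ∈ NLamF_W q (k + 1)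
    rw [← NLamF_cons]
    exact NLamF_mem q (by simp only [List.length_cons]; exact Nat.succ_lt_succ hw)
  exact h hx

theorem NLamF_perm {w w' : List (Fin (m + 1))} (h : w.Perm w') :
    NLamF_wd q w - NLamF_wd q w' ∈ NLamF_W q w.length ∨
      NLamF_wd q w + NLamF_wd q w' ∈ NLamF_W q w.length := by
  induction h with
  | nil => left; simp
  | cons x h ih =>
    rcases ih with ih | ih
    · left
      have := NLamF_left q x ih
      rwa [mul_sub, ← NLamF_cons, ← NLamF_cons] at this
    · right
      have := NLamF_left q x ih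
      rwa [mul_add, ← NLamF_cons, ← NLamF_cons] at this
  | swap x y l =>
    by_cases hxy : x = y
    · subst hxy; left; simp
    · right
      have h1 := NLamF_mul q x y hxy
      have h2 : NLamF_wd q (y :: x :: l) + NLamF_wd q (x :: y :: l) =
          -(q.lam x • NLamF_wd q (y :: l) + q.lam y • NLamF_wd q (x :: l) +
            (q.gam x y + q.gam y x) • NLamF_wd q l) := by
        have h3 := congrArg (fun t => t * NLamF_wd q l) h1
        simp only [zero_mul, add_mul, smul_mul_assoc, mul_assoc, ← NLamF_cons,
          ← Algebra.smul_def] at h3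
        rw [eq_neg_iff_add_eq_zero, ← h3]
        abel
      rw [h2]
      refine Submodule.neg_mem _ (Submodule.add_mem _ (Submodule.add_mem _ ?_ ?_) ?_)
      · exact Submodule.smul_mem _ _ (NLamF_mem q (by simp))
      · exact Submodule.smul_mem _ _ (NLamF_mem q (by simp))
      · exact Submodule.smul_mem _ _ (NLamF_mem q (by simp))
  | trans h1 h2 ih1 ih2 =>
    rw [← h1.length_eq] at ih2
    rcases ih1 with ih1 | ih1 <;> rcases ih2 with ih2 | ih2
    · left
      have := Submodule.add_mem _ ih1 ih2
      rwa [sub_add_sub_cancel] at this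
    · right
      have := Submodule.add_mem _ ih1 ih2
      rwa [← add_assoc, sub_add_cancel] at this
    · right
      have := Submodule.sub_mem _ ih1 ih2
      rwa [← sub_add, add_sub_cancel_right] at this
    · left
      have := Submodule.sub_mem _ ih1 ih2
      rwa [← sub_sub, add_sub_cancel_right] at this

theorem NLamF_long {w : List (Fin (m + 1))} (h : m + 1 < w.length) :
    NLamF_wd q w ∈ NLamF_W q w.length := by
  have h1 : ¬ w.Nodup := by
    intro h2
    have := h2.length_le_card
    rw [Fintype.card_fin] at this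
    omega
  obtain ⟨x, hx⟩ := List.exists_duplicate_iff_not_nodup.2 h1
  obtain ⟨l, hl⟩ := (List.duplicate_iff_sublist.1 hx).exists_perm_append
  have h2 : w.length = l.length + 2 := by
    rw [hl.length_eq]; simp
  have h3 : NLamF_wd q ([x, x] ++ l) ∈ NLamF_W q w.length := by
    have h4 := congrArg (fun t => t * NLamF_wd q l) (NLamF_sq q x)
    simp only [zero_mul, add_mul, smul_mul_assoc, mul_assoc, ← NLamF_cons,
      ← Algebra.smul_def] at h4
    have h5 : NLamF_wd q ([x, x] ++ l) =
        -(q.lam x • NLamF_wd q (x :: l) + q.gam x x • NLamF_wd q l) := by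
      rw [eq_neg_iff_add_eq_zero, ← h4]
      simp only [List.cons_append, List.nil_append]
      abel
    rw [h5, h2]
    refine Submodule.neg_mem _ (Submodule.add_mem _ ?_ ?_)
    · exact Submodule.smul_mem _ _ (NLamF_mem q (by simp))
    · exact Submodule.smul_mem _ _ (NLamF_mem q (by simp))
  rcases NLamF_perm q hl with h6 | h6
  · have := Submodule.add_mem _ h6 h3
    rwa [sub_add_cancel] at this
  · have := Submodule.sub_mem _ h6 h3
    rwa [add_sub_cancel_right] at this

theorem NLamF_all (n : ℕ) : ∀ w : List (Fin (m + 1)), w.length ≤ n →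
    NLamF_wd q w ∈ NLamF_W q (m + 2) := by
  induction n with
  | zero => intro w hw; exact NLamF_mem q (by omega)
  | succ n ih =>
    intro w hw
    by_cases h : w.length < m + 2
    · exact NLamF_mem q h
    · have h1 := NLamF_long q (w := w) (by omega)
      have h2 : NLamF_W q w.length ≤ NLamF_W q (m + 2) := by
        conv_lhs => unfold NLamF_W
        rw [Submodule.span_le]
        rintro _ ⟨v, hv, rfl⟩
        have hv' : v.length < w.length := hv
        exact ih v (by omega)
      exact h2 h1

theorem NLamF_top : NLamF_W q (m + 2) = ⊤ := by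
  have h1 : ∀ (i : Fin (m + 1)) (x : Lam q), x ∈ NLamF_W q (m + 2) →
      NLamF_eta q i * x ∈ NLamF_W q (m + 2) := by
    intro i x hx
    have h : NLamF_W q (m + 2) ≤
        (NLamF_W q (m + 2)).comap (LinearMap.mulLeft A (NLamF_eta q i)) := by
      conv_lhs => unfold NLamF_W
      rw [Submodule.span_le]
      rintro _ ⟨w, hw, rfl⟩
      change NLamF_eta q i * NLamF_wd q w ∈ NLamF_W q (m + 2)
      rw [← NLamF_cons]
      exact NLamF_all q _ _ le_rfl
    exact h hx
  have h2 : ∀ (a : FreeAlgebra A (Fin (m + 1))) (x : Lam q), x ∈ NLamF_W q (m + 2) →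
      RingQuot.mkAlgHom A (LRel q) a * x ∈ NLamF_W q (m + 2) := by
    intro a
    induction a using FreeAlgebra.induction with
    | grade0 r =>
      intro x hx
      rw [AlgHom.commutes, ← Algebra.smul_def]
      exact Submodule.smul_mem _ _ hx
    | grade1 i => exact h1 i
    | mul a b ha hb =>
      intro x hx
      rw [map_mul, mul_assoc]
      exact ha _ (hb _ hx)
    | add a b ha hb =>
      intro x hx
      rw [map_add, add_mul]
      exact Submodule.add_mem _ (ha _ hx) (hb _ hx)
  rw [eq_top_iff]
  intro x _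
  obtain ⟨a, rfl⟩ := RingQuot.mkAlgHom_surjective A (LRel q) x
  have h3 : (1 : Lam q) ∈ NLamF_W q (m + 2) := by
    have := NLamF_mem q (w := []) (k := m + 2) (by simp)
    simpa [NLamF_wd] using this
  have := h2 a 1 h3
  rwa [mul_one] at this

end NLamF

theorem thm_LamF : St_LamF := by
  intro A _ m q
  refine ⟨?_⟩
  rw [← NLamF_top q]
  exact Submodule.fg_span ((List.finite_length_lt (Fin (m + 1)) (m + 2)).image _)

end Pool.Agent.TQF
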