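import Pool.Agent.TQF.StN

/-!
# TQF, part N, module NLocK: the map from the localised algebra to the localised order
-/

set_option autoImplicit false

namespace Pool.Agent.TQF

open Function TensorProduct Pool.Agent.Helper67.Bass

theorem NLocK_loc {A : Type} [CommRing A] (M : Submonoid A) (B : Type) [CommRing B] [Algebra A B]
    [IsLocalization M B] (Λ : Type) [AddCommGroup Λ] [Module A Λ] :
    IsLocalizedModule M (TensorProduct.mk A B Λ 1) :=
  (isLocalizedModule_iff_isBaseChange M B _).2 (TensorProduct.isBaseChange A Λ B)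

/-- a common annihilator -/
theorem NLocK_ann {A : Type} [CommRing A] [IsDomain A] {Λ : Type} [AddCommGroup Λ] [Module A Λ]
    (τ : Submodule A Λ) (hτ : τ.FG) (h : ∀ x ∈ τ, ∃ a : A, a ≠ 0 ∧ a • x = 0) :
    ∃ t : A, t ≠ 0 ∧ ∀ x ∈ τ, t • x = 0 := by
  classical
  obtain ⟨S, hS⟩ := hτ
  have h1 : ∀ x ∈ S, ∃ a : A, a ≠ 0 ∧ a • x = 0 := fun x hx => h x (by
    rw [← hS]
    exact Submodule.subset_span hx)
  choose! a ha using h1
  refine ⟨∏ x ∈ S, a x, Finset.prod_ne_zero_iff.2 fun x hx => (ha x hx).1, fun x hx => ?_⟩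
  rw [← hS] at hx
  induction hx using Submodule.span_induction with
  | mem x hx =>
    have hx' : x ∈ S := hx
    rw [← Finset.prod_erase_mul S a hx', mul_smul, (ha x hx').2, smul_zero]
  | zero => exact smul_zero _
  | add x y _ _ h1 h2 => rw [smul_add, h1, h2, add_zero]
  | smul c x _ h1 => rw [smul_comm, h1, smul_zero]

theorem NLocK_pow {R S : Type} [Ring R] [Ring S] (Θ : R →+* S) (I : Ideal R) (J : Ideal S)
    (h : ∀ x ∈ I, Θ x ∈ J) (k : ℕ) : ∀ x ∈ I ^ k, Θ x ∈ J ^ k := by
  induction k with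
  | zero =>
    intro x _
    rw [Submodule.pow_zero, Ideal.one_eq_top]
    exact Submodule.mem_top
  | succ k ih =>
    intro x hx
    rw [Submodule.pow_succ] at hx ⊢
    refine Submodule.mul_induction_on (C := fun x => Θ x ∈ J ^ k * J) hx ?_ ?_
    · intro a ha b hb
      rw [map_mul]
      exact Ideal.mul_mem_mul (ih a ha) (h b hb)
    · intro a b ha hb
      rw [map_add]
      exact add_mem ha hb

theorem thm_LocK : St_LocK := by
  intro A K _ _ _ _ _ _ Λ _ _ _ E _ _ _ _ π hπ hnil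
  have hlK : IsLocalizedModule (nonZeroDivisors A) (TensorProduct.mk A K Λ 1) :=
    NLocK_loc _ K Λ
  let φ : Λ →ₐ[A] E := (π.restrictScalars A).comp Algebra.TensorProduct.includeRight
  have hφ : ∀ x, φ x = π ((1 : K) ⊗ₜ[A] x) := fun x => rfl
  have hπs : ∀ (a : A) (z : K ⊗[A] Λ), π (a • z) = a • π z := fun a z =>
    map_smul (π.restrictScalars A) a z
  refine ⟨φ.range, ?_, ?_, ?_⟩
  · have h1 : Subalgebra.toSubmodule φ.range = LinearMap.range φ.toLinearMap := by
      ext x
      simp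
    rw [h1]
    exact Module.Finite.iff_fg.1 (Module.Finite.range φ.toLinearMap)
  · intro x
    obtain ⟨z, rfl⟩ := hπ x
    obtain ⟨⟨y, a⟩, hy⟩ := hlK.surj z
    refine ⟨a, nonZeroDivisors.ne_zero a.2, ?_⟩
    have h2 : (a : A) • z = (1 : K) ⊗ₜ[A] y := hy
    rw [← hπs, h2, ← hφ]
    exact ⟨y, rfl⟩
  · obtain ⟨t, ht, hτ⟩ := NLocK_ann (LinearMap.ker (TensorProduct.mk A K Λ 1))
      (IsNoetherian.noetherian _) (fun x hx => by
        obtain ⟨a, ha⟩ := (IsLocalizedModule.eq_zero_iff (nonZeroDivisors A)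
          (TensorProduct.mk A K Λ 1)).1 hx
        exact ⟨a, nonZeroDivisors.ne_zero a.2, ha⟩)
    refine ⟨t, ht, fun s hs hts => ?_⟩
    have hlB : IsLocalizedModule (Submonoid.powers s)
        (TensorProduct.mk A (Localization.Away s) Λ 1) := NLocK_loc _ (Localization.Away s) Λ
    have hsK : algebraMap A K s ≠ 0 := fun h =>
      hs ((map_eq_zero_iff _ (IsFractionRing.injective A K)).1 h)
    have hu : ∀ y : Submonoid.powers s, IsUnit (Algebra.ofId A K (y : A)) := by
      rintro ⟨y, n, rfl⟩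
      rw [Algebra.ofId_apply, map_pow]
      exact (IsUnit.mk0 _ hsK).pow n
    let ι : Localization.Away s →ₐ[A] K := IsLocalization.liftAlgHom (M := Submonoid.powers s)
      (S := Localization.Away s) hu
    let Θ : Localization.Away s ⊗[A] Λ →ₐ[A] K ⊗[A] Λ := Algebra.TensorProduct.map ι
      (AlgHom.id A Λ)
    have hΘ : ∀ x : Λ, Θ ((1 : Localization.Away s) ⊗ₜ[A] x) = (1 : K) ⊗ₜ[A] x := by
      intro x
      show Algebra.TensorProduct.map ι (AlgHom.id A Λ) _ = _
      rw [Algebra.TensorProduct.map_tmul, map_one]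
      rfl
    let Φ : Localization.Away s ⊗[A] Λ →ₐ[A] E := (π.restrictScalars A).comp Θ
    have hΦ : ∀ z, Φ z = π (Θ z) := fun z => rfl
    have hB : ∀ z : Localization.Away s ⊗[A] Λ, ∃ (n : ℕ) (x : Λ),
        s ^ n • z = (1 : Localization.Away s) ⊗ₜ[A] x := by
      intro z
      obtain ⟨⟨y, ⟨a, n, rfl⟩⟩, hy⟩ := hlB.surj z
      exact ⟨n, y, hy⟩
    have hmem : ∀ z, Φ z ∈ locA φ.range s := by
      intro z
      obtain ⟨n, x, hx⟩ := hB z
      refine ⟨n, x, ?_⟩
      rw [← map_smul, hx]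
      show φ x = _
      rw [hΦ, hΘ, hφ]
    have hsE : ∀ (n : ℕ) (x y : E), s ^ n • x = s ^ n • y → x = y := by
      intro n x y h
      have h1 : ∀ w : E, s ^ n • w = (algebraMap A K s) ^ n • w := by
        intro w
        rw [← map_pow, algebraMap_smul]
      rw [h1, h1] at h
      have h2 : IsUnit ((algebraMap A K s) ^ n) := (IsUnit.mk0 _ hsK).pow n
      exact (h2.smul_left_cancel).1 h
    refine ⟨(Φ.codRestrict (locA φ.range s) hmem).toRingHom, ?_, ?_⟩
    · rintro ⟨w, n, x, hx⟩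
      obtain ⟨z, hz⟩ : ∃ z : Localization.Away s ⊗[A] Λ,
          s ^ n • z = (1 : Localization.Away s) ⊗ₜ[A] x :=
        ⟨IsLocalizedModule.mk' (TensorProduct.mk A (Localization.Away s) Λ 1) x
          (⟨s ^ n, n, rfl⟩ : Submonoid.powers s),
        IsLocalizedModule.mk'_cancel' (TensorProduct.mk A (Localization.Away s) Λ 1) x
          (⟨s ^ n, n, rfl⟩ : Submonoid.powers s)⟩
      refine ⟨z, Subtype.ext ?_⟩
      show Φ z = w
      apply hsE n
      rw [← map_smul, hz, hΦ, hΘ, ← hφ]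
      exact hx
    · obtain ⟨r, hr⟩ := hnil
      refine ⟨r, ?_⟩
      rw [Ideal.zero_eq_bot, eq_bot_iff]
      intro z hz
      have h1 : Θ z ∈ (RingHom.ker π) ^ r := by
        refine NLocK_pow Θ.toRingHom _ _ ?_ r z hz
        intro x hx
        have h2 := congrArg Subtype.val ((RingHom.mem_ker).1 hx)
        exact (RingHom.mem_ker).2 h2
      rw [hr, Ideal.zero_eq_bot, Submodule.mem_bot] at h1
      obtain ⟨n, x, hx⟩ := hB z
      have h2 : x ∈ LinearMap.ker (TensorProduct.mk A K Λ 1) := by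
        rw [LinearMap.mem_ker]
        show (1 : K) ⊗ₜ[A] x = 0
        rw [← hΘ, ← hx, map_smul, h1, smul_zero]
      have h3 : s • x = 0 := by
        obtain ⟨c, rfl⟩ := hts
        rw [mul_comm, mul_smul, hτ x h2, smul_zero]
      have h4 : s ^ (n + 1) • z = 0 := by
        rw [pow_succ', mul_smul, hx, ← TensorProduct.tmul_smul, h3, TensorProduct.tmul_zero]
      rw [Submodule.mem_bot]
      have h5 := IsLocalizedModule.smul_injective (TensorProduct.mk A (Localization.Away s) Λ 1)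
        (⟨s ^ (n + 1), n + 1, rfl⟩ : Submonoid.powers s)
      apply h5
      show s ^ (n + 1) • z = s ^ (n + 1) • (0 : Localization.Away s ⊗[A] Λ)
      rw [h4, smul_zero]

end Pool.Agent.TQF
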