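import Pool.Agent.TQF.StN

/-!
# TQF, module LocM: localised orders in products of matrix algebras
-/

set_option autoImplicit false

namespace Pool.Agent.TQF

open Function

/-! ### transport along a ring isomorphism -/

section transport

variable {L L' : Type} [Ring L] [Ring L']

/-- restriction of modules along a ring isomorphism -/
private def NLocM_res (e : L ≃+* L') (N : LMod L') : LMod L :=
  letI : Module L N.carrier := Module.compHom N.carrier (e : L →+* L')
  haveI : Module.Finite L N.carrier := by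
    obtain ⟨S, hS⟩ := (Module.Finite.fg_top : (⊤ : Submodule L' N.carrier).FG)
    refine ⟨⟨S, ?_⟩⟩
    rw [eq_top_iff]
    intro x _
    have hx : x ∈ Submodule.span L' (S : Set N.carrier) := by
      rw [hS]
      exact Submodule.mem_top
    induction hx using Submodule.span_induction with
    | mem x h => exact Submodule.subset_span h
    | zero => exact Submodule.zero_mem _
    | add x y _ _ hx hy =>
      exact Submodule.add_mem _ (hx Submodule.mem_top) (hy Submodule.mem_top)
    | smul a x _ hx =>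
      have h1 : a • x = (e.symm a) • x := by
        show a • x = e (e.symm a) • x
        rw [e.apply_symm_apply]
      rw [h1]
      exact Submodule.smul_mem _ _ (hx Submodule.mem_top)
  ⟨N.carrier⟩

private theorem NLocM_ses (e : L ≃+* L') (X Y Z : LMod L') (h : LMod.Ses X Y Z) :
    LMod.Ses (NLocM_res e X) (NLocM_res e Y) (NLocM_res e Z) := by
  obtain ⟨f, g, hf, hg, hfg⟩ := h
  exact ⟨{ toFun := f, map_add' := f.map_add, map_smul' := fun a x => f.map_smul (e a) x },
    { toFun := g, map_add' := g.map_add, map_smul' := fun a x => g.map_smul (e a) x }, hf, hg, hfg⟩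

private theorem NLocM_smul (e : L ≃+* L') (N : LMod L') (a : L) (x : NLocM_res e N) :
    a • x = (show NLocM_res e N from (e a • (show N from x) : N)) := rfl

private def NLocM_iso (e : L ≃+* L') (M : LMod L) :
    NLocM_res e (NLocM_res e.symm M) ≃ₗ[L] M where
  toFun := fun x => x
  invFun := fun x => x
  left_inv := fun _ => rfl
  right_inv := fun _ => rfl
  map_add' := fun _ _ => rfl
  map_smul' := fun a x => by
    have h1 : (e.symm (e a) : L) = a := e.symm_apply_apply a
    refine (NLocM_smul e (NLocM_res e.symm M) a x).trans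
      ((NLocM_smul e.symm M (e a) x).trans ?_)
    exact congrArg (fun b : L => b • (show M from x)) h1

theorem NLocM_transport (e : L ≃+* L') (h : (modC L').FinG) : (modC L).FinG := by
  obtain ⟨U, hU, hG⟩ := h
  refine ⟨NLocM_res e '' U, hU.image _, fun P hP hPU M => ?_⟩
  have hQ : (modC L').T3 (fun N => P (NLocM_res e N)) :=
    EC.T3.comap (C := modC L') (D := modC L) hP (NLocM_res e) (fun X Y Z => NLocM_ses e X Y Z)
      (fun X hX => hX)
  have h1 := hG _ hQ (fun N hN => hPU _ ⟨N, hN, rfl⟩) (NLocM_res e.symm M)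
  exact LMod.t3_iso hP (NLocM_iso e M) h1

end transport

/-! ### the order -/

section order

variable {A : Type} [CommRing A] {n : ℕ} {d : Fin n → ℕ} {D : Fin n → Type}
  [∀ i, Ring (D i)] [∀ i, Algebra A (D i)]

/-- the matrices with all entries in `Δ` -/
private def NLocM_ga (Δ : ∀ i, Subalgebra A (D i)) :
    Subalgebra A (∀ i, Matrix (Fin (d i)) (Fin (d i)) (D i)) where
  carrier := {x | ∀ i j k, x i j k ∈ Δ i}
  mul_mem' := by
    intro x y hx hy i j k
    rw [Pi.mul_apply, Matrix.mul_apply]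
    exact (Δ i).sum_mem fun l _ => (Δ i).mul_mem (hx i j l) (hy i l k)
  add_mem' := by
    intro x y hx hy i j k
    exact (Δ i).add_mem (hx i j k) (hy i j k)
  algebraMap_mem' := by
    intro r i j k
    rw [Pi.algebraMap_apply, Matrix.algebraMap_matrix_apply]
    split_ifs
    · exact (Δ i).algebraMap_mem r
    · exact (Δ i).zero_mem

private theorem NLocM_mem (Δ : ∀ i, Subalgebra A (D i))
    (x : ∀ i, Matrix (Fin (d i)) (Fin (d i)) (D i)) :
    x ∈ NLocM_ga Δ ↔ ∀ i j k, x i j k ∈ Δ i := Iff.rfl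

private theorem NLocM_fg (Δ : ∀ i, Subalgebra A (D i))
    (h : ∀ i, (Subalgebra.toSubmodule (Δ i)).FG) :
    (Subalgebra.toSubmodule (NLocM_ga (d := d) Δ)).FG := by
  have : ∀ i, Module.Finite A (Subalgebra.toSubmodule (Δ i)) := fun i =>
    Module.Finite.iff_fg.2 (h i)
  let f : (∀ i, Fin (d i) → Fin (d i) → Subalgebra.toSubmodule (Δ i)) →ₗ[A]
      (∀ i, Matrix (Fin (d i)) (Fin (d i)) (D i)) :=
    { toFun := fun y i => Matrix.of fun j k => (y i j k : D i)
      map_add' := fun x y => rfl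
      map_smul' := fun r x => rfl }
  have hf : LinearMap.range f = Subalgebra.toSubmodule (NLocM_ga (d := d) Δ) := by
    ext x
    constructor
    · rintro ⟨y, rfl⟩
      intro i j k
      exact (y i j k).2
    · intro hx
      exact ⟨fun i j k => ⟨x i j k, hx i j k⟩, rfl⟩
  rw [← hf]
  exact Module.Finite.iff_fg.1 (Module.Finite.range f)

private theorem NLocM_den [IsDomain A] (Δ : ∀ i, Subalgebra A (D i))
    (h : ∀ i, ∀ x : D i, ∃ a : A, a ≠ 0 ∧ a • x ∈ Δ i)
    (x : ∀ i, Matrix (Fin (d i)) (Fin (d i)) (D i)) :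
    ∃ a : A, a ≠ 0 ∧ a • x ∈ NLocM_ga Δ := by
  choose c hc0 hc using h
  refine ⟨∏ t : (Σ i, Fin (d i) × Fin (d i)), c t.1 (x t.1 t.2.1 t.2.2), ?_, fun i j k => ?_⟩
  · exact Finset.prod_ne_zero_iff.2 fun t _ => hc0 _ _
  · have h1 := Finset.prod_erase_mul Finset.univ
      (fun t : (Σ i, Fin (d i) × Fin (d i)) => c t.1 (x t.1 t.2.1 t.2.2))
      (Finset.mem_univ (⟨i, (j, k)⟩ : (Σ i, Fin (d i) × Fin (d i))))
    rw [← h1]
    have h2 := (Δ i).smul_mem (hc i (x i j k)) (∏ t ∈ Finset.univ.erase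
      (⟨i, (j, k)⟩ : (Σ i, Fin (d i) × Fin (d i))), c t.1 (x t.1 t.2.1 t.2.2))
    rw [smul_smul] at h2
    exact h2

private theorem NLocM_toLoc (Δ : ∀ i, Subalgebra A (D i)) (s : A)
    (x : locA (NLocM_ga (d := d) Δ) s) (i : Fin n) (j k : Fin (d i)) :
    x.1 i j k ∈ locA (Δ i) s := by
  obtain ⟨m, hm⟩ := x.2
  exact ⟨m, hm i j k⟩

private theorem NLocM_ofLoc (Δ : ∀ i, Subalgebra A (D i)) (s : A)
    (x : ∀ i, Matrix (Fin (d i)) (Fin (d i)) (D i)) (h : ∀ i j k, x i j k ∈ locA (Δ i) s) :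
    x ∈ locA (NLocM_ga (d := d) Δ) s := by
  choose c hc using h
  refine ⟨∑ t : (Σ i, Fin (d i) × Fin (d i)), c t.1 t.2.1 t.2.2, fun i j k => ?_⟩
  have h1 := Finset.sum_erase_add Finset.univ
    (fun t : (Σ i, Fin (d i) × Fin (d i)) => c t.1 t.2.1 t.2.2)
    (Finset.mem_univ (⟨i, (j, k)⟩ : (Σ i, Fin (d i) × Fin (d i))))
  rw [← h1, pow_add]
  have h2 := (Δ i).smul_mem (hc i j k) (s ^ (∑ t ∈ Finset.univ.erase
      (⟨i, (j, k)⟩ : (Σ i, Fin (d i) × Fin (d i))), c t.1 t.2.1 t.2.2))
  rw [smul_smul] at h2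
  exact h2

private def NLocM_equiv (Δ : ∀ i, Subalgebra A (D i)) (s : A) :
    locA (NLocM_ga (d := d) Δ) s ≃+* (∀ i, Matrix (Fin (d i)) (Fin (d i)) (locA (Δ i) s)) where
  toFun := fun x i => Matrix.of fun j k => ⟨x.1 i j k, NLocM_toLoc Δ s x i j k⟩
  invFun := fun y => ⟨fun i => Matrix.of fun j k => (y i j k).1,
    NLocM_ofLoc Δ s _ fun i j k => (y i j k).2⟩
  left_inv := fun x => rfl
  right_inv := fun y => rfl
  map_add' := fun x y => rfl
  map_mul' := fun x y => by
    funext i
    ext j k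
    rw [Pi.mul_apply, Matrix.mul_apply, AddSubmonoidClass.coe_finsetSum]
    rfl

end order

theorem thm_LocM (h1 : St_Pi) (h2 : St_Mat) : St_LocM := by
  intro A _ _ n d D _ _ Δ hfg hden
  refine ⟨NLocM_ga Δ, NLocM_fg Δ hfg, NLocM_den Δ hden, fun s hs => ?_⟩
  exact NLocM_transport (NLocM_equiv Δ s) (h1 n _ fun i => h2 _ (d i) (hs i))

end Pool.Agent.TQF
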