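import Pool.Agent.TQF.StN

/-!
# TQF: localised orders in division algebras
-/

set_option autoImplicit false

namespace Pool.Agent.TQF

open Function

theorem thm_LocP (h : St_Lp) : St_LocP := by
  intro A K _ _ _ _ _ D _ _ _ _ Δ s t hs ht hI
  have hinj : Injective (algebraMap A D) := by
    rw [IsScalarTower.algebraMap_eq A K D]
    exact (algebraMap K D).injective.comp (IsFractionRing.injective A K)
  refine h (locA Δ (s * t)) fun J => ?_
  have hle : Δ ≤ locA Δ (s * t) := fun x hx => ⟨0, by rwa [pow_zero, one_smul]⟩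
  obtain ⟨a, haI, ha⟩ := hI (Ideal.comap (Subalgebra.inclusion hle) J)
  refine ⟨Subalgebra.inclusion hle a, le_antisymm (fun x hx => ?_) ?_⟩
  · obtain ⟨n, hn⟩ := x.2
    have hb : (⟨(s * t) ^ n • (x : D), hn⟩ : Δ) ∈
        Ideal.comap (Subalgebra.inclusion hle) J := by
      rw [Ideal.mem_comap]
      have e : Subalgebra.inclusion hle (⟨(s * t) ^ n • (x : D), hn⟩ : Δ) =
          algebraMap A (locA Δ (s * t)) ((s * t) ^ n) * x := by
        apply Subtype.ext
        rw [← Algebra.smul_def]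
        rfl
      rw [e]
      exact J.mul_mem_left _ hx
    obtain ⟨k, hk⟩ := ha _ hb
    obtain ⟨y, hy⟩ := Ideal.mem_span_singleton'.1 hk
    have hy' : (y : D) * (a : D) = s ^ k • ((s * t) ^ n • (x : D)) := congrArg Subtype.val hy
    set u : D := algebraMap A D (s ^ k * (s * t) ^ n) with hu
    have hu0 : u ≠ 0 := by
      rw [hu, Ne, map_eq_zero_iff _ hinj]
      exact mul_ne_zero (pow_ne_zero _ hs) (pow_ne_zero _ (mul_ne_zero hs ht))
    have hyx : (y : D) * (a : D) = u * (x : D) := by
      rw [hy', smul_smul, Algebra.smul_def]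
    have hw : u⁻¹ * (y : D) ∈ locA Δ (s * t) := by
      refine ⟨k + n, ?_⟩
      have e : (s * t) ^ (k + n) • (u⁻¹ * (y : D)) = t ^ k • (y : D) := by
        have e1 : (s * t) ^ (k + n) = t ^ k * (s ^ k * (s * t) ^ n) := by
          rw [pow_add, mul_pow s t k]
          ring
        rw [Algebra.smul_def, e1, map_mul, ← hu, ← mul_assoc, mul_assoc _ u,
          mul_inv_cancel₀ hu0, mul_one, Algebra.smul_def]
      rw [e]
      exact Δ.smul_mem y.2 _
    refine Ideal.mem_span_singleton'.2 ⟨⟨u⁻¹ * (y : D), hw⟩, ?_⟩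
    apply Subtype.ext
    show u⁻¹ * (y : D) * (a : D) = x
    rw [mul_assoc, hyx, ← mul_assoc, inv_mul_cancel₀ hu0, one_mul]
  · rw [Ideal.span_singleton_le_iff_mem]
    exact haI

end Pool.Agent.TQF
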