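import Pool.Agent.TQF.Defs

/-!
# TQF, basic lemmas
-/

set_option autoImplicit false

namespace Pool.Agent.TQF

open Function MvPolynomial TensorProduct

/-! ### abstract exact structures -/

theorem EC.T3.comap {C D : EC} {P : D.Ob → Prop} (hP : D.T3 P) (F : C.Ob → D.Ob)
    (hs : ∀ X Y Z, C.ses X Y Z → D.ses (F X) (F Y) (F Z)) (hz : ∀ X, C.zero X → D.zero (F X)) :
    C.T3 (fun X => P (F X)) where
  zero X hX := hP.zero _ (hz X hX)
  ext X Y Z h := hP.ext _ _ _ (hs X Y Z h)
  coker X Y Z h := hP.coker _ _ _ (hs X Y Z h)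
  ker X Y Z h := hP.ker _ _ _ (hs X Y Z h)

/-! ### modules over a ring -/

section LMod

variable {L : Type} [Ring L] {P : LMod L → Prop}

theorem LMod.ses_iso {X Y : LMod L} (e : X ≃ₗ[L] Y) : LMod.Ses X Y (LMod.of L PUnit) :=
  ⟨e.toLinearMap, 0, e.injective, fun x => ⟨0, Subsingleton.elim _ _⟩,
    fun x => ⟨fun _ => e.surjective x, fun _ => Subsingleton.elim _ _⟩⟩

theorem LMod.t3_iso (hP : (modC L).T3 P) {X Y : LMod L} (e : X ≃ₗ[L] Y) (h : P X) : P Y :=
  hP.ext X Y (LMod.of L PUnit) (LMod.ses_iso e) h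
    (hP.zero (LMod.of L PUnit) (inferInstance : Subsingleton (LMod.of L PUnit).carrier))

theorem LMod.ses_sub (X : LMod L) (N : Submodule L X) [Module.Finite L N] :
    LMod.Ses (LMod.of L N) X (LMod.of L (X ⧸ N)) :=
  ⟨N.subtype, N.mkQ, N.subtype_injective, N.mkQ_surjective, LinearMap.exact_subtype_mkQ N⟩

theorem LMod.t3_sub (hP : (modC L).T3 P) (X : LMod L) (N : Submodule L X) [Module.Finite L N]
    (h1 : P (LMod.of L N)) (h2 : P (LMod.of L (X ⧸ N))) : P X :=
  hP.ext _ _ _ (LMod.ses_sub X N) h1 h2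

end LMod

/-! ### modules with a quadratic endomorphism -/

section QM

variable {S : Type} [CommRing S] {l g : S} {P : QM l g → Prop}

/-- the zero object -/
abbrev QM.zer (l g : S) : QM l g where
  carrier := PUnit
  z := 0
  rel := fun _ => rfl

theorem QM.ses_iso {X Y : QM l g} (e : X ≃ₗ[S] Y) (he : ∀ x, e (X.z x) = Y.z (e x)) :
    QM.Ses X Y (QM.zer l g) :=
  ⟨e.toLinearMap, 0, e.injective, fun x => ⟨0, Subsingleton.elim _ _⟩,
    fun x => ⟨fun _ => e.surjective x, fun _ => Subsingleton.elim _ _⟩, he,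
    fun _ => Subsingleton.elim _ _⟩

theorem QM.t3_iso (hP : (qC l g).T3 P) {X Y : QM l g} (e : X ≃ₗ[S] Y)
    (he : ∀ x, e (X.z x) = Y.z (e x)) (h : P X) : P Y :=
  hP.ext X Y (QM.zer l g) (QM.ses_iso e he) h
    (hP.zero (QM.zer l g) (inferInstance : Subsingleton (QM.zer l g).carrier))

/-- a stable submodule -/
abbrev QM.sub (X : QM l g) (N : Submodule S X) [Module.Finite S N] (hN : ∀ x ∈ N, X.z x ∈ N) :
    QM l g where
  carrier := N
  z := X.z.restrict hN
  rel := fun x => Subtype.ext (X.rel x)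

/-- the quotient by a stable submodule -/
abbrev QM.quot (X : QM l g) (N : Submodule S X) (hN : ∀ x ∈ N, X.z x ∈ N) : QM l g where
  carrier := X ⧸ N
  z := N.mapQ N X.z hN
  rel := fun x => by
    obtain ⟨x, rfl⟩ := N.mkQ_surjective x
    have := congrArg N.mkQ (X.rel x)
    rw [map_zero] at this
    exact this

theorem QM.ses_sub (X : QM l g) (N : Submodule S X) [Module.Finite S N]
    (hN : ∀ x ∈ N, X.z x ∈ N) : QM.Ses (X.sub N hN) X (X.quot N hN) :=
  ⟨N.subtype, N.mkQ, N.subtype_injective, N.mkQ_surjective, LinearMap.exact_subtype_mkQ N,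
    fun _ => rfl, fun _ => rfl⟩

theorem QM.t3_sub (hP : (qC l g).T3 P) (X : QM l g) (N : Submodule S X) [Module.Finite S N]
    (hN : ∀ x ∈ N, X.z x ∈ N) (h1 : P (X.sub N hN)) (h2 : P (X.quot N hN)) : P X :=
  hP.ext _ _ _ (X.ses_sub N hN) h1 h2

end QM

/-! ### operators -/

section CMod

variable {A : Type} [CommRing A] {m : ℕ} {q : QD A m} {P : CMod q → Prop}

/-- the zero object -/
abbrev CMod.zer (q : QD A m) : CMod q where
  carrier := PUnit
  e := fun _ => 0
  rel1 := by
    intro i x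
    exact (inferInstance : Subsingleton PUnit.{1}).allEq _ _
  rel2 := by
    intro i j h x
    exact (inferInstance : Subsingleton PUnit.{1}).allEq _ _

theorem CMod.ses_iso {X Y : CMod q} (e : X ≃ₗ[A] Y) (he : ∀ i x, e (X.e i x) = Y.e i (e x)) :
    CMod.Ses X Y (CMod.zer q) :=
  ⟨e.toLinearMap, 0, e.injective, fun x => ⟨0, Subsingleton.elim _ _⟩,
    fun x => ⟨fun _ => e.surjective x, fun _ => Subsingleton.elim _ _⟩, he,
    fun _ _ => Subsingleton.elim _ _⟩

theorem CMod.t3_iso (hP : (cC q).T3 P) {X Y : CMod q} (e : X ≃ₗ[A] Y)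
    (he : ∀ i x, e (X.e i x) = Y.e i (e x)) (h : P X) : P Y :=
  hP.ext X Y (CMod.zer q) (CMod.ses_iso e he) h
    (hP.zero (CMod.zer q) (inferInstance : Subsingleton (CMod.zer q).carrier))

/-! ### the functor `phi` -/

theorem sum_antisymm {M ι : Type*} [AddCommGroup M] [Fintype ι] [DecidableEq ι]
    (f : ι → ι → M) (h1 : ∀ i, f i i = 0) (h2 : ∀ i j, i ≠ j → f i j + f j i = 0) :
    ∑ i, ∑ j, f i j = 0 := by
  rw [← Finset.sum_product']
  refine Finset.sum_involution (fun p _ => (p.2, p.1)) ?_ ?_ ?_ ?_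
  · rintro ⟨i, j⟩ -
    by_cases h : i = j
    · subst h; simp only [h1, add_zero]
    · exact h2 i j h
  · rintro ⟨i, j⟩ - hne h
    have : j = i := congrArg Prod.fst h
    subst this
    exact hne (h1 j)
  · intro p _; simp
  · intro p _; rfl

theorem yv_map {A' : Type} [CommRing A'] (φ : A →+* A') (i : Fin (m + 1)) :
    MvPolynomial.map φ (yv A m i) = yv A' m i := by
  unfold yv
  refine Fin.cases ?_ (fun j => ?_) i
  · simp
  · simp

theorem QD.map_l {A' : Type} [CommRing A'] (φ : A →+* A') (q : QD A m) :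
    (q.map φ).l = MvPolynomial.map φ q.l := by
  unfold QD.l QD.map
  simp only [map_sum, map_mul, map_C, yv_map]

theorem QD.map_g {A' : Type} [CommRing A'] (φ : A →+* A') (q : QD A m) :
    (q.map φ).g = MvPolynomial.map φ q.g := by
  unfold QD.g QD.map
  simp only [map_sum, map_mul, map_C, yv_map]

theorem dl_X (i : Fin (m + 1)) : dl A m (X i) = yv A m i := by
  unfold dl; rw [aeval_X]

theorem dl_L (q : QD A m) : dl A m q.L = q.l := by
  unfold QD.L QD.l
  rw [map_sum]
  refine Finset.sum_congr rfl fun i _ => ?_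
  rw [map_mul, dl_X]
  congr 1
  exact algHom_C (dl A m) _

theorem dl_G (q : QD A m) : dl A m q.G = q.g := by
  unfold QD.G QD.g
  rw [map_sum]
  refine Finset.sum_congr rfl fun i _ => ?_
  rw [map_sum]
  refine Finset.sum_congr rfl fun j _ => ?_
  rw [map_mul, map_mul, dl_X, dl_X]
  congr 1
  exact algHom_C (dl A m) _

/-- the endomorphism `∑ y_i ⊗ e_i` of `S ⊗ N` -/
noncomputable def CMod.phiz (N : CMod q) : MvPolynomial (Fin m) A ⊗[A] N
    →ₗ[MvPolynomial (Fin m) A] MvPolynomial (Fin m) A ⊗[A] N :=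
  ∑ i, yv A m i • LinearMap.baseChange (MvPolynomial (Fin m) A) (N.e i)

theorem CMod.phiz_tmul (N : CMod q) (s : MvPolynomial (Fin m) A) (n : N) :
    N.phiz (s ⊗ₜ[A] n) = ∑ i, (yv A m i * s) ⊗ₜ[A] (N.e i n) := by
  show (∑ i, yv A m i • LinearMap.baseChange (MvPolynomial (Fin m) A) (N.e i)) (s ⊗ₜ[A] n) = _
  rw [LinearMap.sum_apply]
  refine Finset.sum_congr rfl fun i _ => ?_
  rw [LinearMap.smul_apply, LinearMap.baseChange_tmul, TensorProduct.smul_tmul', smul_eq_mul]

theorem CMod.phiz_rel (N : CMod q) (x : MvPolynomial (Fin m) A ⊗[A] N) :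
    N.phiz (N.phiz x) + q.l • N.phiz x + q.g • x = 0 := by
  induction x using TensorProduct.induction_on with
  | zero => simp
  | add x y hx hy =>
      rw [map_add, map_add, smul_add, smul_add]
      have := congrArg₂ (· + ·) hx hy
      simp only [add_zero] at this
      rw [← this]; abel
  | tmul s n =>
      have hz := N.phiz_tmul
      have he1 : ∀ (c : A) (p : MvPolynomial (Fin m) A) (n : N),
          p ⊗ₜ[A] (c • n) = (C c * p) ⊗ₜ[A] n := by
        intro c p n
        rw [TensorProduct.tmul_smul, TensorProduct.smul_tmul', MvPolynomial.smul_eq_C_mul]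
      rw [hz, map_sum]
      have h1 : ∑ j, N.phiz ((yv A m j * s) ⊗ₜ[A] (N.e j n)) =
          ∑ i, ∑ j, (yv A m i * yv A m j * s) ⊗ₜ[A] (N.e i (N.e j n)) := by
        rw [Finset.sum_comm]
        refine Finset.sum_congr rfl fun j _ => ?_
        rw [hz]
        refine Finset.sum_congr rfl fun i _ => ?_
        rw [mul_assoc]
      have h2 : q.l • ∑ j, (yv A m j * s) ⊗ₜ[A] (N.e j n) =
          ∑ i, ∑ j, (yv A m i * yv A m j * s) ⊗ₜ[A] (q.lam i • N.e j n) := by
        unfold QD.l
        rw [Finset.sum_smul]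
        refine Finset.sum_congr rfl fun i _ => ?_
        rw [Finset.smul_sum]
        refine Finset.sum_congr rfl fun j _ => ?_
        rw [TensorProduct.smul_tmul', smul_eq_mul, he1]
        congr 1
        ring
      have h3 : q.g • s ⊗ₜ[A] n =
          ∑ i, ∑ j, (yv A m i * yv A m j * s) ⊗ₜ[A] (q.gam i j • n) := by
        unfold QD.g
        rw [Finset.sum_smul]
        refine Finset.sum_congr rfl fun i _ => ?_
        rw [Finset.sum_smul]
        refine Finset.sum_congr rfl fun j _ => ?_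
        rw [TensorProduct.smul_tmul', smul_eq_mul, he1]
        congr 1
        ring
      rw [h1, h2, h3, ← Finset.sum_add_distrib, ← Finset.sum_add_distrib]
      have h4 : ∀ i : Fin (m + 1), (∑ j, (yv A m i * yv A m j * s) ⊗ₜ[A] (N.e i (N.e j n)) +
          ∑ j, (yv A m i * yv A m j * s) ⊗ₜ[A] (q.lam i • N.e j n)) +
          ∑ j, (yv A m i * yv A m j * s) ⊗ₜ[A] (q.gam i j • n) =
          ∑ j, (yv A m i * yv A m j * s) ⊗ₜ[A]
            (N.e i (N.e j n) + q.lam i • N.e j n + q.gam i j • n) := by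
        intro i
        rw [← Finset.sum_add_distrib, ← Finset.sum_add_distrib]
        refine Finset.sum_congr rfl fun j _ => ?_
        rw [TensorProduct.tmul_add, TensorProduct.tmul_add]
      rw [Finset.sum_congr rfl fun i _ => h4 i]
      apply sum_antisymm
      · intro i
        rw [N.rel1, TensorProduct.tmul_zero]
      · intro i j hij
        rw [mul_comm (yv A m j) (yv A m i), ← TensorProduct.tmul_add]
        have := N.rel2 i j hij n
        have h5 : N.e i (N.e j n) + q.lam i • N.e j n + q.gam i j • n +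
            (N.e j (N.e i n) + q.lam j • N.e i n + q.gam j i • n) = 0 := by
          rw [← this, add_smul]; abel
        rw [h5, TensorProduct.tmul_zero]

/-- the object `S ⊗ N` with the endomorphism `∑ y_i ⊗ e_i` -/
noncomputable abbrev CMod.phi (N : CMod q) : QM q.l q.g where
  carrier := MvPolynomial (Fin m) A ⊗[A] N
  z := N.phiz
  rel := N.phiz_rel

end CMod

end Pool.Agent.TQF
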