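import Pool.Agent.TQF.StN
import Pool.Agent.TQF.Basic
import Mathlib.RingTheory.Morita.Matrix

/-!
# TQF, part N: matrix rings (Morita)
-/

set_option autoImplicit false

namespace Pool.Agent.TQF

open Function
open scoped Matrix.Module

/-- the module of columns is finitely generated -/
theorem NMat_fin (L : Type) [Ring L] (n : ℕ) (N : Type) [AddCommGroup N] [Module L N]
    [Module.Finite L N] : Module.Finite (Matrix (Fin n) (Fin n) L) (Fin n → N) :=
  Module.Finite.of_restrictScalars_finite L _ _

/-- the module of columns -/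
abbrev NMat_F {L : Type} [Ring L] (n : ℕ) (N : LMod L) : LMod (Matrix (Fin n) (Fin n) L) :=
  @LMod.mk (Matrix (Fin n) (Fin n) L) _ (Fin n → N) _ _ (NMat_fin L n N)

theorem NMat_ses {L : Type} [Ring L] (n : ℕ) (X Y Z : LMod L) (h : LMod.Ses X Y Z) :
    LMod.Ses (NMat_F n X) (NMat_F n Y) (NMat_F n Z) := by
  obtain ⟨f, g, hf, hg, hfg⟩ := h
  refine ⟨f.mapMatrixModule (Fin n), g.mapMatrixModule (Fin n), ?_, ?_, ?_⟩
  · intro x y hxy
    funext i
    exact hf (congrFun hxy i)
  · intro z
    choose y hy using fun i => hg (z i)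
    exact ⟨y, funext hy⟩
  · intro y
    constructor
    · intro hy
      have h1 : ∀ i, ∃ x, f x = y i := fun i => (hfg (y i)).1 (congrFun hy i)
      choose x hx using h1
      exact ⟨x, funext hx⟩
    · rintro ⟨x, rfl⟩
      funext i
      exact (hfg (f (x i))).2 ⟨x i, rfl⟩

/-- every finitely generated module over a matrix ring consists of columns -/
theorem NMat_surj {L : Type} [Ring L] (n : ℕ) (j : Fin n) (X : LMod (Matrix (Fin n) (Fin n) L)) :
    ∃ N : LMod L, Nonempty (X ≃ₗ[Matrix (Fin n) (Fin n) L] (NMat_F n N)) := by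
  letI : Module L X := Module.compHom X (Matrix.scalar (α := L) (Fin n))
  haveI : IsScalarTower L (Matrix (Fin n) (Fin n) L) X :=
    MatrixModCat.isScalarTower_toModuleCat L (ModuleCat.of (Matrix (Fin n) (Fin n) L) X)
  haveI : Module.Finite L X := Module.Finite.trans (Matrix (Fin n) (Fin n) L) X
  haveI : Module.Finite L (MatrixModCat.toModuleCatObj L X j) := by
    unfold MatrixModCat.toModuleCatObj
    infer_instance
  exact ⟨LMod.of L (MatrixModCat.toModuleCatObj L X j),
    ⟨toModuleCatFromModuleCatLinearEquiv L (ModuleCat.of (Matrix (Fin n) (Fin n) L) X) j⟩⟩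

theorem thm_Mat : St_Mat := by
  intro L _ n hL
  obtain ⟨U, hU, hgen⟩ := hL
  rcases Nat.eq_zero_or_pos n with rfl | hn
  · refine ⟨∅, Set.finite_empty, fun P hP _ X => hP.zero X ?_⟩
    exact Module.subsingleton (Matrix (Fin 0) (Fin 0) L) X
  · refine ⟨NMat_F n '' U, hU.image _, fun P hP hPU X => ?_⟩
    have h1 : ∀ N : LMod L, P (NMat_F n N) := by
      refine hgen (fun N => P (NMat_F n N)) ?_ fun N hN => hPU _ ⟨N, hN, rfl⟩
      exact EC.T3.comap (C := modC L) (D := modC (Matrix (Fin n) (Fin n) L)) hP (NMat_F n)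
        (NMat_ses n) fun N hN => by
          haveI : Subsingleton N := hN
          exact (inferInstance : Subsingleton (Fin n → N))
    obtain ⟨N, ⟨e⟩⟩ := NMat_surj n ⟨0, hn⟩ X
    exact LMod.t3_iso hP e.symm (h1 N)

end Pool.Agent.TQF
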