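import Pool.Agent.TQF.StN

/-!
# TQF / NNil: surjections with nilpotent kernel
-/

set_option autoImplicit false

namespace Pool.Agent.TQF

open Function MvPolynomial TensorProduct Pool.Agent.Helper67.Bass

section

variable {L L' : Type} [Ring L] [Ring L'] (π : L →+* L') (hπ : Surjective π)

include hπ in
theorem NNil_fin (N : Type) [AddCommGroup N] [Module L' N] [Module L N] [Module.Finite L' N]
    (h : ∀ (a : L) (x : N), a • x = π a • x) : Module.Finite L N := by
  obtain ⟨s, hs⟩ := Module.Finite.fg_top (R := L') (M := N)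
  refine ⟨⟨s, ?_⟩⟩
  rw [eq_top_iff]
  intro y _
  have hy : y ∈ Submodule.span L' (s : Set N) := by
    rw [hs]
    trivial
  induction hy using Submodule.span_induction with
  | mem x hx => exact Submodule.subset_span hx
  | zero => exact Submodule.zero_mem _
  | add x y _ _ h1 h2 => exact Submodule.add_mem _ (h1 trivial) (h2 trivial)
  | smul a x _ h1 =>
    obtain ⟨b, rfl⟩ := hπ a
    rw [← h]
    exact Submodule.smul_mem _ _ (h1 trivial)

theorem NNil_fin' (N : Type) [AddCommGroup N] [Module L' N] [Module L N] [Module.Finite L N]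
    (h : ∀ (a : L) (x : N), a • x = π a • x) : Module.Finite L' N := by
  obtain ⟨s, hs⟩ := Module.Finite.fg_top (R := L) (M := N)
  refine ⟨⟨s, ?_⟩⟩
  rw [eq_top_iff]
  intro y _
  have hy : y ∈ Submodule.span L (s : Set N) := by
    rw [hs]
    trivial
  induction hy using Submodule.span_induction with
  | mem x hx => exact Submodule.subset_span hx
  | zero => exact Submodule.zero_mem _
  | add x y _ _ h1 h2 => exact Submodule.add_mem _ (h1 trivial) (h2 trivial)
  | smul a x _ h1 =>
    rw [h]
    exact Submodule.smul_mem _ _ (h1 trivial)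

/-- restriction along `π` -/
def NNil_res (N : LMod L') : LMod L where
  carrier := N
  acg := N.acg
  mod := Module.compHom N π
  fin := by
    letI : Module L N := Module.compHom N π
    exact NNil_fin π hπ N fun _ _ => rfl

theorem NNil_res_t3 {P : LMod L → Prop} (hP : (modC L).T3 P) :
    (modC L').T3 (fun N => P (NNil_res π hπ N)) := by
  refine EC.T3.comap (C := modC L') (D := modC L) hP (NNil_res π hπ) ?_ ?_
  · rintro X Y Z ⟨f, h, hf, hh, hfh⟩
    refine ⟨?_, ?_, ?_, ?_, ?_⟩
    · exact
        { toFun := f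
          map_add' := fun x y => f.map_add x y
          map_smul' := fun a x => f.map_smul (π a) x }
    · exact
        { toFun := h
          map_add' := fun x y => h.map_add x y
          map_smul' := fun a x => h.map_smul (π a) x }
    · exact hf
    · exact hh
    · exact hfh
  · intro X hX
    exact hX

/-- modules killed by the kernel -/
theorem NNil_killed {P : LMod L → Prop} (hP : (modC L).T3 P)
    (hres : ∀ N : LMod L', P (NNil_res π hπ N)) (M : LMod L)
    (hM : ∀ a ∈ RingHom.ker π, ∀ x : M, a • x = 0) : P M := by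
  have hker : RingHom.ker π ≤ RingHom.ker (Module.toAddMonoidEnd L M) := by
    intro a ha
    rw [RingHom.mem_ker]
    ext x
    exact hM a ha x
  obtain ⟨ψ, hψ⟩ : ∃ ψ : L' →+* AddMonoid.End M, ∀ a, ψ (π a) = Module.toAddMonoidEnd L M a :=
    ⟨π.liftOfSurjective hπ ⟨_, hker⟩, fun a => π.liftOfRightInverse_comp_apply _ _ ⟨_, hker⟩ a⟩
  letI : Module L' M := Module.compHom M ψ
  have hs : ∀ (a : L) (x : M), a • x = π a • x := by
    intro a x
    show a • x = ψ (π a) x
    rw [hψ]
    rfl
  haveI : Module.Finite L' M := NNil_fin' π M hs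
  refine LMod.t3_iso hP (X := NNil_res π hπ (LMod.of L' M)) (Y := M) ?_ (hres _)
  exact
    { toFun := fun x => x
      invFun := fun x => x
      map_add' := fun _ _ => rfl
      map_smul' := fun a x => (hs a x).symm
      left_inv := fun _ => rfl
      right_inv := fun _ => rfl }

theorem NNil_ind [IsNoetherianRing L] {P : LMod L → Prop} (hP : (modC L).T3 P)
    (hres : ∀ N : LMod L', P (NNil_res π hπ N)) (k : ℕ) :
    ∀ M : LMod L, ((RingHom.ker π) ^ k • (⊤ : Submodule L M)) = ⊥ → P M := by
  induction k with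
  | zero =>
    intro M hM
    refine hP.zero M ?_
    have h1 : ((RingHom.ker π) ^ 0 : Ideal L) = ⊤ := by
      rw [Submodule.pow_zero, Ideal.one_eq_top]
    rw [h1, Submodule.top_smul] at hM
    exact (Submodule.subsingleton_iff L).1 (subsingleton_of_bot_eq_top hM.symm)
  | succ k ih =>
    intro M hM
    haveI : IsNoetherian L M := isNoetherian_of_isNoetherianRing_of_finite L M
    obtain ⟨N, hN⟩ : ∃ N : Submodule L M, N = RingHom.ker π • (⊤ : Submodule L M) := ⟨_, rfl⟩
    refine LMod.t3_sub hP M N ?_ ?_
    · refine ih (LMod.of L N) ?_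
      rw [eq_bot_iff]
      intro x hx
      have h1 : (x : M) ∈ (RingHom.ker π) ^ k • N :=
        (Submodule.mem_smul_top_iff _ N x).1 hx
      have h2 : (RingHom.ker π) ^ k • N = ⊥ := by
        rw [hN, ← Submodule.mul_smul, ← Submodule.pow_succ, hM]
      rw [h2] at h1
      exact Subtype.ext h1
    · refine NNil_killed π hπ hP hres (LMod.of L (M ⧸ N)) ?_
      intro a ha x
      obtain ⟨y, rfl⟩ := N.mkQ_surjective x
      show a • N.mkQ y = 0
      rw [← map_smul, Submodule.mkQ_apply, Submodule.Quotient.mk_eq_zero, hN]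
      exact Submodule.smul_mem_smul ha trivial

end

theorem thm_Nil : St_Nil := by
  intro L L' _ _ _ π hπ hnil hfin
  obtain ⟨U, hU, hgen⟩ := hfin
  obtain ⟨r, hr⟩ := hnil
  refine ⟨(NNil_res π hπ) '' U, hU.image _, ?_⟩
  intro P hP hPU M
  have hres : ∀ N : LMod L', P (NNil_res π hπ N) :=
    hgen _ (NNil_res_t3 π hπ hP) fun X hX => hPU _ ⟨X, hX, rfl⟩
  refine NNil_ind π hπ hP hres r M ?_
  rw [hr]
  show (⊥ : Ideal L) • (⊤ : Submodule L M) = ⊥
  exact Submodule.bot_smul _

end Pool.Agent.TQF
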