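import Pool.Agent.TQF.StN

/-!
# TQF, module NOrdF: orders over finite fields; two orders agree generically
-/

set_option autoImplicit false

namespace Pool.Agent.TQF

open Function

theorem thm_OrdF : St_OrdF := by
  intro A K _ _ _ _ _ hK D _ _ _ _ _
  have hD : Finite D := Module.finite_of_finite K
  refine ⟨⊤, ?_, fun x => ⟨1, one_ne_zero, Algebra.mem_top⟩, 1, one_ne_zero, fun I => ?_⟩
  · refine ⟨(Set.toFinite (Set.univ : Set D)).toFinset, ?_⟩
    rw [Set.Finite.coe_toFinset, Submodule.span_univ, Algebra.top_toSubmodule]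
  · by_cases h : ∃ a ∈ I, a ≠ 0
    · obtain ⟨a, ha, ha0⟩ := h
      refine ⟨a, ha, fun b _ => ⟨0, ?_⟩⟩
      rw [pow_zero, one_smul]
      have ha1 : (a : D) ≠ 0 := fun h => ha0 (Subtype.ext h)
      refine Submodule.mem_span_singleton.2
        ⟨⟨(b : D) * (a : D)⁻¹, Algebra.mem_top⟩, Subtype.ext ?_⟩
      show (b : D) * (a : D)⁻¹ * (a : D) = (b : D)
      rw [mul_assoc, inv_mul_cancel₀ ha1, mul_one]
    · push Not at h
      refine ⟨0, I.zero_mem, fun b hb => ⟨0, ?_⟩⟩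
      rw [h b hb, smul_zero]
      exact Submodule.zero_mem _

/-- a common denominator for a finitely generated submodule -/
theorem NOrdF_den {A : Type} [CommRing A] [IsDomain A] {E : Type} [AddCommGroup E] [Module A E]
    (M N : Submodule A E) (hM : M.FG) (h : ∀ x : E, ∃ a : A, a ≠ 0 ∧ a • x ∈ N) :
    ∃ a : A, a ≠ 0 ∧ ∀ x ∈ M, a • x ∈ N := by
  classical
  obtain ⟨S, hS⟩ := hM
  choose f hf hfN using h
  refine ⟨∏ x ∈ S, f x, Finset.prod_ne_zero_iff.2 fun x _ => hf x, fun x hx => ?_⟩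
  rw [← hS] at hx
  induction hx using Submodule.span_induction with
  | mem x hx =>
    have hx' : x ∈ S := Finset.mem_coe.1 hx
    rw [← Finset.mul_prod_erase S f hx', mul_comm, mul_smul]
    exact N.smul_mem _ (hfN x)
  | zero =>
    rw [smul_zero]
    exact N.zero_mem
  | add x y _ _ hx hy =>
    rw [smul_add]
    exact N.add_mem hx hy
  | smul r x _ hx =>
    rw [smul_comm]
    exact N.smul_mem r hx

private theorem NOrdF_le {A : Type} [CommRing A] {E : Type} [Ring E] [Algebra A E]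
    (Γ Γ' : Subalgebra A E) (a c s : A) (hs : s = a * c) (h : ∀ x ∈ Γ, a • x ∈ Γ') :
    locA Γ s ≤ locA Γ' s := by
  rintro x ⟨n, hn⟩
  refine ⟨n + 1, ?_⟩
  have h1 : s ^ (n + 1) • x = c • a • s ^ n • x := by
    rw [← mul_smul, ← mul_smul]
    congr 1
    rw [pow_succ]
    nth_rw 2 [hs]
    ring
  rw [h1]
  exact Γ'.smul_mem (h _ hn) c

theorem thm_LocC : St_LocC := by
  intro A _ _ E _ _ Γ Γ' hΓ hΓ' h h'
  obtain ⟨a, ha, ha'⟩ := NOrdF_den (Subalgebra.toSubmodule Γ) (Subalgebra.toSubmodule Γ') hΓ h'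
  obtain ⟨b, hb, hb'⟩ := NOrdF_den (Subalgebra.toSubmodule Γ') (Subalgebra.toSubmodule Γ) hΓ' h
  refine ⟨a * b, mul_ne_zero ha hb, fun s hs => ?_⟩
  obtain ⟨c, hc⟩ := hs
  refine le_antisymm (NOrdF_le Γ Γ' a (b * c) s (by rw [hc]; ring) ha')
    (NOrdF_le Γ' Γ b (a * c) s (by rw [hc]; ring) hb')

end Pool.Agent.TQF
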