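import Pool.Agent.TQF.StN
import Pool.Agent.Helper67.Bass.Pid

/-!
# TQF, module OrdG: passing from `R0` to `A` for orders
-/

set_option autoImplicit false

namespace Pool.Agent.TQF

/-- common denominators for the elements of a finite algebra over a finitely generated ring -/
theorem NOrdG_gen {R A D : Type} [CommRing R] [IsDomain R] [CommRing A] [Algebra.FiniteType ℤ A]
    [Ring D] [Algebra R D] [Algebra A D] (Γ : Subalgebra R D)
    (hΓ : ∀ x : D, ∃ r : R, r ≠ 0 ∧ r • x ∈ Γ) (Λ : Subalgebra A D)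
    (hΛ : (Subalgebra.toSubmodule Λ).FG) :
    ∃ f : R, f ≠ 0 ∧ ∀ x ∈ Λ, ∃ n : ℕ, f ^ n • x ∈ Γ := by
  classical
  obtain ⟨S, hS⟩ := (inferInstance : Algebra.FiniteType ℤ A).out
  obtain ⟨T, hT⟩ := hΛ
  choose r hr0 hr using hΓ
  let f : R := (∏ b ∈ S, r (algebraMap A D b)) * ∏ t ∈ T, r t
  have hf0 : f ≠ 0 := mul_ne_zero (Finset.prod_ne_zero_iff.2 fun b _ => hr0 _)
    (Finset.prod_ne_zero_iff.2 fun b _ => hr0 _)
  have hdvd : ∀ x : D, r x ∣ f → x ∈ locA Γ f := by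
    rintro x ⟨c, hc⟩
    refine ⟨1, ?_⟩
    rw [pow_one, hc, mul_comm, mul_smul]
    exact Γ.smul_mem (hr x) c
  have hS' : ∀ b ∈ S, algebraMap A D b ∈ locA Γ f := fun b hb =>
    hdvd _ (Dvd.dvd.mul_right (Finset.dvd_prod_of_mem (fun b => r (algebraMap A D b)) hb) _)
  have hT' : ∀ t ∈ T, t ∈ locA Γ f := fun t ht =>
    hdvd _ (Dvd.dvd.mul_left (Finset.dvd_prod_of_mem r ht) _)
  have hA : ∀ a : A, algebraMap A D a ∈ locA Γ f := by
    intro a
    have ha : a ∈ Algebra.adjoin ℤ (S : Set A) := by rw [hS]; trivial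
    induction ha using Algebra.adjoin_induction with
    | mem b hb => exact hS' b hb
    | algebraMap n =>
      rw [eq_intCast, map_intCast]
      exact (locA Γ f).intCast_mem n
    | add b b' _ _ h h' =>
      rw [map_add]
      exact (locA Γ f).add_mem h h'
    | mul b b' _ _ h h' =>
      rw [map_mul]
      exact (locA Γ f).mul_mem h h'
  refine ⟨f, hf0, ?_⟩
  intro x hx
  have hx' : x ∈ Submodule.span A (T : Set D) := by
    rw [hT]
    exact hx
  change x ∈ locA Γ f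
  clear hx
  induction hx' using Submodule.span_induction with
  | mem t ht => exact hT' t ht
  | zero => exact (locA Γ f).zero_mem
  | add y z _ _ hy hz => exact (locA Γ f).add_mem hy hz
  | smul a y _ hy =>
    rw [Algebra.smul_def]
    exact (locA Γ f).mul_mem (hA a) hy

/-- the transfer of the property from `Δ0` to `Δ` -/
theorem NOrdG_core {A K R0 D : Type} [CommRing A] [IsDomain A] [Algebra.FiniteType ℤ A] [Field K]
    [Algebra A K] [IsFractionRing A K] [CommRing R0] [IsDomain R0] [Algebra.FiniteType ℤ R0]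
    [Algebra R0 K] (hinj : Function.Injective (algebraMap R0 K)) [DivisionRing D] [Algebra A D]
    [Algebra K D] [IsScalarTower A K D] [Algebra R0 D] [IsScalarTower R0 K D]
    (Δ0 : Subalgebra R0 D) (hfg0 : (Subalgebra.toSubmodule Δ0).FG)
    (hΔ0 : ∀ x : D, ∃ r : R0, r ≠ 0 ∧ r • x ∈ Δ0) (s0 : R0) (hs0 : s0 ≠ 0)
    (hpig : ∀ I : Ideal Δ0, ∃ a ∈ I, ∀ b ∈ I, s0 • b ∈ Ideal.span {a})
    (Δ : Subalgebra A D) (hfg : (Subalgebra.toSubmodule Δ).FG)
    (hΔ : ∀ x : D, ∃ a : A, a ≠ 0 ∧ a • x ∈ Δ) :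
    ∃ s : A, s ≠ 0 ∧ ∀ I : Ideal Δ, ∃ a ∈ I, ∀ b ∈ I, ∃ n : ℕ, s ^ n • b ∈ Ideal.span {a} := by
  classical
  obtain ⟨f, hf0, hf⟩ := NOrdG_gen Δ0 hΔ0 Δ hfg
  obtain ⟨e2, he20, he2⟩ := NOrdG_gen Δ hΔ Δ0 hfg0
  obtain ⟨e1, he10, he1⟩ := Pool.Agent.Helper67.Bass.exists_den (B := R0) (D := A)
    (algebraMap R0 K)
  have hinjA : Function.Injective (algebraMap A K) := IsFractionRing.injective A K
  -- the elements
  set e : A := e1 * e2 with he
  have he0 : e ≠ 0 := mul_ne_zero he10 he20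
  have heΔ : ∀ x ∈ Δ0, ∃ n : ℕ, e ^ n • x ∈ Δ := by
    intro x hx
    obtain ⟨n, hn⟩ := he2 x hx
    refine ⟨n, ?_⟩
    rw [he, mul_pow, mul_smul]
    exact Δ.smul_mem hn _
  have heR : ∀ r : R0, ∃ (n : ℕ) (a : A),
      algebraMap A K e ^ n * algebraMap R0 K r = algebraMap A K a := by
    intro r
    obtain ⟨n, d, hd⟩ := he1 r
    refine ⟨n, e2 ^ n * d, ?_⟩
    rw [he, map_mul, mul_pow, map_mul, ← hd, map_pow]
    ring
  obtain ⟨d, c, hc, hdc⟩ := IsFractionRing.div_surjective (A := A) (algebraMap R0 K (s0 * f))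
  have hc0 : algebraMap A K c ≠ 0 := by
    rw [Ne, IsFractionRing.to_map_eq_zero_iff]
    exact nonZeroDivisors.ne_zero hc
  have hdc' : algebraMap A K d = algebraMap A K c * algebraMap R0 K (s0 * f) := by
    rw [← hdc]
    field_simp
  have hs1 : algebraMap R0 K (s0 * f) ≠ 0 := by
    intro h
    exact mul_ne_zero hs0 hf0 ((map_eq_zero_iff _ hinj).1 h)
  have hd0 : d ≠ 0 := by
    rintro rfl
    rw [map_zero] at hdc'
    exact mul_ne_zero hc0 hs1 hdc'.symm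
  refine ⟨d * e, mul_ne_zero hd0 he0, ?_⟩
  intro I
  -- the set of the elements of I
  let J : D → Prop := fun z => ∃ h : z ∈ Δ, (⟨z, h⟩ : Δ) ∈ I
  have hJ0 : J 0 := ⟨Δ.zero_mem, I.zero_mem⟩
  have hJadd : ∀ x y, J x → J y → J (x + y) := by
    rintro x y ⟨hx, hx'⟩ ⟨hy, hy'⟩
    exact ⟨Δ.add_mem hx hy, I.add_mem hx' hy'⟩
  have hJmul : ∀ x y, x ∈ Δ → J y → J (x * y) := by
    rintro x y hx ⟨hy, hy'⟩
    exact ⟨Δ.mul_mem hx hy, I.mul_mem_left ⟨x, hx⟩ hy'⟩
  have hJsmul : ∀ (a : A) y, J y → J (a • y) := by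
    intro a y hy
    rw [Algebra.smul_def]
    exact hJmul _ _ (Δ.algebraMap_mem a) hy
  let I0 : Ideal Δ0 :=
    { carrier := {y | ∃ n : ℕ, J (e ^ n • (y : D))}
      add_mem' := by
        rintro x y ⟨n, hn⟩ ⟨m, hm⟩
        refine ⟨n + m, ?_⟩
        have h1 : e ^ (n + m) • ((x + y : Δ0) : D) =
            e ^ m • (e ^ n • (x : D)) + e ^ n • (e ^ m • (y : D)) := by
          rw [Subalgebra.coe_add, smul_add, smul_smul, smul_smul, ← pow_add, ← pow_add,
            add_comm m n]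
        rw [h1]
        exact hJadd _ _ (hJsmul _ _ hn) (hJsmul _ _ hm)
      zero_mem' := ⟨0, by
        rw [ZeroMemClass.coe_zero, smul_zero]
        exact hJ0⟩
      smul_mem' := by
        rintro x y ⟨n, hn⟩
        obtain ⟨m, hm⟩ := heΔ x x.2
        refine ⟨m + n, ?_⟩
        have h1 : e ^ (m + n) • ((x • y : Δ0) : D) = (e ^ m • (x : D)) * (e ^ n • (y : D)) := by
          rw [smul_mul_smul_comm, ← pow_add]
          rfl
        rw [h1]
        exact hJmul _ _ hm hn }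
  obtain ⟨a0, ha0, hspan⟩ := hpig I0
  obtain ⟨n0, hn0, hn0'⟩ := ha0
  refine ⟨⟨e ^ n0 • (a0 : D), hn0⟩, hn0', ?_⟩
  rintro ⟨b, hbΔ⟩ hb
  have hbJ : J b := ⟨hbΔ, hb⟩
  obtain ⟨n, hn⟩ := hf b hbΔ
  have hn1 : f ^ (n + 1) • b ∈ Δ0 := by
    rw [pow_succ', mul_smul]
    exact Δ0.smul_mem hn f
  have hmem : (⟨f ^ (n + 1) • b, hn1⟩ : Δ0) ∈ I0 := by
    obtain ⟨m, a, hma⟩ := heR (f ^ (n + 1))
    refine ⟨m, ?_⟩
    have h1 : e ^ m • (f ^ (n + 1) • b) = a • b := by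
      rw [← IsScalarTower.algebraMap_smul K (f ^ (n + 1)) b,
        ← IsScalarTower.algebraMap_smul K (e ^ m), smul_smul, map_pow (algebraMap A K), hma,
        IsScalarTower.algebraMap_smul]
    change J (e ^ m • (f ^ (n + 1) • b))
    rw [h1]
    exact hJsmul _ _ hbJ
  obtain ⟨u, hu⟩ := Ideal.mem_span_singleton'.1 (hspan _ hmem)
  have hu' : (u : D) * (a0 : D) = s0 • (f ^ (n + 1) • b) := by
    have h1 := congrArg (Subtype.val : Δ0 → D) hu
    exact h1
  have hv : s0 ^ n • (u : D) ∈ Δ0 := Δ0.smul_mem u.2 _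
  obtain ⟨m, hm⟩ := heΔ _ hv
  refine ⟨n + 1 + (n0 + m), ?_⟩
  rw [Ideal.mem_span_singleton']
  refine ⟨⟨(d ^ (n0 + m) * c ^ (n + 1) * e ^ (n + 1)) • (e ^ m • (s0 ^ n • (u : D))),
    Δ.smul_mem hm _⟩, ?_⟩
  apply Subtype.ext
  change ((d ^ (n0 + m) * c ^ (n + 1) * e ^ (n + 1)) • (e ^ m • (s0 ^ n • (u : D)))) *
    (e ^ n0 • (a0 : D)) = (d * e) ^ (n + 1 + (n0 + m)) • b
  simp only [← IsScalarTower.algebraMap_smul (R := A) K, ← IsScalarTower.algebraMap_smul (R := R0) K,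
    smul_mul_smul_comm, smul_smul] at hu' ⊢
  rw [hu', smul_smul]
  congr 1
  simp only [map_mul, map_pow] at hdc' ⊢
  rw [hdc']
  ring

/-- **OrdG**: passing from `R0` to `A`. -/
theorem thm_OrdG (h1 : St_Ord0) (h2 : St_Pig) : St_OrdG := by
  intro A K _ _ _ _ _ _ hG D _ _ _ _ _
  obtain ⟨R0, i1, i2, i3, abv, hadm, E, i4, i5, i6, i7, i8⟩ := hG
  let : Algebra R0 K := Algebra.compHom K (algebraMap R0 E)
  have t1 : IsScalarTower R0 E K := IsScalarTower.of_algebraMap_eq fun _ => rfl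
  let : Algebra E D := Algebra.compHom D (algebraMap E K)
  have t2 : IsScalarTower E K D := IsScalarTower.of_algebraMap_eq fun _ => rfl
  let : Algebra R0 D := Algebra.compHom D (algebraMap R0 K)
  have t3 : IsScalarTower R0 K D := IsScalarTower.of_algebraMap_eq fun _ => rfl
  have t4 : IsScalarTower R0 E D := IsScalarTower.of_algebraMap_eq fun _ => rfl
  have : FiniteDimensional E D := FiniteDimensional.trans E K D
  have : IsNoetherianRing A := Algebra.FiniteType.isNoetherianRing ℤ A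
  have hinj : Function.Injective (algebraMap R0 K) :=
    (algebraMap E K).injective.comp (IsFractionRing.injective R0 E)
  obtain ⟨Δ0, hfg0, hΔ0⟩ := h1 R0 E D
  obtain ⟨Δ, hfg, hΔ⟩ := h1 A K D
  have : Module.Finite R0 Δ0 := Module.Finite.iff_fg.2 hfg0
  have : Module.IsTorsionFree R0 Δ0 := by
    refine Module.IsTorsionFree.of_smul_eq_zero fun r m h => ?_
    have h3 : algebraMap R0 D r * (m : D) = 0 := by
      rw [← Algebra.smul_def]
      exact congrArg (Subtype.val : Δ0 → D) h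
    rcases mul_eq_zero.1 h3 with h4 | h4
    · left
      have h5 : algebraMap K D (algebraMap R0 K r) = 0 := h4
      exact (map_eq_zero_iff _ hinj).1 ((map_eq_zero_iff _ (algebraMap K D).injective).1 h5)
    · right
      exact Subtype.ext h4
  obtain ⟨s0, hs0, hpig⟩ := h2 R0 abv hadm Δ0
  exact ⟨Δ, hfg, hΔ, NOrdG_core hinj Δ0 hfg0 hΔ0 s0 hs0 hpig Δ hfg hΔ⟩

end Pool.Agent.TQF
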