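import Pool.Agent.TQF.StN

/-!
# TQF, Pi: finite products of rings
-/

set_option autoImplicit false

namespace Pool.Agent.TQF

open Function

/-! ### restriction of scalars along a surjective ring homomorphism -/

theorem NPi_fin {A B : Type} [Ring A] [Ring B] (φ : A →+* B) (hφ : Surjective φ) (N : Type)
    [AddCommGroup N] [Module B N] [Module.Finite B N] :
    @Module.Finite A N _ _ (Module.compHom N φ) := by
  let _ : Module A N := Module.compHom N φ
  obtain ⟨s, hs⟩ := (Module.Finite.fg_top : (⊤ : Submodule B N).FG)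
  refine ⟨⟨s, ?_⟩⟩
  rw [eq_top_iff]
  intro x _
  have hx : x ∈ Submodule.span B (s : Set N) := by rw [hs]; exact Submodule.mem_top
  refine Submodule.span_induction (p := fun x _ => x ∈ Submodule.span A (s : Set N))
    (fun x h => Submodule.subset_span h) (Submodule.zero_mem _)
    (fun x y _ _ hx hy => Submodule.add_mem _ hx hy) (fun b x _ hx => ?_) hx
  obtain ⟨a, rfl⟩ := hφ b
  exact Submodule.smul_mem _ a hx

/-- restriction of scalars -/
def NPi_res {A B : Type} [Ring A] [Ring B] (φ : A →+* B) (hφ : Surjective φ) (N : LMod B) :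
    LMod A where
  carrier := N
  acg := N.acg
  mod := Module.compHom N φ
  fin := NPi_fin φ hφ N

theorem NPi_ses {A B : Type} [Ring A] [Ring B] (φ : A →+* B) (hφ : Surjective φ)
    (X Y Z : LMod B) (h : LMod.Ses X Y Z) :
    LMod.Ses (NPi_res φ hφ X) (NPi_res φ hφ Y) (NPi_res φ hφ Z) := by
  obtain ⟨f, g, h1, h2, h3⟩ := h
  exact ⟨{ toFun := f, map_add' := f.map_add, map_smul' := fun r x => f.map_smul (φ r) x },
    { toFun := g, map_add' := g.map_add, map_smul' := fun r x => g.map_smul (φ r) x },
    h1, h2, h3⟩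

theorem NPi_t3 {A B : Type} [Ring A] [Ring B] (φ : A →+* B) (hφ : Surjective φ)
    {P : LMod A → Prop} (hP : (modC A).T3 P) :
    (modC B).T3 (fun N => P (NPi_res φ hφ N)) :=
  EC.T3.comap (C := modC B) (D := modC A) hP (NPi_res φ hφ) (NPi_ses φ hφ) (fun _ h => h)

/-! ### the components of a module over a product -/

section comp

variable {n : ℕ} {L : Fin n → Type} [∀ i, Ring (L i)]

theorem NPi_single_mul (a : Fin n) (b : L a) (r : ∀ i, L i) :
    (Pi.single a b : ∀ i, L i) * r = Pi.single a (b * r a) := by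
  funext j
  by_cases h : j = a
  · subst h; simp
  · simp [Pi.single_eq_of_ne h]

theorem NPi_mul_single (a : Fin n) (b : L a) (r : ∀ i, L i) :
    r * (Pi.single a b : ∀ i, L i) = Pi.single a (r a * b) := by
  funext j
  by_cases h : j = a
  · subst h; simp
  · simp [Pi.single_eq_of_ne h]

variable (M : Type) [AddCommGroup M] [Module (∀ i, L i) M] (a : Fin n)

/-- the component `e_a M` -/
def NPi_sub : Submodule (∀ i, L i) M where
  carrier := {x | (Pi.single a 1 : ∀ i, L i) • x = x}
  add_mem' := by
    intro x y hx hy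
    show (Pi.single a 1 : ∀ i, L i) • (x + y) = x + y
    rw [smul_add, hx, hy]
  zero_mem' := smul_zero _
  smul_mem' := by
    intro r x hx
    have hx' : (Pi.single a 1 : ∀ i, L i) • x = x := hx
    show (Pi.single a 1 : ∀ i, L i) • (r • x) = r • x
    rw [← mul_smul, NPi_single_mul, one_mul]
    conv_rhs => rw [← hx', ← mul_smul, NPi_mul_single, mul_one]

theorem NPi_sub_eq (x : NPi_sub (L := L) M a) : (Pi.single a 1 : ∀ i, L i) • (x : M) = x := x.2

theorem NPi_sub_smul (r : ∀ i, L i) (x : NPi_sub (L := L) M a) :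
    r • x = (Pi.single a (r a) : ∀ i, L i) • x := by
  apply Subtype.ext
  show r • (x : M) = (Pi.single a (r a) : ∀ i, L i) • (x : M)
  conv_lhs => rw [← NPi_sub_eq M a x, ← mul_smul, NPi_mul_single, mul_one]

theorem NPi_sub_fin [Module.Finite (∀ i, L i) M] :
    Module.Finite (∀ i, L i) (NPi_sub (L := L) M a) := by
  have h : ∀ x : M, (Pi.single a 1 : ∀ i, L i) • x ∈ NPi_sub (L := L) M a := by
    intro x
    show (Pi.single a 1 : ∀ i, L i) • (Pi.single a 1 : ∀ i, L i) • x =
      (Pi.single a 1 : ∀ i, L i) • x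
    rw [← mul_smul, NPi_single_mul, Pi.single_eq_same, mul_one]
  let f : M →ₗ[∀ i, L i] NPi_sub (L := L) M a :=
    { toFun := fun x => ⟨(Pi.single a 1 : ∀ i, L i) • x, h x⟩
      map_add' := fun x y => Subtype.ext (smul_add _ _ _)
      map_smul' := fun r x => by
        apply Subtype.ext
        show (Pi.single a 1 : ∀ i, L i) • r • x = r • (Pi.single a 1 : ∀ i, L i) • x
        rw [← mul_smul, ← mul_smul, NPi_single_mul, NPi_mul_single, one_mul, mul_one] }
  exact Module.Finite.of_surjective f fun x => ⟨(x : M), Subtype.ext (NPi_sub_eq M a x)⟩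

/-- the component as a module over the factor -/
@[reducible] def NPi_mod : Module (L a) (NPi_sub (L := L) M a) where
  smul b x := (Pi.single a b : ∀ i, L i) • x
  one_smul x := Subtype.ext (NPi_sub_eq M a x)
  mul_smul b c x := by
    show (Pi.single a (b * c) : ∀ i, L i) • x =
      (Pi.single a b : ∀ i, L i) • (Pi.single a c : ∀ i, L i) • x
    rw [← mul_smul, NPi_single_mul, Pi.single_eq_same]
  smul_zero b := smul_zero (Pi.single a b : ∀ i, L i)
  smul_add b x y := smul_add (Pi.single a b : ∀ i, L i) x y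
  add_smul b c x := by
    show (Pi.single a (b + c) : ∀ i, L i) • x =
      (Pi.single a b : ∀ i, L i) • x + (Pi.single a c : ∀ i, L i) • x
    rw [← add_smul, Pi.single_add]
  zero_smul x := by
    show (Pi.single a 0 : ∀ i, L i) • x = 0
    rw [Pi.single_zero, zero_smul]

theorem NPi_mod_fin [Module.Finite (∀ i, L i) M] :
    @Module.Finite (L a) (NPi_sub (L := L) M a) _ _ (NPi_mod M a) := by
  let _ := NPi_mod (L := L) M a
  have := NPi_sub_fin (L := L) M a
  obtain ⟨s, hs⟩ := (Module.Finite.fg_top : (⊤ : Submodule (∀ i, L i) (NPi_sub (L := L) M a)).FG)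
  refine ⟨⟨s, ?_⟩⟩
  rw [eq_top_iff]
  intro x _
  have hx : x ∈ Submodule.span (∀ i, L i) (s : Set (NPi_sub (L := L) M a)) := by
    rw [hs]; exact Submodule.mem_top
  refine Submodule.span_induction
    (p := fun x _ => x ∈ Submodule.span (L a) (s : Set (NPi_sub (L := L) M a)))
    (fun x h => Submodule.subset_span h) (Submodule.zero_mem _)
    (fun x y _ _ hx hy => Submodule.add_mem _ hx hy) (fun r x _ hx => ?_) hx
  rw [NPi_sub_smul M a r x]
  exact (Submodule.span (L a) (s : Set (NPi_sub (L := L) M a))).smul_mem (r a) hx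

/-- the component as an object -/
def NPi_ob [Module.Finite (∀ i, L i) M] : LMod (L a) where
  carrier := NPi_sub (L := L) M a
  acg := inferInstance
  mod := NPi_mod M a
  fin := NPi_mod_fin M a

end comp

theorem NPi_eval_surj {n : ℕ} {L : Fin n → Type} [∀ i, Ring (L i)] (a : Fin n) :
    Surjective (Pi.evalRingHom L a) := fun b => ⟨Pi.single a b, Pi.single_eq_same a b⟩

theorem NPi_key {n : ℕ} {L : Fin n → Type} [∀ i, Ring (L i)] {P : LMod (∀ i, L i) → Prop}
    (hP : (modC (∀ i, L i)).T3 P)
    (h : ∀ (a : Fin n) (N : LMod (L a)), P (NPi_res (Pi.evalRingHom L a) (NPi_eval_surj a) N))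
    (s : Finset (Fin n)) : ∀ M : LMod (∀ i, L i),
      (∀ i ∉ s, ∀ x : M, (Pi.single i 1 : ∀ i, L i) • x = 0) → P M := by
  classical
  induction s using Finset.induction_on with
  | empty =>
    intro M hM
    apply hP.zero
    show Subsingleton M
    refine ⟨fun x y => ?_⟩
    have h0 : ∀ x : M, x = 0 := by
      intro x
      have h1 : (∑ i, (Pi.single i 1 : ∀ i, L i)) = 1 :=
        Finset.univ_sum_single (1 : ∀ i, L i)
      rw [← one_smul (∀ i, L i) x, ← h1, Finset.sum_smul]
      exact Finset.sum_eq_zero fun i _ => hM i (Finset.notMem_empty i) x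
    rw [h0 x, h0 y]
  | insert a s ha ih =>
    intro M hM
    have := NPi_sub_fin (L := L) M a
    refine LMod.t3_sub hP M (NPi_sub (L := L) M a) ?_ ?_
    · refine LMod.t3_iso hP (X := NPi_res (Pi.evalRingHom L a) (NPi_eval_surj a) (NPi_ob M a))
        ?_ (h a (NPi_ob M a))
      exact
        { toFun := fun x => x
          invFun := fun x => x
          left_inv := fun x => rfl
          right_inv := fun x => rfl
          map_add' := fun x y => rfl
          map_smul' := fun r x => by
            rw [RingHom.id_apply]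
            exact (NPi_sub_smul (L := L) M a r x).symm }
    · apply ih
      intro i hi x
      obtain ⟨x, rfl⟩ := Submodule.mkQ_surjective _ x
      show (NPi_sub (L := L) M a).mkQ ((Pi.single i 1 : ∀ i, L i) • x) = 0
      by_cases hia : i = a
      · subst hia
        rw [Submodule.mkQ_apply, Submodule.Quotient.mk_eq_zero]
        show (Pi.single i 1 : ∀ i, L i) • (Pi.single i 1 : ∀ i, L i) • x =
          (Pi.single i 1 : ∀ i, L i) • x
        rw [← mul_smul, NPi_single_mul, Pi.single_eq_same, mul_one]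
      · rw [hM i (by rw [Finset.mem_insert]; exact not_or.2 ⟨hia, hi⟩) x, map_zero]

theorem thm_Pi : St_Pi := by
  intro n L _ hL
  choose U hU hG using hL
  refine ⟨⋃ a, NPi_res (Pi.evalRingHom L a) (NPi_eval_surj a) '' U a,
    Set.finite_iUnion fun a => (hU a).image _, ?_⟩
  intro P hP hPU M
  refine NPi_key (L := L) hP (fun a N => ?_) Finset.univ M
    (fun i hi => absurd (Finset.mem_univ i) hi)
  exact hG a _ (NPi_t3 (Pi.evalRingHom L a) (NPi_eval_surj a) hP)
    (fun X hX => hPU _ (Set.mem_iUnion.2 ⟨a, X, hX, rfl⟩)) N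

end Pool.Agent.TQF
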