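import Pool.Agent.TQF.StN
import Mathlib.NumberTheory.ClassNumber.AdmissibleAbsoluteValue
import Mathlib.LinearAlgebra.Matrix.AbsoluteValue

/-!
# TQF, Pig: the pigeonhole argument for orders
-/

set_option autoImplicit false
set_option linter.unusedSectionVars false

namespace Pool.Agent.TQF

open Function

section NPig

variable {R0 : Type} [EuclideanDomain R0]

/-- the absolute value with real values -/
private noncomputable def NPig_abv (abv : AbsoluteValue R0 ℤ) : AbsoluteValue R0 ℝ where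
  toFun x := (abv x : ℝ)
  map_mul' x y := by rw [abv.map_mul]; push_cast; rfl
  nonneg' x := by exact_mod_cast abv.nonneg x
  eq_zero' x := by
    rw [Int.cast_eq_zero]
    exact abv.eq_zero
  add_le' x y := by exact_mod_cast abv.add_le x y

private theorem NPig_abv_apply (abv : AbsoluteValue R0 ℤ) (x : R0) :
    NPig_abv abv x = (abv x : ℝ) := rfl

variable {D : Type} [Ring D] [IsDomain D] [Algebra R0 D] [Module.Finite R0 D] [Module.Free R0 D]

variable (R0) in
/-- the norm: the determinant of the right multiplication -/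
private noncomputable def NPig_N (x : D) : R0 := LinearMap.det (LinearMap.mulRight R0 x)

private theorem NPig_N_mul (x y : D) : NPig_N R0 (x * y) = NPig_N R0 x * NPig_N R0 y := by
  unfold NPig_N
  rw [LinearMap.mulRight_mul, LinearMap.det_comp, mul_comm]

private theorem NPig_N_smul (d : R0) (x : D) :
    NPig_N R0 (d • x) = d ^ Module.finrank R0 D * NPig_N R0 x := by
  unfold NPig_N
  have h : LinearMap.mulRight R0 (d • x) = d • LinearMap.mulRight R0 x := by
    ext y
    simp
  rw [h, LinearMap.det_smul]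

/-- an element `u` with `u * a = N(a)` -/
private theorem NPig_adj (a : D) : ∃ u : D, u * a = NPig_N R0 a • (1 : D) := by
  classical
  let e := Module.Free.chooseBasis R0 D
  let M := LinearMap.toMatrix e e (LinearMap.mulRight R0 a)
  let ψ := Matrix.toLin e e M.adjugate
  refine ⟨ψ 1, ?_⟩
  have h1 : LinearMap.mulRight R0 a ∘ₗ ψ = NPig_N R0 a • LinearMap.id := by
    have h2 : LinearMap.mulRight R0 a = Matrix.toLin e e M := by
      rw [Matrix.toLin_toMatrix]
    have h3 : M.det = NPig_N R0 a := LinearMap.det_toMatrix e _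
    have h4 : LinearMap.mulRight R0 a ∘ₗ ψ = Matrix.toLin e e (M * M.adjugate) := by
      rw [Matrix.toLin_mul e e e, ← h2]
    rw [h4, Matrix.mul_adjugate, h3, map_smul, Matrix.toLin_one]
  have h2 := LinearMap.congr_fun h1 1
  exact h2

private theorem NPig_N_ne {a : D} (ha : a ≠ 0) : NPig_N R0 a ≠ 0 := by
  have h : Injective (LinearMap.mulRight R0 a) := by
    intro x y hxy
    exact mul_right_cancel₀ ha hxy
  have h1 : LinearMap.ker (LinearMap.mulRight R0 a) = ⊥ := LinearMap.ker_eq_bot.2 h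
  exact fun h2 => LinearMap.det_eq_zero_iff_ker_ne_bot.1 h2 h1

/-- the norm of an element with small coordinates -/
private theorem NPig_bound (abv : AbsoluteValue R0 ℤ) {ι : Type} [Fintype ι]
    (e : Module.Basis ι R0 D) : ∃ C : ℝ, 0 ≤ C ∧ ∀ (c : ι → R0) (y : ℝ),
      (∀ k, (abv (c k) : ℝ) ≤ y) → (abv (NPig_N R0 (∑ k, c k • e k)) : ℝ) ≤
        C * y ^ Fintype.card ι := by
  classical
  let A : ι → Matrix ι ι R0 := fun k => LinearMap.toMatrix e e (LinearMap.mulRight R0 (e k))
  let X : ℝ := ∑ k, ∑ i, ∑ j, (abv (A k i j) : ℝ)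
  have hnn : ∀ x : R0, (0 : ℝ) ≤ (abv x : ℝ) := fun x => by exact_mod_cast abv.nonneg x
  have hX : ∀ k i j, NPig_abv abv (A k i j) ≤ X := by
    intro k i j
    have h1 : (abv (A k i j) : ℝ) ≤ ∑ j, (abv (A k i j) : ℝ) :=
      Finset.single_le_sum (f := fun j => (abv (A k i j) : ℝ)) (fun j _ => hnn _)
        (Finset.mem_univ j)
    have h2 : ∑ j, (abv (A k i j) : ℝ) ≤ ∑ i, ∑ j, (abv (A k i j) : ℝ) :=
      Finset.single_le_sum (f := fun i => ∑ j, (abv (A k i j) : ℝ))
        (fun i _ => Finset.sum_nonneg fun j _ => hnn _) (Finset.mem_univ i)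
    have h3 : ∑ i, ∑ j, (abv (A k i j) : ℝ) ≤ X :=
      Finset.single_le_sum (f := fun k => ∑ i, ∑ j, (abv (A k i j) : ℝ))
        (fun k _ => Finset.sum_nonneg fun i _ => Finset.sum_nonneg fun j _ => hnn _)
        (Finset.mem_univ k)
    exact h1.trans (h2.trans h3)
  have hX0 : 0 ≤ X := Finset.sum_nonneg fun k _ => Finset.sum_nonneg fun i _ =>
    Finset.sum_nonneg fun j _ => hnn _
  refine ⟨(Fintype.card ι).factorial * (Fintype.card ι * X) ^ Fintype.card ι, by positivity,
    fun c y hy => ?_⟩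
  have h1 : NPig_N R0 (∑ k, c k • e k) = (∑ k, c k • A k).det := by
    unfold NPig_N
    have h2 : LinearMap.mulRight R0 (∑ k, c k • e k) =
        ∑ k, c k • LinearMap.mulRight R0 (e k) := by
      ext y
      simp [Finset.mul_sum]
    rw [h2, ← LinearMap.det_toMatrix e, map_sum]
    simp only [map_smul]
    rfl
  have h2 := Matrix.det_sum_smul_le (abv := NPig_abv abv) Finset.univ (c := c) (A := A) (x := X)
    hX (y := y) hy
  rw [h1, ← NPig_abv_apply]
  refine h2.trans (le_of_eq ?_)
  rw [Finset.card_univ, nsmul_eq_mul, nsmul_eq_mul, mul_pow, mul_pow, mul_pow]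
  ring

end NPig

theorem thm_Pig : St_Pig := by
  classical
  intro R0 _ _ abv adm D _ _ _ _ _
  let e := Module.Free.chooseBasis R0 D
  let ι := Module.Free.ChooseBasisIndex R0 D
  obtain ⟨C, hC0, hC⟩ := NPig_bound abv e
  have hι : Nonempty ι := e.index_nonempty
  set n := Fintype.card ι with hn
  have hn1 : 1 ≤ n := Fintype.card_pos
  have hnn : ∀ x : R0, (0 : ℝ) ≤ (abv x : ℝ) := fun x => by exact_mod_cast abv.nonneg x
  have hrk : Module.finrank R0 D = n := Module.finrank_eq_card_basis e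
  -- the constant
  set ε : ℝ := 1 / (C + 1) with hε
  have hε0 : 0 < ε := by positivity
  have hε1 : ε ≤ 1 := by
    rw [hε, div_le_one (by positivity)]
    linarith
  have hCε : C * ε ^ n < 1 := by
    have h1 : ε ^ n ≤ ε := pow_le_of_le_one hε0.le hε1 (by omega)
    calc C * ε ^ n ≤ C * ε := mul_le_mul_of_nonneg_left h1 hC0
      _ < 1 := by
        rw [hε, mul_one_div, div_lt_one (by positivity)]
        linarith
  -- the elements
  let t : Fin (adm.card ε ^ Fintype.card ι).succ → R0 := fun j => Infinite.natEmbedding R0 j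
  have ht : Injective t := fun i j h => Fin.val_injective ((Infinite.natEmbedding R0).injective h)
  let S : Finset (Fin (adm.card ε ^ Fintype.card ι).succ ×
    Fin (adm.card ε ^ Fintype.card ι).succ) := Finset.univ.filter fun p => p.1 ≠ p.2
  refine ⟨∏ p ∈ S, (t p.1 - t p.2), ?_, fun I => ?_⟩
  · refine Finset.prod_ne_zero_iff.2 fun p hp => sub_ne_zero.2 fun h => ?_
    exact (Finset.mem_filter.1 hp).2 (ht h)
  by_cases hI : ∃ a ∈ I, a ≠ 0
  swap
  · refine ⟨0, I.zero_mem, fun b hb => ?_⟩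
    have hb0 : b = 0 := by
      by_contra h
      exact hI ⟨b, hb, h⟩
    rw [hb0, smul_zero]
    exact Submodule.zero_mem _
  -- an element of minimal norm
  have hex : ∃ k : ℕ, ∃ a ∈ I, a ≠ 0 ∧ (abv (NPig_N R0 a)).toNat = k := by
    obtain ⟨a, ha, ha0⟩ := hI
    exact ⟨_, a, ha, ha0, rfl⟩
  obtain ⟨a, ha, ha0, hak⟩ := Nat.find_spec hex
  have hmin : ∀ z ∈ I, (abv (NPig_N R0 z) : ℝ) < (abv (NPig_N R0 a) : ℝ) → z = 0 := by
    intro z hz hlt
    by_contra hz0
    have h1 : abv (NPig_N R0 z) < abv (NPig_N R0 a) := by exact_mod_cast hlt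
    have h2 : (abv (NPig_N R0 z)).toNat < Nat.find hex := by
      rw [← hak]
      have := abv.nonneg (NPig_N R0 z)
      omega
    exact Nat.find_min hex h2 ⟨z, hz, hz0, rfl⟩
  refine ⟨a, ha, fun b hb => ?_⟩
  set d := NPig_N R0 a with hd
  have hd0 : d ≠ 0 := NPig_N_ne ha0
  obtain ⟨u, hu⟩ := NPig_adj (R0 := R0) a
  rw [← hd] at hu
  -- the approximation
  let A : Fin (adm.card ε ^ Fintype.card ι).succ → ι → R0 := fun j k => t j * e.repr (b * u) k
  obtain ⟨i, j, hij, hA⟩ := adm.exists_approx hε0 hd0 A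
  let r := t j - t i
  let q : D := ∑ k, (A j k / d - A i k / d) • e k
  let δ : D := ∑ k, (A j k % d - A i k % d) • e k
  have h1 : r • (b * u) = d • q + δ := by
    have h2 : b * u = ∑ k, e.repr (b * u) k • e k := (e.sum_repr (b * u)).symm
    conv_lhs => rw [h2]
    rw [Finset.smul_sum, Finset.smul_sum, ← Finset.sum_add_distrib]
    refine Finset.sum_congr rfl fun k _ => ?_
    rw [smul_smul, smul_smul, ← add_smul]
    congr 1
    have e1 := EuclideanDomain.div_add_mod (A j k) d
    have e2 := EuclideanDomain.div_add_mod (A i k) d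
    have e3 : r * e.repr (b * u) k = A j k - A i k := by
      show (t j - t i) * _ = t j * _ - t i * _
      ring
    rw [e3]
    linear_combination e2 - e1
  have h2 : d • (r • b - q * a) = δ * a := by
    have h3 : δ = r • (b * u) - d • q := by rw [h1]; abel
    rw [h3, sub_mul, smul_mul_assoc, smul_mul_assoc, mul_assoc, hu, smul_sub, mul_smul_comm,
      mul_one, smul_comm]
  have hz : r • b - q * a ∈ I := by
    refine I.sub_mem ?_ (I.mul_mem_left q ha)
    rw [Algebra.smul_def]
    exact I.mul_mem_left _ hb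
  have hN : (abv d : ℝ) ^ n * (abv (NPig_N R0 (r • b - q * a)) : ℝ) =
      (abv (NPig_N R0 δ) : ℝ) * (abv d : ℝ) := by
    have h3 := congrArg (fun x => ((abv (NPig_N R0 x) : ℤ) : ℝ)) h2
    simp only [NPig_N_mul, NPig_N_smul, map_mul, map_pow, hrk, Int.cast_mul, Int.cast_pow] at h3
    exact h3
  have hδ : (abv (NPig_N R0 δ) : ℝ) ≤ C * ((abv d : ℝ) * ε) ^ n :=
    hC _ _ fun k => by
      have h3 := (hA k).le
      rwa [zsmul_eq_mul] at h3
  have hdpos : (0 : ℝ) < (abv d : ℝ) := by exact_mod_cast abv.pos hd0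
  have hz0 : r • b - q * a = 0 := by
    refine hmin _ hz ?_
    have h3 : (abv d : ℝ) ^ n * (abv (NPig_N R0 (r • b - q * a)) : ℝ) <
        (abv d : ℝ) ^ n * (abv d : ℝ) := by
      rw [hN]
      calc (abv (NPig_N R0 δ) : ℝ) * (abv d : ℝ)
          ≤ C * ((abv d : ℝ) * ε) ^ n * (abv d : ℝ) :=
            mul_le_mul_of_nonneg_right hδ hdpos.le
        _ = (C * ε ^ n) * ((abv d : ℝ) ^ n * (abv d : ℝ)) := by rw [mul_pow]; ring
        _ < 1 * ((abv d : ℝ) ^ n * (abv d : ℝ)) :=
            mul_lt_mul_of_pos_right hCε (by positivity)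
        _ = _ := one_mul _
    exact lt_of_mul_lt_mul_left h3 (by positivity)
  -- conclusion
  have hrs : r ∣ ∏ p ∈ S, (t p.1 - t p.2) :=
    Finset.dvd_prod_of_mem (fun p : Fin (adm.card ε ^ Fintype.card ι).succ ×
      Fin (adm.card ε ^ Fintype.card ι).succ => t p.1 - t p.2) (a := (j, i))
      (Finset.mem_filter.2 ⟨Finset.mem_univ _, fun h => hij h.symm⟩)
  obtain ⟨s', hs'⟩ := hrs
  rw [hs', mul_comm, mul_smul, sub_eq_zero.1 hz0, Algebra.smul_def]
  exact Ideal.mul_mem_left _ _ (Ideal.mul_mem_left _ _ (Ideal.subset_span rfl))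

end Pool.Agent.TQF
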