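import Pool.Agent.TQF.StT

/-!
# TQF, part T: comparison with `FinGn`; powers
-/

set_option autoImplicit false

namespace Pool.Agent.TQF

open Function Pool.Agent.Helper11 Pool.Agent.Helper67.Bass

section

variable {R : Type} [CommRing R]

/-- the same module, in the other bundling -/
private def T0_toL (M : FGMod R) : LMod R :=
  { carrier := M.carrier, acg := M.addCommGroup, mod := M.module, fin := M.finite }

/-- the same module, in the other bundling -/
private def T0_toF (X : LMod R) : FGMod R :=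
  { carrier := X.carrier, addCommGroup := X.acg, module := X.mod, finite := X.fin }

private theorem T0_two3 {P : LMod R → Prop} (hP : (modC R).T3 P) :
    Two3 (fun M : FGMod R => P (T0_toL M)) where
  iso M N e h := LMod.t3_iso hP (X := T0_toL M) (Y := T0_toL N) e h
  ext M' M M'' f g hf hg hfg h1 h2 :=
    hP.ext (T0_toL M') (T0_toL M) (T0_toL M'') ⟨f, g, hf, hg, hfg⟩ h1 h2
  coker M' M M'' f g hf hg hfg h1 h2 :=
    hP.coker (T0_toL M') (T0_toL M) (T0_toL M'') ⟨f, g, hf, hg, hfg⟩ h1 h2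
  ker M' M M'' f g hf hg hfg h1 h2 :=
    hP.ker (T0_toL M') (T0_toL M) (T0_toL M'') ⟨f, g, hf, hg, hfg⟩ h1 h2
  zero M hM := hP.zero (T0_toL M) hM

private theorem T0_t3 {P : FGMod R → Prop} (hP : Two3 P) :
    (modC R).T3 (fun X : LMod R => P (T0_toF X)) where
  zero X hX := hP.zero (T0_toF X) hX
  ext X Y Z h h1 h2 := by
    obtain ⟨f, g, hf, hg, hfg⟩ := h
    exact hP.ext (T0_toF X) (T0_toF Y) (T0_toF Z) f g hf hg hfg h1 h2
  coker X Y Z h h1 h2 := by
    obtain ⟨f, g, hf, hg, hfg⟩ := h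
    exact hP.coker (T0_toF X) (T0_toF Y) (T0_toF Z) f g hf hg hfg h1 h2
  ker X Y Z h h1 h2 := by
    obtain ⟨f, g, hf, hg, hfg⟩ := h
    exact hP.ker (T0_toF X) (T0_toF Y) (T0_toF Z) f g hf hg hfg h1 h2

end

/-- comparison with `FinGn` -/
theorem thm_T0 : St_T0 := by
  intro R _
  constructor
  · rintro ⟨T, hT, hgen⟩
    refine ⟨T0_toL '' T, hT.image _, ?_⟩
    intro P hP hU X
    exact hgen _ (T0_two3 hP) (fun N hN => hU _ ⟨N, hN, rfl⟩) (T0_toF X)
  · rintro ⟨U, hU, hgen⟩
    refine ⟨T0_toF '' U, hU.image _, ?_⟩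
    intro P hP hT M
    exact hgen _ (T0_t3 hP) (fun N hN => hT _ ⟨N, hN, rfl⟩) (T0_toL M)

/-- powers -/
theorem thm_Pow : St_Pow := by
  intro R _ _ x g N hx hg
  induction N with
  | zero =>
    rw [pow_zero, one_mul]
    exact hg
  | succ n ih =>
    obtain ⟨I, hI⟩ : ∃ I : Ideal R, I = Ideal.span {x ^ (n + 1) * g} := ⟨_, rfl⟩
    rw [← hI]
    have h1 : I ⊔ Ideal.span {x} = Ideal.span {x} := by
      rw [sup_eq_right, hI, Ideal.span_singleton_le_span_singleton]
      exact Dvd.dvd.mul_right (dvd_pow_self x (Nat.succ_ne_zero n)) g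
    have h2 : I ⊔ Ideal.span {x ^ n * g} = Ideal.span {x ^ n * g} := by
      rw [sup_eq_right, hI, Ideal.span_singleton_le_span_singleton]
      exact ⟨x, by ring⟩
    have e1 : FinGn (R ⧸ (I ⊔ Ideal.span {x})) := by rw [h1]; exact hx
    have e2 : FinGn (R ⧸ (I ⊔ Ideal.span {x ^ n * g})) := by rw [h2]; exact ih
    refine FinGn.of_mul (I := (Ideal.span {x}).map (Ideal.Quotient.mk I))
      (J := (Ideal.span {x ^ n * g}).map (Ideal.Quotient.mk I)) ?_
      (FinGn.of_equiv (DoubleQuot.quotQuotEquivQuotSup I (Ideal.span {x})).symm e1)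
      (FinGn.of_equiv (DoubleQuot.quotQuotEquivQuotSup I (Ideal.span {x ^ n * g})).symm e2)
    rw [← Ideal.map_mul, Ideal.span_singleton_mul_span_singleton, Ideal.map_span,
      Set.image_singleton, Ideal.span_singleton_eq_bot, Ideal.Quotient.eq_zero_iff_mem, hI,
      Ideal.mem_span_singleton]
    exact ⟨1, by ring⟩

end Pool.Agent.TQF
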