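import Pool.Agent.TQF.StT

/-!
# TQF, module T1: modules over `S[X] / (X ^ 2 + l X + g)`

Module of helper71, written by helper73.
-/

set_option autoImplicit false

namespace Pool.Agent.TQF

open Function MvPolynomial TensorProduct Pool.Agent.Helper11 Pool.Agent.Helper67.Bass

section

variable {S : Type} [CommRing S]

/-- the quadratic polynomial -/
noncomputable abbrev T1_pol (l g : S) : Polynomial S :=
  Polynomial.X ^ 2 + Polynomial.C l * Polynomial.X + Polynomial.C g

/-- the ring `S[X] / (X ^ 2 + l X + g)` -/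
abbrev T1_B (l g : S) : Type := Polynomial S ⧸ Ideal.span {(T1_pol l g : Polynomial S)}

theorem T1_kill {l g : S} (M : QM l g) (p : Polynomial S)
    (hp : p ∈ Ideal.span {(T1_pol l g : Polynomial S)}) :
    (Polynomial.aeval M.z : Polynomial S →ₐ[S] Module.End S M.carrier).toRingHom p = 0 := by
  obtain ⟨c, rfl⟩ := Ideal.mem_span_singleton'.1 hp
  have h1 : (Polynomial.aeval M.z : Polynomial S →ₐ[S] Module.End S M.carrier) (T1_pol l g) = 0 := by
    refine LinearMap.ext fun x => ?_
    have h2 : (Polynomial.aeval M.z : Polynomial S →ₐ[S] Module.End S M.carrier) (T1_pol l g) =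
        M.z ^ 2 + algebraMap S _ l * M.z + algebraMap S _ g := by
      simp only [T1_pol, map_add, map_mul, map_pow, Polynomial.aeval_X, Polynomial.aeval_C]
    rw [h2]
    exact M.rel x
  show (Polynomial.aeval M.z : Polynomial S →ₐ[S] Module.End S M.carrier) (c * T1_pol l g) = 0
  rw [map_mul, h1, mul_zero]

/-- the action of the ring on an object -/
noncomputable def T1_hom {l g : S} (M : QM l g) : T1_B l g →+* Module.End S M.carrier :=
  Ideal.Quotient.lift _ (Polynomial.aeval M.z : Polynomial S →ₐ[S] Module.End S M.carrier).toRingHom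
    (T1_kill M)

/-- the module structure -/
@[reducible] noncomputable def T1_mod {l g : S} (M : QM l g) : Module (T1_B l g) M.carrier :=
  Module.compHom M.carrier (T1_hom M)

theorem T1_smul {l g : S} (M : QM l g) (p : Polynomial S) (x : M.carrier) :
    letI := T1_mod M
    ((Ideal.Quotient.mk _ p : T1_B l g) • x : M.carrier) = Polynomial.aeval M.z p x := rfl

theorem T1_fin {l g : S} (M : QM l g) :
    letI := T1_mod M
    Module.Finite (T1_B l g) M.carrier := by
  let _ := T1_mod M
  have : IsScalarTower S (T1_B l g) M.carrier := by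
    refine ⟨fun s b x => ?_⟩
    obtain ⟨p, rfl⟩ := Ideal.Quotient.mk_surjective b
    show Polynomial.aeval M.z (s • p) x = s • Polynomial.aeval M.z p x
    rw [map_smul]
    rfl
  exact Module.Finite.of_restrictScalars_finite S (T1_B l g) M.carrier

/-- the module of an object -/
noncomputable def T1_G {l g : S} (M : QM l g) : FGMod (T1_B l g) :=
  @FGMod.mk (T1_B l g) _ M.carrier M.acg (T1_mod M) (T1_fin M)

theorem T1_comm {l g : S} {X Y : QM l g} (f : X →ₗ[S] Y)
    (hf : ∀ x, f (X.z x) = Y.z (f x)) (p : Polynomial S) (x : X.carrier) :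
    f (Polynomial.aeval X.z p x) = Polynomial.aeval Y.z p (f x) := by
  induction p using Polynomial.induction_on' generalizing x with
  | add p r hp hr =>
    rw [map_add, map_add, LinearMap.add_apply, LinearMap.add_apply, map_add, hp, hr]
  | monomial n a =>
    rw [Polynomial.aeval_monomial, Polynomial.aeval_monomial]
    show f (a • ((X.z ^ n) x)) = a • ((Y.z ^ n) (f x))
    rw [map_smul]
    congr 1
    induction n generalizing x with
    | zero => rfl
    | succ n ih =>
      rw [pow_succ, pow_succ]
      show f ((X.z ^ n) (X.z x)) = (Y.z ^ n) (Y.z (f x))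
      rw [ih, hf]

/-- the linear map of a morphism -/
noncomputable def T1_map {l g : S} {X Y : QM l g} (f : X →ₗ[S] Y)
    (hf : ∀ x, f (X.z x) = Y.z (f x)) : (T1_G X) →ₗ[T1_B l g] (T1_G Y) where
  toFun := fun x => f x
  map_add' := fun x y => map_add f x y
  map_smul' := fun b x => by
    obtain ⟨p, rfl⟩ := Ideal.Quotient.mk_surjective b
    exact T1_comm f hf p x

/-- the object of a module -/
@[reducible] noncomputable def T1_smod {l g : S} (N : FGMod (T1_B l g)) : Module S N.carrier :=
  Module.compHom N.carrier (algebraMap S (T1_B l g))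

theorem T1_sfin {l g : S} (N : FGMod (T1_B l g)) :
    letI := T1_smod N
    Module.Finite S N.carrier := by
  let _ := T1_smod N
  have : IsScalarTower S (T1_B l g) N.carrier := by
    refine ⟨fun s b x => ?_⟩
    obtain ⟨p, rfl⟩ := Ideal.Quotient.mk_surjective b
    show (Ideal.Quotient.mk _ (s • p) : T1_B l g) • x =
      (Ideal.Quotient.mk _ (Polynomial.C s) : T1_B l g) • (Ideal.Quotient.mk _ p : T1_B l g) • x
    rw [Polynomial.smul_eq_C_mul, map_mul, mul_smul]
  have : Module.Finite S (T1_B l g) := by
    nontriviality S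
    have h1 : (T1_pol l g).Monic := by
      unfold T1_pol
      monicity!
    exact h1.finite_quotient
  exact Module.Finite.trans (T1_B l g) N.carrier

/-- multiplication by the class of `X` -/
noncomputable def T1_z {l g : S} (N : FGMod (T1_B l g)) :
    letI := T1_smod N
    N.carrier →ₗ[S] N.carrier :=
  letI := T1_smod N
  { toFun := fun x => (Ideal.Quotient.mk _ Polynomial.X : T1_B l g) • x
    map_add' := fun x y => smul_add _ x y
    map_smul' := fun r x => smul_comm _ (algebraMap S (T1_B l g) r) x }

theorem T1_rel {l g : S} (N : FGMod (T1_B l g)) :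
    letI := T1_smod N
    ∀ x : N.carrier, T1_z N (T1_z N x) + l • T1_z N x + g • x = 0 := by
  let _ := T1_smod N
  intro x
  show (Ideal.Quotient.mk _ Polynomial.X : T1_B l g) •
    (Ideal.Quotient.mk _ Polynomial.X : T1_B l g) • x +
    (Ideal.Quotient.mk _ (Polynomial.C l) : T1_B l g) •
      (Ideal.Quotient.mk _ Polynomial.X : T1_B l g) • x +
    (Ideal.Quotient.mk _ (Polynomial.C g) : T1_B l g) • x = 0
  rw [smul_smul, smul_smul, ← add_smul, ← add_smul, ← map_mul, ← map_mul, ← map_add, ← map_add]
  have h1 : (Ideal.Quotient.mk (Ideal.span {(T1_pol l g : Polynomial S)})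
      (Polynomial.X * Polynomial.X + Polynomial.C l * Polynomial.X + Polynomial.C g)) = 0 := by
    rw [Ideal.Quotient.eq_zero_iff_mem, ← pow_two]
    exact Ideal.subset_span rfl
  rw [h1]
  exact zero_smul (T1_B l g) x

/-- the object of a module -/
noncomputable def T1_O {l g : S} (N : FGMod (T1_B l g)) : QM l g :=
  @QM.mk S _ l g N.carrier N.addCommGroup (T1_smod N) (T1_sfin N) (T1_z N) (T1_rel N)

theorem T1_act {l g : S} (N : FGMod (T1_B l g)) (p : Polynomial S) (x : N.carrier) :
    letI := T1_smod N
    Polynomial.aeval (T1_z N) p x = (Ideal.Quotient.mk _ p : T1_B l g) • x := by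
  let _ := T1_smod N
  induction p using Polynomial.induction_on' generalizing x with
  | add p r hp hr =>
    rw [map_add, map_add, LinearMap.add_apply, hp, hr]
    exact (add_smul (Ideal.Quotient.mk _ p : T1_B l g) (Ideal.Quotient.mk _ r : T1_B l g) x).symm
  | monomial n a =>
    rw [Polynomial.aeval_monomial, ← Polynomial.C_mul_X_pow_eq_monomial, map_mul]
    refine Eq.trans ?_ (mul_smul (Ideal.Quotient.mk _ (Polynomial.C a) : T1_B l g)
      (Ideal.Quotient.mk _ (Polynomial.X ^ n) : T1_B l g) x).symm
    show (Ideal.Quotient.mk _ (Polynomial.C a) : T1_B l g) • (((T1_z N) ^ n) x) = _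
    refine congrArg (fun y => (Ideal.Quotient.mk _ (Polynomial.C a) : T1_B l g) • y) ?_
    induction n generalizing x with
    | zero =>
      rw [pow_zero, pow_zero, map_one]
      exact (one_smul (T1_B l g) x).symm
    | succ n ih =>
      rw [pow_succ, pow_succ, map_mul]
      refine Eq.trans ?_ (mul_smul (Ideal.Quotient.mk _ (Polynomial.X ^ n) : T1_B l g)
        (Ideal.Quotient.mk _ Polynomial.X : T1_B l g) x).symm
      exact ih _

/-- every module comes from an object -/
noncomputable def T1_iso {l g : S} (N : FGMod (T1_B l g)) :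
    (T1_G (T1_O N)) ≃ₗ[T1_B l g] N where
  toFun := fun x => x
  invFun := fun x => x
  left_inv := fun _ => rfl
  right_inv := fun _ => rfl
  map_add' := fun _ _ => rfl
  map_smul' := fun b x => by
    obtain ⟨p, rfl⟩ := Ideal.Quotient.mk_surjective b
    exact T1_act N p x

theorem T1_t3 {l g : S} {P : FGMod (T1_B l g) → Prop} (hP : Two3 P) :
    (qC l g).T3 (fun M => P (T1_G M)) where
  zero M hM := hP.zero (T1_G M) hM
  ext X Y Z h h1 h2 := by
    obtain ⟨f, h, hf, hh, he, hfz, hhz⟩ := h
    exact hP.ext (T1_G X) (T1_G Y) (T1_G Z) (T1_map f hfz) (T1_map h hhz) hf hh he h1 h2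
  coker X Y Z h h1 h2 := by
    obtain ⟨f, h, hf, hh, he, hfz, hhz⟩ := h
    exact hP.coker (T1_G X) (T1_G Y) (T1_G Z) (T1_map f hfz) (T1_map h hhz) hf hh he h1 h2
  ker X Y Z h h1 h2 := by
    obtain ⟨f, h, hf, hh, he, hfz, hhz⟩ := h
    exact hP.ker (T1_G X) (T1_G Y) (T1_G Z) (T1_map f hfz) (T1_map h hhz) hf hh he h1 h2

end

theorem thm_T1 : St_T1 := by
  intro S _ l g h
  obtain ⟨U, hU, hgU⟩ := h
  refine ⟨T1_G '' U, hU.image _, ?_⟩
  intro P hP hN M
  refine hP.iso _ _ (T1_iso M) ?_
  exact hgU _ (T1_t3 hP) (fun X hX => hN _ ⟨X, hX, rfl⟩) (T1_O M)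

end Pool.Agent.TQF
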