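import Pool.Agent.TQF.StT
import Pool.Agent.Helper68.KronFin

/-!
# TQF, part T: residue fields of `k[t]`
-/

set_option autoImplicit false

namespace Pool.Agent.TQF

open Function Pool.Agent.Helper67.Bass

/-- residue fields of `k[t]`, `k` a finite field, have Kronecker dimension at most one -/
theorem thm_Kt : St_Kt := by
  intro k _ _
  refine ⟨fun P hP => ?_, fun P hP => ?_⟩
  · refine Helper68.kron_of_gen k (Polynomial k ⧸ P) (Ideal.Quotient.mk P Polynomial.X) ?_
    intro y
    obtain ⟨f, rfl⟩ := Ideal.Quotient.mk_surjective y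
    refine ⟨f, ?_⟩
    have h1 := Polynomial.aeval_algHom_apply (Ideal.Quotient.mkₐ k P) Polynomial.X f
    rw [Polynomial.aeval_X_left_apply] at h1
    exact h1
  · refine Helper68.kron_of_gen k (k ⧸ P) 0 ?_
    intro y
    obtain ⟨c, rfl⟩ := Ideal.Quotient.mk_surjective y
    refine ⟨Polynomial.C c, ?_⟩
    rw [Polynomial.aeval_C]
    rfl

end Pool.Agent.TQF
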