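import Pool.Agent.TQF.StT

/-!
# TQF, module Lin: hypersurfaces of degree one
-/

set_option autoImplicit false

namespace Pool.Agent.TQF

open Function MvPolynomial

variable {A : Type} [CommRing A]

private theorem TLin_core (m : ℕ) (f : MvPolynomial (Fin (m + 1)) A) (h : f.totalDegree ≤ 1)
    (hu : IsUnit (f.coeff (Finsupp.single 0 1))) :
    ∃ (g : MvPolynomial (Fin m) A) (u : Aˣ), finSuccEquiv A m f = Polynomial.C (C (u : A)) *
      (Polynomial.X - Polynomial.C g) := by
  obtain ⟨P, hP⟩ : ∃ P, P = finSuccEquiv A m f := ⟨_, rfl⟩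
  have hdeg : ∀ k, P.coeff k ≠ 0 → (P.coeff k).totalDegree + k ≤ 1 := by
    intro k hk
    rw [hP] at hk ⊢
    exact (totalDegree_coeff_finSuccEquiv_add_le f k hk).trans h
  have hnd : P.natDegree ≤ 1 := by
    rw [hP, natDegree_finSuccEquiv]
    exact (degreeOf_le_totalDegree f 0).trans h
  obtain ⟨u, hu⟩ := hu
  have hc1 : P.coeff 1 = C (u : A) := by
    have h1 : (P.coeff 1).totalDegree = 0 := by
      by_cases h2 : P.coeff 1 = 0
      · rw [h2, totalDegree_zero]
      · have := hdeg 1 h2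
        omega
    rw [totalDegree_eq_zero_iff_eq_C.1 h1]
    congr 1
    rw [hP, finSuccEquiv_coeff_coeff, hu]
    congr 1
    ext i
    refine Fin.cases ?_ (fun j => ?_) i
    · rw [Finsupp.cons_zero, Finsupp.single_eq_same]
    · rw [Finsupp.cons_succ, Finsupp.single_eq_of_ne (Fin.succ_ne_zero j)]
      rfl
  refine ⟨-(C (↑u⁻¹ : A) * P.coeff 0), u, ?_⟩
  rw [← hP]
  have h2 : P = Polynomial.C (C (u : A)) * Polynomial.X + Polynomial.C (P.coeff 0) := by
    conv_lhs => rw [P.as_sum_range_C_mul_X_pow' (n := 2) (by omega)]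
    rw [Finset.sum_range_succ, Finset.sum_range_succ, Finset.sum_range_zero, hc1]
    ring
  have e1 : (Polynomial.C (C (u : A)) * Polynomial.C (C (↑u⁻¹ : A)) :
      Polynomial (MvPolynomial (Fin m) A)) = 1 := by
    rw [← Polynomial.C_mul, ← C_mul, Units.mul_inv, C_1, Polynomial.C_1]
  conv_lhs => rw [h2]
  rw [Polynomial.C_neg, Polynomial.C_mul]
  linear_combination (-Polynomial.C (P.coeff 0)) * e1

theorem thm_Lin : St_Lin := by
  intro A _ n f hf ⟨i, hi⟩
  obtain ⟨m, rfl⟩ : ∃ m, n = m + 1 := by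
    cases n with
    | zero => exact i.elim0
    | succ m => exact ⟨m, rfl⟩
  refine ⟨m, ?_⟩
  obtain ⟨σ, hσ⟩ : ∃ σ : Fin (m + 1) ≃ Fin (m + 1), σ i = 0 :=
    ⟨Equiv.swap i 0, Equiv.swap_apply_left i 0⟩
  have h1 : (rename σ f).totalDegree ≤ 1 := (totalDegree_rename_le _ _).trans hf
  have h2 : IsUnit ((rename σ f).coeff (Finsupp.single 0 1)) := by
    have h3 := coeff_rename_mapDomain σ σ.injective f (Finsupp.single i 1)
    rw [Finsupp.mapDomain_single, hσ] at h3
    rw [h3]
    exact hi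
  obtain ⟨g, u, hg⟩ := TLin_core m _ h1 h2
  have hU : IsUnit (Polynomial.C (C (u : A)) : Polynomial (MvPolynomial (Fin m) A)) :=
    (u.isUnit.map (C : A →+* MvPolynomial (Fin m) A)).map
      (Polynomial.C : MvPolynomial (Fin m) A →+* Polynomial (MvPolynomial (Fin m) A))
  have h4 : Ideal.span {(Polynomial.X - Polynomial.C g : Polynomial (MvPolynomial (Fin m) A))} =
      (Ideal.span {f}).map
        (((renameEquiv A σ).trans (finSuccEquiv A m)).toRingEquiv :
          MvPolynomial (Fin (m + 1)) A →+* Polynomial (MvPolynomial (Fin m) A)) := by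
    rw [Ideal.map_span, Set.image_singleton]
    have h5 : (((renameEquiv A σ).trans (finSuccEquiv A m)).toRingEquiv :
          MvPolynomial (Fin (m + 1)) A →+* Polynomial (MvPolynomial (Fin m) A)) f =
        Polynomial.C (C (u : A)) * (Polynomial.X - Polynomial.C g) := hg
    rw [h5, Ideal.span_singleton_mul_left_unit hU]
  exact ⟨(Ideal.quotientEquiv _ _ _ h4).trans
    (Polynomial.quotientSpanXSubCAlgEquiv g).toRingEquiv⟩

end Pool.Agent.TQF
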