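import Pool.Agent.TQF.StT

/-!
# TQF, module Mon: normal form of quadrics with a unit value
-/

set_option autoImplicit false

namespace Pool.Agent.TQF

open Function MvPolynomial
open scoped Pointwise

variable {A : Type} [CommRing A]

/-! ### linear and quadratic polynomials -/

private theorem TMon_exists (m : ℕ) (d : Fin m →₀ ℕ) (h : d ≠ 0) :
    ∃ (i : Fin m) (d' : Fin m →₀ ℕ), d = Finsupp.single i 1 + d' := by
  obtain ⟨i, hi⟩ := Finsupp.ne_iff.1 h
  have hi' : Finsupp.single i 1 ≤ d := by
    rw [Finsupp.single_le_iff]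
    exact Nat.one_le_iff_ne_zero.2 hi
  exact ⟨i, d - Finsupp.single i 1, (add_tsub_cancel_of_le hi').symm⟩

private theorem TMon_mon1 (m : ℕ) (d : Fin m →₀ ℕ) (a : A) (h : d.degree ≤ 1) :
    monomial d a ∈ Submodule.span A (Set.range (yv A m)) := by
  by_cases h0 : d = 0
  · subst h0
    have h1 : monomial (0 : Fin m →₀ ℕ) a = a • yv A m 0 := by
      show C a = a • (1 : MvPolynomial (Fin m) A)
      rw [smul_eq_C_mul, mul_one]
    rw [h1]
    exact Submodule.smul_mem _ _ (Submodule.subset_span ⟨0, rfl⟩)
  · obtain ⟨i, d', rfl⟩ := TMon_exists m d h0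
    rw [map_add, Finsupp.degree_single] at h
    have h2 : d' = 0 := by
      rw [← Finsupp.degree_eq_zero_iff]
      omega
    subst h2
    have h1 : monomial (Finsupp.single i 1 + 0) a = a • yv A m i.succ := by
      show monomial (Finsupp.single i 1 + 0) a = a • X i
      rw [add_zero, smul_eq_C_mul, C_mul_X_eq_monomial]
    rw [h1]
    exact Submodule.smul_mem _ _ (Submodule.subset_span ⟨i.succ, rfl⟩)

private theorem TMon_mon2 (m : ℕ) (d : Fin m →₀ ℕ) (a : A) (h : d.degree ≤ 2) :
    monomial d a ∈
      Submodule.span A (Set.range (yv A m)) * Submodule.span A (Set.range (yv A m)) := by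
  by_cases h0 : d = 0
  · have h1 := TMon_mon1 m d a (by rw [h0]; simp)
    have h2 : (1 : MvPolynomial (Fin m) A) ∈ Submodule.span A (Set.range (yv A m)) :=
      Submodule.subset_span ⟨0, rfl⟩
    have h3 := Submodule.mul_mem_mul h1 h2
    rwa [mul_one] at h3
  · obtain ⟨i, d', rfl⟩ := TMon_exists m d h0
    rw [map_add, Finsupp.degree_single] at h
    have h1 := TMon_mon1 m d' a (by omega)
    have h2 : (X i : MvPolynomial (Fin m) A) ∈ Submodule.span A (Set.range (yv A m)) :=
      Submodule.subset_span ⟨i.succ, rfl⟩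
    have h3 := Submodule.mul_mem_mul h2 h1
    have h4 : (X i : MvPolynomial (Fin m) A) * monomial d' a =
        monomial (Finsupp.single i 1 + d') a := by
      rw [X, monomial_mul, one_mul]
    rwa [h4] at h3

private theorem TMon_mem (m k : ℕ) (p : MvPolynomial (Fin m) A)
    (W : Submodule A (MvPolynomial (Fin m) A))
    (hW : ∀ (d : Fin m →₀ ℕ) (a : A), d.degree ≤ k → monomial d a ∈ W)
    (h : p.totalDegree ≤ k) : p ∈ W := by
  rw [p.as_sum]
  refine Submodule.sum_mem _ fun d hd => hW d _ ?_
  have h1 := le_totalDegree hd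
  have h2 : d.degree = d.sum fun _ e => e := rfl
  rw [h2]
  exact h1.trans h

private theorem TMon_lin (m : ℕ) (p : MvPolynomial (Fin m) A) (h : p.totalDegree ≤ 1) :
    ∃ lam : Fin (m + 1) → A, p = ∑ i, C (lam i) * yv A m i := by
  have h1 := TMon_mem m 1 p _ (TMon_mon1 m) h
  rw [Submodule.mem_span_range_iff_exists_fun] at h1
  obtain ⟨c, hc⟩ := h1
  refine ⟨c, ?_⟩
  rw [← hc]
  exact Finset.sum_congr rfl fun i _ => smul_eq_C_mul _ _

private theorem TMon_quad (m : ℕ) (p : MvPolynomial (Fin m) A) (h : p.totalDegree ≤ 2) :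
    ∃ gam : Fin (m + 1) → Fin (m + 1) → A,
      p = ∑ i, ∑ j, C (gam i j) * (yv A m i * yv A m j) := by
  have h1 := TMon_mem m 2 p _ (TMon_mon2 m) h
  rw [Submodule.span_mul_span] at h1
  have h2 : Set.range (yv A m) * Set.range (yv A m) =
      Set.range (fun p : Fin (m + 1) × Fin (m + 1) => yv A m p.1 * yv A m p.2) := by
    ext x
    constructor
    · rintro ⟨_, ⟨i, rfl⟩, _, ⟨j, rfl⟩, rfl⟩
      exact ⟨(i, j), rfl⟩
    · rintro ⟨⟨i, j⟩, rfl⟩
      exact ⟨_, ⟨i, rfl⟩, _, ⟨j, rfl⟩, rfl⟩
  rw [h2, Submodule.mem_span_range_iff_exists_fun] at h1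
  obtain ⟨c, hc⟩ := h1
  refine ⟨fun i j => c (i, j), ?_⟩
  rw [← hc, Fintype.sum_prod_type]
  exact Finset.sum_congr rfl fun i _ => Finset.sum_congr rfl fun j _ => smul_eq_C_mul _ _

/-! ### the case of a unit coefficient of the square of the first variable -/

private theorem TMon_core (m : ℕ) (f : MvPolynomial (Fin (m + 1)) A) (h : f.totalDegree ≤ 2)
    (hu : IsUnit (f.coeff (Finsupp.single 0 2))) :
    ∃ (q : QD A m) (u : Aˣ), finSuccEquiv A m f = Polynomial.C (C (u : A)) *
      (Polynomial.X ^ 2 + Polynomial.C q.l * Polynomial.X + Polynomial.C q.g) := by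
  obtain ⟨P, hP⟩ : ∃ P, P = finSuccEquiv A m f := ⟨_, rfl⟩
  have hdeg : ∀ k, P.coeff k ≠ 0 → (P.coeff k).totalDegree + k ≤ 2 := by
    intro k hk
    rw [hP] at hk ⊢
    exact (totalDegree_coeff_finSuccEquiv_add_le f k hk).trans h
  have hnd : P.natDegree ≤ 2 := by
    rw [hP, natDegree_finSuccEquiv]
    exact (degreeOf_le_totalDegree f 0).trans h
  obtain ⟨u, hu⟩ := hu
  have hc2 : P.coeff 2 = C (u : A) := by
    have h1 : (P.coeff 2).totalDegree = 0 := by
      by_cases h2 : P.coeff 2 = 0
      · rw [h2, totalDegree_zero]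
      · have := hdeg 2 h2
        omega
    rw [totalDegree_eq_zero_iff_eq_C.1 h1]
    congr 1
    rw [hP, finSuccEquiv_coeff_coeff, hu]
    congr 1
    ext i
    refine Fin.cases ?_ (fun j => ?_) i
    · rw [Finsupp.cons_zero, Finsupp.single_eq_same]
    · rw [Finsupp.cons_succ, Finsupp.single_eq_of_ne (Fin.succ_ne_zero j)]
      rfl
  have hl : (C (↑u⁻¹ : A) * P.coeff 1).totalDegree ≤ 1 := by
    refine (totalDegree_mul _ _).trans ?_
    rw [totalDegree_C, zero_add]
    by_cases h2 : P.coeff 1 = 0
    · rw [h2, totalDegree_zero]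
      exact Nat.zero_le _
    · have := hdeg 1 h2
      omega
  have hg : (C (↑u⁻¹ : A) * P.coeff 0).totalDegree ≤ 2 := by
    refine (totalDegree_mul _ _).trans ?_
    rw [totalDegree_C, zero_add]
    by_cases h2 : P.coeff 0 = 0
    · rw [h2, totalDegree_zero]
      exact Nat.zero_le _
    · have := hdeg 0 h2
      omega
  obtain ⟨lam, hlam⟩ := TMon_lin m _ hl
  obtain ⟨gam, hgam⟩ := TMon_quad m _ hg
  refine ⟨⟨lam, gam⟩, u, ?_⟩
  rw [← hP]
  have h2 : P = Polynomial.C (C (u : A)) * Polynomial.X ^ 2 +
      Polynomial.C (P.coeff 1) * Polynomial.X + Polynomial.C (P.coeff 0) := by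
    conv_lhs => rw [P.as_sum_range_C_mul_X_pow' (n := 3) (by omega)]
    rw [Finset.sum_range_succ, Finset.sum_range_succ, Finset.sum_range_succ,
      Finset.sum_range_zero, hc2]
    ring
  have h4 : QD.l (⟨lam, gam⟩ : QD A m) = C (↑u⁻¹ : A) * P.coeff 1 := hlam.symm
  have h5 : QD.g (⟨lam, gam⟩ : QD A m) = C (↑u⁻¹ : A) * P.coeff 0 := hgam.symm
  rw [h4, h5]
  conv_lhs => rw [h2]
  have e1 : (Polynomial.C (C (u : A)) * Polynomial.C (C (↑u⁻¹ : A)) :
      Polynomial (MvPolynomial (Fin m) A)) = 1 := by
    rw [← Polynomial.C_mul, ← C_mul, Units.mul_inv, C_1, Polynomial.C_1]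
  rw [Polynomial.C_mul, Polynomial.C_mul]
  linear_combination (-(Polynomial.C (P.coeff 1) * Polynomial.X) -
    Polynomial.C (P.coeff 0)) * e1

/-- the isomorphism with one more variable commutes with base change -/
private theorem TMon_fin (m : ℕ) (V : Type) [CommRing V] (φ : A →+* V)
    (f : MvPolynomial (Fin (m + 1)) A) :
    finSuccEquiv V m (MvPolynomial.map φ f) =
      Polynomial.map (MvPolynomial.map φ) (finSuccEquiv A m f) := by
  induction f using MvPolynomial.induction_on with
  | C a =>
    rw [map_C, finSuccEquiv_apply, finSuccEquiv_apply]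
    simp
  | add p q hp hq =>
    rw [map_add, map_add, hp, hq, map_add, Polynomial.map_add]
  | mul_X p k hp =>
    rw [map_mul, map_mul, hp, map_mul, Polynomial.map_mul, map_X]
    congr 1
    refine Fin.cases ?_ (fun j => ?_) k
    · rw [finSuccEquiv_X_zero, finSuccEquiv_X_zero, Polynomial.map_X]
    · rw [finSuccEquiv_X_succ, finSuccEquiv_X_succ, Polynomial.map_C, map_X]

/-! ### changes of variables -/

private theorem TMon_totalDegree {n : ℕ} (v : Fin n → MvPolynomial (Fin n) A)
    (hv : ∀ k, (v k).totalDegree ≤ 1) (f : MvPolynomial (Fin n) A) :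
    (aeval v f).totalDegree ≤ f.totalDegree := by
  conv_lhs => rw [f.as_sum]
  rw [map_sum]
  refine totalDegree_finsetSum_le fun d hd => ?_
  rw [aeval_monomial]
  refine (totalDegree_mul _ _).trans ?_
  have h1 : (algebraMap A (MvPolynomial (Fin n) A) (coeff d f)).totalDegree = 0 :=
    totalDegree_C _
  rw [h1, zero_add]
  refine le_trans ?_ (le_totalDegree hd)
  refine (totalDegree_finsetProd _ _).trans (Finset.sum_le_sum fun k _ => ?_)
  refine (totalDegree_pow _ _).trans ?_
  exact (Nat.mul_le_mul_left _ (hv k)).trans (mul_one _).le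

private theorem TMon_tX {n : ℕ} (k : Fin n) : (X k : MvPolynomial (Fin n) A).totalDegree ≤ 1 := by
  rcases subsingleton_or_nontrivial A with h | h
  · have h1 : (X k : MvPolynomial (Fin n) A) = 0 := Subsingleton.elim _ _
    rw [h1, totalDegree_zero]
    exact Nat.zero_le _
  · exact (totalDegree_X k).le

/-- the value of the quadratic part at the sum of two unit vectors -/
private theorem TMon_q {n : ℕ} (i j : Fin n) (hij : i ≠ j) (f : MvPolynomial (Fin n) A) :
    (aeval (fun k => if k = i ∨ k = j then (Polynomial.X : Polynomial A) else 0) f).coeff 2 =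
      f.coeff (Finsupp.single i 2) + f.coeff (Finsupp.single j 2) +
        f.coeff (Finsupp.single i 1 + Finsupp.single j 1) := by
  induction f using MvPolynomial.induction_on' with
  | add p q hp hq =>
    rw [map_add, Polynomial.coeff_add, hp, hq, coeff_add, coeff_add, coeff_add]
    ring
  | monomial d a =>
    rw [aeval_monomial, coeff_monomial, coeff_monomial, coeff_monomial]
    by_cases h : ∃ k, d k ≠ 0 ∧ k ≠ i ∧ k ≠ j
    · obtain ⟨k, h1, h2, h3⟩ := h
      have h4 : (d.prod fun k e => (if k = i ∨ k = j then (Polynomial.X : Polynomial A)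
          else 0) ^ e) = 0 := by
        refine Finset.prod_eq_zero (Finsupp.mem_support_iff.2 h1) ?_
        show (if k = i ∨ k = j then (Polynomial.X : Polynomial A) else 0) ^ (d k) = 0
        rw [if_neg (not_or.2 ⟨h2, h3⟩), zero_pow h1]
      have k1 : ∀ e : ℕ, Finsupp.single i e k = 0 := fun e => Finsupp.single_eq_of_ne h2
      have k2 : ∀ e : ℕ, Finsupp.single j e k = 0 := fun e => Finsupp.single_eq_of_ne h3
      rw [h4, mul_zero, Polynomial.coeff_zero, if_neg, if_neg, if_neg]
      · simp
      · intro h5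
        rw [h5, Finsupp.add_apply, k1, k2] at h1
        exact h1 rfl
      · intro h5
        rw [h5, k2] at h1
        exact h1 rfl
      · intro h5
        rw [h5, k1] at h1
        exact h1 rfl
    · push Not at h
      obtain ⟨p, hp⟩ : ∃ p, p = d i := ⟨_, rfl⟩
      obtain ⟨q, hq⟩ : ∃ q, q = d j := ⟨_, rfl⟩
      have hd : d = Finsupp.single i p + Finsupp.single j q := by
        ext k
        rw [Finsupp.add_apply]
        by_cases h1 : k = i
        · subst h1
          rw [Finsupp.single_eq_same, Finsupp.single_eq_of_ne hij, add_zero, hp]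
        · rw [Finsupp.single_eq_of_ne h1, zero_add]
          by_cases h2 : k = j
          · rw [h2, Finsupp.single_eq_same, hq]
          · rw [Finsupp.single_eq_of_ne h2]
            by_contra h3
            exact h2 (h k h3 h1)
      have h4 : (d.prod fun k e => (if k = i ∨ k = j then (Polynomial.X : Polynomial A)
          else 0) ^ e) = Polynomial.X ^ (p + q) := by
        have k1 : ((Finsupp.single i p).prod fun k e =>
            (if k = i ∨ k = j then (Polynomial.X : Polynomial A) else 0) ^ e) =
            Polynomial.X ^ p := by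
          rw [Finsupp.prod_single_index (h := fun k e =>
            (if k = i ∨ k = j then (Polynomial.X : Polynomial A) else 0) ^ e) (pow_zero _),
            if_pos (Or.inl rfl)]
        have k2 : ((Finsupp.single j q).prod fun k e =>
            (if k = i ∨ k = j then (Polynomial.X : Polynomial A) else 0) ^ e) =
            Polynomial.X ^ q := by
          rw [Finsupp.prod_single_index (h := fun k e =>
            (if k = i ∨ k = j then (Polynomial.X : Polynomial A) else 0) ^ e) (pow_zero _),
            if_pos (Or.inr rfl)]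
        rw [hd, Finsupp.prod_add_index' (fun _ => pow_zero _) (fun _ _ _ => pow_add _ _ _)]
        exact (congrArg₂ (· * ·) k1 k2).trans (pow_add _ _ _).symm
      have e1 : d = Finsupp.single i 2 ↔ p = 2 ∧ q = 0 := by
        constructor
        · intro h5
          rw [hp, hq, h5]
          exact ⟨Finsupp.single_eq_same, Finsupp.single_eq_of_ne hij.symm⟩
        · rintro ⟨rfl, rfl⟩
          rw [hd, Finsupp.single_zero, add_zero]
      have e2 : d = Finsupp.single j 2 ↔ p = 0 ∧ q = 2 := by
        constructor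
        · intro h5
          rw [hp, hq, h5]
          exact ⟨Finsupp.single_eq_of_ne hij, Finsupp.single_eq_same⟩
        · rintro ⟨rfl, rfl⟩
          rw [hd, Finsupp.single_zero, zero_add]
      have e3 : d = Finsupp.single i 1 + Finsupp.single j 1 ↔ p = 1 ∧ q = 1 := by
        constructor
        · intro h5
          rw [hp, hq, h5, Finsupp.add_apply, Finsupp.add_apply, Finsupp.single_eq_same,
            Finsupp.single_eq_same, Finsupp.single_eq_of_ne hij, Finsupp.single_eq_of_ne hij.symm]
          exact ⟨rfl, rfl⟩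
        · rintro ⟨rfl, rfl⟩
          exact hd
      have h6 : (algebraMap A (Polynomial A) a * Polynomial.X ^ (p + q)).coeff 2 =
          if p + q = 2 then a else 0 := by
        show (Polynomial.C a * Polynomial.X ^ (p + q)).coeff 2 = _
        rw [Polynomial.coeff_C_mul_X_pow]
        by_cases h7 : p + q = 2
        · rw [if_pos h7, if_pos h7.symm]
        · rw [if_neg h7, if_neg fun h8 => h7 h8.symm]
      rw [h4, h6, if_congr e1 rfl rfl, if_congr e2 rfl rfl, if_congr e3 rfl rfl]
      by_cases h7 : p + q = 2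
      · have h8 : (p = 2 ∧ q = 0) ∨ (p = 0 ∧ q = 2) ∨ (p = 1 ∧ q = 1) := by omega
        rcases h8 with ⟨rfl, rfl⟩ | ⟨rfl, rfl⟩ | ⟨rfl, rfl⟩ <;> simp
      · rw [if_neg h7, if_neg (by omega), if_neg (by omega), if_neg (by omega)]
        simp

/-- reduction by an automorphism -/
private theorem TMon_red (m : ℕ) (f g : MvPolynomial (Fin (m + 1)) A)
    (hθ : ∀ (V : Type) [CommRing V] (φ : A →+* V),
      ∃ θ : MvPolynomial (Fin (m + 1)) V ≃+* MvPolynomial (Fin (m + 1)) V,
        θ (MvPolynomial.map φ f) = MvPolynomial.map φ g)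
    (h : g.totalDegree ≤ 2) (hu : IsUnit (g.coeff (Finsupp.single 0 2))) :
    ∃ q : QD A m, ∀ (V : Type) [CommRing V] [Algebra A V], Nonempty
      ((MvPolynomial (Fin (m + 1)) V ⧸ Ideal.span {MvPolynomial.map (algebraMap A V) f}) ≃+*
        (Polynomial (MvPolynomial (Fin m) V) ⧸ Ideal.span {(Polynomial.X ^ 2 +
          Polynomial.C (q.map (algebraMap A V)).l * Polynomial.X +
          Polynomial.C (q.map (algebraMap A V)).g : Polynomial (MvPolynomial (Fin m) V))})) := by
  obtain ⟨q, u, hq⟩ := TMon_core m g h hu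
  refine ⟨q, fun V _ _ => ?_⟩
  obtain ⟨θ, hθ⟩ := hθ V (algebraMap A V)
  refine ⟨Ideal.quotientEquiv _ _ (θ.trans (finSuccEquiv V m).toRingEquiv) ?_⟩
  rw [Ideal.map_span, Set.image_singleton]
  have h1 : (θ.trans (finSuccEquiv V m).toRingEquiv : MvPolynomial (Fin (m + 1)) V →+*
      Polynomial (MvPolynomial (Fin m) V)) (MvPolynomial.map (algebraMap A V) f) =
      Polynomial.C (C (algebraMap A V (u : A))) *
        (Polynomial.X ^ 2 + Polynomial.C (q.map (algebraMap A V)).l * Polynomial.X +
          Polynomial.C (q.map (algebraMap A V)).g) := by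
    have h2 : (θ.trans (finSuccEquiv V m).toRingEquiv : MvPolynomial (Fin (m + 1)) V →+*
        Polynomial (MvPolynomial (Fin m) V)) (MvPolynomial.map (algebraMap A V) f) =
        finSuccEquiv V m (θ (MvPolynomial.map (algebraMap A V) f)) := rfl
    rw [h2, hθ, TMon_fin, hq, QD.map_l, QD.map_g]
    simp only [Polynomial.map_mul, Polynomial.map_add, Polynomial.map_pow, Polynomial.map_X,
      Polynomial.map_C, map_C]
  rw [h1]
  refine (Ideal.span_singleton_mul_left_unit ?_ _).symm
  exact (Units.isUnit u).map ((Polynomial.C.comp C).comp (algebraMap A V))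

/-- the automorphism adding one variable to another one -/
private noncomputable def TMon_add {n : ℕ} (i j : Fin n) (hij : i ≠ j) :
    MvPolynomial (Fin n) A ≃ₐ[A] MvPolynomial (Fin n) A :=
  AlgEquiv.ofAlgHom (aeval fun k => if k = j then X j + X i else X k)
    (aeval fun k => if k = j then X j - X i else X k)
    (by
      refine algHom_ext fun k => ?_
      rw [AlgHom.comp_apply, aeval_X, AlgHom.id_apply]
      by_cases h : k = j
      · rw [if_pos h, map_sub, aeval_X, aeval_X, if_pos rfl, if_neg hij, h]
        ring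
      · rw [if_neg h, aeval_X, if_neg h])
    (by
      refine algHom_ext fun k => ?_
      rw [AlgHom.comp_apply, aeval_X, AlgHom.id_apply]
      by_cases h : k = j
      · rw [if_pos h, map_add, aeval_X, aeval_X, if_pos rfl, if_neg hij, h]
        ring
      · rw [if_neg h, aeval_X, if_neg h])

/-- the coefficient of the square of the first variable -/
private theorem TMon_c0 (m : ℕ) (f : MvPolynomial (Fin (m + 1)) A) :
    f.coeff (Finsupp.single 0 2) =
      (aeval (fun k : Fin (m + 1) => if k = 0 then (Polynomial.X : Polynomial A) else 0)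
        f).coeff 2 := by
  have h1 : (Polynomial.mapAlgHom (aeval (fun _ : Fin m => (0 : A)))).comp
      (finSuccEquiv A m).toAlgHom =
      aeval (fun k : Fin (m + 1) => if k = 0 then (Polynomial.X : Polynomial A) else 0) := by
    refine algHom_ext fun k => ?_
    rw [aeval_X, AlgHom.comp_apply]
    refine Fin.cases ?_ (fun j => ?_) k
    · rw [if_pos rfl]
      show Polynomial.mapAlgHom _ (finSuccEquiv A m (X 0)) = _
      rw [finSuccEquiv_X_zero]
      simp
    · rw [if_neg (Fin.succ_ne_zero j)]
      show Polynomial.mapAlgHom _ (finSuccEquiv A m (X j.succ)) = _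
      rw [finSuccEquiv_X_succ]
      simp
  rw [← h1]
  show _ = (Polynomial.map ((aeval (fun _ : Fin m => (0 : A)) :
    MvPolynomial (Fin m) A →ₐ[A] A) : MvPolynomial (Fin m) A →+* A)
      (finSuccEquiv A m f)).coeff 2
  rw [Polynomial.coeff_map]
  have h2 : ∀ p : MvPolynomial (Fin m) A, (aeval (fun _ : Fin m => (0 : A)) :
      MvPolynomial (Fin m) A →ₐ[A] A) p = p.coeff 0 := by
    intro p
    have := aeval_zero' (S₁ := A) p
    rw [this]
    rfl
  have h3 : ((aeval (fun _ : Fin m => (0 : A)) :
      MvPolynomial (Fin m) A →ₐ[A] A) : MvPolynomial (Fin m) A →+* A)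
        ((finSuccEquiv A m f).coeff 2) = ((finSuccEquiv A m f).coeff 2).coeff 0 := h2 _
  rw [h3, finSuccEquiv_coeff_coeff]
  congr 1
  ext i
  refine Fin.cases ?_ (fun j => ?_) i
  · rw [Finsupp.cons_zero, Finsupp.single_eq_same]
  · rw [Finsupp.cons_succ, Finsupp.single_eq_of_ne (Fin.succ_ne_zero j)]
    rfl

private theorem TMon_map_add {n : ℕ} (i j : Fin n) (hij : i ≠ j) (V : Type) [CommRing V]
    (φ : A →+* V) (f : MvPolynomial (Fin n) A) :
    TMon_add (A := V) i j hij (MvPolynomial.map φ f) =
      MvPolynomial.map φ (TMon_add (A := A) i j hij f) := by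
  induction f using MvPolynomial.induction_on with
  | C a =>
    rw [map_C]
    have h1 : TMon_add (A := A) i j hij (C a) = C a := AlgEquiv.commutes _ a
    have h2 : TMon_add (A := V) i j hij (C (φ a)) = C (φ a) := AlgEquiv.commutes _ (φ a)
    rw [h1, h2, map_C]
  | add p q hp hq => rw [map_add, map_add, hp, hq, map_add, map_add]
  | mul_X p k hp =>
    rw [map_mul, map_mul, hp, map_mul, map_mul, map_X]
    congr 1
    show aeval _ (X k) = MvPolynomial.map φ (aeval _ (X k))
    rw [aeval_X, aeval_X]
    split_ifs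
    · rw [map_add, map_X, map_X]
    · rw [map_X]

theorem thm_Mon : St_Mon := by
  intro A _ n f hf hunit
  obtain ⟨m, rfl⟩ : ∃ m, n = m + 1 := by
    rcases n with _ | m
    · rcases hunit with ⟨i, -⟩ | ⟨i, -⟩ <;> exact i.elim0
    · exact ⟨m, rfl⟩
  refine ⟨m, ?_⟩
  rcases hunit with ⟨i, hi⟩ | ⟨i, j, hij, hu⟩
  · refine TMon_red m f (renameEquiv A (Equiv.swap 0 i) f) (fun V _ φ => ?_) ?_ ?_
    · refine ⟨(renameEquiv V (Equiv.swap 0 i)).toRingEquiv, ?_⟩
      show rename (Equiv.swap 0 i) (MvPolynomial.map φ f) =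
        MvPolynomial.map φ (rename (Equiv.swap 0 i) f)
      rw [map_rename]
    · exact (totalDegree_rename_le _ f).trans hf
    · have h1 := coeff_rename_mapDomain (Equiv.swap 0 i) (Equiv.injective _) f
        (Finsupp.single i 2)
      rw [Finsupp.mapDomain_single, Equiv.swap_apply_right] at h1
      have h2 : (renameEquiv A (Equiv.swap 0 i)) f = rename (Equiv.swap 0 i) f := rfl
      rw [h2, h1]
      exact hi
  · refine TMon_red m f (((TMon_add i j hij).trans (renameEquiv A (Equiv.swap 0 i))) f)
      (fun V _ φ => ?_) ?_ ?_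
    · refine ⟨((TMon_add i j hij).trans (renameEquiv V (Equiv.swap 0 i))).toRingEquiv, ?_⟩
      show rename (Equiv.swap 0 i) (TMon_add i j hij (MvPolynomial.map φ f)) =
        MvPolynomial.map φ (rename (Equiv.swap 0 i) (TMon_add i j hij f))
      rw [map_rename, TMon_map_add]
    · refine le_trans (totalDegree_rename_le _ _) ((TMon_totalDegree _ (fun k => ?_) f).trans hf)
      split_ifs
      · exact (totalDegree_add _ _).trans (max_le (TMon_tX j) (TMon_tX i))
      · exact TMon_tX k
    · rw [TMon_c0]
      have h1 : (aeval (fun k : Fin (m + 1) => if k = 0 then (Polynomial.X : Polynomial A)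
          else 0)).comp ((TMon_add i j hij).trans
            (renameEquiv A (Equiv.swap 0 i))).toAlgHom =
          aeval (fun k => if k = i ∨ k = j then (Polynomial.X : Polynomial A) else 0) := by
        refine algHom_ext fun k => ?_
        rw [aeval_X, AlgHom.comp_apply]
        show aeval _ (rename (Equiv.swap 0 i) (aeval _ (X k))) = _
        rw [aeval_X]
        have e1 : ∀ l, (aeval (fun k : Fin (m + 1) => if k = 0 then (Polynomial.X : Polynomial A)
          else 0)) (rename (Equiv.swap 0 i) (X l : MvPolynomial (Fin (m + 1)) A)) =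
            if l = i then Polynomial.X else 0 := by
          intro l
          rw [rename_X, aeval_X]
          have e2 : Equiv.swap 0 i l = 0 ↔ l = i := by
            rw [Equiv.swap_apply_eq_iff, Equiv.swap_apply_left]
          rw [if_congr e2 rfl rfl]
        by_cases h : k = j
        · rw [if_pos h, map_add, map_add, e1, e1, if_neg hij.symm, if_pos rfl, zero_add,
            if_pos (Or.inr h)]
        · rw [if_neg h, e1]
          by_cases h3 : k = i
          · rw [if_pos h3, if_pos (Or.inl h3)]
          · rw [if_neg h3, if_neg (not_or.2 ⟨h3, h⟩)]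
      have h2 := congrArg (fun φ => (φ f).coeff 2) h1
      have h3 : (aeval (fun k : Fin (m + 1) => if k = 0 then (Polynomial.X : Polynomial A)
          else 0) (((TMon_add i j hij).trans (renameEquiv A (Equiv.swap 0 i))) f)).coeff 2 =
          (aeval (fun k => if k = i ∨ k = j then (Polynomial.X : Polynomial A) else 0)
            f).coeff 2 := h2
      rw [h3, TMon_q i j hij]
      exact hu

end Pool.Agent.TQF
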