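import Pool.Agent.TQF.StT

/-!
# TQF, part T, module Ta: noetherian induction
-/

set_option autoImplicit false

namespace Pool.Agent.TQF

open Function MvPolynomial TensorProduct Pool.Agent.Helper11 Pool.Agent.Helper67.Bass

theorem TTa_lt {R : Type} [CommRing R] (I : Ideal R) {s : R} (hs : s ∉ I) :
    I < I ⊔ Ideal.span {s} := by
  refine lt_of_le_of_ne le_sup_left (fun h2 => hs ?_)
  rw [h2]
  exact Ideal.mem_sup_right (Ideal.mem_span_singleton_self s)

theorem TTa_ideal {R : Type} [CommRing R] {n : ℕ} (f : MvPolynomial (Fin n) R) (I : Ideal R)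
    (a : R) :
    (I.map (C : R →+* MvPolynomial (Fin n) R) ⊔ Ideal.span {f}) ⊔ Ideal.span {C a} =
      (I ⊔ Ideal.span {a}).map (C : R →+* MvPolynomial (Fin n) R) ⊔ Ideal.span {f} := by
  rw [Ideal.map_sup, Ideal.map_span, Set.image_singleton, sup_right_comm]

theorem TTa_step {R : Type} [CommRing R] [IsNoetherianRing R] {n : ℕ} (f : MvPolynomial (Fin n) R) (I : Ideal R)
    (a b : R) (hab : a * b ∈ I)
    (h1 : FinGn (MvPolynomial (Fin n) R ⧸
      ((I ⊔ Ideal.span {a}).map (C : R →+* MvPolynomial (Fin n) R) ⊔ Ideal.span {f})))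
    (h2 : FinGn (MvPolynomial (Fin n) R ⧸
      ((I ⊔ Ideal.span {b}).map (C : R →+* MvPolynomial (Fin n) R) ⊔ Ideal.span {f}))) :
    FinGn (MvPolynomial (Fin n) R ⧸
      (I.map (C : R →+* MvPolynomial (Fin n) R) ⊔ Ideal.span {f})) := by
  rw [← TTa_ideal] at h1 h2
  refine FinGn.of_mul
    (I := (Ideal.span {(C a : MvPolynomial (Fin n) R)}).map
      (Ideal.Quotient.mk (I.map (C : R →+* MvPolynomial (Fin n) R) ⊔ Ideal.span {f})))
    (J := (Ideal.span {(C b : MvPolynomial (Fin n) R)}).map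
      (Ideal.Quotient.mk (I.map (C : R →+* MvPolynomial (Fin n) R) ⊔ Ideal.span {f}))) ?_
    (FinGn.of_equiv (DoubleQuot.quotQuotEquivQuotSup _ _).symm h1)
    (FinGn.of_equiv (DoubleQuot.quotQuotEquivQuotSup _ _).symm h2)
  have hmem : (C a * C b : MvPolynomial (Fin n) R) ∈
      I.map (C : R →+* MvPolynomial (Fin n) R) ⊔ Ideal.span {f} := by
    rw [← C_mul]
    exact Ideal.mem_sup_left (Ideal.mem_map_of_mem _ hab)
  rw [← Ideal.map_mul, Ideal.span_singleton_mul_span_singleton, Ideal.map_span,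
    Set.image_singleton, Ideal.Quotient.eq_zero_iff_mem.2 hmem, Ideal.span_singleton_eq_bot]

theorem TTa_fin {R A : Type} [CommRing R] [Algebra.FiniteType ℤ R] [CommRing A] (φ : R →+* A)
    (hφ : Surjective φ) : Algebra.FiniteType ℤ A :=
  Algebra.FiniteType.of_surjective φ.toIntAlgHom hφ

theorem TTa_deg {R A : Type} [CommRing R] [CommRing A] (φ : R →+* A) {n : ℕ}
    (f : MvPolynomial (Fin n) R) (hf : f.totalDegree ≤ 2) :
    (MvPolynomial.map φ f).totalDegree ≤ 2 := by
  refine le_trans ?_ hf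
  unfold MvPolynomial.totalDegree
  exact Finset.sup_mono (support_map_subset φ f)

theorem TTa_gen (h2 : St_Gen) {R A : Type} [CommRing R] [Algebra.FiniteType ℤ R]
    [CommRing A] [IsDomain A] (φ : R →+* A) (hφ : Surjective φ)
    (hK : KroneckerLeOne (FractionRing A)) {n : ℕ} (f : MvPolynomial (Fin n) R)
    (hf : f.totalDegree ≤ 2) :
    ∃ (x : A) (V : Type) (_ : CommRing V) (_ : Algebra A V), x ≠ 0 ∧
      IsLocalization.Away x V ∧
      FinGn (MvPolynomial (Fin n) V ⧸ Ideal.span {MvPolynomial.map (algebraMap A V)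
        (MvPolynomial.map φ f)}) :=
  have := TTa_fin φ hφ
  h2 A (FractionRing A) hK n (MvPolynomial.map φ f) (TTa_deg φ f hf)

theorem TTa_loc (h1 : St_Loc) {R : Type} [CommRing R] [IsNoetherianRing R] (I : Ideal R)
    {n : ℕ} (f : MvPolynomial (Fin n) R) (x : R ⧸ I) (hx : x ≠ 0) (V : Type) [CommRing V]
    [Algebra (R ⧸ I) V] (hloc : IsLocalization.Away x V)
    (hF : FinGn (MvPolynomial (Fin n) V ⧸ Ideal.span {MvPolynomial.map (algebraMap (R ⧸ I) V)
      (MvPolynomial.map (Ideal.Quotient.mk I) f)}))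
    (ih : ∀ s : R, s ∉ I → FinGn (MvPolynomial (Fin n) R ⧸
      ((I ⊔ Ideal.span {s}).map (C : R →+* MvPolynomial (Fin n) R) ⊔ Ideal.span {f}))) :
    FinGn (MvPolynomial (Fin n) R ⧸
      (I.map (C : R →+* MvPolynomial (Fin n) R) ⊔ Ideal.span {f})) := by
  obtain ⟨s, rfl⟩ := Ideal.Quotient.mk_surjective x
  rw [MvPolynomial.map_map] at hF
  exact h1 R I s V n f hF (ih s (fun hs => hx (Ideal.Quotient.eq_zero_iff_mem.2 hs)))

theorem TTa_prime (h1 : St_Loc) (h2 : St_Gen) {R : Type} [CommRing R] [Algebra.FiniteType ℤ R]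
    (I : Ideal R) [I.IsPrime] (hK : KroneckerLeOne (FractionRing (R ⧸ I))) {n : ℕ}
    (f : MvPolynomial (Fin n) R) (hf : f.totalDegree ≤ 2)
    (ih : ∀ s : R, s ∉ I → FinGn (MvPolynomial (Fin n) R ⧸
      ((I ⊔ Ideal.span {s}).map (C : R →+* MvPolynomial (Fin n) R) ⊔ Ideal.span {f}))) :
    FinGn (MvPolynomial (Fin n) R ⧸
      (I.map (C : R →+* MvPolynomial (Fin n) R) ⊔ Ideal.span {f})) := by
  have : IsNoetherianRing R := Algebra.FiniteType.isNoetherianRing ℤ R
  obtain ⟨x, V, iV, iA, hx, hloc, hF⟩ := TTa_gen h2 (Ideal.Quotient.mk I)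
    Ideal.Quotient.mk_surjective hK f hf
  exact TTa_loc h1 I f x hx V hloc hF ih

/-- **Ta**, with the hypotheses `St_Loc`, `St_Gen`. -/
theorem thm_Ta (h1 : St_Loc) (h2 : St_Gen) : St_Ta := by
  intro R _ _ hK n f hf
  have : IsNoetherianRing R := Algebra.FiniteType.isNoetherianRing ℤ R
  have key : ∀ I : Ideal R, FinGn (MvPolynomial (Fin n) R ⧸
      (I.map (C : R →+* MvPolynomial (Fin n) R) ⊔ Ideal.span {f})) := by
    intro I
    refine IsNoetherian.induction (R := R) (M := R)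
      (P := fun I : Ideal R => FinGn (MvPolynomial (Fin n) R ⧸
        (I.map (C : R →+* MvPolynomial (Fin n) R) ⊔ Ideal.span {f}))) ?_ I
    intro (I : Ideal R) ih
    by_cases htop : I = ⊤
    · subst htop
      have : Subsingleton (MvPolynomial (Fin n) R ⧸
          ((⊤ : Ideal R).map (C : R →+* MvPolynomial (Fin n) R) ⊔ Ideal.span {f})) := by
        apply Ideal.Quotient.subsingleton_iff.2
        rw [Ideal.map_top, top_sup_eq]
      exact FinGn.of_subsingleton _
    by_cases hprime : I.IsPrime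
    · exact TTa_prime h1 h2 I (hK I) f hf (fun s hs => ih _ (TTa_lt I hs))
    · rw [Ideal.not_isPrime_iff] at hprime
      rcases hprime with h | ⟨a, ha, b, hb, hab⟩
      · exact absurd h htop
      · exact TTa_step f I a b hab (ih _ (TTa_lt I ha)) (ih _ (TTa_lt I hb))
  have e : (⊥ : Ideal R).map (C : R →+* MvPolynomial (Fin n) R) ⊔ Ideal.span {f} =
      Ideal.span {f} := by
    rw [Ideal.map_bot, bot_sup_eq]
  have := key ⊥
  rwa [e] at this

end Pool.Agent.TQF
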