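import Pool.Agent.TQF.StT

/-!
# TQF, module Tb: from `∑ x_i g_i` to `(g_i)` (helper17)
-/

set_option autoImplicit false

namespace Pool.Agent.TQF

open Function MvPolynomial TensorProduct Pool.Agent.Helper11 Pool.Agent.Helper67.Bass

theorem thm_Tb : St_Tb := by
  intro R _ _ σ _ g hfg
  have hπ : Surjective (Ideal.Quotient.mk (Ideal.span (Set.range g))) :=
    Ideal.Quotient.mk_surjective
  have a₁ : IsAdd (KilledBy ((⊥ : Ideal (R ⧸ Ideal.span (Set.range g))).comap
      (Ideal.Quotient.mk (Ideal.span (Set.range g)))))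
      (fun M => G0.mk (desc (Ideal.Quotient.mk (Ideal.span (Set.range g))) hπ M)) :=
    isAdd_desc _ hπ G0.isAdd_mk
  have hk : (⊥ : Ideal (R ⧸ Ideal.span (Set.range g))).comap
      (Ideal.Quotient.mk (Ideal.span (Set.range g))) = Ideal.span (Set.range g) := by
    show RingHom.ker (Ideal.Quotient.mk (Ideal.span (Set.range g))) = _
    exact Ideal.mk_ker
  rw [hk] at a₁
  obtain ⟨χ', a', l'⟩ := kos_step g a₁
  have hs : SurjectsOnto (G0 (MvPolynomial σ R ⧸ Ideal.span {bigF g}))
      (G0 (R ⧸ Ideal.span (Set.range g))) := by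
    refine BassH.surj_of_isAdd _ a' fun N => ?_
    have hN : KilledBy (Ideal.span (Set.range g))
        (restr (Ideal.Quotient.mk (Ideal.span (Set.range g))) hπ N) := by
      have := killedBy_restr (Ideal.Quotient.mk (Ideal.span (Set.range g))) hπ
        (G0.killedBy_bot N)
      rwa [hk] at this
    obtain ⟨M, hM, hMN⟩ := l' _ hN
    refine ⟨M, hM, ?_⟩
    rw [hMN]
    exact desc_restr _ hπ G0.isAdd_mk N (G0.killedBy_bot N)
  obtain ⟨f, hf⟩ := hs
  exact AddGroup.fg_of_surjective hf

end Pool.Agent.TQF
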