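import Pool.Agent.TQF.StT

/-!
# TQF, part T, module TTc: hypersurfaces in two variables of degree `N + 2`
-/

set_option autoImplicit false

namespace Pool.Agent.TQF

open Function MvPolynomial TensorProduct Pool.Agent.Helper11 Pool.Agent.Helper67.Bass

/-! ### quotients by an element which splits off -/

section quot

variable {R C : Type} [CommRing R] [CommRing C]

/-- a retraction with the kernel generated by `x` -/
theorem TTc_ret (α : R →+* C) (β : C →+* R) (hαβ : ∀ c, α (β c) = c) (x : R) (hx : α x = 0)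
    (hβα : ∀ (T : Type) [CommRing T] (π : R →+* T), π x = 0 → ∀ r, π (β (α r)) = π r) :
    Nonempty (C ≃+* (R ⧸ Ideal.span {x})) := by
  let g : C →+* R ⧸ Ideal.span {x} := (Ideal.Quotient.mk _).comp β
  let f : R ⧸ Ideal.span {x} →+* C := Ideal.Quotient.lift _ α (by
    intro r hr
    obtain ⟨s, rfl⟩ := Ideal.mem_span_singleton'.1 hr
    rw [map_mul, hx, mul_zero])
  refine ⟨(RingEquiv.ofRingHom f g ?_ ?_).symm⟩
  · ext c
    exact hαβ c
  · refine Ideal.Quotient.ringHom_ext ?_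
    ext r
    exact hβα _ (Ideal.Quotient.mk (Ideal.span {x}))
      (Ideal.Quotient.eq_zero_iff_mem.2 (Ideal.mem_span_singleton_self _)) r

/-- the same with one more relation -/
theorem TTc_quot (α : R →+* C) (β : C →+* R) (hαβ : ∀ c, α (β c) = c) (x H : R) (hx : α x = 0)
    (hβα : ∀ (T : Type) [CommRing T] (π : R →+* T), π x = 0 → ∀ r, π (β (α r)) = π r) :
    Nonempty ((C ⧸ Ideal.span {α H}) ≃+* ((R ⧸ Ideal.span {H}) ⧸
      Ideal.span {Ideal.Quotient.mk (Ideal.span {H}) x})) := by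
  let ι : R →+* (R ⧸ Ideal.span {H}) ⧸ Ideal.span {Ideal.Quotient.mk (Ideal.span {H}) x} :=
    (Ideal.Quotient.mk _).comp (Ideal.Quotient.mk _)
  have hι : ∀ r, ι (β (α r)) = ι r :=
    hβα _ ι (Ideal.Quotient.eq_zero_iff_mem.2 (Ideal.mem_span_singleton_self _))
  have hH : ι H = 0 := by
    have h1 : Ideal.Quotient.mk (Ideal.span {H}) H = 0 :=
      Ideal.Quotient.eq_zero_iff_mem.2 (Ideal.mem_span_singleton_self _)
    show Ideal.Quotient.mk _ (Ideal.Quotient.mk (Ideal.span {H}) H) = 0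
    rw [h1, map_zero]
  let g : C ⧸ Ideal.span {α H} →+*
      (R ⧸ Ideal.span {H}) ⧸ Ideal.span {Ideal.Quotient.mk (Ideal.span {H}) x} :=
    Ideal.Quotient.lift _ (ι.comp β) (by
      intro c hc
      obtain ⟨s, rfl⟩ := Ideal.mem_span_singleton'.1 hc
      rw [RingHom.comp_apply, map_mul, map_mul, hι, hH, mul_zero])
  let f0 : R ⧸ Ideal.span {H} →+* C ⧸ Ideal.span {α H} :=
    Ideal.Quotient.lift _ ((Ideal.Quotient.mk _).comp α) (by
      intro r hr
      obtain ⟨s, rfl⟩ := Ideal.mem_span_singleton'.1 hr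
      rw [RingHom.comp_apply, map_mul, map_mul]
      have h1 : Ideal.Quotient.mk (Ideal.span {α H}) (α H) = 0 :=
        Ideal.Quotient.eq_zero_iff_mem.2 (Ideal.mem_span_singleton_self _)
      rw [h1, mul_zero])
  let f : ((R ⧸ Ideal.span {H}) ⧸ Ideal.span {Ideal.Quotient.mk (Ideal.span {H}) x}) →+*
      C ⧸ Ideal.span {α H} :=
    Ideal.Quotient.lift _ f0 (by
      intro r hr
      obtain ⟨s, rfl⟩ := Ideal.mem_span_singleton'.1 hr
      rw [map_mul]
      have h1 : f0 (Ideal.Quotient.mk (Ideal.span {H}) x) = 0 := by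
        show Ideal.Quotient.mk _ (α x) = 0
        rw [hx, map_zero]
      rw [h1, mul_zero])
  refine ⟨(RingEquiv.ofRingHom f g ?_ ?_).symm⟩
  · refine Ideal.Quotient.ringHom_ext ?_
    ext c
    show Ideal.Quotient.mk (Ideal.span {α H}) (α (β c)) = Ideal.Quotient.mk _ c
    rw [hαβ]
  · refine Ideal.Quotient.ringHom_ext (Ideal.Quotient.ringHom_ext ?_)
    ext r
    exact hι r

end quot

/-! ### localisations -/

section loc

variable {R C : Type} [CommRing R] [CommRing C]

/-- comparison of two localisations -/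
theorem TTc_loc (x H : R) (y q : C) (N : ℕ) (V V' : Type) [CommRing V] [CommRing V']
    [Algebra (R ⧸ Ideal.span {H}) V] [Algebra (C ⧸ Ideal.span {q}) V']
    [IsLocalization.Away (Ideal.Quotient.mk (Ideal.span {H}) x) V]
    [IsLocalization.Away (Ideal.Quotient.mk (Ideal.span {q}) y) V']
    (σ : R →+* C) (hσx : σ x = y) (hσH : σ H = y ^ N * q) (τ : C →+* V)
    (hτ : ∀ r, τ (σ r) = algebraMap (R ⧸ Ideal.span {H}) V (Ideal.Quotient.mk _ r))
    (hB : ∀ (W : Type) [CommRing W] (f : V →+* W) (g : C →+* W),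
      (∀ r, f (algebraMap (R ⧸ Ideal.span {H}) V (Ideal.Quotient.mk _ r)) = g (σ r)) →
      ∀ c, f (τ c) = g c) :
    Nonempty (V' ≃+* V) := by
  have hu : IsUnit (algebraMap (R ⧸ Ideal.span {H}) V (Ideal.Quotient.mk (Ideal.span {H}) x)) :=
    IsLocalization.Away.algebraMap_isUnit _
  have hu' : IsUnit (algebraMap (C ⧸ Ideal.span {q}) V' (Ideal.Quotient.mk (Ideal.span {q}) y)) :=
    IsLocalization.Away.algebraMap_isUnit _
  let ι' : C →+* V' := (algebraMap (C ⧸ Ideal.span {q}) V').comp (Ideal.Quotient.mk _)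
  have hq : ι' q = 0 := by
    have h1 : Ideal.Quotient.mk (Ideal.span {q}) q = 0 :=
      Ideal.Quotient.eq_zero_iff_mem.2 (Ideal.mem_span_singleton_self _)
    show algebraMap (C ⧸ Ideal.span {q}) V' (Ideal.Quotient.mk _ q) = 0
    rw [h1, map_zero]
  -- the map to the second localisation
  let f0 : R ⧸ Ideal.span {H} →+* V' :=
    Ideal.Quotient.lift _ (ι'.comp σ) (by
      intro r hr
      obtain ⟨t, rfl⟩ := Ideal.mem_span_singleton'.1 hr
      rw [RingHom.comp_apply, map_mul, map_mul, hσH, map_mul, hq, mul_zero, mul_zero])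
  have hf0 : IsUnit (f0 (Ideal.Quotient.mk (Ideal.span {H}) x)) := by
    have h1 : f0 (Ideal.Quotient.mk (Ideal.span {H}) x) =
        algebraMap (C ⧸ Ideal.span {q}) V' (Ideal.Quotient.mk (Ideal.span {q}) y) := by
      show ι' (σ x) = _
      rw [hσx]
      rfl
    rw [h1]
    exact hu'
  let f : V →+* V' := IsLocalization.Away.lift (Ideal.Quotient.mk (Ideal.span {H}) x) hf0
  have hf : ∀ r, f (algebraMap (R ⧸ Ideal.span {H}) V (Ideal.Quotient.mk _ r)) = ι' (σ r) := by
    intro r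
    exact IsLocalization.Away.lift_eq (Ideal.Quotient.mk (Ideal.span {H}) x) hf0 _
  -- the map to the first localisation
  have hτq : τ q = 0 := by
    have h1 : τ (y ^ N * q) = 0 := by
      rw [← hσH, hτ]
      have h2 : Ideal.Quotient.mk (Ideal.span {H}) H = 0 :=
        Ideal.Quotient.eq_zero_iff_mem.2 (Ideal.mem_span_singleton_self _)
      rw [h2, map_zero]
    rw [map_mul, map_pow, ← hσx, hτ] at h1
    exact (hu.pow N).mul_right_eq_zero.1 h1
  let g0 : C ⧸ Ideal.span {q} →+* V :=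
    Ideal.Quotient.lift _ τ (by
      intro r hr
      obtain ⟨t, rfl⟩ := Ideal.mem_span_singleton'.1 hr
      rw [map_mul, hτq, mul_zero])
  have hg0 : IsUnit (g0 (Ideal.Quotient.mk (Ideal.span {q}) y)) := by
    have h1 : g0 (Ideal.Quotient.mk (Ideal.span {q}) y) =
        algebraMap (R ⧸ Ideal.span {H}) V (Ideal.Quotient.mk (Ideal.span {H}) x) := by
      show τ y = _
      rw [← hσx, hτ]
    rw [h1]
    exact hu
  let g : V' →+* V := IsLocalization.Away.lift (Ideal.Quotient.mk (Ideal.span {q}) y) hg0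
  have hg : ∀ c, g (ι' c) = τ c := by
    intro c
    exact IsLocalization.Away.lift_eq (Ideal.Quotient.mk (Ideal.span {q}) y) hg0 _
  refine ⟨(RingEquiv.ofRingHom f g ?_ ?_).symm⟩
  · refine IsLocalization.ringHom_ext
      (Submonoid.powers (Ideal.Quotient.mk (Ideal.span {q}) y)) (Ideal.Quotient.ringHom_ext ?_)
    ext c
    show f (g (ι' c)) = ι' c
    rw [hg]
    exact hB V' f ι' hf c
  · refine IsLocalization.ringHom_ext
      (Submonoid.powers (Ideal.Quotient.mk (Ideal.span {H}) x)) (Ideal.Quotient.ringHom_ext ?_)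
    ext r
    show g (f (algebraMap (R ⧸ Ideal.span {H}) V (Ideal.Quotient.mk _ r))) =
      algebraMap (R ⧸ Ideal.span {H}) V (Ideal.Quotient.mk _ r)
    rw [hf, hg, hτ]

/-- the abstract form of the theorem -/
theorem TTc_abs {R C₁ C₂ : Type} [CommRing R] [CommRing C₁] [CommRing C₂] [IsNoetherianRing R]
    (x H : R) (α : R →+* C₁) (β : C₁ →+* R) (hαβ : ∀ c, α (β c) = c) (hx : α x = 0)
    (hβα : ∀ (T : Type) [CommRing T] (π : R →+* T), π x = 0 → ∀ r, π (β (α r)) = π r)
    (h1 : FinGn (C₁ ⧸ Ideal.span {α H})) (y q : C₂) (N : ℕ) (σ : R →+* C₂) (hσx : σ x = y)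
    (hσH : σ H = y ^ N * q)
    (hτ : ∀ (V : Type) [CommRing V] (ι : R →+* V), IsUnit (ι x) → ∃ τ : C₂ →+* V,
      (∀ r, τ (σ r) = ι r) ∧ ∀ (W : Type) [CommRing W] (f : V →+* W) (g : C₂ →+* W),
        (∀ r, f (ι r) = g (σ r)) → ∀ c, f (τ c) = g c)
    (h2 : FinGn (C₂ ⧸ Ideal.span {q})) : FinGn (R ⧸ Ideal.span {H}) := by
  obtain ⟨e1⟩ := TTc_quot α β hαβ x H hx hβα
  let V := Localization.Away (Ideal.Quotient.mk (Ideal.span {H}) x)
  let V' := Localization.Away (Ideal.Quotient.mk (Ideal.span {q}) y)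
  let ι : R →+* V := (algebraMap (R ⧸ Ideal.span {H}) V).comp (Ideal.Quotient.mk _)
  have hu : IsUnit (algebraMap (R ⧸ Ideal.span {H}) V (Ideal.Quotient.mk (Ideal.span {H}) x)) :=
    IsLocalization.Away.algebraMap_isUnit _
  obtain ⟨τ, hτ1, hτ2⟩ := hτ V ι hu
  obtain ⟨e2⟩ := TTc_loc x H y q N V V' σ hσx hσH τ hτ1 hτ2
  have h3 : FinGn V' := FinGn.away (Ideal.Quotient.mk (Ideal.span {q}) y) h2
  exact FinGn.of_away (s := Ideal.Quotient.mk (Ideal.span {H}) x) (V := V)
    (FinGn.of_equiv e1 h1) (FinGn.of_equiv e2 h3)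

end loc

/-! ### substitutions -/

section sub

variable {k : Type} [Field k] {n : ℕ} {S : Type} [CommRing S]

/-- the coefficients -/
noncomputable def TTc_rho (n : ℕ) (κ : k →+* S) :
    MvPolynomial (Fin n) k →+* MvPolynomial (Fin (n + 1)) S :=
  ((rename Fin.succ : MvPolynomial (Fin n) S →ₐ[S] MvPolynomial (Fin (n + 1)) S) :
    MvPolynomial (Fin n) S →+* MvPolynomial (Fin (n + 1)) S).comp (map κ)

theorem TTc_rho_C (κ : k →+* S) (a : k) : TTc_rho n κ (C a) = C (κ a) := by
  show rename Fin.succ (map κ (C a)) = _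
  rw [map_C, rename_C]

theorem TTc_rho_X (κ : k →+* S) (i : Fin n) : TTc_rho n κ (X i) = X i.succ := by
  show rename Fin.succ (map κ (X i)) = _
  rw [map_X, rename_X]

theorem TTc_rho_deg (κ : k →+* S) (c : MvPolynomial (Fin n) k) :
    (TTc_rho n κ c).totalDegree ≤ c.totalDegree := by
  refine le_trans (totalDegree_rename_le _ _) ?_
  refine Finset.sup_mono ?_
  exact support_map_subset κ c

/-- the substitution `x_i ↦ a_i x` -/
noncomputable def TTc_sub (n : ℕ) (κ : k →+* S) (a : Fin 2 → S) :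
    MvPolynomial (Fin 2) (MvPolynomial (Fin n) k) →+* MvPolynomial (Fin (n + 1)) S :=
  eval₂Hom (TTc_rho n κ) fun i => C (a i) * X 0

theorem TTc_sub_C (κ : k →+* S) (a : Fin 2 → S) (c : MvPolynomial (Fin n) k) :
    TTc_sub n κ a (C c) = TTc_rho n κ c := eval₂Hom_C _ _ _

theorem TTc_sub_X (κ : k →+* S) (a : Fin 2 → S) (i : Fin 2) :
    TTc_sub n κ a (X i) = C (a i) * X 0 := eval₂Hom_X' _ _ _

theorem TTc_q (κ : k →+* S) (a : Fin 2 → S) (N : ℕ)
    (H : MvPolynomial (Fin 2) (MvPolynomial (Fin n) k))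
    (hH : ∀ d, H.coeff d ≠ 0 → N ≤ d.degree ∧ (H.coeff d).totalDegree + d.degree ≤ N + 2) :
    ∃ q : MvPolynomial (Fin (n + 1)) S, q.totalDegree ≤ 2 ∧ TTc_sub n κ a H = X 0 ^ N * q := by
  refine ⟨∑ d ∈ H.support, TTc_rho n κ (H.coeff d) * (C (∏ i, a i ^ d i) *
    X 0 ^ (d.degree - N)), ?_, ?_⟩
  · refine totalDegree_finsetSum_le fun d hd => ?_
    obtain ⟨h1, h2⟩ := hH d (mem_support_iff.1 hd)
    have h3 := TTc_rho_deg κ (H.coeff d)
    have h4 : (C (∏ i, a i ^ d i) * X 0 ^ (d.degree - N) :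
        MvPolynomial (Fin (n + 1)) S).totalDegree ≤ d.degree - N := by
      refine le_trans (totalDegree_mul _ _) ?_
      rw [totalDegree_C, zero_add]
      refine le_trans (totalDegree_pow _ _) ?_
      have h5 : (X 0 : MvPolynomial (Fin (n + 1)) S).totalDegree ≤ 1 := by
        rcases subsingleton_or_nontrivial S with h | h
        · have h6 : (X 0 : MvPolynomial (Fin (n + 1)) S) = 0 := Subsingleton.elim _ _
          rw [h6, totalDegree_zero]
          exact Nat.zero_le _
        · rw [totalDegree_X]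
      calc (d.degree - N) * (X 0 : MvPolynomial (Fin (n + 1)) S).totalDegree ≤
          (d.degree - N) * 1 := Nat.mul_le_mul_left _ h5
        _ = d.degree - N := mul_one _
    refine le_trans (totalDegree_mul _ _) ?_
    omega
  · have h1 : TTc_sub n κ a H = ∑ d ∈ H.support, TTc_rho n κ (H.coeff d) *
        ∏ i, (C (a i) * X 0) ^ d i := by
      show eval₂ _ _ H = _
      rw [eval₂_eq']
    rw [h1, Finset.mul_sum]
    refine Finset.sum_congr rfl fun d hd => ?_
    obtain ⟨h2, -⟩ := hH d (mem_support_iff.1 hd)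
    have h3 : ∏ i, (C (a i) * X 0 : MvPolynomial (Fin (n + 1)) S) ^ d i =
        C (∏ i, a i ^ d i) * X 0 ^ d.degree := by
      rw [map_prod, Finsupp.degree_eq_sum, ← Finset.prod_pow_eq_pow_sum, ← Finset.prod_mul_distrib]
      refine Finset.prod_congr rfl fun i _ => ?_
      rw [mul_pow, map_pow]
    have h4 : (X 0 : MvPolynomial (Fin (n + 1)) S) ^ d.degree =
        X 0 ^ N * X 0 ^ (d.degree - N) := by
      rw [← pow_add, Nat.add_sub_cancel' h2]
    rw [h3, h4]
    ring

end sub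

theorem TTc_zero {k : Type} [Field k] (n : ℕ) :
    FinGn (MvPolynomial (Fin (n + 1)) k ⧸ Ideal.span {(X 0 : MvPolynomial (Fin (n + 1)) k)}) := by
  let α : MvPolynomial (Fin (n + 1)) k →+* MvPolynomial (Fin n) k :=
    eval₂Hom C (Fin.cons 0 X)
  let β : MvPolynomial (Fin n) k →+* MvPolynomial (Fin (n + 1)) k :=
    ((rename Fin.succ : MvPolynomial (Fin n) k →ₐ[k] MvPolynomial (Fin (n + 1)) k) :
      MvPolynomial (Fin n) k →+* MvPolynomial (Fin (n + 1)) k)
  have hαC : ∀ c, α (C c) = C c := fun c => eval₂Hom_C _ _ _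
  have hα0 : α (X 0) = 0 := by
    show eval₂Hom _ _ _ = _
    rw [eval₂Hom_X']
    rfl
  have hαs : ∀ i : Fin n, α (X i.succ) = X i := by
    intro i
    show eval₂Hom _ _ _ = _
    rw [eval₂Hom_X']
    rfl
  have hβC : ∀ c, β (C c) = C c := fun c => rename_C _ _
  have hβX : ∀ i : Fin n, β (X i) = X i.succ := fun i => rename_X _ _
  obtain ⟨e⟩ := TTc_ret α β (fun c => by
    have h : α.comp β = RingHom.id _ := by
      refine MvPolynomial.ringHom_ext (fun c => ?_) fun i => ?_
      · rw [RingHom.comp_apply, hβC, hαC]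
        rfl
      · rw [RingHom.comp_apply, hβX, hαs]
        rfl
    exact congrArg (fun φ : MvPolynomial (Fin n) k →+* MvPolynomial (Fin n) k => φ c) h)
    (X 0) hα0 (fun T _ π hπ r => by
    have h : π.comp (β.comp α) = π := by
      refine MvPolynomial.ringHom_ext (fun c => ?_) fun i => ?_
      · rw [RingHom.comp_apply, RingHom.comp_apply, hαC, hβC]
      · refine Fin.cases ?_ (fun i => ?_) i
        · rw [RingHom.comp_apply, RingHom.comp_apply, hα0, map_zero, map_zero, hπ]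
        · rw [RingHom.comp_apply, RingHom.comp_apply, hαs, hβX]
    exact congrArg (fun φ : MvPolynomial (Fin (n + 1)) k →+* T => φ r) h)
  exact FinGn.of_equiv e ((FinGn.of_pid k).mvPolynomial (Fin n))

section fst

variable {k : Type} [Field k] (n : ℕ)

/-- the section -/
noncomputable def TTc_beta :
    MvPolynomial (Fin (n + 1)) k →+* MvPolynomial (Fin 2) (MvPolynomial (Fin n) k) :=
  eval₂Hom ((C : MvPolynomial (Fin n) k →+* _).comp C) (Fin.cons (X 1) fun i => C (X i))

theorem TTc_beta_C (c : k) : TTc_beta n (C c) = C (C c) := eval₂Hom_C _ _ _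

theorem TTc_beta_0 : TTc_beta n (X 0 : MvPolynomial (Fin (n + 1)) k) = X 1 := by
  unfold TTc_beta
  rw [eval₂Hom_X']
  rfl

theorem TTc_beta_s (i : Fin n) :
    TTc_beta n (X i.succ : MvPolynomial (Fin (n + 1)) k) = C (X i) := by
  unfold TTc_beta
  rw [eval₂Hom_X']
  rfl

theorem TTc_alpha_0 : TTc_sub n (RingHom.id k) ![0, 1] (X 0) = 0 := by
  rw [TTc_sub_X]
  show C 0 * X 0 = _
  rw [C_0, zero_mul]

theorem TTc_alpha_1 : TTc_sub n (RingHom.id k) ![0, 1] (X 1) = X 0 := by
  rw [TTc_sub_X]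
  show C 1 * X 0 = _
  rw [C_1, one_mul]

theorem TTc_alpha_C (c : k) : TTc_sub n (RingHom.id k) ![0, 1] (C (C c)) = C c := by
  rw [TTc_sub_C, TTc_rho_C]
  rfl

theorem TTc_alpha_X (i : Fin n) : TTc_sub n (RingHom.id k) ![0, 1] (C (X i)) = X i.succ := by
  rw [TTc_sub_C, TTc_rho_X]

theorem TTc_ab (c : MvPolynomial (Fin (n + 1)) k) :
    TTc_sub n (RingHom.id k) ![0, 1] (TTc_beta n c) = c := by
  have h : (TTc_sub n (RingHom.id k) ![0, 1]).comp (TTc_beta n) =
      RingHom.id (MvPolynomial (Fin (n + 1)) k) := by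
    refine MvPolynomial.ringHom_ext (fun c => ?_) fun i => ?_
    · rw [RingHom.comp_apply, TTc_beta_C, TTc_alpha_C]
      rfl
    · refine Fin.cases ?_ (fun i => ?_) i
      · rw [RingHom.comp_apply, TTc_beta_0, TTc_alpha_1]
        rfl
      · rw [RingHom.comp_apply, TTc_beta_s, TTc_alpha_X]
        rfl
  exact congrArg
    (fun φ : MvPolynomial (Fin (n + 1)) k →+* MvPolynomial (Fin (n + 1)) k => φ c) h

theorem TTc_ba (T : Type) [CommRing T] (π : MvPolynomial (Fin 2) (MvPolynomial (Fin n) k) →+* T)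
    (hπ : π (X 0) = 0) (r : MvPolynomial (Fin 2) (MvPolynomial (Fin n) k)) :
    π (TTc_beta n (TTc_sub n (RingHom.id k) ![0, 1] r)) = π r := by
  have h : π.comp ((TTc_beta n).comp (TTc_sub n (RingHom.id k) ![0, 1])) = π := by
    refine MvPolynomial.ringHom_ext (fun c => ?_) fun i => ?_
    · have h' : (π.comp ((TTc_beta n).comp (TTc_sub n (RingHom.id k) ![0, 1]))).comp C =
          π.comp C := by
        refine MvPolynomial.ringHom_ext (fun c => ?_) fun i => ?_
        · rw [RingHom.comp_apply, RingHom.comp_apply, RingHom.comp_apply, RingHom.comp_apply,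
            TTc_alpha_C, TTc_beta_C]
        · rw [RingHom.comp_apply, RingHom.comp_apply, RingHom.comp_apply, RingHom.comp_apply,
            TTc_alpha_X, TTc_beta_s]
      exact congrArg (fun φ : MvPolynomial (Fin n) k →+* T => φ c) h'
    · fin_cases i
      · show π (TTc_beta n (TTc_sub n (RingHom.id k) ![0, 1] (X 0))) = π (X 0)
        rw [TTc_alpha_0, map_zero, map_zero, hπ]
      · show π (TTc_beta n (TTc_sub n (RingHom.id k) ![0, 1] (X 1))) = π (X 1)
        rw [TTc_alpha_1, TTc_beta_0]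
  exact congrArg (fun φ : MvPolynomial (Fin 2) (MvPolynomial (Fin n) k) →+* T => φ r) h

end fst

section snd

variable {k : Type} [Field k] (n : ℕ)

/-- the substitution `x_1 = t x_0` -/
noncomputable def TTc_sig :
    MvPolynomial (Fin 2) (MvPolynomial (Fin n) k) →+* MvPolynomial (Fin (n + 1)) (Polynomial k) :=
  TTc_sub n (Polynomial.C : k →+* Polynomial k) ![1, Polynomial.X]

theorem TTc_sig_C (c : k) : TTc_sig n (C (C c)) = C (Polynomial.C c) := by
  unfold TTc_sig
  rw [TTc_sub_C, TTc_rho_C]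

theorem TTc_sig_X (i : Fin n) :
    TTc_sig n (C (X i) : MvPolynomial (Fin 2) (MvPolynomial (Fin n) k)) = X i.succ := by
  unfold TTc_sig
  rw [TTc_sub_C, TTc_rho_X]

theorem TTc_sig_0 : TTc_sig n (X 0 : MvPolynomial (Fin 2) (MvPolynomial (Fin n) k)) = X 0 := by
  unfold TTc_sig
  rw [TTc_sub_X]
  show C 1 * X 0 = _
  rw [C_1, one_mul]

theorem TTc_sig_1 : TTc_sig n (X 1 : MvPolynomial (Fin 2) (MvPolynomial (Fin n) k)) =
    C Polynomial.X * X 0 := by
  unfold TTc_sig
  rw [TTc_sub_X]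
  rfl

/-- the universal property of the localisation -/
theorem TTc_uni (V : Type) [CommRing V] (ι : MvPolynomial (Fin 2) (MvPolynomial (Fin n) k) →+* V)
    (hι : IsUnit (ι (X 0))) : ∃ τ : MvPolynomial (Fin (n + 1)) (Polynomial k) →+* V,
      (∀ r, τ (TTc_sig n r) = ι r) ∧ ∀ (W : Type) [CommRing W] (f : V →+* W)
        (g : MvPolynomial (Fin (n + 1)) (Polynomial k) →+* W),
        (∀ r, f (ι r) = g (TTc_sig n r)) → ∀ c, f (τ c) = g c := by
  obtain ⟨u, hu⟩ := hι.exists_right_inv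
  let τ : MvPolynomial (Fin (n + 1)) (Polynomial k) →+* V :=
    eval₂Hom (Polynomial.eval₂RingHom (ι.comp ((C : MvPolynomial (Fin n) k →+* _).comp C))
      (ι (X 1) * u)) (Fin.cons (ι (X 0)) fun i => ι (C (X i)))
  have hτC : ∀ c, τ (C (Polynomial.C c)) = ι (C (C c)) := fun c => by
    show eval₂Hom _ _ _ = _
    rw [eval₂Hom_C, Polynomial.coe_eval₂RingHom, Polynomial.eval₂_C]
    rfl
  have hτt : τ (C Polynomial.X) = ι (X 1) * u := by
    show eval₂Hom _ _ _ = _
    rw [eval₂Hom_C, Polynomial.coe_eval₂RingHom, Polynomial.eval₂_X]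
  have hτ0 : τ (X 0) = ι (X 0) := by
    show eval₂Hom _ _ _ = _
    rw [eval₂Hom_X']
    rfl
  have hτs : ∀ i : Fin n, τ (X i.succ) = ι (C (X i)) := by
    intro i
    show eval₂Hom _ _ _ = _
    rw [eval₂Hom_X']
    rfl
  refine ⟨τ, fun r => ?_, fun W _ f g hfg c => ?_⟩
  · have h : τ.comp (TTc_sig n) = ι := by
      refine MvPolynomial.ringHom_ext (fun c => ?_) fun i => ?_
      · have h' : (τ.comp (TTc_sig n)).comp C = ι.comp C := by
          refine MvPolynomial.ringHom_ext (fun c => ?_) fun i => ?_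
          · show τ (TTc_sig n (C (C c))) = ι (C (C c))
            rw [TTc_sig_C, hτC]
          · show τ (TTc_sig n (C (X i))) = ι (C (X i))
            rw [TTc_sig_X, hτs]
        exact congrArg (fun φ : MvPolynomial (Fin n) k →+* V => φ c) h'
      · fin_cases i
        · show τ (TTc_sig n (X 0)) = ι (X 0)
          rw [TTc_sig_0, hτ0]
        · show τ (TTc_sig n (X 1)) = ι (X 1)
          rw [TTc_sig_1, map_mul, hτt, hτ0, mul_assoc, mul_comm u, hu, mul_one]
    exact congrArg (fun φ : MvPolynomial (Fin 2) (MvPolynomial (Fin n) k) →+* V => φ r) h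
  · have h : f.comp τ = g := by
      refine MvPolynomial.ringHom_ext (fun c => ?_) fun i => ?_
      · have h' : (f.comp τ).comp C = g.comp C := by
          refine Polynomial.ringHom_ext (fun c => ?_) ?_
          · show f (τ (C (Polynomial.C c))) = g (C (Polynomial.C c))
            rw [hτC, hfg, TTc_sig_C]
          · show f (τ (C Polynomial.X)) = g (C Polynomial.X)
            have h1 := hfg (X 0)
            rw [TTc_sig_0] at h1
            rw [hτt, map_mul, hfg, TTc_sig_1, map_mul, ← h1, mul_assoc, ← map_mul, hu,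
              map_one, mul_one]
        exact congrArg (fun φ : Polynomial k →+* W => φ c) h'
      · refine Fin.cases ?_ (fun i => ?_) i
        · show f (τ (X 0)) = g (X 0)
          rw [hτ0, hfg, TTc_sig_0]
        · show f (τ (X i.succ)) = g (X i.succ)
          rw [hτs, hfg, TTc_sig_X]
    exact congrArg (fun φ : MvPolynomial (Fin (n + 1)) (Polynomial k) →+* W => φ c) h

end snd

theorem TTc_ft (k : Type) [Field k] [Finite k] :
    Algebra.FiniteType ℤ k ∧
      @Algebra.FiniteType ℤ (Polynomial k) _ _ (Ring.toIntAlgebra (Polynomial k)) := by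
  have h1 : Module.Finite ℤ k := inferInstance
  have h2 : Algebra.FiniteType ℤ k := inferInstance
  have h3 : Algebra.FiniteType ℤ (Polynomial k) := inferInstance
  refine ⟨h2, ?_⟩
  have h4 : (Ring.toIntAlgebra (Polynomial k)) = (inferInstance : Algebra ℤ (Polynomial k)) :=
    Subsingleton.elim _ _
  rw [h4]
  exact h3

theorem thm_Tc (h1 : St_Ta) (h2 : St_Kt) (h3 : St_Pow) : St_Tc := by
  intro k _ _ n N H hH
  obtain ⟨hf1, hf2⟩ := TTc_ft k
  obtain ⟨hk1, hk2⟩ := h2 k
  obtain ⟨q1, hq1, hq1'⟩ := TTc_q (n := n) (RingHom.id k) ![0, 1] N H hH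
  obtain ⟨q2, hq2, hq2'⟩ := TTc_q (n := n) (Polynomial.C : k →+* Polynomial k)
    ![1, Polynomial.X] N H hH
  have hC1 : FinGn (MvPolynomial (Fin (n + 1)) k ⧸
      Ideal.span {TTc_sub n (RingHom.id k) ![0, 1] H}) := by
    rw [hq1']
    exact h3 _ (X 0) q1 N (TTc_zero n) (h1 k hk2 (n + 1) q1 hq1)
  have hC2 : FinGn (MvPolynomial (Fin (n + 1)) (Polynomial k) ⧸ Ideal.span {q2}) :=
    @h1 (Polynomial k) _ hf2 hk1 (n + 1) q2 hq2
  exact TTc_abs (X 0) H (TTc_sub n (RingHom.id k) ![0, 1]) (TTc_beta n) (TTc_ab n)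
    (TTc_alpha_0 n) (TTc_ba n) hC1 (X 0) q2 N (TTc_sig n) (TTc_sig_0 n) hq2' (TTc_uni n) hC2

end Pool.Agent.TQF
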