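import Pool.Agent.TQF.StT

/-!
# TQF [TF]: the flat form of part (c)
-/

set_option autoImplicit false

namespace Pool.Agent.TQF

open Function MvPolynomial TensorProduct Pool.Agent.Helper11 Pool.Agent.Helper67.Bass

section gen

variable {k σ τ : Type} [CommRing k]

theorem TTf_monomial (a : σ →₀ ℕ) (b : τ →₀ ℕ) (c : k) :
    sumAlgEquiv k σ τ (monomial (a.sumElim b) c) = monomial a (monomial b c) := by
  ext
  simp [sumAlgEquiv, monomial, coeff]

theorem TTf_split (u : σ ⊕ τ →₀ ℕ) : ∃ (a : σ →₀ ℕ) (b : τ →₀ ℕ), u = a.sumElim b := by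
  refine ⟨(Finsupp.sumFinsuppEquivProdFinsupp u).1, (Finsupp.sumFinsuppEquivProdFinsupp u).2, ?_⟩
  ext i
  rcases i with i | i
  · simp [Finsupp.sumFinsuppEquivProdFinsupp]
  · simp [Finsupp.sumFinsuppEquivProdFinsupp]

theorem TTf_sumElim_inj {a a' : σ →₀ ℕ} {b b' : τ →₀ ℕ} :
    a'.sumElim b' = a.sumElim b ↔ a' = a ∧ b' = b := by
  constructor
  · intro h
    constructor
    · ext i
      have h1 := DFunLike.congr_fun h (Sum.inl i)
      simpa using h1
    · ext i
      have h1 := DFunLike.congr_fun h (Sum.inr i)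
      simpa using h1
  · rintro ⟨rfl, rfl⟩
    rfl

theorem TTf_coeff (a : σ →₀ ℕ) (b : τ →₀ ℕ) (F : MvPolynomial (σ ⊕ τ) k) :
    coeff b (coeff a (sumAlgEquiv k σ τ F)) = coeff (a.sumElim b) F := by
  classical
  induction F using MvPolynomial.induction_on' with
  | monomial u c =>
    obtain ⟨a', b', rfl⟩ := TTf_split u
    rw [TTf_monomial, coeff_monomial, coeff_monomial]
    by_cases h1 : a' = a
    · by_cases h2 : b' = b
      · rw [if_pos h1, if_pos (TTf_sumElim_inj.2 ⟨h1, h2⟩), coeff_monomial, if_pos h2]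
      · rw [if_pos h1, if_neg (fun h => h2 (TTf_sumElim_inj.1 h).2), coeff_monomial, if_neg h2]
    · rw [if_neg h1, if_neg (fun h => h1 (TTf_sumElim_inj.1 h).1), coeff_zero]
  | add p q hp hq => rw [map_add, coeff_add, coeff_add, coeff_add, hp, hq]

/-- the polynomials all of whose monomials have degree at least `N` in two variables -/
def TTf_S (k : Type) [CommRing k] (n N : ℕ) : Ideal (MvPolynomial (Fin 2 ⊕ Fin n) k) where
  carrier := {F | ∀ m, coeff m F ≠ 0 → N ≤ m (Sum.inl 0) + m (Sum.inl 1)}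
  zero_mem' := by
    intro m hm
    exact absurd (coeff_zero m) hm
  add_mem' := by
    intro p q hp hq m hm
    rw [coeff_add] at hm
    by_cases h : coeff m p = 0
    · rw [h, zero_add] at hm
      exact hq m hm
    · exact hp m h
  smul_mem' := by
    classical
    intro p q hq m hm
    rw [smul_eq_mul, coeff_mul] at hm
    obtain ⟨⟨u, v⟩, huv, h⟩ := Finset.exists_ne_zero_of_sum_ne_zero hm
    have h1 := hq v (right_ne_zero_of_mul h)
    have h2 := Finset.HasAntidiagonal.mem_antidiagonal.1 huv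
    simp only at h2
    rw [← h2, Finsupp.add_apply, Finsupp.add_apply]
    omega

theorem TTf_S_mul (n a b : ℕ) : TTf_S k n a * TTf_S k n b ≤ TTf_S k n (a + b) := by
  classical
  rw [Ideal.mul_le]
  intro p hp q hq m hm
  rw [coeff_mul] at hm
  obtain ⟨⟨u, v⟩, huv, h⟩ := Finset.exists_ne_zero_of_sum_ne_zero hm
  have h1 := hq v (right_ne_zero_of_mul h)
  have h3 := hp u (left_ne_zero_of_mul h)
  have h2 := Finset.HasAntidiagonal.mem_antidiagonal.1 huv
  simp only at h2
  rw [← h2, Finsupp.add_apply, Finsupp.add_apply]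
  omega

theorem TTf_pow (n N : ℕ) :
    (Ideal.span {X (Sum.inl 0), X (Sum.inl 1)} : Ideal (MvPolynomial (Fin 2 ⊕ Fin n) k)) ^ N ≤
      TTf_S k n N := by
  classical
  induction N with
  | zero =>
    intro p _ m _
    exact Nat.zero_le _
  | succ N ih =>
    rw [pow_succ]
    refine (Ideal.mul_mono ih ?_).trans (TTf_S_mul n N 1)
    rw [Ideal.span_le]
    rintro p hp m hm
    rcases hp with rfl | rfl
    · rw [coeff_X] at hm
      have h1 : Finsupp.single (Sum.inl 0) 1 = m := by
        by_contra h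
        rw [if_neg h] at hm
        exact hm rfl
      rw [← h1]
      simp
    · rw [coeff_X] at hm
      have h1 : Finsupp.single (Sum.inl 1) 1 = m := by
        by_contra h
        rw [if_neg h] at hm
        exact hm rfl
      rw [← h1]
      simp

theorem TTf_degree {n : ℕ} (a : Fin 2 →₀ ℕ) (b : Fin n →₀ ℕ) :
    (a.sumElim b).degree = a.degree + b.degree := by
  rw [Finsupp.degree_eq_sum, Finsupp.degree_eq_sum, Finsupp.degree_eq_sum, Fintype.sum_sum_type]
  simp

end gen

theorem thm_Tf (h : St_Tc) : St_Tf := by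
  intro k _ _ n N F hF hN
  have hS := TTf_pow n N hN
  have key : ∀ (a : Fin 2 →₀ ℕ) (b : Fin n →₀ ℕ),
      coeff b (coeff a (sumAlgEquiv k (Fin 2) (Fin n) F)) ≠ 0 →
      N ≤ a.degree ∧ b.degree + a.degree ≤ N + 2 := by
    intro a b hab
    rw [TTf_coeff] at hab
    have h1 := hS _ hab
    have h2 : (a.sumElim b).degree ≤ N + 2 := by
      refine le_trans ?_ hF
      exact le_totalDegree (mem_support_iff.2 hab)
    rw [TTf_degree] at h2
    rw [Finsupp.degree_eq_sum a, Fin.sum_univ_two] at h2 ⊢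
    simp only [Finsupp.sumElim_inl] at h1
    omega
  have h1 := h k n N (sumAlgEquiv k (Fin 2) (Fin n) F) (by
    intro d hd
    obtain ⟨b, hb⟩ := MvPolynomial.ne_zero_iff.1 hd
    refine ⟨(key d b hb).1, ?_⟩
    have h2 : (coeff d (sumAlgEquiv k (Fin 2) (Fin n) F)).totalDegree ≤ N + 2 - d.degree := by
      unfold totalDegree
      refine Finset.sup_le fun b' hb' => ?_
      have h4 := (key d b' (mem_support_iff.1 hb')).2
      show b'.degree ≤ _
      omega
    have h3 := (key d b hb).2
    omega)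
  refine FinGn.of_equiv (Ideal.quotientEquiv (Ideal.span {F})
    (Ideal.span {sumAlgEquiv k (Fin 2) (Fin n) F})
    (sumAlgEquiv k (Fin 2) (Fin n)).toRingEquiv ?_).symm h1
  rw [Ideal.map_span, Set.image_singleton]
  rfl

end Pool.Agent.TQF
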