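import Pool.Agent.TQF.StT

/-!
# TQF, module Tr: composition of localisations (helper17)
-/

set_option autoImplicit false

namespace Pool.Agent.TQF

theorem thm_Tr : St_Tr := by
  intro A B V _ _ _ _ _ _ _ _ _ x y hx hy h1 h2
  obtain ⟨n, b, hb⟩ := IsLocalization.Away.surj x y
  have hu : IsUnit (algebraMap A B x ^ n) := IsLocalization.Away.algebraMap_pow_isUnit x n
  have ha : Associated (algebraMap A B b) y := by
    obtain ⟨u, hu'⟩ := hu
    refine Associated.symm ⟨u, ?_⟩
    rw [hu', hb]
  refine ⟨x * b, mul_ne_zero hx ?_, IsLocalization.Away.mul_of_associated x b y ha⟩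
  rintro rfl
  rw [map_zero] at hb
  rcases mul_eq_zero.1 hb with h | h
  · exact hy h
  · rw [h] at hu
    exact not_isUnit_zero hu

end Pool.Agent.TQF
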