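import Pool.Agent.TQF.AsmF
import Pool.Agent.TQF.AsmN
import Pool.Agent.TQF.AsmT
import Pool.Agent.TQF.F1a
import Pool.Agent.TQF.F1b
import Pool.Agent.TQF.F1c
import Pool.Agent.TQF.FCP
import Pool.Agent.TQF.FCmp
import Pool.Agent.TQF.FCov
import Pool.Agent.TQF.FDL
import Pool.Agent.TQF.FHG
import Pool.Agent.TQF.FPB
import Pool.Agent.TQF.FPd
import Pool.Agent.TQF.FPrj
import Pool.Agent.TQF.FPrs
import Pool.Agent.TQF.G1
import Pool.Agent.TQF.G2
import Pool.Agent.TQF.GFinQ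
import Pool.Agent.TQF.Gd
import Pool.Agent.TQF.Gm
import Pool.Agent.TQF.NCyc
import Pool.Agent.TQF.NGlob
import Pool.Agent.TQF.NLamC
import Pool.Agent.TQF.NLamF
import Pool.Agent.TQF.NLocK
import Pool.Agent.TQF.NLocM
import Pool.Agent.TQF.NLocP
import Pool.Agent.TQF.NMat
import Pool.Agent.TQF.NNil
import Pool.Agent.TQF.NOrd0
import Pool.Agent.TQF.NOrdF
import Pool.Agent.TQF.NOrdG
import Pool.Agent.TQF.NPi
import Pool.Agent.TQF.NPig
import Pool.Agent.TQF.NWed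
import Pool.Agent.TQF.T1
import Pool.Agent.TQF.TKt
import Pool.Agent.TQF.TLin
import Pool.Agent.TQF.TLoc
import Pool.Agent.TQF.TMon
import Pool.Agent.TQF.TTa
import Pool.Agent.TQF.TTb
import Pool.Agent.TQF.TTr
import Pool.Agent.TQF.T0
import Pool.Agent.TQF.TTc
import Pool.Agent.TQF.TTf

/-!
# TQF: the chain of all modules
-/

set_option autoImplicit false

namespace Pool.Agent.TQF

theorem all_F : St_F :=
  thm_F (thm_F1 thm_F1a thm_F1b thm_F1c) (thm_Prj thm_CP thm_DL (thm_PB thm_CP (thm_HG thm_CP)))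
    (thm_Cov thm_CP thm_DL (thm_HG thm_CP) thm_Cmp) (thm_Prs thm_CP thm_DL thm_Cmp) thm_Pd

theorem all_NC : St_NC :=
  thm_NC thm_Glob thm_OrdF (thm_OrdG thm_Ord0 thm_Pig) (thm_LocP (thm_Lp thm_Cyc))
    (thm_LocM thm_Pi thm_Mat) thm_LocC thm_LocK thm_Wed thm_Nil

theorem all_Gm : St_Gm := thm_Gm (thm_Gd thm_G1 thm_G2 thm_LamF) all_F

theorem all_FinQ : St_FinQ := thm_FinQ all_Gm

theorem all_Gen : St_Gen :=
  thm_Gen thm_T0 thm_T1 thm_Mon thm_Lin thm_Tr all_NC thm_LamF (thm_LamC thm_LamF) all_FinQ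

theorem all_Ta : St_Ta := thm_Ta thm_Loc all_Gen

theorem all_Tf : St_Tf := thm_Tf (thm_Tc all_Ta thm_Kt thm_Pow)

end Pool.Agent.TQF
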