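import Pool.Agent.TQF.StG

/-!
# TQF, module FinQ: finite generation from the two generating families

Module of helper71, written by helper73.
-/

set_option autoImplicit false

namespace Pool.Agent.TQF

open Function MvPolynomial TensorProduct

/-! ### the functor `M ↦ QM.ind M` -/

theorem GFinQ_ind {S : Type} [CommRing S] (l g : S) {X Y Z : Type} [AddCommGroup X] [Module S X]
    [Module.Finite S X] [AddCommGroup Y] [Module S Y] [Module.Finite S Y] [AddCommGroup Z]
    [Module S Z] [Module.Finite S Z] (f : X →ₗ[S] Y) (h : Y →ₗ[S] Z) (hf : Injective f)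
    (hh : Surjective h) (he : Exact f h) :
    QM.Ses (QM.ind l g X) (QM.ind l g Y) (QM.ind l g Z) := by
  refine ⟨f.prodMap f, h.prodMap h, ?_, ?_, ?_, ?_, ?_⟩
  · rintro ⟨a, b⟩ ⟨a', b'⟩ hab
    have h1 : f a = f a' := congrArg Prod.fst hab
    have h2 : f b = f b' := congrArg Prod.snd hab
    rw [hf h1, hf h2]
  · rintro ⟨a, b⟩
    obtain ⟨a', ha⟩ := hh a
    obtain ⟨b', hb⟩ := hh b
    exact ⟨(a', b'), Prod.ext ha hb⟩
  · rintro ⟨a, b⟩
    constructor
    · intro hab
      have h1 : h a = 0 := congrArg Prod.fst hab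
      have h2 : h b = 0 := congrArg Prod.snd hab
      obtain ⟨a', ha⟩ := (he a).1 h1
      obtain ⟨b', hb⟩ := (he b).1 h2
      exact ⟨(a', b'), Prod.ext ha hb⟩
    · rintro ⟨⟨a', b'⟩, hab⟩
      have h1 : f a' = a := congrArg Prod.fst hab
      have h2 : f b' = b := congrArg Prod.snd hab
      exact Prod.ext ((he a).2 ⟨a', h1⟩) ((he b).2 ⟨b', h2⟩)
  · rintro ⟨a, b⟩
    refine Prod.ext ?_ ?_
    · show f (-(g • b)) = -(g • f b)
      rw [map_neg, map_smul]
    · show f (a - l • b) = f a - l • f b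
      rw [map_sub, map_smul]
  · rintro ⟨a, b⟩
    refine Prod.ext ?_ ?_
    · show h (-(g • b)) = -(g • h b)
      rw [map_neg, map_smul]
    · show h (a - l • b) = h a - l • h b
      rw [map_sub, map_smul]

/-! ### base change -/

section bc

variable {A S : Type} [CommRing A] [CommRing S] [Algebra A S]

theorem GFinQ_zero {M : Type} [AddCommGroup M] [Module A M] (h : Subsingleton M)
    (z : S ⊗[A] M) : z = 0 := by
  induction z using TensorProduct.induction_on with
  | zero => rfl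
  | tmul s m => rw [Subsingleton.elim m 0, TensorProduct.tmul_zero]
  | add x y hx hy => rw [hx, hy, add_zero]

theorem GFinQ_bc [Module.Flat A S] {X Y Z : Type} [AddCommGroup X] [Module A X]
    [AddCommGroup Y] [Module A Y] [AddCommGroup Z] [Module A Z] (f : X →ₗ[A] Y) (h : Y →ₗ[A] Z)
    (hf : Injective f) (hh : Surjective h) (he : Exact f h) :
    Injective (f.baseChange S) ∧ Surjective (h.baseChange S) ∧
      Exact (f.baseChange S) (h.baseChange S) := by
  refine ⟨?_, ?_, ?_⟩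
  · exact Module.Flat.lTensor_preserves_injective_linearMap (M := S) f hf
  · exact LinearMap.lTensor_surjective S hh
  · exact lTensor_exact S he hh

end bc

variable {A : Type} [CommRing A] {m : ℕ}

/-- the functor `M ↦ QM.ind (S ⊗ M)` -/
noncomputable abbrev GFinQ_F (q : QD A m) (M : LMod A) : QM q.l q.g :=
  QM.ind q.l q.g (MvPolynomial (Fin m) A ⊗[A] M)

theorem GFinQ_F_ses (q : QD A m) (X Y Z : LMod A) (h : LMod.Ses X Y Z) :
    QM.Ses (GFinQ_F q X) (GFinQ_F q Y) (GFinQ_F q Z) := by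
  obtain ⟨f, h, hf, hh, he⟩ := h
  obtain ⟨h1, h2, h3⟩ := GFinQ_bc (S := MvPolynomial (Fin m) A) f h hf hh he
  exact GFinQ_ind q.l q.g _ _ h1 h2 h3

theorem GFinQ_F_zero (q : QD A m) (X : LMod A) (h : Subsingleton X) :
    Subsingleton (GFinQ_F q X).carrier := by
  refine ⟨fun x y => ?_⟩
  have h0 : ∀ z : MvPolynomial (Fin m) A ⊗[A] X.carrier, z = 0 := GFinQ_zero h
  exact Prod.ext ((h0 x.1).trans (h0 y.1).symm) ((h0 x.2).trans (h0 y.2).symm)

theorem GFinQ_phiz {q : QD A m} {X Y : CMod q} (f : X →ₗ[A] Y)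
    (hf : ∀ i x, f (X.e i x) = Y.e i (f x)) (x : MvPolynomial (Fin m) A ⊗[A] X.carrier) :
    f.baseChange (MvPolynomial (Fin m) A) (X.phiz x) =
      Y.phiz (f.baseChange (MvPolynomial (Fin m) A) x) := by
  induction x using TensorProduct.induction_on with
  | zero => simp only [map_zero]
  | add x y hx hy => rw [map_add, map_add, map_add, map_add, hx, hy]
  | tmul s n =>
    rw [CMod.phiz_tmul, map_sum, LinearMap.baseChange_tmul, CMod.phiz_tmul]
    refine Finset.sum_congr rfl fun i _ => ?_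
    rw [LinearMap.baseChange_tmul, hf]

theorem GFinQ_phi_ses {q : QD A m} (X Y Z : CMod q) (h : CMod.Ses X Y Z) :
    QM.Ses X.phi Y.phi Z.phi := by
  obtain ⟨f, h, hf, hh, he, hfe, hhe⟩ := h
  obtain ⟨h1, h2, h3⟩ := GFinQ_bc (S := MvPolynomial (Fin m) A) f h hf hh he
  exact ⟨f.baseChange _, h.baseChange _, h1, h2, h3, GFinQ_phiz f hfe, GFinQ_phiz h hhe⟩

theorem GFinQ_phi_zero {q : QD A m} (X : CMod q) (h : Subsingleton X) :
    Subsingleton X.phi.carrier := by
  refine ⟨fun x y => ?_⟩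
  have h0 : ∀ z : MvPolynomial (Fin m) A ⊗[A] X.carrier, z = 0 := GFinQ_zero h
  exact (h0 x).trans (h0 y).symm

theorem thm_FinQ (h : St_Gm) : St_FinQ := by
  intro A _ _ m q hA hC
  obtain ⟨U, hU, hgU⟩ := hA
  obtain ⟨W, hW, hgW⟩ := hC
  refine ⟨GFinQ_F q '' U ∪ CMod.phi '' W, (hU.image _).union (hW.image _), ?_⟩
  intro P hP hN
  refine h A m q P hP ?_ ?_
  · intro M
    exact hgU _ (hP.comap (C := modC A) (GFinQ_F q) (GFinQ_F_ses q) (GFinQ_F_zero q))
      (fun X hX => hN _ (Or.inl ⟨X, hX, rfl⟩)) M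
  · intro N
    exact hgW _ (hP.comap (C := cC q) CMod.phi GFinQ_phi_ses GFinQ_phi_zero)
      (fun X hX => hN _ (Or.inr ⟨X, hX, rfl⟩)) N

end Pool.Agent.TQF
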