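import Pool.Agent.TQF.StQ

/-!
# TQF [QF] (helper98): the generic stratum of a quadric hypersurface
-/

set_option autoImplicit false
set_option linter.style.haveILetI false

namespace Pool.Agent.TQF

open Function MvPolynomial Pool.Agent.Helper11 Pool.Agent.Helper67.Bass

/-- the exponent vector of `y_i`, with `y_none = 1` -/
noncomputable def QF_eo {n : ℕ} (i : Option (Fin n)) : Fin n →₀ ℕ :=
  i.elim 0 (fun a => Finsupp.single a 1)

theorem QF_dec {n : ℕ} (d : Fin n →₀ ℕ) (h : d ≠ 0) :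
    ∃ (a : Fin n) (d' : Fin n →₀ ℕ), d = Finsupp.single a 1 + d' ∧ d.degree = 1 + d'.degree := by
  obtain ⟨a, ha⟩ := Finsupp.ne_iff.1 h
  have h1 : Finsupp.single a 1 ≤ d := by
    rw [Finsupp.single_le_iff]
    exact Nat.one_le_iff_ne_zero.2 ha
  refine ⟨a, d - Finsupp.single a 1, (add_tsub_cancel_of_le h1).symm, ?_⟩
  have h2 : d = Finsupp.single a 1 + (d - Finsupp.single a 1) := (add_tsub_cancel_of_le h1).symm
  have h3 := congrArg Finsupp.degree h2
  rw [map_add, Finsupp.degree_single] at h3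
  exact h3

/-- the monomials of degree at most two -/
theorem QF_two {n : ℕ} (d : Fin n →₀ ℕ) (h : d.degree ≤ 2) :
    ∃ i j : Option (Fin n), d = QF_eo i + QF_eo j := by
  by_cases h0 : d = 0
  · refine ⟨none, none, ?_⟩
    rw [h0]
    show (0 : Fin n →₀ ℕ) = 0 + 0
    rw [add_zero]
  obtain ⟨a, d', hd, hdeg⟩ := QF_dec d h0
  by_cases h1 : d' = 0
  · refine ⟨some a, none, ?_⟩
    rw [hd, h1]
    rfl
  obtain ⟨b, d'', hd', hdeg'⟩ := QF_dec d' h1
  have h2 : d''.degree = 0 := by omega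
  have h3 : d'' = 0 := (Finsupp.degree_eq_zero_iff _).1 h2
  refine ⟨some a, some b, ?_⟩
  rw [hd, hd', h3, add_zero]
  rfl

theorem QF_eo_degree {n : ℕ} (i : Option (Fin n)) :
    (QF_eo i).degree = if i = none then 0 else 1 := by
  cases i with
  | none => 
    rw [if_pos rfl]
    exact (Finsupp.degree_eq_zero_iff _).2 rfl
  | some a =>
    rw [if_neg (by simp)]
    exact Finsupp.degree_single a 1

/-- sums against the exponent vector -/
theorem QF_eo_sum {n : ℕ} {M : Type} [AddCommMonoid M] (i : Option (Fin n)) (v : Fin n → M) :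
    ∑ l, (QF_eo i) l • v l = i.elim 0 v := by
  cases i with
  | none => exact Finset.sum_eq_zero fun l _ => zero_smul ℕ (v l)
  | some a =>
    show ∑ l, (Finsupp.single a 1 : Fin n →₀ ℕ) l • v l = v a
    rw [Finset.sum_eq_single a]
    · rw [Finsupp.single_eq_same, one_smul]
    · intro b _ hb
      rw [Finsupp.single_eq_of_ne hb, zero_smul]
    · intro h
      exact absurd (Finset.mem_univ a) h

/-- the degree of the coefficient -/
theorem QF_wt {ι : Type} [AddCommGroup ι] {n : ℕ} (ω : ι) (α : Fin n → ι)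
    (i j : Option (Fin n)) :
    (2 - (QF_eo i + QF_eo j).degree) • ω + ∑ l, (QF_eo i + QF_eo j) l • α l =
      wt ω α i + wt ω α j := by
  have h1 : ∑ l, (QF_eo i + QF_eo j) l • α l = i.elim 0 α + j.elim 0 α := by
    rw [← QF_eo_sum i α, ← QF_eo_sum j α, ← Finset.sum_add_distrib]
    refine Finset.sum_congr rfl fun l _ => ?_
    rw [Finsupp.add_apply, add_smul]
  rw [h1, map_add, QF_eo_degree, QF_eo_degree]
  cases i with
  | none =>
    cases j with
    | none =>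
      simp only [if_true, wt, Option.elim]
      rw [add_zero, add_zero, Nat.sub_zero, two_smul, add_zero]
    | some b =>
      simp only [wt, Option.elim]
      simp
  | some a =>
    cases j with
    | none =>
      simp only [wt, Option.elim]
      simp [add_comm]
    | some b =>
      simp only [wt, Option.elim]
      simp

/-- the exponents of the coefficients -/
theorem QF_exp {n ρ : ℕ} (w : Fin ρ → ℤ) (z : Option (Fin n) → Fin ρ → ℤ) (hz : z none = 0)
    (i j : Option (Fin n)) (k : Fin ρ) :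
    (w - z i - z j) k = w k - ∑ l, ((QF_eo i + QF_eo j) l : ℤ) * z (some l) k := by
  have h0 : ∀ i : Option (Fin n), ∑ l, ((QF_eo i) l : ℤ) * z (some l) k = z i k := by
    intro i
    have h := QF_eo_sum i (fun l => z (some l) k)
    have h2 : ∑ l, ((QF_eo i) l : ℤ) * z (some l) k = ∑ l, (QF_eo i) l • z (some l) k := by
      refine Finset.sum_congr rfl fun l _ => ?_
      rw [nsmul_eq_mul]
    rw [h2, h]
    cases i with
    | none => rw [hz]; rfl
    | some a => rfl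
  have h1 : ∑ l, ((QF_eo i + QF_eo j) l : ℤ) * z (some l) k = z i k + z j k := by
    rw [← h0 i, ← h0 j, ← Finset.sum_add_distrib]
    refine Finset.sum_congr rfl fun l _ => ?_
    rw [Finsupp.add_apply]
    push_cast
    ring
  rw [h1, Pi.sub_apply, Pi.sub_apply]
  ring

/-- the form of the coefficients -/
theorem QF_coeff {ι : Type} [AddCommGroup ι] {A : Type} [CommRing A] (𝒜 : ι → AddSubgroup A)
    {K : Type} [Field K] (π : A →+* K) {n ρ : ℕ} (m : Fin ρ → ι) (u : Fin ρ → K)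
    (B0 : Subalgebra ℤ K)
    (hform : ∀ (j : ι), ∀ a ∈ 𝒜 j, π a = 0 ∨ ∃ z : Fin ρ → ℤ, ∑ k, z k • m k = j ∧
        ∃ β ∈ B0, π a = β * ∏ k, u k ^ z k)
    (f : MvPolynomial (Fin n) A) (γ ω : ι) (α : Fin n → ι) (S T : Finset (Fin n))
    (hf : f.totalDegree ≤ 2) (hH : Hom2 𝒜 f γ ω α)
    (hS : Iso2 (RingHom.ker π) f S) (hT : Iso2 (RingHom.ker π) f T)
    (w : Fin ρ → ℤ) (z : Option (Fin n) → Fin ρ → ℤ) (hz : z none = 0)
    (hzc : ∀ i j : Option (Fin n), ¬ ((∃ a ∈ S, i = some a) ∧ ∃ a ∈ S, j = some a) →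
        ¬ ((∃ a ∈ T, i = some a) ∧ ∃ a ∈ T, j = some a) → ∀ ζ : Fin ρ → ℤ,
        ∑ k, ζ k • m k = γ - wt ω α i - wt ω α j → ζ = w - z i - z j) (d : Fin n →₀ ℕ) :
    ∃ β ∈ B0, π (f.coeff d) = β * ∏ k, u k ^ (w k - ∑ l, (d l : ℤ) * z (some l) k) ∧
      (f.coeff d = 0 → β = 0) := by
  by_cases h0 : π (f.coeff d) = 0
  · refine ⟨0, zero_mem _, ?_, fun _ => rfl⟩
    rw [h0, zero_mul]
  have hd0 : f.coeff d ≠ 0 := by
    intro h
    rw [h, map_zero] at h0
    exact h0 rfl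
  have hdeg : d.degree ≤ 2 := by
    have h1 := MvPolynomial.le_totalDegree (MvPolynomial.mem_support_iff.2 hd0)
    exact le_trans h1 hf
  obtain ⟨i, j, rfl⟩ := QF_two d hdeg
  have hh := hH (QF_eo i + QF_eo j)
  rw [sub_sub, QF_wt, ← sub_sub] at hh
  have hiso : ∀ U : Finset (Fin n), Iso2 (RingHom.ker π) f U →
      ¬ ((∃ a ∈ U, i = some a) ∧ ∃ a ∈ U, j = some a) := by
    rintro U hU ⟨⟨a, ha, rfl⟩, b, hb, rfl⟩
    exact h0 ((RingHom.mem_ker).1 (hU a ha b hb))
  rcases hform _ _ hh with h | ⟨ζ, hζ, β, hβ, hb⟩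
  · exact absurd h h0
  have e := hzc i j (hiso S hS) (hiso T hT) ζ hζ
  refine ⟨β, hβ, ?_, fun h => absurd h hd0⟩
  rw [hb, e]
  congr 1
  refine Finset.prod_congr rfl fun k _ => ?_
  rw [QF_exp w z hz i j k]

/-- the polynomial with given coefficients -/
theorem QF_poly {A : Type} [CommRing A] {n : ℕ} {R : Type} [CommRing R]
    (f : MvPolynomial (Fin n) A) (β : (Fin n →₀ ℕ) → R) (h : ∀ d, f.coeff d = 0 → β d = 0) :
    ∃ g : MvPolynomial (Fin n) R, (∀ d, g.coeff d = β d) ∧ g.totalDegree ≤ f.totalDegree := by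
  classical
  have hc : ∀ d, (∑ e ∈ f.support, monomial e (β e) : MvPolynomial (Fin n) R).coeff d = β d := by
    intro d
    rw [MvPolynomial.coeff_sum]
    simp only [MvPolynomial.coeff_monomial]
    rw [Finset.sum_ite_eq' f.support d β]
    split_ifs with h1
    · rfl
    · rw [MvPolynomial.notMem_support_iff] at h1
      exact (h d h1).symm
  refine ⟨∑ e ∈ f.support, monomial e (β e), hc, ?_⟩
  refine Finset.sup_le fun d hd => ?_
  rw [MvPolynomial.mem_support_iff, hc] at hd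
  apply MvPolynomial.le_totalDegree
  rw [MvPolynomial.mem_support_iff]
  exact fun h1 => hd (h d h1)

/-- units of `V` -/
theorem QF_unit {K : Type} [Field K] {ρ : ℕ} (V : Subring K) (u : Fin ρ → K) (h0 : ∀ i, u i ≠ 0)
    (h1 : ∀ i, u i ∈ V) (h2 : ∀ i, (u i)⁻¹ ∈ V) :
    ∃ t : (Fin ρ → ℤ) → Vˣ, ∀ a, (((t a : Vˣ) : V) : K) = ∏ k, u k ^ a k := by
  let uV : Fin ρ → Vˣ := fun k => ⟨⟨u k, h1 k⟩, ⟨(u k)⁻¹, h2 k⟩,
    Subtype.ext (mul_inv_cancel₀ (h0 k)), Subtype.ext (inv_mul_cancel₀ (h0 k))⟩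
  let φ : Vˣ →* Kˣ := Units.map (V.subtype : V →* K)
  have hφ : ∀ x : Vˣ, ((x : V) : K) = ((φ x : Kˣ) : K) := fun x => rfl
  refine ⟨fun a => ∏ k, uV k ^ a k, fun a => ?_⟩
  rw [hφ, map_prod, Units.coe_prod]
  refine Finset.prod_congr rfl fun k _ => ?_
  rw [map_zpow, Units.val_zpow_eq_zpow_val]
  rfl

theorem QF_cast {K : Type} [Field K] (V : Subring K) {n : ℕ} (x : Fin n → V) (y : Fin n → K)
    (h : ∀ i, ((x i : V) : K) = y i) (d : Fin n →₀ ℕ) :
    ((∏ i, x i ^ d i : V) : K) = ∏ i, y i ^ d i := by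
  have h1 : ((∏ i, x i ^ d i : V) : K) = V.subtype (∏ i, x i ^ d i) := rfl
  rw [h1, map_prod]
  refine Finset.prod_congr rfl fun i _ => ?_
  rw [map_pow, ← h i]
  rfl

theorem QF_zpow {K : Type} [Field K] (x : K) (hx : x ≠ 0) {κ : Type} (s : Finset κ) (g : κ → ℤ) :
    ∏ i ∈ s, x ^ g i = x ^ (∑ i ∈ s, g i) := by
  classical
  induction s using Finset.induction_on with
  | empty => rw [Finset.prod_empty, Finset.sum_empty, zpow_zero]
  | insert a s ha ih => rw [Finset.prod_insert ha, Finset.sum_insert ha, ih, zpow_add₀ hx]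

theorem thm_QF (h1 : St_QS) (h2 : St_QV) (h3 : St_QK) (h4 : St_QG) (h5 : St_QC) : St_QF := by
  intro ι _ _ _ A _ _ 𝒜 _ K _ π hker hKr n f γ ω α S T hf hH hST hS hT
  obtain ⟨ρ, m, u, B0, hfg, hlin, hB0K, hfrac, hform, hlau⟩ := h1 ι A 𝒜 K π hker
  obtain ⟨w, z, hz, hzc⟩ := h5 ι ρ n m hlin γ ω α S T hST
  choose β hβ hβ1 hβ2 using QF_coeff 𝒜 π m u B0 hform f γ ω α S T hf hH hS hT w z hz hzc
  obtain ⟨f0, hf0, hf0d⟩ := QF_poly f (fun d => (⟨β d, hβ d⟩ : B0.toSubring))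
    (fun d hd => Subtype.ext (hβ2 d hd))
  obtain ⟨s0, hs0, hs00, hFin⟩ := h4 K (K0 𝒜 π) B0 hfg hB0K hfrac hKr n f0 (hf0d.trans hf)
  obtain ⟨s, hsh, hs, hL⟩ := hlau s0 hs0 hs00
  haveI : IsNoetherianRing (aw B0.toSubring s0 hs0) := by
    haveI : IsNoetherianRing B0 := isNoetherianRing_of_fg hfg
    let φ : B0 →+* K := B0.toSubring.subtype
    have h1 : ∀ r, φ r ∈ aw B0.toSubring s0 hs0 := fun r => le_aw _ r.2
    letI := (φ.codRestrict (aw B0.toSubring s0 hs0) h1).toAlgebra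
    haveI : IsLocalization.Away (⟨s0, hs0⟩ : B0) (aw B0.toSubring s0 hs0) := by
      apply isLocAway φ Subtype.val_injective (⟨s0, hs0⟩ : B0) hs00 _ h1
      · exact inv_mem_aw _ hs00
      · rintro v ⟨n, hn⟩
        exact ⟨n, ⟨_, hn⟩, rfl⟩
    exact IsLocalization.isNoetherianRing (Submonoid.powers (⟨s0, hs0⟩ : B0))
      (aw B0.toSubring s0 hs0) inferInstance
  refine ⟨s, hsh, hs, ?_⟩
  have hV := h2 K ρ (aw B0.toSubring s0 hs0) (aw π.range (π s) ⟨s, rfl⟩) u hL n _ hFin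
  obtain ⟨t, ht⟩ := QF_unit (aw π.range (π s) ⟨s, rfl⟩) u hL.ne hL.mem hL.inv
  refine Nonempty.elim (h3 (aw π.range (π s) ⟨s, rfl⟩) n (fun i => t (z (some i))) (t w)
    (MvPolynomial.map (awHom π s) f)
    (MvPolynomial.map (Subring.inclusion hL.le)
      (MvPolynomial.map (Subring.inclusion (le_aw hs0)) f0)) ?_)
      (fun e => FinGn.of_equiv e.symm hV)
  intro d
  apply Subtype.ext
  rw [MvPolynomial.coeff_map, MvPolynomial.coeff_map, MvPolynomial.coeff_map, hf0]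
  have hc1 := QF_cast (aw π.range (π s) ⟨s, rfl⟩) (fun i => ((t (z (some i)) :
    (aw π.range (π s) ⟨s, rfl⟩)ˣ) : aw π.range (π s) ⟨s, rfl⟩))
    (fun i => ∏ k, u k ^ z (some i) k) (fun i => ht _) d
  have goal : π (f.coeff d) * (∏ i, (∏ k, u k ^ z (some i) k) ^ d i) = (∏ k, u k ^ w k) * β d := ?_
  · rw [← hc1, ← ht w] at goal
    exact goal
  rw [hβ1 d]
  have hne : ∀ k, u k ≠ 0 := hL.ne
  have e1 : ∏ i, (∏ k, u k ^ z (some i) k) ^ d i =
      ∏ k, u k ^ (∑ i, (d i : ℤ) * z (some i) k) := by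
    have e2 : ∀ i, (∏ k, u k ^ z (some i) k) ^ d i = ∏ k, u k ^ ((d i : ℤ) * z (some i) k) := by
      intro i
      rw [← Finset.prod_pow]
      refine Finset.prod_congr rfl fun k _ => ?_
      rw [mul_comm, zpow_mul, zpow_natCast]
    rw [Finset.prod_congr rfl fun i _ => e2 i, Finset.prod_comm]
    refine Finset.prod_congr rfl fun k _ => ?_
    exact QF_zpow (u k) (hne k) _ _
  rw [e1, mul_assoc, ← Finset.prod_mul_distrib, mul_comm]
  congr 1
  refine Finset.prod_congr rfl fun k _ => ?_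
  rw [← zpow_add₀ (hne k), sub_add_cancel]

end Pool.Agent.TQF
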