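import Pool.Agent.TQF.StQ

/-!
# TQF, module QS: the structure of the generic stratum of a graded prime

The proof is that of `exists_stratum` in `Pool/Agent/Helper67/Bass/Graded.lean` (helper67).
-/

set_option autoImplicit false
set_option linter.style.haveILetI false

namespace Pool.Agent.TQF

open Function MvPolynomial Pool.Agent.Helper11 Pool.Agent.Helper67.Bass

theorem thm_QS : St_QS := by
  intro ι _ _ _ A _ _ 𝒜 _ K _ π hker
  classical
  obtain ⟨n, g', d', hg', hcl⟩ := exists_homogeneous_generators 𝒜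
  let J := {i : Fin n // π (g' i) ≠ 0}
  let g : J → A := fun j => g' j
  let D : J → ι := fun j => d' j
  have hg : ∀ j, g j ∈ 𝒜 (D j) := fun j => hg' j
  have hg0 : ∀ j, π (g j) ≠ 0 := fun j => j.2
  let M : Submodule ℤ ι := Submodule.span ℤ (Set.range D)
  haveI : Module.Finite ℤ M := Module.Finite.span_of_finite ℤ (Set.finite_range D)
  haveI : Module.Free ℤ M := inferInstance
  let bas := Module.finBasis ℤ M
  set ρ := Module.finrank ℤ M with hρ
  let m : Fin ρ → ι := fun i => (bas i : ι)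
  have hlin : LinearIndependent ℤ m :=
    bas.linearIndependent.map' M.subtype (Submodule.ker_subtype M)
  have hc : ∀ i, ∃ c : J → ℤ, ∑ j, c j • D j = m i := by
    intro i
    have : m i ∈ Submodule.span ℤ (Set.range D) := (bas i).2
    exact (Submodule.mem_span_range_iff_exists_fun ℤ).1 this
  choose c hm using hc
  let e : J → Fin ρ → ℤ := fun j i => bas.repr ⟨D j, Submodule.subset_span ⟨j, rfl⟩⟩ i
  have he : ∀ j, ∑ i, e j i • m i = D j := by
    intro j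
    have := congrArg (Subtype.val) (bas.sum_repr ⟨D j, Submodule.subset_span ⟨j, rfl⟩⟩)
    rw [Submodule.coe_sum] at this
    exact this
  have hu0 := uu_ne (c := c) π hg0
  have hb0 := bb_ne (c := c) (e := e) π hg0
  -- the degree zero algebra
  let S : Set K := Set.range (bb π g c e) ∪ Set.range (fun j => (bb π g c e j)⁻¹)
  have hSfin : S.Finite := (Set.finite_range _).union (Set.finite_range _)
  let B0 : Subalgebra ℤ K := Algebra.adjoin ℤ S
  have hB0fg : B0.FG := by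
    rw [Subalgebra.fg_def]
    exact ⟨S, hSfin, rfl⟩
  have hB0K0 : ∀ b ∈ B0, b ∈ K0 𝒜 π := by
    have h1 : B0 ≤ subalgebraOfSubring (K0 𝒜 π).toSubring := by
      rw [Algebra.adjoin_le_iff]
      rintro _ (⟨j, rfl⟩ | ⟨j, rfl⟩)
      · exact bb_HF 𝒜 π hg hg0 hm he j
      · exact (K0 𝒜 π).inv_mem (bb_HF 𝒜 π hg hg0 hm he j)
    exact fun b hb => h1 hb
  -- the fraction field of `B0` is the field of homogeneous fractions of degree zero
  have hgen : ∀ i, π (g' i) = 0 ∨ ∃ z : Fin ρ → ℤ, ∑ k, z k • m k = d' i ∧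
      ∃ β ∈ B0.toSubring, π (g' i) = β * ∏ k, (uu π g c k) ^ (z k) := by
    intro i
    by_cases h : π (g' i) = 0
    · exact Or.inl h
    · right
      refine ⟨e ⟨i, h⟩, he ⟨i, h⟩, bb π g c e ⟨i, h⟩, ?_, g_eq (c := c) (e := e) π hg0 ⟨i, h⟩⟩
      exact Algebra.subset_adjoin (Or.inl ⟨⟨i, h⟩, rfl⟩)
  have hfrac : ∀ y ∈ K0 𝒜 π, ∃ a ∈ B0, ∃ b ∈ B0, b ≠ 0 ∧ y * b = a := by
    rintro y ⟨j, a, ha, b, hb, hb0, hab⟩
    rw [zero_add] at ha
    have ha' := homogeneous_form 𝒜 π (g := g) (c := c) hlin B0.toSubring g' d' hg' hcl hgen hg0 ha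
    have hb' := homogeneous_form 𝒜 π (g := g) (c := c) hlin B0.toSubring g' d' hg' hcl hgen hg0 hb
    rcases ha' with ha' | ⟨z, hz, α, hα, ha'⟩
    · refine ⟨0, zero_mem _, 1, one_mem _, one_ne_zero, ?_⟩
      rw [ha'] at hab
      rw [(mul_eq_zero.1 hab).resolve_right hb0, zero_mul]
    rcases hb' with hb' | ⟨z', hz', β, hβ, hb'⟩
    · exact absurd hb' hb0
    have h4 : ∑ i, (z i - z' i) • m i = 0 := by
      simp only [sub_smul, Finset.sum_sub_distrib, hz, hz', sub_self]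
    have h5 := Fintype.linearIndependent_iff.1 hlin _ h4
    have h6 : z' = z := by
      ext i
      have := h5 i
      omega
    subst h6
    have hU : ∏ k, (uu π g c k) ^ (z' k) ≠ 0 :=
      Finset.prod_ne_zero_iff.2 (fun k _ => zpow_ne_zero _ (hu0 k))
    refine ⟨α, hα, β, hβ, ?_, ?_⟩
    · intro h; rw [h, zero_mul] at hb'; exact hb0 hb'
    · apply mul_right_cancel₀ hU
      rw [← ha', ← hab, hb']; ring
  refine ⟨ρ, m, uu π g c, B0, hB0fg, hlin, hB0K0, hfrac, ?_, ?_⟩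
  · intro j a ha
    rcases homogeneous_form 𝒜 π (g := g) (c := c) hlin B0.toSubring g' d' hg' hcl hgen hg0 ha with
      h | ⟨z, hz, β, hβ, h⟩
    · exact Or.inl h
    · exact Or.inr ⟨z, hz, β, hβ, h⟩
  intro s0 hs0 hs00
  set B1 := aw B0.toSubring s0 hs0 with hB1
  have hB1K0 : ∀ b ∈ B1, HF 𝒜 π 0 b := by
    have : B1 ≤ (K0 𝒜 π).toSubring :=
      aw_le _ hs00 (fun b hb => hB0K0 b hb) ((K0 𝒜 π).inv_mem (hB0K0 _ hs0))
    exact fun b hb => this hb
  -- the ring `R[1/x]`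
  let x : A := ∏ j, g j
  have hx : π x = ∏ j, π (g j) := map_prod _ _ _
  have hx0 : π x ≠ 0 := by rw [hx]; exact Finset.prod_ne_zero_iff.2 (fun j _ => hg0 j)
  have hxh : x ∈ 𝒜 (∑ j, D j) := SetLike.prod_mem_graded _ _ _ (fun j _ => hg j)
  set Rx := aw π.range (π x) ⟨x, rfl⟩ with hRx
  have hπRx : ∀ a, π a ∈ Rx := fun a => le_aw _ ⟨a, rfl⟩
  have hyinv : ∀ j, (π (g j))⁻¹ ∈ Rx := by
    intro j
    have h1 : (π (g j))⁻¹ = π (∏ k ∈ Finset.univ.erase j, g k) * (π x)⁻¹ := by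
      have h2 : π x = π (g j) * π (∏ k ∈ Finset.univ.erase j, g k) := by
        rw [← map_mul, Finset.mul_prod_erase _ _ (Finset.mem_univ j)]
      have h3 : π (∏ k ∈ Finset.univ.erase j, g k) ≠ 0 := by
        intro h4; rw [h4, mul_zero] at h2; exact hx0 h2
      rw [h2]; field_simp
    rw [h1]
    exact mul_mem (hπRx _) (inv_mem_aw _ hx0)
  have zpow_mem : ∀ (V : Subring K) (z : K) (k : ℤ), z ∈ V → z⁻¹ ∈ V → z ^ k ∈ V := by
    intro V z k h1 h2
    obtain ⟨k, rfl | rfl⟩ := k.eq_nat_or_neg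
    · rw [zpow_natCast]; exact pow_mem h1 k
    · rw [zpow_neg, zpow_natCast, ← inv_pow]; exact pow_mem h2 k
  have huRx : ∀ i, uu π g c i ∈ Rx := fun i =>
    prod_mem (fun j _ => zpow_mem _ _ _ (hπRx _) (hyinv j))
  have huinvRx : ∀ i, (uu π g c i)⁻¹ ∈ Rx := by
    intro i
    unfold uu
    rw [← Finset.prod_inv_distrib]
    refine prod_mem (fun j _ => ?_)
    rw [← zpow_neg]
    exact zpow_mem _ _ _ (hπRx _) (hyinv j)
  have hbRx : ∀ j, bb π g c e j ∈ Rx := fun j =>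
    mul_mem (hπRx _) (prod_mem (fun i _ => zpow_mem _ _ _ (huRx i) (huinvRx i)))
  have hbinvRx : ∀ j, (bb π g c e j)⁻¹ ∈ Rx := by
    intro j
    unfold bb
    rw [mul_inv, ← Finset.prod_inv_distrib]
    refine mul_mem (hyinv j) (prod_mem (fun i _ => ?_))
    rw [← zpow_neg]
    exact zpow_mem _ _ _ (huRx i) (huinvRx i)
  have hB0Rx : ∀ b ∈ B0, b ∈ Rx := by
    have h1 : B0 ≤ subalgebraOfSubring Rx := by
      rw [Algebra.adjoin_le_iff]
      rintro _ (⟨j, rfl⟩ | ⟨j, rfl⟩)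
      · exact hbRx j
      · exact hbinvRx j
    exact fun b hb => h1 hb
  -- the homogeneous denominator
  obtain ⟨κ, a', ha'⟩ := hB0Rx s0 hs0
  have hHF : HF 𝒜 π (0 + κ • ∑ j, D j) (π a') := by
    rw [ha']
    exact HF.mul (hB0K0 _ hs0) ((HF.of_mem hxh).pow κ)
  obtain ⟨a, ha, haa⟩ := HF.lift hker hHF
  have has : π a = s0 * π x ^ κ := by rw [haa, ha']
  have ha0 : π a ≠ 0 := by rw [has]; exact mul_ne_zero hs00 (pow_ne_zero _ hx0)
  refine ⟨x * a, ⟨_, SetLike.GradedMul.mul_mem hxh ha⟩, ?_, ?_⟩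
  · rw [map_mul]; exact mul_ne_zero hx0 ha0
  have hs' : π (x * a) ≠ 0 := by rw [map_mul]; exact mul_ne_zero hx0 ha0
  set V := aw π.range (π (x * a)) ⟨x * a, rfl⟩ with hV
  have hπV : ∀ a, π a ∈ V := fun a => le_aw _ ⟨a, rfl⟩
  have hsinv : (π (x * a))⁻¹ ∈ V := inv_mem_aw _ hs'
  have hxinv : (π x)⁻¹ ∈ V := by
    have : (π x)⁻¹ = π a * (π (x * a))⁻¹ := by rw [map_mul]; field_simp
    rw [this]; exact mul_mem (hπV a) hsinv
  have hainv : (π a)⁻¹ ∈ V := by
    have : (π a)⁻¹ = π x * (π (x * a))⁻¹ := by rw [map_mul]; field_simp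
    rw [this]; exact mul_mem (hπV x) hsinv
  have hRxV : Rx ≤ V := aw_le _ hx0 (le_aw _) hxinv
  have hs0inv : s0⁻¹ ∈ V := by
    have : s0⁻¹ = π x ^ κ * (π a)⁻¹ := by
      rw [has]
      have := pow_ne_zero κ hx0
      field_simp
    rw [this]; exact mul_mem (pow_mem (hπV x) κ) hainv
  have hB1V : B1 ≤ V := aw_le _ hs00 (fun b hb => hRxV (hB0Rx b hb)) hs0inv
  have hind := laurent_injective 𝒜 π hker hg hg0 hm hlin B1 hB1K0
  refine ⟨hB1V, fun i => hRxV (huRx i), fun i => hRxV (huinvRx i), hu0, hind, ?_⟩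
  -- `V ≤ W`
  set ψ : MvPolynomial (Fin ρ) B1 →+* K := MvPolynomial.eval₂Hom B1.subtype (uu π g c) with hψ
  have hUmem : ∏ i, uu π g c i ∈ ψ.range := by
    refine prod_mem (fun i _ => ⟨MvPolynomial.X i, ?_⟩)
    rw [hψ, MvPolynomial.eval₂Hom_X']
  have hU0 : ∏ i, uu π g c i ≠ 0 := Finset.prod_ne_zero_iff.2 (fun i _ => hu0 i)
  set W := aw ψ.range (∏ i, uu π g c i) hUmem with hW
  have hψW : ∀ f, ψ f ∈ W := fun f => le_aw _ ⟨f, rfl⟩
  have huW : ∀ i, uu π g c i ∈ W := by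
    intro i
    have := hψW (MvPolynomial.X i)
    rwa [hψ, MvPolynomial.eval₂Hom_X'] at this
  have huinvW : ∀ i, (uu π g c i)⁻¹ ∈ W := by
    intro i
    have h1 : (uu π g c i)⁻¹ = (∏ k ∈ Finset.univ.erase i, uu π g c k) *
        (∏ k, uu π g c k)⁻¹ := by
      rw [← Finset.mul_prod_erase _ _ (Finset.mem_univ i)]
      have h3 : ∏ k ∈ Finset.univ.erase i, uu π g c k ≠ 0 :=
        Finset.prod_ne_zero_iff.2 (fun k _ => hu0 k)
      have h4 := hu0 i
      field_simp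
    rw [h1]
    exact mul_mem (prod_mem (fun k _ => huW k)) (inv_mem_aw _ hU0)
  have hB1W : B1 ≤ W := by
    intro b hb
    have := hψW (MvPolynomial.C ⟨b, hb⟩)
    rwa [hψ, MvPolynomial.eval₂Hom_C] at this
  have hB0B1 : ∀ b ∈ B0, b ∈ B1 := fun b hb => le_aw _ hb
  have hbW : ∀ j, bb π g c e j ∈ W := fun j =>
    hB1W (hB0B1 _ (Algebra.subset_adjoin (Or.inl ⟨j, rfl⟩)))
  have hbinvW : ∀ j, (bb π g c e j)⁻¹ ∈ W := fun j =>
    hB1W (hB0B1 _ (Algebra.subset_adjoin (Or.inr ⟨j, rfl⟩)))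
  have hyW : ∀ j, π (g j) ∈ W := by
    intro j
    rw [g_eq (c := c) (e := e) π hg0 j]
    exact mul_mem (hbW j) (prod_mem (fun i _ => zpow_mem _ _ _ (huW i) (huinvW i)))
  have hyinvW : ∀ j, (π (g j))⁻¹ ∈ W := by
    intro j
    rw [g_eq (c := c) (e := e) π hg0 j, mul_inv, ← Finset.prod_inv_distrib]
    refine mul_mem (hbinvW j) (prod_mem (fun i _ => ?_))
    rw [← zpow_neg]
    exact zpow_mem _ _ _ (huW i) (huinvW i)
  have hπW : π.range ≤ W := by
    rintro _ ⟨b, rfl⟩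
    have h1 : Subring.closure (Set.range g') ≤ W.comap π := by
      rw [Subring.closure_le]
      rintro _ ⟨i, rfl⟩
      show π (g' i) ∈ W
      by_cases h : π (g' i) = 0
      · rw [h]; exact zero_mem _
      · exact hyW ⟨i, h⟩
    rw [hcl] at h1
    exact h1 (Subring.mem_top b)
  have hxinvW : (π x)⁻¹ ∈ W := by
    rw [hx, ← Finset.prod_inv_distrib]
    exact prod_mem (fun j _ => hyinvW j)
  have hs0invW : s0⁻¹ ∈ W := hB1W (inv_mem_aw _ hs00)
  have hsinvW : (π (x * a))⁻¹ ∈ W := by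
    have : (π (x * a))⁻¹ = (π x)⁻¹ * (s0⁻¹ * (π x)⁻¹ ^ κ) := by
      rw [map_mul, has, mul_inv, mul_inv, inv_pow]
    rw [this]
    exact mul_mem hxinvW (mul_mem hs0invW (pow_mem hxinvW κ))
  have hVW : V ≤ W := aw_le _ hs' hπW hsinvW
  intro v hv
  obtain ⟨n, f, hf⟩ := hVW hv
  exact ⟨n, f, hf.symm⟩

end Pool.Agent.TQF
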