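import Pool.Agent.TQF.StQ

/-!
# TQF, module QC: rescaling exponents
-/

set_option autoImplicit false

namespace Pool.Agent.TQF

open Function MvPolynomial Pool.Agent.Helper11 Pool.Agent.Helper67.Bass

/-- a section with two prescribed values -/
theorem QC_section {ι : Type} [AddCommGroup ι] (Γ : AddSubgroup ι) (ω η : ι)
    (h : ω - η ∈ Γ → ω = η) :
    ∃ r : ι → ι, (∀ x, x - r x ∈ Γ) ∧ (∀ x y, x - y ∈ Γ → r x = r y) ∧ r ω = ω ∧ r η = η := by
  classical
  have h0 : ∀ x y : ι, x - y ∈ Γ ↔ (QuotientAddGroup.mk x : ι ⧸ Γ) = QuotientAddGroup.mk y := by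
    intro x y
    rw [eq_comm, QuotientAddGroup.eq, ← sub_eq_neg_add]
  let r0 : ι → ι := fun x => Quotient.out (QuotientAddGroup.mk x : ι ⧸ Γ)
  have h1 : ∀ x, x - r0 x ∈ Γ := by
    intro x
    rw [h0]
    exact (Quotient.out_eq _).symm
  have h2 : ∀ x y, x - y ∈ Γ → r0 x = r0 y := by
    intro x y hxy
    rw [h0] at hxy
    show Quotient.out (QuotientAddGroup.mk x : ι ⧸ Γ) = Quotient.out (QuotientAddGroup.mk y : ι ⧸ Γ)
    rw [hxy]
  refine ⟨fun x => if x - ω ∈ Γ then ω else if x - η ∈ Γ then η else r0 x, ?_, ?_, ?_, ?_⟩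
  · intro x
    show x - (if x - ω ∈ Γ then ω else if x - η ∈ Γ then η else r0 x) ∈ Γ
    split_ifs with h3 h4
    · exact h3
    · exact h4
    · exact h1 x
  · intro x y hxy
    have h3 : ∀ a, x - a ∈ Γ ↔ y - a ∈ Γ := by
      intro a
      constructor
      · intro h4
        have h5 := Γ.sub_mem h4 hxy
        have h6 : x - a - (x - y) = y - a := by abel
        rwa [h6] at h5
      · intro h4
        have h5 := Γ.add_mem hxy h4
        have h6 : x - y + (y - a) = x - a := by abel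
        rwa [h6] at h5
    show (if x - ω ∈ Γ then ω else if x - η ∈ Γ then η else r0 x) =
      (if y - ω ∈ Γ then ω else if y - η ∈ Γ then η else r0 y)
    simp only [h3, h2 x y hxy]
  · show (if ω - ω ∈ Γ then ω else if ω - η ∈ Γ then η else r0 ω) = ω
    rw [if_pos]
    rw [sub_self]
    exact Γ.zero_mem
  · show (if η - ω ∈ Γ then ω else if η - η ∈ Γ then η else r0 η) = η
    by_cases h3 : η - ω ∈ Γ
    · rw [if_pos h3]
      refine h ?_
      rw [← neg_sub]
      exact Γ.neg_mem h3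
    · rw [if_neg h3, if_pos]
      rw [sub_self]
      exact Γ.zero_mem

theorem thm_QC : St_QC := by
  intro ι _ ρ n m hm γ ω α S T hST
  classical
  let L : (Fin ρ → ℤ) →ₗ[ℤ] ι := Fintype.linearCombination ℤ m
  have hL : ∀ ζ, L ζ = ∑ k, ζ k • m k := fun ζ => Fintype.linearCombination_apply ℤ m ζ
  have hinj : Injective L := by
    exact hm.fintypeLinearCombination_injective
  let Γ : AddSubgroup ι := (L : (Fin ρ → ℤ) →+ ι).range
  have hΓ : ∀ x, x ∈ Γ ↔ ∃ ζ, L ζ = x := fun x => Iff.rfl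
  -- the modified degree
  obtain ⟨γ', hγ, hγ2⟩ : ∃ γ' : ι, γ - γ' ∈ Γ ∧ (γ' - ω - ω ∈ Γ → γ' = ω + ω) := by
    by_cases h1 : γ - (ω + ω) ∈ Γ
    · exact ⟨ω + ω, h1, fun _ => rfl⟩
    · refine ⟨γ, by rw [sub_self]; exact Γ.zero_mem, fun h2 => absurd ?_ h1⟩
      rwa [← sub_sub]
  obtain ⟨r, hr1, hr2, hr3, hr4⟩ := QC_section Γ ω (γ' - ω) (by
    intro h1
    have h2 := hγ2 (by
      have h3 := Γ.neg_mem h1
      rwa [neg_sub] at h3)
    rw [h2]
    abel)
  obtain ⟨w, hw⟩ := (hΓ _).1 hγ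
  let e : Option (Fin n) → ι := fun i => i.elim 0 fun a =>
    if a ∈ S then α a - r (α a) else if a ∈ T then α a - γ' + r (γ' - α a) else 0
  have he : ∀ i, e i ∈ Γ := by
    rintro (_ | a)
    · exact Γ.zero_mem
    · show (if a ∈ S then α a - r (α a) else if a ∈ T then α a - γ' + r (γ' - α a) else 0) ∈ Γ
      split_ifs with h1 h2
      · exact hr1 _
      · have h3 := Γ.neg_mem (hr1 (γ' - α a))
        have h4 : -(γ' - α a - r (γ' - α a)) = α a - γ' + r (γ' - α a) := by abel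
        rwa [h4] at h3
      · exact Γ.zero_mem
  have hz0 : ∀ i, ∃ ζ, L ζ = e i := fun i => (hΓ _).1 (he i)
  choose z hz using hz0
  have hcl : ∀ i, (wt ω α i = ω ∧ e i = wt ω α i - ω) ∨
      ((∃ a ∈ S, i = some a) ∧ e i = wt ω α i - r (wt ω α i)) ∨
      ((∃ a ∈ T, i = some a) ∧ e i = wt ω α i - γ' + r (γ' - wt ω α i)) := by
    rintro (_ | a)
    · exact Or.inl ⟨rfl, (sub_self ω).symm⟩
    · by_cases h1 : a ∈ S
      · exact Or.inr (Or.inl ⟨⟨a, h1, rfl⟩, if_pos h1⟩)
      · by_cases h2 : a ∈ T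
        · exact Or.inr (Or.inr ⟨⟨a, h2, rfl⟩, (if_neg h1).trans (if_pos h2)⟩)
        · have h3 : wt ω α (some a) = ω := hST a h1 h2
          refine Or.inl ⟨h3, ?_⟩
          rw [h3, sub_self]
          exact (if_neg h1).trans (if_neg h2)
  -- the key identity
  have hkey : ∀ i j, γ' - wt ω α i - wt ω α j ∈ Γ →
      ¬ ((∃ a ∈ S, i = some a) ∧ ∃ a ∈ S, j = some a) →
      ¬ ((∃ a ∈ T, i = some a) ∧ ∃ a ∈ T, j = some a) →
      e i + e j = wt ω α i + wt ω α j - γ' := by
    intro i j hij hS hT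
    have hij' : γ' - wt ω α j - wt ω α i ∈ Γ := by
      rw [sub_right_comm]
      exact hij
    rcases hcl i with ⟨h1, h2⟩ | ⟨h1, h2⟩ | ⟨h1, h2⟩ <;>
      rcases hcl j with ⟨h3, h4⟩ | ⟨h3, h4⟩ | ⟨h3, h4⟩
    · rw [h1, h3] at hij
      rw [h2, h4, hγ2 hij]
      abel
    · have h5 : r (wt ω α j) = γ' - ω := by
        rw [← hr4]
        refine (hr2 _ _ ?_).symm
        have h6 := hij
        rw [h1] at h6
        exact h6
      rw [h2, h4, h5]
      abel
    · have h5 : r (γ' - wt ω α j) = ω := by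
        refine (hr2 _ ω ?_).trans hr3
        have h6 := hij'
        rw [h1] at h6
        exact h6
      rw [h2, h4, h5]
      abel
    · have h5 : r (wt ω α i) = γ' - ω := by
        rw [← hr4]
        refine (hr2 _ _ ?_).symm
        have h6 := hij'
        rw [h3] at h6
        exact h6
      rw [h2, h4, h5]
      abel
    · exact absurd ⟨h1, h3⟩ hS
    · have h5 : r (γ' - wt ω α j) = r (wt ω α i) := hr2 _ _ hij'
      rw [h2, h4, h5]
      abel
    · have h5 : r (γ' - wt ω α i) = ω := by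
        refine (hr2 _ ω ?_).trans hr3
        have h6 := hij
        rw [h3] at h6
        exact h6
      rw [h2, h4, h5]
      abel
    · have h5 : r (γ' - wt ω α i) = r (wt ω α j) := hr2 _ _ hij
      rw [h2, h4, h5]
      abel
    · exact absurd ⟨h1, h3⟩ hT
  refine ⟨w, z, ?_, ?_⟩
  · apply hinj
    rw [hz, map_zero]
    rfl
  · intro i j hS hT ζ hζ
    rw [← hL] at hζ
    apply hinj
    have h1 : γ' - wt ω α i - wt ω α j ∈ Γ := by
      have h2 : γ - wt ω α i - wt ω α j ∈ Γ := ⟨ζ, hζ⟩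
      have h3 := Γ.sub_mem h2 hγ
      have h4 : γ - wt ω α i - wt ω α j - (γ - γ') = γ' - wt ω α i - wt ω α j := by abel
      rwa [h4] at h3
    have h2 := hkey i j h1 hS hT
    rw [map_sub, map_sub, hw, hz, hz, hζ, sub_sub (γ - γ'), h2]
    abel

end Pool.Agent.TQF
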