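import Pool.Agent.TQF.StQ

/-!
# TQF: the uniform theorem over graded rings, assembly
-/

set_option autoImplicit false
set_option linter.style.haveILetI false

namespace Pool.Agent.TQF

open Function MvPolynomial Pool.Agent.Helper11 Pool.Agent.Helper67.Bass

/-- the polynomial `∑ x_l f_l` in the variables `y` over `A[x]` -/
noncomputable def cay {A : Type} [CommRing A] {r n : ℕ} (f : Fin r → MvPolynomial (Fin n) A) :
    MvPolynomial (Fin n) (MvPolynomial (Fin r) A) :=
  ∑ l, C (X l) * MvPolynomial.map C (f l)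

theorem coeff_cay {A : Type} [CommRing A] {r n : ℕ} (f : Fin r → MvPolynomial (Fin n) A)
    (d : Fin n →₀ ℕ) : (cay f).coeff d = ∑ l, X l * C ((f l).coeff d) := by
  unfold cay
  rw [coeff_sum]
  refine Finset.sum_congr rfl fun l _ => ?_
  rw [coeff_C_mul, coeff_map]

theorem deg_cay {A : Type} [CommRing A] {r n : ℕ} (f : Fin r → MvPolynomial (Fin n) A)
    (hf : ∀ l, (f l).totalDegree ≤ 2) : (cay f).totalDegree ≤ 2 := by
  rw [MvPolynomial.totalDegree]
  refine Finset.sup_le fun d hd => ?_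
  by_contra hlt
  apply mem_support_iff.1 hd
  rw [coeff_cay]
  refine Finset.sum_eq_zero fun l _ => ?_
  have : (f l).coeff d = 0 := by
    by_contra h
    exact hlt ((le_totalDegree (mem_support_iff.2 h)).trans (hf l))
  rw [this, C_0, mul_zero]

theorem comm_cay {A : Type} [CommRing A] {r n : ℕ} (f : Fin r → MvPolynomial (Fin n) A) :
    commAlgEquiv A (Fin n) (Fin r) (cay f) = bigF f := by
  unfold cay bigF
  rw [map_sum]
  refine Finset.sum_congr rfl fun l _ => ?_
  rw [map_mul, commAlgEquiv_C_X]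
  congr 1
  induction f l using MvPolynomial.induction_on with
  | C a => rw [map_C, commAlgEquiv_C, map_C]
  | add p q hp hq => rw [map_add, map_add, hp, hq, C_add]
  | mul_X p i hp => rw [map_mul, map_mul, hp, map_X, commAlgEquiv_X, C_mul]

/-- the uniform theorem -/
theorem fin_QT (hQH : St_QH) (hTb : St_Tb) {ι : Type} [AddCommGroup ι] [LinearOrder ι]
    [IsOrderedAddMonoid ι] {A : Type} [CommRing A] [Algebra.FiniteType ℤ A] {r n : ℕ}
    (ℬ : ι → AddSubgroup (MvPolynomial (Fin r) A)) [GradedRing ℬ]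
    (f : Fin r → MvPolynomial (Fin n) A) (hf : ∀ l, (f l).totalDegree ≤ 2) (γ ω : ι)
    (α : Fin n → ι)
    (hhom : ∀ d : Fin n →₀ ℕ, ∑ l, X l * C ((f l).coeff d) ∈
      ℬ (γ - (2 - d.degree) • ω - ∑ i, d i • α i))
    (h : ∀ (P : Ideal (MvPolynomial (Fin r) A)) [P.IsPrime], P.IsHomogeneous ℬ →
      ∃ S T : Finset (Fin n),
        (∀ i ∈ S, ∀ j ∈ S,
          ∑ l, X l * C ((f l).coeff (Finsupp.single i 1 + Finsupp.single j 1)) ∈ P) ∧
        (∀ i ∈ T, ∀ j ∈ T,
          ∑ l, X l * C ((f l).coeff (Finsupp.single i 1 + Finsupp.single j 1)) ∈ P) ∧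
        (∀ i, i ∉ S → i ∉ T → α i = ω) ∧
        ((∃ (Q : Ideal (MvPolynomial (Fin r) A)) (_ : Q.IsPrime), Q ≤ P ∧
            KroneckerLeOne (K0 ℬ (toFrac Q))) ∨
          (S ∪ T = Finset.univ ∧ RationalOverKroneckerLeOne (K0 ℬ (toFrac P))))) :
    AddGroup.FG (G0 (MvPolynomial (Fin n) A ⧸ Ideal.span (Set.range f))) := by
  haveI : IsNoetherianRing A := Algebra.FiniteType.isNoetherianRing ℤ A
  have hft : @Algebra.FiniteType ℤ (MvPolynomial (Fin r) A) _ _ (Ring.toIntAlgebra _) := by
    have h0 : Algebra.FiniteType ℤ (MvPolynomial (Fin r) A) :=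
      Algebra.FiniteType.trans (S := A) (inferInstance : Algebra.FiniteType ℤ A)
        (inferInstance : Algebra.FiniteType A (MvPolynomial (Fin r) A))
    have key : ∀ (i j : Algebra ℤ (MvPolynomial (Fin r) A)),
        @Algebra.FiniteType ℤ (MvPolynomial (Fin r) A) _ _ i →
        @Algebra.FiniteType ℤ (MvPolynomial (Fin r) A) _ _ j := by
      intro i j h
      have e : i = j := Subsingleton.elim _ _
      rw [← e]
      exact h
    exact key _ _ h0
  apply hTb
  have h1 : FinGn (MvPolynomial (Fin n) (MvPolynomial (Fin r) A) ⧸ Ideal.span {cay f}) := by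
    refine @hQH ι _ _ _ (MvPolynomial (Fin r) A) _ hft ℬ _ n (cay f) γ ω α (deg_cay f hf) ?_ ?_
    · intro d
      rw [coeff_cay]
      exact hhom d
    · intro P _ hP
      obtain ⟨S, T, h1, h2, h3, h4⟩ := h P hP
      refine ⟨S, T, fun i hi j hj => ?_, fun i hi j hj => ?_, h3, h4⟩
      · rw [coeff_cay]; exact h1 i hi j hj
      · rw [coeff_cay]; exact h2 i hi j hj
  refine (FinGn.of_equiv (Ideal.quotientEquiv (Ideal.span {cay f}) (Ideal.span {bigF f})
    (commAlgEquiv A (Fin n) (Fin r)).toRingEquiv ?_) h1).fg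
  rw [Ideal.map_span, Set.image_singleton]
  congr 2
  exact (comm_cay f).symm

end Pool.Agent.TQF
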