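import Pool.Agent.TQF.StQ

/-!
# TQF, QB: hypersurfaces which are affine-bilinear modulo an ideal
-/

set_option autoImplicit false

namespace Pool.Agent.TQF

open Function MvPolynomial Pool.Agent.Helper11 Pool.Agent.Helper67.Bass

section QB

variable {A : Type} [CommRing A] {n : ℕ}

/-- the exponent `e_k + e_j` -/
private noncomputable def QB_D (S : Finset (Fin n)) (k : Option {i : Fin n // i ∈ S})
    (j : Option {i : Fin n // ¬ i ∈ S}) : Fin n →₀ ℕ :=
  k.elim 0 (fun i => Finsupp.single i.1 1) + j.elim 0 (fun i => Finsupp.single i.1 1)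

private theorem QB_D_mem (S : Finset (Fin n)) (k : Option {i : Fin n // i ∈ S})
    (j : Option {i : Fin n // ¬ i ∈ S}) (i : {i : Fin n // i ∈ S}) :
    QB_D S k j i.1 = if k = some i then 1 else 0 := by
  classical
  unfold QB_D
  have h2 : (j.elim (0 : Fin n →₀ ℕ) (fun i => Finsupp.single i.1 1)) i.1 = 0 := by
    cases j with
    | none => rfl
    | some j =>
      rw [Option.elim_some, Finsupp.single_apply, if_neg]
      intro h
      exact j.2 (h ▸ i.2)
  rw [Finsupp.add_apply, h2, add_zero]
  cases k with
  | none => rfl
  | some k =>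
    rw [Option.elim_some, Finsupp.single_apply]
    simp only [Option.some.injEq, Subtype.ext_iff]

private theorem QB_D_notMem (S : Finset (Fin n)) (k : Option {i : Fin n // i ∈ S})
    (j : Option {i : Fin n // ¬ i ∈ S}) (i : {i : Fin n // ¬ i ∈ S}) :
    QB_D S k j i.1 = if j = some i then 1 else 0 := by
  classical
  unfold QB_D
  have h2 : (k.elim (0 : Fin n →₀ ℕ) (fun i => Finsupp.single i.1 1)) i.1 = 0 := by
    cases k with
    | none => rfl
    | some k =>
      rw [Option.elim_some, Finsupp.single_apply, if_neg]
      intro h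
      exact i.2 (h ▸ k.2)
  rw [Finsupp.add_apply, h2, zero_add]
  cases j with
  | none => rfl
  | some j =>
    rw [Option.elim_some, Finsupp.single_apply]
    simp only [Option.some.injEq, Subtype.ext_iff]

private theorem QB_D_inj (S : Finset (Fin n)) :
    Injective fun p : Option {i : Fin n // i ∈ S} × Option {i : Fin n // ¬ i ∈ S} =>
      QB_D S p.1 p.2 := by
  classical
  rintro ⟨k, j⟩ ⟨k', j'⟩ h
  have h : QB_D S k j = QB_D S k' j' := h
  have h1 : k = k' := by
    apply Option.ext
    intro a
    have h2 := DFunLike.congr_fun h a.1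
    rw [QB_D_mem, QB_D_mem] at h2
    constructor
    · intro h3
      rw [if_pos h3] at h2
      by_contra h4
      rw [if_neg h4] at h2
      omega
    · intro h3
      rw [if_pos h3] at h2
      by_contra h4
      rw [if_neg h4] at h2
      omega
  have h1' : j = j' := by
    apply Option.ext
    intro a
    have h2 := DFunLike.congr_fun h a.1
    rw [QB_D_notMem, QB_D_notMem] at h2
    constructor
    · intro h3
      rw [if_pos h3] at h2
      by_contra h4
      rw [if_neg h4] at h2
      omega
    · intro h3
      rw [if_pos h3] at h2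
      by_contra h4
      rw [if_neg h4] at h2
      omega
  rw [h1, h1']

private theorem QB_degree_split (d : Fin n →₀ ℕ) (h : d ≠ 0) :
    ∃ i, ∃ d' : Fin n →₀ ℕ, d = Finsupp.single i 1 + d' ∧ d.degree = 1 + d'.degree := by
  obtain ⟨i, hi⟩ := Finsupp.ne_iff.1 h
  have hi : d i ≠ 0 := hi
  have h1 : d = Finsupp.single i 1 + (d - Finsupp.single i 1) := by
    rw [add_comm, tsub_add_cancel_of_le]
    rw [Finsupp.single_le_iff]
    omega
  refine ⟨i, d - Finsupp.single i 1, h1, ?_⟩
  conv_lhs => rw [h1]
  rw [map_add, Finsupp.degree_single]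

/-- the part of `f` with exponents `QB_D` -/
private noncomputable def QB_f (S : Finset (Fin n)) (f : MvPolynomial (Fin n) A) :
    MvPolynomial (Fin n) A :=
  ∑ p : Option {i : Fin n // i ∈ S} × Option {i : Fin n // ¬ i ∈ S},
    monomial (QB_D S p.1 p.2) (f.coeff (QB_D S p.1 p.2))

private theorem QB_sub_mem (S T : Finset (Fin n)) (f : MvPolynomial (Fin n) A) (I : Ideal A)
    (hf : f.totalDegree ≤ 2) (hST : S ∪ T = Finset.univ) (hS : Iso2 I f S) (hT : Iso2 I f T) :
    f - QB_f S f ∈ I.map C := by
  classical
  rw [mem_map_C_iff]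
  intro d
  rw [coeff_sub]
  by_cases hd : ∃ p : Option {i : Fin n // i ∈ S} × Option {i : Fin n // ¬ i ∈ S},
      QB_D S p.1 p.2 = d
  · obtain ⟨p, hp⟩ := hd
    have h1 : (QB_f S f).coeff d = f.coeff d := by
      unfold QB_f
      rw [coeff_sum, Finset.sum_eq_single p]
      · rw [hp, coeff_monomial, if_pos rfl]
      · intro q _ hq
        rw [coeff_monomial, if_neg]
        intro h2
        exact hq (QB_D_inj S (h2.trans hp.symm))
      · intro h2
        exact absurd (Finset.mem_univ p) h2
    rw [h1, sub_self]
    exact zero_mem _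
  · have h1 : (QB_f S f).coeff d = 0 := by
      unfold QB_f
      rw [coeff_sum]
      apply Finset.sum_eq_zero
      intro q _
      rw [coeff_monomial, if_neg]
      intro h2
      exact hd ⟨q, h2⟩
    rw [h1, sub_zero]
    by_cases h2 : f.coeff d = 0
    · rw [h2]
      exact zero_mem _
    have h3 : d.degree ≤ 2 := by
      have h4 : d ∈ f.support := mem_support_iff.2 h2
      exact (le_totalDegree h4).trans hf
    have hne : d ≠ 0 := by
      rintro rfl
      exact hd ⟨(none, none), by simp [QB_D]⟩
    obtain ⟨i, d', hd', hdeg⟩ := QB_degree_split d hne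
    by_cases h4 : d' = 0
    · exfalso
      apply hd
      by_cases hi : i ∈ S
      · exact ⟨(some ⟨i, hi⟩, none), by simp [QB_D, hd', h4]⟩
      · exact ⟨(none, some ⟨i, hi⟩), by simp [QB_D, hd', h4]⟩
    · obtain ⟨j, d'', hd'', hdeg'⟩ := QB_degree_split d' h4
      have h5 : d'' = 0 := by
        rw [← Finsupp.degree_eq_zero_iff]
        omega
      rw [h5, add_zero] at hd''
      rw [hd''] at hd'
      by_cases hi : i ∈ S
      · by_cases hj : j ∈ S
        · rw [hd']
          exact hS i hi j hj
        · exfalso
          exact hd ⟨(some ⟨i, hi⟩, some ⟨j, hj⟩), by simp [QB_D, hd']⟩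
      · by_cases hj : j ∈ S
        · exfalso
          exact hd ⟨(some ⟨j, hj⟩, some ⟨i, hi⟩), by simp [QB_D, hd', add_comm]⟩
        · rw [hd']
          have hu : ∀ l, l ∉ S → l ∈ T := by
            intro l hl
            have := Finset.mem_univ l
            rw [← hST, Finset.mem_union] at this
            exact this.resolve_left hl
          exact hT i (hu i hi) j (hu j hj)

/-- the isomorphism `A[y] = A[v][u]` -/
private noncomputable def QB_E (A : Type) [CommRing A] (S : Finset (Fin n)) :
    MvPolynomial (Fin n) A ≃+*
      MvPolynomial {i : Fin n // i ∈ S} (MvPolynomial {i : Fin n // ¬ i ∈ S} A) :=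
  (renameEquiv A (Equiv.sumCompl fun i : Fin n => i ∈ S).symm).toRingEquiv.trans
    (sumRingEquiv A {i : Fin n // i ∈ S} {i : Fin n // ¬ i ∈ S})

private theorem QB_E_C (S : Finset (Fin n)) (a : A) : QB_E A S (C a) = C (C a) := by
  show sumRingEquiv A _ _ (rename _ (C a)) = _
  rw [rename_C, sumRingEquiv_C]

private theorem QB_E_mem (S : Finset (Fin n)) (i : {i : Fin n // i ∈ S}) :
    QB_E A S (X i.1) = X i := by
  show sumRingEquiv A _ _ (rename _ (X i.1)) = _
  rw [rename_X, Equiv.sumCompl_symm_apply_of_pos i.2]
  exact sumRingEquiv_X_inl A _ _ i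

private theorem QB_E_notMem (S : Finset (Fin n)) (i : {i : Fin n // ¬ i ∈ S}) :
    QB_E A S (X i.1) = C (X i) := by
  show sumRingEquiv A _ _ (rename _ (X i.1)) = _
  rw [rename_X, Equiv.sumCompl_symm_apply_of_neg i.2]
  exact sumRingEquiv_X_inr A _ _ i

private theorem QB_E_f (S : Finset (Fin n)) (f : MvPolynomial (Fin n) A) :
    QB_E A S (QB_f S f) = aBil fun k j => f.coeff (QB_D S k j) := by
  classical
  have hm : ∀ (k : Option {i : Fin n // i ∈ S}) (j : Option {i : Fin n // ¬ i ∈ S}) (a : A),
      QB_E A S (monomial (QB_D S k j) a) =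
        C (C a * j.elim 1 (fun i => X i)) * k.elim 1 (fun i => X i) := by
    intro k j a
    have h1 : monomial (QB_D S k j) a = C a * (k.elim 1 (fun i => X i.1) *
        j.elim 1 (fun i => X i.1)) := by
      unfold QB_D
      cases k with
      | none =>
        cases j with
        | none => simp [monomial_zero']
        | some j => simp [C_mul_X_eq_monomial]
      | some k =>
        cases j with
        | none => simp [C_mul_X_eq_monomial]
        | some j =>
          simp only [Option.elim_some]
          rw [← mul_assoc, C_mul_X_eq_monomial, X, monomial_mul, mul_one]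
    rw [h1, map_mul, map_mul, QB_E_C]
    have h2 : QB_E A S (k.elim 1 (fun i => X i.1)) = k.elim 1 (fun i => X i) := by
      cases k with
      | none => simp
      | some k => exact QB_E_mem S k
    have h3 : QB_E A S (j.elim 1 (fun i => X i.1)) = C (j.elim 1 (fun i => X i)) := by
      cases j with
      | none => simp
      | some j => exact QB_E_notMem S j
    rw [h2, h3, C_mul]
    ring
  unfold QB_f
  rw [map_sum, Fintype.sum_prod_type]
  simp only [hm]
  unfold aBil arow
  rw [Fintype.sum_option]
  simp only [Fintype.sum_option, Option.elim_none, Option.elim_some, mul_one]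
  simp only [map_add, map_sum, Finset.sum_mul, add_mul, Finset.sum_add_distrib]

/-- **QB**: hypersurfaces which are affine-bilinear modulo an ideal -/
theorem thm_QB (h : St_LAB) : St_QB := by
  classical
  intro ι _ _ A _ _ 𝒜 _ hgood n f γ ω α S T I hI hf hH hST hS hT
  have hΦ : ∀ (k : Option {i : Fin n // i ∈ S}) (j : Option {i : Fin n // ¬ i ∈ S}),
      f.coeff (QB_D S k j) ∈ 𝒜 (j.elim (γ - ω) (fun i => γ - α i.1) -
        k.elim ω (fun i => α i.1)) := by
    intro k j
    have h1 := hH (QB_D S k j)
    have h2 : γ - (2 - (QB_D S k j).degree) • ω - ∑ i, (QB_D S k j) i • α i =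
        j.elim (γ - ω) (fun i => γ - α i.1) - k.elim ω (fun i => α i.1) := by
      have hs : ∀ i : Fin n, ∑ l, (Finsupp.single i 1 : Fin n →₀ ℕ) l • α l = α i := by
        intro i
        rw [Finset.sum_eq_single i]
        · rw [Finsupp.single_eq_same, one_smul]
        · intro l _ hl
          rw [Finsupp.single_eq_of_ne hl, zero_smul]
        · intro h3
          exact absurd (Finset.mem_univ i) h3
      unfold QB_D
      cases k with
      | none =>
        cases j with
        | none =>
          simp only [Option.elim_none, add_zero, map_zero, tsub_zero, Finsupp.coe_zero,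
            Pi.zero_apply, zero_smul, Finset.sum_const_zero, two_nsmul]
          abel
        | some j =>
          simp only [Option.elim_none, Option.elim_some, zero_add, hs, Finsupp.degree_single]
          have : (2 - 1 : ℕ) • ω = ω := by simp
          rw [this]
          abel
      | some k =>
        cases j with
        | none =>
          simp only [Option.elim_none, Option.elim_some, add_zero, hs, Finsupp.degree_single]
          have : (2 - 1 : ℕ) • ω = ω := by simp
          rw [this]
        | some j =>
          simp only [Option.elim_some, map_add, Finsupp.degree_single,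
            Finsupp.add_apply, add_smul, Finset.sum_add_distrib, hs]
          have : (2 - (1 + 1) : ℕ) • ω = 0 := by simp
          rw [this]
          abel
    rw [← h2]
    exact h1
  have h3 := h ι A 𝒜 hgood {i : Fin n // i ∈ S} {i : Fin n // ¬ i ∈ S}
    (fun k j => f.coeff (QB_D S k j)) (fun k => k.elim ω (fun i => α i.1))
    (fun j => j.elim (γ - ω) (fun i => γ - α i.1)) hΦ I hI
  have h4 : (I.map C).map C ⊔ Ideal.span {aBil fun k j => f.coeff (QB_D S k j)} =
      (I.map C ⊔ Ideal.span {f}).map (QB_E A S : MvPolynomial (Fin n) A →+* MvPolynomial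
        {i : Fin n // i ∈ S} (MvPolynomial {i : Fin n // ¬ i ∈ S} A)) := by
    have h5 : I.map C ⊔ Ideal.span {f} = I.map C ⊔ Ideal.span {QB_f S f} := by
      have hm := QB_sub_mem S T f I hf hST hS hT
      apply le_antisymm
      · rw [sup_le_iff]
        refine ⟨le_sup_left, ?_⟩
        rw [Ideal.span_singleton_le_iff_mem]
        have h6 := add_mem (Ideal.mem_sup_left (T := Ideal.span {QB_f S f}) hm)
          (Ideal.mem_sup_right (Ideal.mem_span_singleton_self (QB_f S f)))
        rwa [sub_add_cancel] at h6
      · rw [sup_le_iff]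
        refine ⟨le_sup_left, ?_⟩
        rw [Ideal.span_singleton_le_iff_mem]
        have h6 := sub_mem (Ideal.mem_sup_right (Ideal.mem_span_singleton_self f))
          (Ideal.mem_sup_left (T := Ideal.span {f}) hm)
        rwa [sub_sub_cancel] at h6
    rw [h5, Ideal.map_sup, Ideal.map_span, Set.image_singleton, Ideal.map_map, Ideal.map_map]
    have h6 : (QB_E A S : MvPolynomial (Fin n) A →+* MvPolynomial {i : Fin n // i ∈ S}
        (MvPolynomial {i : Fin n // ¬ i ∈ S} A)).comp C =
        (C : MvPolynomial {i : Fin n // ¬ i ∈ S} A →+* MvPolynomial {i : Fin n // i ∈ S}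
        (MvPolynomial {i : Fin n // ¬ i ∈ S} A)).comp C := by
      ext a : 1
      exact QB_E_C S a
    have h7 : (QB_E A S : MvPolynomial (Fin n) A →+* MvPolynomial {i : Fin n // i ∈ S}
        (MvPolynomial {i : Fin n // ¬ i ∈ S} A)) (QB_f S f) =
        aBil fun k j => f.coeff (QB_D S k j) := QB_E_f S f
    rw [h6, h7]
  exact FinGn.of_equiv (Ideal.quotientEquiv _ _ (QB_E A S) h4).symm h3

end QB

end Pool.Agent.TQF
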