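import Pool.Agent.TQF.StQ

/-!
# TQF, module QG: the generic statement for subrings of a field
-/

set_option autoImplicit false
set_option linter.style.haveILetI false

namespace Pool.Agent.TQF

open Function MvPolynomial Pool.Agent.Helper11 Pool.Agent.Helper67.Bass
open scoped nonZeroDivisors

theorem QG_quot {A V V' : Type} [CommRing A] [CommRing V] [CommRing V'] (φ : A →+* V)
    (φ' : A →+* V') (e : V ≃+* V') (he : ∀ a, e (φ a) = φ' a) (n : ℕ) (f : MvPolynomial (Fin n) A)
    (h : FinGn (MvPolynomial (Fin n) V ⧸ Ideal.span {MvPolynomial.map φ f})) :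
    FinGn (MvPolynomial (Fin n) V' ⧸ Ideal.span {MvPolynomial.map φ' f}) := by
  refine FinGn.of_equiv (Ideal.quotientEquiv _ _ (MvPolynomial.mapEquiv (Fin n) e) ?_) h
  rw [Ideal.map_span, Set.image_singleton]
  have h1 : (e : V →+* V').comp φ = φ' := RingHom.ext he
  have h2 : MvPolynomial.mapEquiv (Fin n) e (MvPolynomial.map φ f) = MvPolynomial.map φ' f := by
    rw [← h1, ← MvPolynomial.map_map]
    rfl
  show Ideal.span {MvPolynomial.map φ' f} =
    Ideal.span {MvPolynomial.mapEquiv (Fin n) e (MvPolynomial.map φ f)}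
  rw [h2]

theorem thm_QG (h : St_Gen) : St_QG := by
  intro K _ F B0 hfg hF hfrac hkr n f hf
  haveI h1 : Algebra.FiniteType ℤ B0 := (Subalgebra.fg_iff_finiteType B0).1 hfg
  haveI h2 : Algebra.FiniteType ℤ B0.toSubring := by
    let e : B0 →+* B0.toSubring :=
      { toFun := fun b => ⟨b.1, b.2⟩
        map_one' := rfl
        map_mul' := fun _ _ => rfl
        map_zero' := rfl
        map_add' := fun _ _ => rfl }
    exact Algebra.FiniteType.of_surjective (RingHom.toIntAlgHom e) (fun b => ⟨⟨b.1, b.2⟩, rfl⟩)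
  let ψ : B0.toSubring →+* F := B0.toSubring.subtype.codRestrict F (fun b => hF _ b.2)
  letI : Algebra B0.toSubring F := ψ.toAlgebra
  have hψ : ∀ b : B0.toSubring, ((algebraMap B0.toSubring F b : F) : K) = (b : K) := fun b => rfl
  haveI : IsFractionRing B0.toSubring F := by
    refine (isLocalization_iff _ _).2 ⟨?_, ?_, ?_⟩
    · rintro ⟨b, hb⟩
      rw [isUnit_iff_ne_zero]
      intro h0
      have h3 : (b : K) = 0 := by
        have := congrArg (Subtype.val) h0
        exact this
      exact nonZeroDivisors.ne_zero hb (Subtype.ext h3)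
    · rintro ⟨y, hy⟩
      obtain ⟨a, ha, b, hb, hb0, hab⟩ := hfrac y hy
      refine ⟨(⟨a, ha⟩, ⟨⟨b, hb⟩, ?_⟩), ?_⟩
      · rw [mem_nonZeroDivisors_iff_ne_zero]
        intro h0
        exact hb0 (congrArg (Subtype.val) h0)
      · exact Subtype.ext hab
    · intro x y hxy
      refine ⟨1, ?_⟩
      have h3 : (x : K) = (y : K) := by
        rw [← hψ x, ← hψ y, hxy]
      rw [Subtype.ext h3]
  obtain ⟨x, V, _, _, hx, hloc, hV⟩ := h B0.toSubring F hkr n f hf
  have hxK : (x : K) ≠ 0 := fun h0 => hx (Subtype.ext h0)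
  refine ⟨x, x.2, hxK, ?_⟩
  have h4 : ∀ r, B0.toSubring.subtype r ∈ aw B0.toSubring (x : K) x.2 := fun r => le_aw _ r.2
  letI : Algebra B0.toSubring (aw B0.toSubring (x : K) x.2) :=
    (B0.toSubring.subtype.codRestrict _ h4).toAlgebra
  haveI : IsLocalization.Away x (aw B0.toSubring (x : K) x.2) := by
    apply isLocAway B0.toSubring.subtype Subtype.val_injective x hxK _ h4
    · exact inv_mem_aw _ hxK
    · rintro v ⟨k, hk⟩
      exact ⟨k, ⟨_, hk⟩, rfl⟩
  let e := IsLocalization.algEquiv (Submonoid.powers x) V (aw B0.toSubring (x : K) x.2)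
  refine QG_quot (algebraMap B0.toSubring V) _ e.toRingEquiv ?_ n f hV
  intro a
  show e (algebraMap B0.toSubring V a) = _
  rw [e.commutes]
  rfl

end Pool.Agent.TQF
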