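import Pool.Agent.TQF.StQ
import Pool.Agent.TQF.TTa

/-!
# TQF, part Q, module QH: noetherian induction
-/

set_option autoImplicit false
set_option linter.style.haveILetI false

namespace Pool.Agent.TQF

open Function MvPolynomial Pool.Agent.Helper11 Pool.Agent.Helper67.Bass

/-- one step of the induction at the kernel of a map to a field -/
theorem QH_loc (h3 : St_Loc) {A K : Type} [CommRing A] [IsNoetherianRing A] [Field K]
    (π : A →+* K) (s : A) (hs : π s ≠ 0) {n : ℕ} (f : MvPolynomial (Fin n) A)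
    (hV : FinGn (MvPolynomial (Fin n) (aw π.range (π s) ⟨s, rfl⟩) ⧸
      Ideal.span {MvPolynomial.map (awHom π s) f}))
    (hq : FinGn (MvPolynomial (Fin n) A ⧸
      ((RingHom.ker π ⊔ Ideal.span {s}).map (C : A →+* MvPolynomial (Fin n) A) ⊔
        Ideal.span {f}))) :
    FinGn (MvPolynomial (Fin n) A ⧸
      ((RingHom.ker π).map (C : A →+* MvPolynomial (Fin n) A) ⊔ Ideal.span {f})) := by
  set V := aw π.range (π s) ⟨s, rfl⟩ with hVdef
  let φ : A ⧸ RingHom.ker π →+* K := RingHom.kerLift π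
  have hφ : Injective φ := RingHom.kerLift_injective π
  have h1 : ∀ r, φ r ∈ V := by
    intro r
    obtain ⟨a, rfl⟩ := Ideal.Quotient.mk_surjective r
    exact le_aw _ ⟨a, rfl⟩
  letI := (φ.codRestrict V h1).toAlgebra
  haveI : IsLocalization.Away (Ideal.Quotient.mk (RingHom.ker π) s) V := by
    apply isLocAway φ hφ _ hs V h1
    · exact inv_mem_aw _ hs
    · rintro v ⟨n, a, ha⟩
      exact ⟨n, Ideal.Quotient.mk _ a, ha.symm⟩
  have hcomp : (algebraMap (A ⧸ RingHom.ker π) V).comp (Ideal.Quotient.mk (RingHom.ker π)) =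
      awHom π s := RingHom.ext fun a => rfl
  refine h3 A (RingHom.ker π) s V n f ?_ hq
  rw [hcomp]
  exact hV

theorem thm_QH (h1 : St_QF) (h2 : St_QB) (h3 : St_Loc) : St_QH := by
  intro ι _ _ _ A _ _ 𝒜 _ n f γ ω α hdeg hhom hcond
  have : IsNoetherianRing A := Algebra.FiniteType.isNoetherianRing ℤ A
  have hrat : ∀ (P : Ideal A) [P.IsPrime], P.IsHomogeneous 𝒜 →
      RationalOverKroneckerLeOne (K0 𝒜 (toFrac P)) := by
    intro P hP hPh
    obtain ⟨S, T, -, -, -, h | h⟩ := hcond P hPh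
    · obtain ⟨Q, hQ, hQP, h⟩ := h
      refine (KroneckerLeOne.mono 𝒜 (toFrac Q) (toFrac P) ?_ h).ratSmall
      rw [ker_toFrac, ker_toFrac]; exact hQP
    · exact h.2
  have hquot := finGn_graded_quotient 𝒜 hrat
  have key : ∀ I : Ideal A, I.IsHomogeneous 𝒜 → FinGn (MvPolynomial (Fin n) A ⧸
      (I.map (C : A →+* MvPolynomial (Fin n) A) ⊔ Ideal.span {f})) := by
    intro I
    refine IsNoetherian.induction (R := A) (M := A)
      (P := fun I : Ideal A => I.IsHomogeneous 𝒜 → FinGn (MvPolynomial (Fin n) A ⧸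
        (I.map (C : A →+* MvPolynomial (Fin n) A) ⊔ Ideal.span {f}))) ?_ I
    intro (I : Ideal A) ih hI
    by_cases htop : I = ⊤
    · subst htop
      have : Subsingleton (MvPolynomial (Fin n) A ⧸
          ((⊤ : Ideal A).map (C : A →+* MvPolynomial (Fin n) A) ⊔ Ideal.span {f})) := by
        apply Ideal.Quotient.subsingleton_iff.2
        rw [Ideal.map_top, top_sup_eq]
      exact FinGn.of_subsingleton _
    by_cases hprime : I.IsPrime
    · obtain ⟨S, T, hS, hT, hST, h | h⟩ := hcond I hI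
      · obtain ⟨Q, hQ, hQI, h⟩ := h
        have hk := ker_toFrac I
        have hkr : KroneckerLeOne (K0 𝒜 (toFrac I)) := by
          refine KroneckerLeOne.mono 𝒜 (toFrac Q) (toFrac I) ?_ h
          rw [ker_toFrac, ker_toFrac]; exact hQI
        obtain ⟨s, hs, hs0, hV⟩ := h1 ι A 𝒜 (FractionRing (A ⧸ I)) (toFrac I)
          (by rw [hk]; exact hI) hkr n f γ ω α S T hdeg hhom hST (by rw [hk]; exact hS)
          (by rw [hk]; exact hT)
        have hsI : s ∉ I := by
          intro h1
          rw [← hk] at h1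
          exact hs0 h1
        have hq := ih _ (TTa_lt I hsI) (isHomogeneous_sup_span 𝒜 hI hs)
        have := QH_loc h3 (toFrac I) s hs0 f hV (by rw [hk]; exact hq)
        rwa [hk] at this
      · refine h2 ι A 𝒜 hquot n f γ ω α S T I hI hdeg hhom h.1 hS hT
    · have hex : ∃ x y : A, SetLike.IsHomogeneousElem 𝒜 x ∧ SetLike.IsHomogeneousElem 𝒜 y ∧
          x * y ∈ I ∧ x ∉ I ∧ y ∉ I := by
        by_contra hcon
        apply hprime
        apply hI.isPrime_of_homogeneous_mem_or_mem htop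
        intro x y hx hy hxy
        by_contra hne
        push Not at hne
        exact hcon ⟨x, y, hx, hy, hxy, hne.1, hne.2⟩
      obtain ⟨x, y, hx, hy, hxy, hxI, hyI⟩ := hex
      exact TTa_step f I x y hxy (ih _ (TTa_lt I hxI) (isHomogeneous_sup_span 𝒜 hI hx))
        (ih _ (TTa_lt I hyI) (isHomogeneous_sup_span 𝒜 hI hy))
  have e : (⊥ : Ideal A).map (C : A →+* MvPolynomial (Fin n) A) ⊔ Ideal.span {f} =
      Ideal.span {f} := by
    rw [Ideal.map_bot, bot_sup_eq]
  have := key ⊥ (Ideal.IsHomogeneous.bot 𝒜)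
  rwa [e] at this

end Pool.Agent.TQF
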