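import Pool.Agent.TQF.StQ

/-!
# TQF, QK: rescaling of the variables
-/

set_option autoImplicit false

namespace Pool.Agent.TQF

open Function MvPolynomial

section QK

variable {V : Type} [CommRing V] {n : ℕ}

/-- rescaling of the variables -/
private noncomputable def QK_hom (t : Fin n → Vˣ) : MvPolynomial (Fin n) V →ₐ[V] MvPolynomial (Fin n) V :=
  aeval fun i => C (t i : V) * X i

private theorem QK_comp (t s : Fin n → Vˣ) (h : ∀ i, (t i : V) * (s i : V) = 1) :
    (QK_hom s).comp (QK_hom t) = AlgHom.id V (MvPolynomial (Fin n) V) := by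
  refine MvPolynomial.algHom_ext fun i => ?_
  have h1 : QK_hom t (X i) = C (t i : V) * X i := aeval_X _ _
  have h2 : QK_hom s (X i) = C (s i : V) * X i := aeval_X _ _
  have h3 : QK_hom s (C (t i : V)) = C (t i : V) := (QK_hom s).commutes (t i : V)
  rw [AlgHom.comp_apply, h1, map_mul, h2, h3, ← mul_assoc, ← C_mul, h i, C_1, one_mul]
  rfl

private theorem QK_coeff (t : Fin n → Vˣ) (p : MvPolynomial (Fin n) V) (d : Fin n →₀ ℕ) :
    (QK_hom t p).coeff d = p.coeff d * ∏ i, (t i : V) ^ d i := by
  induction p using MvPolynomial.induction_on' with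
  | monomial e a =>
    have h1 : QK_hom t (monomial e a) = monomial e (a * ∏ i, (t i : V) ^ e i) := by
      have h2 : QK_hom t (monomial e a) =
          C a * e.prod fun i k => (C (t i : V) * X i) ^ k := aeval_monomial _ _ _
      rw [h2, Finsupp.prod_fintype _ _ (fun i => pow_zero _)]
      simp only [mul_pow]
      rw [Finset.prod_mul_distrib]
      have h3 : (∏ i, (C (t i : V) : MvPolynomial (Fin n) V) ^ e i) = C (∏ i, (t i : V) ^ e i) := by
        rw [map_prod]
        exact Finset.prod_congr rfl fun i _ => (C_pow _ _).symm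
      have h4 : (∏ i, (X i : MvPolynomial (Fin n) V) ^ e i) = monomial e 1 := by
        rw [monomial_eq, C_1, one_mul, Finsupp.prod_fintype _ _ (fun i => pow_zero _)]
      rw [h3, h4, ← mul_assoc, ← C_mul, C_mul_monomial, mul_one]
    rw [h1, coeff_monomial, coeff_monomial]
    by_cases h : e = d
    · subst h
      rw [if_pos rfl, if_pos rfl]
    · rw [if_neg h, if_neg h, zero_mul]
  | add p q hp hq => rw [map_add, coeff_add, coeff_add, hp, hq, add_mul]

/-- **QK**: rescaling of the variables -/
theorem thm_QK : St_QK := by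
  intro V _ n t τ f g h
  let s : Fin n → Vˣ := fun i => (t i)⁻¹
  let θ : MvPolynomial (Fin n) V ≃ₐ[V] MvPolynomial (Fin n) V :=
    AlgEquiv.ofAlgHom (QK_hom t) (QK_hom s)
      (QK_comp s t fun i => Units.inv_mul (t i)) (QK_comp t s fun i => Units.mul_inv (t i))
  have h1 : QK_hom t f = C (τ : V) * g := by
    ext d
    rw [QK_coeff, h d, coeff_C_mul]
  have hu : IsUnit (C (τ : V) : MvPolynomial (Fin n) V) := τ.isUnit.map C
  have h2 : Ideal.span {g} = (Ideal.span {f}).map (θ.toRingEquiv : MvPolynomial (Fin n) V →+* MvPolynomial (Fin n) V) := by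
    rw [Ideal.map_span, Set.image_singleton]
    have h3 : (θ.toRingEquiv : MvPolynomial (Fin n) V →+* MvPolynomial (Fin n) V) f =
        C (τ : V) * g := h1
    rw [h3]
    exact (Ideal.span_singleton_mul_left_unit hu g).symm
  exact ⟨Ideal.quotientEquiv _ _ θ.toRingEquiv h2⟩

end QK

end Pool.Agent.TQF
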