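import Pool.Agent.TQF.StQ

/-!
# TQF, module QLAB: affine bilinear hypersurfaces
-/

set_option autoImplicit false
set_option linter.unusedSectionVars false

namespace Pool.Agent.TQF

open Function MvPolynomial Pool.Agent.Helper11 Pool.Agent.Helper67.Bass

private theorem QLAB_zero {A κ σ : Type} [CommRing A] [Fintype σ] (I : Ideal A) (φ : κ → σ → A)
    (c : κ → A) (h : ∀ k j, φ k j ∈ I) :
    LA I φ c = (I ⊔ Ideal.span (Set.range c)).map C := by
  have h1 : ∀ k, ∑ j, C (φ k j) * X j ∈ (I.map C : Ideal (MvPolynomial σ A)) := fun k =>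
    Ideal.sum_mem _ (fun j _ => Ideal.mul_mem_right _ _ (Ideal.mem_map_of_mem C (h k j)))
  apply le_antisymm
  · unfold LA
    rw [sup_le_iff]
    refine ⟨Ideal.map_mono le_sup_left, ?_⟩
    rw [Ideal.span_le]
    rintro _ ⟨k, rfl⟩
    refine Ideal.add_mem _ ?_ (Ideal.map_mono le_sup_left (h1 k))
    exact Ideal.mem_map_of_mem C (Ideal.mem_sup_right (Ideal.subset_span ⟨k, rfl⟩))
  · rw [Ideal.map_sup, sup_le_iff]
    refine ⟨le_sup_left, ?_⟩
    rw [Ideal.map_span, Ideal.span_le]
    rintro _ ⟨_, ⟨k, rfl⟩, rfl⟩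
    have h2 : (C (c k) : MvPolynomial σ A) =
        (C (c k) + ∑ j, C (φ k j) * X j) - ∑ j, C (φ k j) * X j := by ring
    rw [SetLike.mem_coe, h2]
    refine Ideal.sub_mem _ ?_ ?_
    · exact Ideal.mem_sup_right (Ideal.subset_span ⟨k, rfl⟩)
    · exact Ideal.mem_sup_left (h1 k)

private theorem QLAB_ext {A : Type} [CommRing A] [IsNoetherianRing A] (σ : Type) [Fintype σ]
    (I : Ideal A) (hI : FinGn (A ⧸ I)) : FinGn (MvPolynomial σ A ⧸ I.map C) :=
  FinGn.of_equiv (quotientEquivQuotientMvPolynomial (σ := σ) I).toRingEquiv (hI.mvPolynomial σ)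

theorem thm_LAB (h1 : St_LAP) (h2 : St_LAL) : St_LAB := by
  classical
  intro ι _ _ A _ _ 𝒜 _ hgood κ σ _ _ _ _ Φ α β hΦ I hI
  let J : Finset κ → Ideal (MvPolynomial σ A) := fun S =>
    I.map C ⊔ Ideal.span ((fun k => arow Φ (some k)) '' S)
  let ψ : Unit → κ → MvPolynomial σ A := fun _ k => arow Φ (some k)
  let c : Unit → MvPolynomial σ A := fun _ => arow Φ none
  have hJ : ∀ S, FinGn (MvPolynomial σ A ⧸ J S) := by
    intro S
    have h3 := h2 ι A 𝒜 hgood {k : κ // k ∈ S} σ (fun k j => Φ (some k) (some j))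
      (fun k => Φ (some k) none) (fun k => α (some k)) (fun j => β (some j)) (β none)
      (fun k j => hΦ _ _) (fun k => hΦ _ _) I hI
    have h4 : LA I (fun (k : {k : κ // k ∈ S}) j => Φ (some k) (some j))
        (fun k => Φ (some k) none) = J S := by
      unfold LA
      show _ ⊔ Ideal.span _ = _ ⊔ Ideal.span _
      congr 2
      ext x
      constructor
      · rintro ⟨k, rfl⟩; exact ⟨k, k.2, rfl⟩
      · rintro ⟨k, hk, rfl⟩; exact ⟨⟨k, hk⟩, rfl⟩
    rwa [h4] at h3
  have hJ' : ∀ S, FinGn (MvPolynomial σ A ⧸ (J S ⊔ Ideal.span (Set.range c))) := by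
    intro S
    have h3 := h2 ι A 𝒜 hgood (Option {k : κ // k ∈ S}) σ
      (fun k j => Φ (k.map Subtype.val) (some j))
      (fun k => Φ (k.map Subtype.val) none) (fun k => α (k.map Subtype.val))
      (fun j => β (some j)) (β none) (fun k j => hΦ _ _) (fun k => hΦ _ _) I hI
    have h4 : LA I (fun (k : Option {k : κ // k ∈ S}) j => Φ (k.map Subtype.val) (some j))
        (fun k => Φ (k.map Subtype.val) none) = J S ⊔ Ideal.span (Set.range c) := by
      unfold LA
      show _ ⊔ Ideal.span _ = (_ ⊔ Ideal.span _) ⊔ Ideal.span _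
      rw [sup_assoc, ← Ideal.span_union]
      congr 2
      ext x
      constructor
      · rintro ⟨k, rfl⟩
        cases k with
        | none => exact Or.inr ⟨(), rfl⟩
        | some k => exact Or.inl ⟨k, k.2, rfl⟩
      · rintro (⟨k, hk, rfl⟩ | ⟨_, rfl⟩)
        · exact ⟨some ⟨k, hk⟩, rfl⟩
        · exact ⟨none, rfl⟩
    rwa [h4] at h3
  have key : ∀ (n : ℕ) (S : Finset κ), (Finset.univ \ S).card = n →
      FinGn (MvPolynomial κ (MvPolynomial σ A) ⧸ LA (J S) ψ c) := by
    intro n
    induction n with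
    | zero =>
      intro S hS
      rw [QLAB_zero _ _ _ ?_]
      · exact QLAB_ext κ _ (hJ' S)
      · intro _ k
        have hk : k ∈ S := by
          rw [Finset.card_eq_zero, Finset.sdiff_eq_empty_iff_subset] at hS
          exact hS (Finset.mem_univ k)
        exact Ideal.mem_sup_right (Ideal.subset_span ⟨k, hk, rfl⟩)
    | succ n ih =>
      intro S hS
      obtain ⟨k0, hk0⟩ : ∃ k0, k0 ∈ Finset.univ \ S := by
        rw [← Finset.Nonempty, ← Finset.card_pos, hS]; omega
      have hk0S : k0 ∉ S := (Finset.mem_sdiff.1 hk0).2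
      apply h1 (MvPolynomial σ A) Unit κ (J S) ψ c () k0
      · have e : J S ⊔ Ideal.span {ψ () k0} = J (insert k0 S) := by
          show (_ ⊔ Ideal.span _) ⊔ Ideal.span {arow Φ (some k0)} =
            _ ⊔ Ideal.span ((fun k => arow Φ (some k)) '' ((insert k0 S : Finset κ)))
          rw [Finset.coe_insert, Set.image_insert_eq, Ideal.span_insert, sup_assoc,
            sup_comm (Ideal.span {arow Φ (some k0)})]
        rw [e]
        apply ih
        have : (Finset.univ \ insert k0 S) = (Finset.univ \ S).erase k0 := by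
          ext x; simp only [Finset.mem_sdiff, Finset.mem_univ, Finset.mem_insert,
            Finset.mem_erase, true_and]; tauto
        rw [this, Finset.card_erase_of_mem hk0, hS]; rfl
      · rw [QLAB_zero _ _ _ ?_]
        · have e : J S ⊔ Ideal.span (Set.range fun k : Unit => ψ () k0 * c k - ψ k k0 * c ()) =
              J S := by
            rw [sup_eq_left, Ideal.span_le]
            rintro _ ⟨k, rfl⟩
            have : ψ () k0 * c k - ψ k k0 * c () = 0 := sub_self _
            rw [SetLike.mem_coe]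
            simp only [this]
            exact zero_mem _
          rw [e]
          exact QLAB_ext _ _ (hJ S)
        · intro k l
          have : elim ψ () k0 k l = 0 := by unfold elim; ring
          rw [this]; exact zero_mem _
  have h3 := key _ ∅ rfl
  have h4 : LA (J ∅) ψ c = (I.map C).map C ⊔ Ideal.span {aBil Φ} := by
    unfold LA
    have : J ∅ = I.map C := by simp [J]
    rw [this]
    congr 2
    ext x
    constructor
    · rintro ⟨_, rfl⟩; rfl
    · rintro rfl; exact ⟨(), rfl⟩
  rwa [h4] at h3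

end Pool.Agent.TQF
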