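import Pool.Agent.TQF.StQ

/-!
# TQF, LAL: homogeneous affine linear systems
-/

set_option autoImplicit false

namespace Pool.Agent.TQF

open Function MvPolynomial Pool.Agent.Helper11 Pool.Agent.Helper67.Bass

/-- all coefficients of the linear forms lie in `I` -/
theorem QLAL_zero {A κ σ : Type} [CommRing A] [Fintype σ] (I : Ideal A) (φ : κ → σ → A)
    (c : κ → A) (h : ∀ k j, φ k j ∈ I) :
    LA I φ c = (I ⊔ Ideal.span (Set.range c)).map C := by
  unfold LA
  rw [Ideal.map_sup]
  have hmem : ∀ k, ∑ j, C (φ k j) * X j ∈ (I.map C : Ideal (MvPolynomial σ A)) := fun k =>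
    Ideal.sum_mem _ (fun j _ => Ideal.mul_mem_right _ _ (Ideal.mem_map_of_mem C (h k j)))
  apply le_antisymm
  · refine sup_le le_sup_left ?_
    rw [Ideal.span_le]
    rintro _ ⟨k, rfl⟩
    refine add_mem (Ideal.mem_sup_right ?_) (Ideal.mem_sup_left (hmem k))
    exact Ideal.mem_map_of_mem C (Ideal.subset_span ⟨k, rfl⟩)
  · refine sup_le le_sup_left ?_
    rw [Ideal.map_span, Ideal.span_le]
    rintro _ ⟨_, ⟨k, rfl⟩, rfl⟩
    have h1 : C (c k) + ∑ j, C (φ k j) * X j ∈ (I.map C ⊔ Ideal.span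
        (Set.range fun k => C (c k) + ∑ j, C (φ k j) * X j) : Ideal (MvPolynomial σ A)) :=
      Ideal.mem_sup_right (Ideal.subset_span ⟨k, rfl⟩)
    have h2 := sub_mem h1 (Ideal.mem_sup_left (hmem k))
    have e : C (c k) + ∑ j, C (φ k j) * X j - ∑ j, C (φ k j) * X j =
        (C (c k) : MvPolynomial σ A) := by ring
    rw [e] at h2
    exact h2

theorem QLAL_card (hP : St_LAP) {ι : Type} [AddCommGroup ι] [DecidableEq ι] {A : Type}
    [CommRing A] [IsNoetherianRing A] (𝒜 : ι → AddSubgroup A) [GradedRing 𝒜]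
    (hgood : ∀ I : Ideal A, I.IsHomogeneous 𝒜 → FinGn (A ⧸ I)) (n : ℕ) :
    ∀ (σ : Type) [Fintype σ] [DecidableEq σ], Fintype.card σ = n → ∀ (κ : Type) (φ : κ → σ → A)
      (c : κ → A) (α : κ → ι) (β : σ → ι) (δ : ι), (∀ k j, φ k j ∈ 𝒜 (β j - α k)) →
      (∀ k, c k ∈ 𝒜 (δ - α k)) →
      ∀ I : Ideal A, I.IsHomogeneous 𝒜 → FinGn (MvPolynomial σ A ⧸ LA I φ c) := by
  have hzero : ∀ (σ : Type) [Fintype σ] (κ : Type) (φ : κ → σ → A) (c : κ → A) (α : κ → ι)
      (δ : ι), (∀ k, c k ∈ 𝒜 (δ - α k)) → ∀ I : Ideal A, I.IsHomogeneous 𝒜 →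
      (∀ k j, φ k j ∈ I) → FinGn (MvPolynomial σ A ⧸ LA I φ c) := by
    intro σ _ κ φ c α δ hc I hI h
    rw [QLAL_zero I φ c h]
    have hhom : (I ⊔ Ideal.span (Set.range c)).IsHomogeneous 𝒜 := by
      apply Ideal.IsHomogeneous.sup hI
      apply Ideal.homogeneous_span
      rintro _ ⟨k, rfl⟩
      exact ⟨_, hc k⟩
    exact FinGn.of_equiv (quotientEquivQuotientMvPolynomial (σ := σ) _).toRingEquiv
      ((hgood _ hhom).mvPolynomial σ)
  induction n with
  | zero =>
    intro σ _ _ hσ κ φ c α β δ hφ hc I hI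
    have : IsEmpty σ := Fintype.card_eq_zero_iff.1 hσ
    exact hzero σ κ φ c α δ hc I hI (fun k j => isEmptyElim j)
  | succ n ih =>
    intro σ _ _ hσ κ φ c α β δ hφ hc I
    refine IsNoetherian.induction (R := A) (M := A)
      (P := fun I : Ideal A => I.IsHomogeneous 𝒜 → FinGn (MvPolynomial σ A ⧸ LA I φ c)) ?_ I
    intro (I : Ideal A) ihI hI
    by_cases h : ∀ k j, φ k j ∈ I
    · exact hzero σ κ φ c α δ hc I hI h
    · push Not at h
      obtain ⟨k0, j0, hkj⟩ := h
      have hs : SetLike.IsHomogeneousElem 𝒜 (φ k0 j0) := ⟨_, hφ k0 j0⟩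
      have hlt : I < I ⊔ Ideal.span {φ k0 j0} := by
        refine lt_of_le_of_ne le_sup_left (fun h2 => hkj ?_)
        rw [h2]
        exact Ideal.mem_sup_right (Ideal.mem_span_singleton_self _)
      have hhom : (I ⊔ Ideal.span {φ k0 j0}).IsHomogeneous 𝒜 := by
        apply Ideal.IsHomogeneous.sup hI
        apply Ideal.homogeneous_span
        intro x hx
        rw [Set.mem_singleton_iff] at hx
        rw [hx]; exact hs
      apply hP A κ σ I φ c k0 j0 (ihI _ hlt hhom)
      have hcard : Fintype.card {l : σ // l ≠ j0} = n := by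
        rw [Fintype.card_subtype_compl, Fintype.card_subtype_eq, hσ]; rfl
      refine ih {l : σ // l ≠ j0} hcard κ (elim φ k0 j0)
        (fun k => φ k0 j0 * c k - φ k j0 * c k0) α
        (fun l => β l + (β j0 - α k0)) (δ + (β j0 - α k0)) ?_ ?_ I hI
      · intro k l
        unfold elim
        apply sub_mem
        · have := SetLike.GradedMul.mul_mem (hφ k0 j0) (hφ k l)
          have e : β l + (β j0 - α k0) - α k = (β j0 - α k0) + (β l - α k) := by abel
          rw [e]; exact this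
        · have := SetLike.GradedMul.mul_mem (hφ k j0) (hφ k0 l)
          have e : β l + (β j0 - α k0) - α k = (β j0 - α k) + (β l - α k0) := by abel
          rw [e]; exact this
      · intro k
        apply sub_mem
        · have := SetLike.GradedMul.mul_mem (hφ k0 j0) (hc k)
          have e : δ + (β j0 - α k0) - α k = (β j0 - α k0) + (δ - α k) := by abel
          rw [e]; exact this
        · have := SetLike.GradedMul.mul_mem (hφ k j0) (hc k0)
          have e : δ + (β j0 - α k0) - α k = (β j0 - α k) + (δ - α k0) := by abel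
          rw [e]; exact this

/-- **LAL** -/
theorem thm_LAL (h : St_LAP) : St_LAL := by
  intro ι _ _ A _ _ 𝒜 _ hgood κ σ _ _ φ c α β δ hφ hc I hI
  exact QLAL_card h 𝒜 hgood (Fintype.card σ) σ rfl κ φ c α β δ hφ hc I hI

end Pool.Agent.TQF
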