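import Pool.Agent.TQF.StQ

/-!
# TQF, module LAP: pivot step for affine linear systems

The proof is that of `finGn_pivot` in `Pool/Agent/Helper67/Bass/Lin.lean` (helper67), with the constant
terms carried along.
-/

set_option autoImplicit false
set_option linter.style.haveILetI false

namespace Pool.Agent.TQF

open Function MvPolynomial Pool.Agent.Helper11 Pool.Agent.Helper67.Bass

theorem QLAP_aux {A κ σ : Type} [CommRing A] [IsNoetherianRing A] [Fintype σ] [DecidableEq σ]
    (I : Ideal A) (φ : κ → σ → A) (c c' : κ → A) (k0 : κ) (j0 : σ)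
    (hc' : ∀ k, c' k = φ k0 j0 * c k - φ k j0 * c k0)
    (h1 : FinGn (MvPolynomial σ A ⧸ LA (I ⊔ Ideal.span {φ k0 j0}) φ c))
    (h2 : FinGn (MvPolynomial {l : σ // l ≠ j0} A ⧸ LA I (elim φ k0 j0) c')) :
    FinGn (MvPolynomial σ A ⧸ LA I φ c) := by
  classical
  set s := φ k0 j0 with hs
  set S := {l : σ // l ≠ j0} with hS
  set T := MvPolynomial σ A ⧸ LA I φ c with hT
  set T' := MvPolynomial S A ⧸ LA I (elim φ k0 j0) c' with hT'
  let mk : MvPolynomial σ A →+* T := Ideal.Quotient.mk _
  let mk' : MvPolynomial S A →+* T' := Ideal.Quotient.mk _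
  have hrow : ∀ k, mk (C (c k) + ∑ j, C (φ k j) * X j) = 0 := fun k =>
    Ideal.Quotient.eq_zero_iff_mem.2 (Ideal.mem_sup_right (Ideal.subset_span ⟨k, rfl⟩))
  have hrow' : ∀ k, mk' (C (c' k) + ∑ l, C (elim φ k0 j0 k l) * X l) = 0 := fun k =>
    Ideal.Quotient.eq_zero_iff_mem.2 (Ideal.mem_sup_right (Ideal.subset_span ⟨k, rfl⟩))
  have hIk : ∀ a ∈ I, mk (C a) = 0 := fun a ha =>
    Ideal.Quotient.eq_zero_iff_mem.2 (Ideal.mem_sup_left (Ideal.mem_map_of_mem C ha))
  have hIk' : ∀ a ∈ I, mk' (C a) = 0 := fun a ha =>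
    Ideal.Quotient.eq_zero_iff_mem.2 (Ideal.mem_sup_left (Ideal.mem_map_of_mem C ha))
  have hsplit : ∀ (B : Type) [AddCommMonoid B] (f : σ → B),
      ∑ j, f j = f j0 + ∑ l : S, f l := by
    intro B _ f
    rw [← Finset.add_sum_erase Finset.univ f (Finset.mem_univ j0)]
    congr 1
    rw [Finset.sum_subtype (Finset.univ.erase j0) (p := fun l => l ≠ j0) (by simp) f]
  -- the map `g`
  let g0 : MvPolynomial S A →+* T := mk.comp (rename (Subtype.val : S → σ)).toRingHom
  have hg0C : ∀ a, g0 (C a) = mk (C a) := fun a => by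
    show mk (rename Subtype.val (C a)) = _
    rw [rename_C]
  have hg0X : ∀ l : S, g0 (X l) = mk (X l.1) := fun l => by
    show mk (rename Subtype.val (X l)) = _
    rw [rename_X]
  have hg0ker : LA I (elim φ k0 j0) c' ≤ RingHom.ker g0 := by
    unfold LA
    rw [sup_le_iff]
    constructor
    · rw [Ideal.map_le_iff_le_comap]
      intro a ha
      show g0 (C a) = 0
      rw [hg0C, hIk a ha]
    · rw [Ideal.span_le]
      rintro _ ⟨k, rfl⟩
      show g0 (C (c' k) + ∑ l, C (elim φ k0 j0 k l) * X l) = 0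
      rw [map_add, map_sum]
      have e1 : ∀ l : S, g0 (C (elim φ k0 j0 k l) * X l) =
          mk (C s) * mk (C (φ k l) * X l.1) - mk (C (φ k j0)) * mk (C (φ k0 l) * X l.1) := by
        intro l
        rw [map_mul, hg0C, hg0X, elim]
        simp only [map_sub, map_mul]
        ring
      rw [Finset.sum_congr rfl (fun l _ => e1 l), Finset.sum_sub_distrib, ← Finset.mul_sum,
        ← Finset.mul_sum]
      have e0 : g0 (C (c' k)) = mk (C s) * mk (C (c k)) - mk (C (φ k j0)) * mk (C (c k0)) := by
        rw [hg0C, hc' k]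
        simp only [map_sub, map_mul]
      have e2 := hrow k
      have e3 := hrow k0
      rw [map_add, map_sum, hsplit] at e2 e3
      have e4 : ∑ l : S, mk (C (φ k l) * X l.1) = - mk (C (c k)) - mk (C (φ k j0) * X j0) := by
        linear_combination e2
      have e5 : ∑ l : S, mk (C (φ k0 l) * X l.1) =
          - mk (C (c k0)) - mk (C (φ k0 j0) * X j0) := by
        linear_combination e3
      rw [e0, e4, e5, map_mul, map_mul]
      ring
  let g : T' →+* T := Ideal.Quotient.lift _ g0 hg0ker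
  have hgC : ∀ a, g (mk' (C a)) = mk (C a) := fun a =>
    (Ideal.Quotient.lift_mk _ _ _).trans (hg0C a)
  have hgX : ∀ l : S, g (mk' (X l)) = mk (X l.1) := fun l =>
    (Ideal.Quotient.lift_mk _ _ _).trans (hg0X l)
  -- the retraction after inverting `s`
  let L := Localization.Away (mk' (C s))
  let al : T' →+* L := algebraMap T' L
  have hunit : IsUnit (al (mk' (C s))) := IsLocalization.Away.algebraMap_isUnit _
  obtain ⟨w, hw⟩ := isUnit_iff_exists_inv.1 hunit
  let v : σ → L := fun j => if h : j = j0 then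
    - w * (al (mk' (C (c k0))) + ∑ l : S, al (mk' (C (φ k0 l) * X l)))
    else al (mk' (X ⟨j, h⟩))
  have hv0 : v j0 = - w * (al (mk' (C (c k0))) + ∑ l : S, al (mk' (C (φ k0 l) * X l))) := by
    simp [v]
  have hvl : ∀ l : S, v l = al (mk' (X l)) := by
    rintro ⟨l, hl⟩
    simp [v, hl]
  let h0 : MvPolynomial σ A →+* L := eval₂Hom ((al.comp mk').comp C) v
  have hh0C : ∀ a, h0 (C a) = al (mk' (C a)) := fun a => by
    simp [h0]
  have hh0X : ∀ j, h0 (X j) = v j := fun j => by simp [h0]
  have hh0ker : LA I φ c ≤ RingHom.ker h0 := by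
    unfold LA
    rw [sup_le_iff]
    constructor
    · rw [Ideal.map_le_iff_le_comap]
      intro a ha
      show h0 (C a) = 0
      rw [hh0C, hIk' a ha, map_zero]
    · rw [Ideal.span_le]
      rintro _ ⟨k, rfl⟩
      show h0 (C (c k) + ∑ j, C (φ k j) * X j) = 0
      rw [map_add, map_sum, hsplit, map_mul, hh0C, hh0C, hh0X, hv0]
      have e1 : ∀ l : S, h0 (C (φ k l) * X l.1) = al (mk' (C (φ k l) * X l)) := by
        intro l
        rw [map_mul, hh0C, hh0X, hvl, map_mul, map_mul]
      rw [Finset.sum_congr rfl (fun l _ => e1 l)]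
      have e2 := congrArg al (hrow' k)
      rw [map_add, map_add, map_sum, map_sum, map_zero] at e2
      have e0 : al (mk' (C (c' k))) = al (mk' (C s)) * al (mk' (C (c k))) -
          al (mk' (C (φ k j0))) * al (mk' (C (c k0))) := by
        rw [hc' k]
        simp only [map_sub, map_mul]
      have e3 : ∀ l : S, al (mk' (C (elim φ k0 j0 k l) * X l)) =
          al (mk' (C s)) * al (mk' (C (φ k l) * X l)) -
          al (mk' (C (φ k j0))) * al (mk' (C (φ k0 l) * X l)) := by
        intro l
        rw [elim]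
        simp only [map_sub, map_mul]
        ring
      rw [Finset.sum_congr rfl (fun l _ => e3 l), Finset.sum_sub_distrib, ← Finset.mul_sum,
        ← Finset.mul_sum, e0] at e2
      apply hunit.mul_left_cancel
      rw [mul_zero]
      linear_combination e2 - (al (mk' (C (φ k j0))) * (al (mk' (C (c k0))) +
        ∑ l : S, al (mk' (C (φ k0 l) * X l)))) * hw
  let hh : T →+* L := Ideal.Quotient.lift _ h0 hh0ker
  have hhg : hh.comp g = al := by
    apply Ideal.Quotient.ringHom_ext
    apply MvPolynomial.ringHom_ext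
    · intro a
      show hh (g (mk' (C a))) = al (mk' (C a))
      rw [hgC]
      exact (Ideal.Quotient.lift_mk _ _ _).trans (hh0C a)
    · intro l
      show hh (g (mk' (X l))) = al (mk' (X l))
      rw [hgX]
      exact (Ideal.Quotient.lift_mk _ _ _).trans ((hh0X l.1).trans (hvl l))
  -- the two conditions
  have c2 : ∀ t' : T', g t' = 0 → ∃ m : ℕ, (mk' (C s)) ^ m * t' = 0 := by
    intro t' ht'
    have h3 : al t' = 0 := by rw [← hhg, RingHom.comp_apply, ht', map_zero]
    obtain ⟨⟨_, m, rfl⟩, hm⟩ := (IsLocalization.map_eq_zero_iff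
      (Submonoid.powers (mk' (C s))) L t').1 h3
    exact ⟨m, hm⟩
  have c1 : ∀ t : T, ∃ (m : ℕ) (t' : T'), (mk (C s)) ^ m * t = g t' := by
    intro t
    obtain ⟨f, rfl⟩ := Ideal.Quotient.mk_surjective t
    show ∃ (m : ℕ) (t' : T'), (mk (C s)) ^ m * mk f = g t'
    induction f using MvPolynomial.induction_on with
    | C a => exact ⟨0, mk' (C a), by rw [pow_zero, one_mul, hgC]⟩
    | add p q hp hq =>
      obtain ⟨m, t, ht⟩ := hp
      obtain ⟨n, r, hr⟩ := hq
      refine ⟨m + n, (mk' (C s)) ^ n * t + (mk' (C s)) ^ m * r, ?_⟩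
      rw [map_add, map_add, map_mul, map_mul, map_pow, map_pow, hgC, ← ht, ← hr]
      ring
    | mul_X p j hp =>
      obtain ⟨m, t, ht⟩ := hp
      by_cases hj : j = j0
      · subst hj
        refine ⟨m + 1, t * mk' (- (C (c k0) + ∑ l : S, C (φ k0 l) * X l)), ?_⟩
        have e3 := hrow k0
        rw [map_add, map_sum, hsplit] at e3
        have e4 : g (mk' (C (c k0) + ∑ l : S, C (φ k0 l) * X l)) =
            mk (C (c k0)) + ∑ l : S, mk (C (φ k0 l) * X l.1) := by
          rw [map_add, map_add, map_sum, map_sum, hgC]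
          refine congrArg (fun x => mk (C (c k0)) + x) ?_
          refine Finset.sum_congr rfl (fun l _ => ?_)
          rw [map_mul, map_mul, hgC, hgX, map_mul]
        have e5 : mk (C (φ k0 j) * X j) = mk (C s) * mk (X j) := map_mul _ _ _
        have e6 : mk (p * X j) = mk p * mk (X j) := map_mul _ _ _
        rw [e5] at e3
        rw [map_mul g, map_neg, map_neg, e4, ← ht, e6]
        linear_combination (mk (C s) ^ m * mk p) * e3
      · refine ⟨m, t * mk' (X ⟨j, hj⟩), ?_⟩
        rw [map_mul, map_mul, hgX, ← ht]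
        ring
  refine FinGn.of_away (s := mk (C s)) (V := Localization.Away (mk (C s))) ?_
    (finGn_of_almost_iso g (mk' (C s)) (mk (C s)) (hgC s) c1 c2 h2)
  have e1 : Ideal.span {mk (C s)} = (Ideal.span {C s}).map mk := by
    rw [Ideal.map_span, Set.image_singleton]
  rw [e1]
  refine FinGn.of_equiv (DoubleQuot.quotQuotEquivQuotSup (LA I φ c) (Ideal.span {C s})).symm ?_
  have e2 : LA I φ c ⊔ Ideal.span {C s} = LA (I ⊔ Ideal.span {s}) φ c := by
    unfold LA
    rw [Ideal.map_sup, Ideal.map_span, Set.image_singleton]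
    ac_rfl
  rw [e2]
  exact h1

theorem thm_LAP : St_LAP := by
  intro A κ σ _ _ _ _ I φ c k0 j0 h1 h2
  exact QLAP_aux I φ c _ k0 j0 (fun _ => rfl) h1 h2

end Pool.Agent.TQF
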