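import Pool.Agent.TQF.StQ
import Pool.Agent.TQF.TLoc

/-!
# TQF, part Q: Laurent base change
-/

set_option autoImplicit false

namespace Pool.Agent.TQF

open Function MvPolynomial Pool.Agent.Helper11 Pool.Agent.Helper67.Bass

/-- localisation of a hypersurface -/
theorem QV_loc {R V : Type} [CommRing R] [CommRing V] (φ : R →+* V) (s : R)
    (hsu : IsUnit (φ s)) (hs : ∀ v : V, ∃ (k : ℕ) (r : R), φ s ^ k * v = φ r) (hi : Injective φ)
    {n : ℕ} (f : MvPolynomial (Fin n) R) (h : FinGn (MvPolynomial (Fin n) R ⧸ Ideal.span {f})) :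
    FinGn (MvPolynomial (Fin n) V ⧸ Ideal.span {MvPolynomial.map φ f}) := by
  set I : Ideal (MvPolynomial (Fin n) R) := Ideal.span {f} with hI
  set J : Ideal (MvPolynomial (Fin n) V) := Ideal.span {MvPolynomial.map φ f} with hJ
  have hIJ : I ≤ J.comap (MvPolynomial.map φ) := by
    rw [hI, Ideal.span_le, Set.singleton_subset_iff]
    exact Ideal.subset_span rfl
  let alg : Algebra (MvPolynomial (Fin n) R ⧸ I) (MvPolynomial (Fin n) V ⧸ J) :=
    (Ideal.quotientMap J (MvPolynomial.map φ) hIJ).toAlgebra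
  have halg : ∀ x : MvPolynomial (Fin n) R,
      algebraMap (MvPolynomial (Fin n) R ⧸ I) (MvPolynomial (Fin n) V ⧸ J)
        (Ideal.Quotient.mk I x) = Ideal.Quotient.mk J (MvPolynomial.map φ x) := fun x => rfl
  have hloc : IsLocalization.Away (Ideal.Quotient.mk I (C s)) (MvPolynomial (Fin n) V ⧸ J) := by
    refine TLoc_isLoc _ ?_ ?_ ?_
    · rw [halg, map_C]
      exact (hsu.map (C : V →+* MvPolynomial (Fin n) V)).map (Ideal.Quotient.mk J)
    · intro b'
      obtain ⟨b', rfl⟩ := Ideal.Quotient.mk_surjective b'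
      obtain ⟨k, r, hr⟩ := TLoc_surj φ s hs b'
      refine ⟨k, Ideal.Quotient.mk I r, ?_⟩
      rw [halg, halg, map_C, ← hr, map_mul, map_pow]
    · intro b hb
      obtain ⟨x, rfl⟩ := Ideal.Quotient.mk_surjective b
      rw [halg, Ideal.Quotient.eq_zero_iff_mem, hJ, Ideal.mem_span_singleton'] at hb
      obtain ⟨h, hh⟩ := hb
      obtain ⟨k, h', hh'⟩ := TLoc_surj φ s hs h
      refine ⟨k, ?_⟩
      have h5 : C s ^ k * x = h' * f := by
        apply MvPolynomial.map_injective φ hi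
        rw [map_mul, map_mul, map_pow, map_C, ← hh, ← hh']
        ring
      rw [← map_pow, ← map_mul, Ideal.Quotient.eq_zero_iff_mem, hI, h5]
      exact Ideal.mul_mem_left _ _ (Ideal.subset_span rfl)
  exact FinGn.away (V := MvPolynomial (Fin n) V ⧸ J) (Ideal.Quotient.mk I (C s)) h

/-- polynomial base change of a hypersurface -/
theorem QV_poly {R : Type} [CommRing R] (ρ : ℕ) {n : ℕ} (f : MvPolynomial (Fin n) R)
    [IsNoetherianRing R] (h : FinGn (MvPolynomial (Fin n) R ⧸ Ideal.span {f})) :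
    FinGn (MvPolynomial (Fin n) (MvPolynomial (Fin ρ) R) ⧸
      Ideal.span {MvPolynomial.map (C : R →+* MvPolynomial (Fin ρ) R) f}) := by
  have h1 : FinGn (MvPolynomial (Fin ρ) (MvPolynomial (Fin n) R ⧸ Ideal.span {f})) :=
    h.mvPolynomial (Fin ρ)
  have h2 := FinGn.of_equiv (MvPolynomial.quotientEquivQuotientMvPolynomial (σ := Fin ρ)
    (Ideal.span {f})).toRingEquiv h1
  refine FinGn.of_equiv (Ideal.quotientEquiv _ _
    (MvPolynomial.commAlgEquiv R (Fin ρ) (Fin n)).toRingEquiv ?_) h2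
  rw [Ideal.map_map, Ideal.map_span, Set.image_singleton]
  congr 2
  exact (MvPolynomial.commAlgEquiv_C f).symm

theorem thm_QV : St_QV := by
  intro K _ ρ B1 V _ u h n f hf
  set ψ : MvPolynomial (Fin ρ) B1 →+* K := MvPolynomial.eval₂Hom B1.subtype u with hψ
  let s : MvPolynomial (Fin ρ) B1 := ∏ i, MvPolynomial.X i
  have hs : ψ s = ∏ i, u i := by
    show ψ (∏ i, MvPolynomial.X i) = _
    rw [map_prod]
    refine Finset.prod_congr rfl (fun i _ => ?_)
    rw [hψ, MvPolynomial.eval₂Hom_X']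
  have hV : ∀ f, ψ f ∈ V := by
    intro f
    induction f using MvPolynomial.induction_on with
    | C a => rw [hψ, MvPolynomial.eval₂Hom_C]; exact h.le a.2
    | add p q hp hq => rw [map_add]; exact add_mem hp hq
    | mul_X p i hp => rw [map_mul, hψ, MvPolynomial.eval₂Hom_X']; exact mul_mem hp (h.mem i)
  let φ : MvPolynomial (Fin ρ) B1 →+* V := ψ.codRestrict V hV
  have hφ : ∀ w, ((φ w : V) : K) = ψ w := fun w => rfl
  have hsu : IsUnit (φ s) := by
    rw [isUnit_iff_exists_inv]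
    refine ⟨⟨∏ i, (u i)⁻¹, prod_mem fun i _ => h.inv i⟩, ?_⟩
    apply Subtype.ext
    show ψ s * ∏ i, (u i)⁻¹ = 1
    rw [hs, ← Finset.prod_mul_distrib]
    exact Finset.prod_eq_one fun i _ => mul_inv_cancel₀ (h.ne i)
  have hsurj : ∀ v : V, ∃ (k : ℕ) (r : MvPolynomial (Fin ρ) B1), φ s ^ k * v = φ r := by
    rintro ⟨v, hv⟩
    obtain ⟨k, r, hr⟩ := h.frac v hv
    refine ⟨k, r, ?_⟩
    apply Subtype.ext
    show ψ s ^ k * v = ψ r
    rw [hs, mul_comm, hr]
    rfl
  have hinj : Injective φ := by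
    intro x y hxy
    exact h.inj (congrArg (Subtype.val) hxy)
  have h1 := QV_loc φ s hsu hsurj hinj _ (QV_poly ρ f hf)
  have h2 : MvPolynomial.map φ (MvPolynomial.map C f) =
      MvPolynomial.map (Subring.inclusion h.le) f := by
    have h3 : φ.comp C = Subring.inclusion h.le := by
      refine RingHom.ext fun b => Subtype.ext ?_
      show ψ (C b) = (b : K)
      rw [hψ, MvPolynomial.eval₂Hom_C]
      rfl
    rw [MvPolynomial.map_map, h3]
  rw [h2] at h1
  exact h1

end Pool.Agent.TQF
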