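import Pool.Agent.TQF.All
import Pool.Agent.TQF.Final2
import Pool.Agent.TQF.QS
import Pool.Agent.TQF.QV
import Pool.Agent.TQF.QK
import Pool.Agent.TQF.QG
import Pool.Agent.TQF.QC
import Pool.Agent.TQF.QF
import Pool.Agent.TQF.QLAP
import Pool.Agent.TQF.QLAL
import Pool.Agent.TQF.QLAB
import Pool.Agent.TQF.QB
import Pool.Agent.TQF.QH

/-!
# TQF: the chain of all modules, part Q
-/

set_option autoImplicit false

namespace Pool.Agent.TQF

theorem all_QF : St_QF := thm_QF thm_QS thm_QV thm_QK (thm_QG all_Gen) thm_QC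

theorem all_QB : St_QB := thm_QB (thm_LAB thm_LAP (thm_LAL thm_LAP))

theorem all_QH : St_QH := thm_QH all_QF all_QB thm_Loc

end Pool.Agent.TQF
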