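import Pool.Agent.TQF.StF

/-!
# TQF, part F: assembly
-/

set_option autoImplicit false

namespace Pool.Agent.TQF

open Function MvPolynomial

theorem thm_F1 (h1 : St_F1a) (h2 : St_F1b) (h3 : St_F1c) : St_F1 := by
  intro F _ m q P hP hfree hphi M
  suffices H : ∀ n, ∀ M : Amb q, Fintype.card M.ι = n → P M.ob from H _ M rfl
  intro n
  induction n using Nat.strong_induction_on with
  | _ n ih =>
    intro M hM
    by_cases hne : Nonempty M.ι
    · by_cases hex : ∃ i j, M.a i = M.a j + 1 ∧ M.Y i j ≠ 0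
      · obtain ⟨i, j, hij, hY⟩ := hex
        obtain ⟨M', hc, hs⟩ := h2 F m q M i j hij hY
        exact hP.ext _ _ _ hs hfree (ih _ (hM ▸ hc) M' rfl)
      · obtain ⟨M1, M2, h1', hc, hs⟩ := h3 F m q M hne (fun i j _ hij => by
          by_contra hY
          exact hex ⟨i, j, hij, hY⟩)
        refine hP.ext _ _ _ hs ?_ (ih _ (hM ▸ hc) M2 rfl)
        obtain ⟨N, e, he⟩ := h1 F m q M1 h1'
        exact QM.t3_iso hP e he (hphi N)
    · apply hP.zero
      haveI := not_nonempty_iff.1 hne
      show Subsingleton (M.ι → _)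
      infer_instance

theorem thm_F (h1 : St_F1) (h2 : St_Prj) (h3 : St_Cov) (h4 : St_Prs) (h5 : St_Pd) : St_F := by
  intro F _ m q P hP hfree hphi X
  have hob := h1 F m q P hP hfree hphi
  have key : ∀ (n : ℕ) (M : Amb q) (K : Submodule (MvPolynomial (Fin (m + 1)) F)
      (M.ι → MvPolynomial (Fin (m + 1)) F)) (hK : ∀ v ∈ K, M.Y.mulVec v ∈ K), HSub M.a K →
      Pd (MvPolynomial (Fin (m + 1)) F) n K → P (M.sb K hK) := by
    intro n
    induction n with
    | zero =>
      intro M K hK hH hpd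
      obtain ⟨M', e, he⟩ := h2 F m q M K hK hH (h5.zero _ _ hpd)
      exact QM.t3_iso hP e he (hob M')
    | succ n ih =>
      intro M K hK hH hpd
      obtain ⟨M', K', hK', hH', hf, hs, p, hp, hker⟩ := h3 F m q M K hK hH
      have h6 := h5.step _ _ _ p n hp hpd
      rw [hker] at h6
      exact hP.coker _ _ _ hs (ih M' K' hK' hH' h6) (hf P hP hfree)
  obtain ⟨M, K, hK, hH, hf, hs⟩ := h4 F m q X
  haveI : IsNoetherian (MvPolynomial (Fin (m + 1)) F) (M.ι → MvPolynomial (Fin (m + 1)) F) :=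
    inferInstance
  haveI : Module.Finite (MvPolynomial (Fin (m + 1)) F) K :=
    Module.Finite.of_fg (IsNoetherian.noetherian K)
  obtain ⟨n, hn⟩ := h5.ex F (m + 1) K
  exact hP.coker _ _ _ hs (key n M K hK hH hn) (hf P hP hfree)

end Pool.Agent.TQF
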