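import Pool.Agent.Helper67.Bass.Two3

/-!
# TQF, definitions: finitely generated modules over quadric hypersurface rings

Classes of objects closed under two out of three in short exact sequences, for three kinds of
objects:
* `LMod L`: finitely generated left modules over a ring `L`;
* `QM l g`: finitely generated modules over a commutative ring `S` with an endomorphism `z` such
  that `z ^ 2 + l z + g = 0`;
* `CMod q`: finitely generated `A`-modules with endomorphisms `e_0, …, e_m` satisfying the
  relations of the quadratic data `q`.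
-/

set_option autoImplicit false

namespace Pool.Agent.TQF

open Function MvPolynomial TensorProduct

/-! ### abstract exact structures -/

/-- objects, short exact sequences, zero objects -/
structure EC where
  Ob : Type 1
  ses : Ob → Ob → Ob → Prop
  zero : Ob → Prop

/-- two out of three classes -/
structure EC.T3 (C : EC) (P : C.Ob → Prop) : Prop where
  zero : ∀ X, C.zero X → P X
  ext : ∀ X Y Z, C.ses X Y Z → P X → P Z → P Y
  coker : ∀ X Y Z, C.ses X Y Z → P X → P Y → P Z
  ker : ∀ X Y Z, C.ses X Y Z → P Y → P Z → P X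

/-- the set `U` of objects generates everything -/
def EC.Gen (C : EC) (U : Set C.Ob) : Prop :=
  ∀ P : C.Ob → Prop, C.T3 P → (∀ X ∈ U, P X) → ∀ X, P X

/-- finitely many objects generate everything -/
def EC.FinG (C : EC) : Prop := ∃ U : Set C.Ob, U.Finite ∧ C.Gen U

/-! ### modules over a ring -/

/-- a finitely generated left module -/
structure LMod (L : Type) [Ring L] where
  carrier : Type
  [acg : AddCommGroup carrier]
  [mod : Module L carrier]
  [fin : Module.Finite L carrier]

attribute [instance] LMod.acg LMod.mod LMod.fin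

instance (L : Type) [Ring L] : CoeSort (LMod L) Type := ⟨LMod.carrier⟩

/-- bundling -/
abbrev LMod.of (L : Type) [Ring L] (M : Type) [AddCommGroup M] [Module L M]
    [Module.Finite L M] : LMod L := ⟨M⟩

/-- short exact sequences of modules -/
def LMod.Ses {L : Type} [Ring L] (X Y Z : LMod L) : Prop :=
  ∃ (f : X →ₗ[L] Y) (h : Y →ₗ[L] Z), Injective f ∧ Surjective h ∧ Exact f h

/-- the exact category of finitely generated left modules -/
abbrev modC (L : Type) [Ring L] : EC where
  Ob := LMod L
  ses := LMod.Ses
  zero X := Subsingleton X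

/-! ### modules with a quadratic endomorphism -/

/-- a finitely generated `S`-module with an endomorphism `z` such that `z ^ 2 + l z + g = 0` -/
structure QM {S : Type} [CommRing S] (l g : S) where
  carrier : Type
  [acg : AddCommGroup carrier]
  [mod : Module S carrier]
  [fin : Module.Finite S carrier]
  z : carrier →ₗ[S] carrier
  rel : ∀ x, z (z x) + l • z x + g • x = 0

attribute [instance] QM.acg QM.mod QM.fin

instance {S : Type} [CommRing S] (l g : S) : CoeSort (QM l g) Type := ⟨QM.carrier⟩

/-- short exact sequences -/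
def QM.Ses {S : Type} [CommRing S] {l g : S} (X Y Z : QM l g) : Prop :=
  ∃ (f : X →ₗ[S] Y) (h : Y →ₗ[S] Z), Injective f ∧ Surjective h ∧ Exact f h ∧
    (∀ x, f (X.z x) = Y.z (f x)) ∧ ∀ y, h (Y.z y) = Z.z (h y)

/-- the exact category of finitely generated modules with a quadratic endomorphism -/
abbrev qC {S : Type} [CommRing S] (l g : S) : EC where
  Ob := QM l g
  ses := QM.Ses
  zero X := Subsingleton X

section ind

variable {S : Type} [CommRing S] (l g : S) (M : Type) [AddCommGroup M] [Module S M]

/-- the endomorphism `(x, y) ↦ (-g y, x - l y)` of `M × M` -/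
def QM.indz : M × M →ₗ[S] M × M where
  toFun := fun x => (-(g • x.2), x.1 - l • x.2)
  map_add' := fun x y => by
    ext
    · simp only [Prod.snd_add, smul_add, neg_add_rev, Prod.mk_add_mk]
      abel
    · simp only [Prod.fst_add, Prod.snd_add, smul_add, Prod.mk_add_mk]
      abel
  map_smul' := fun r x => by
    ext
    · simp only [Prod.smul_snd, RingHom.id_apply, Prod.smul_mk, smul_neg]
      rw [smul_comm]
    · simp only [Prod.smul_fst, Prod.smul_snd, RingHom.id_apply, Prod.smul_mk, smul_sub]
      rw [smul_comm]

theorem QM.indz_rel (x : M × M) :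
    QM.indz l g M (QM.indz l g M x) + l • QM.indz l g M x + g • x = 0 := by
  ext
  · simp only [QM.indz, LinearMap.coe_mk, AddHom.coe_mk, smul_sub, smul_neg, Prod.fst_add,
      Prod.smul_fst, Prod.fst_zero]
    rw [smul_comm l g]
    abel
  · simp only [QM.indz, LinearMap.coe_mk, AddHom.coe_mk, Prod.snd_add, Prod.smul_snd,
      Prod.snd_zero, smul_sub]
    abel

/-- the object `M ⊕ z M` induced by a module `M` -/
abbrev QM.ind [Module.Finite S M] : QM l g where
  carrier := M × M
  z := QM.indz l g M
  rel := QM.indz_rel l g M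

end ind

/-! ### quadratic data -/

/-- quadratic data in the `m + 1` homogeneous variables `1, X_1, …, X_m` over `A` -/
structure QD (A : Type) [CommRing A] (m : ℕ) where
  lam : Fin (m + 1) → A
  gam : Fin (m + 1) → Fin (m + 1) → A

section

variable {A : Type} [CommRing A] {m : ℕ}

/-- the vector `(1, X_1, …, X_m)` -/
noncomputable def yv (A : Type) [CommRing A] (m : ℕ) : Fin (m + 1) → MvPolynomial (Fin m) A :=
  Fin.cons 1 X

/-- the linear polynomial `∑ λ_i y_i` -/
noncomputable def QD.l (q : QD A m) : MvPolynomial (Fin m) A := ∑ i, C (q.lam i) * yv A m i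

/-- the quadratic polynomial `∑ γ_ij y_i y_j` -/
noncomputable def QD.g (q : QD A m) : MvPolynomial (Fin m) A :=
  ∑ i, ∑ j, C (q.gam i j) * (yv A m i * yv A m j)

/-- base change of quadratic data -/
def QD.map {A' : Type} [CommRing A'] (φ : A →+* A') (q : QD A m) : QD A' m where
  lam i := φ (q.lam i)
  gam i j := φ (q.gam i j)

/-- a finitely generated `A`-module with operators `e_0, …, e_m` satisfying the relations
`e_i ^ 2 + λ_i e_i + γ_ii = 0` and
`e_i e_j + e_j e_i + λ_i e_j + λ_j e_i + γ_ij + γ_ji = 0` for `i ≠ j` -/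
structure CMod (q : QD A m) where
  carrier : Type
  [acg : AddCommGroup carrier]
  [mod : Module A carrier]
  [fin : Module.Finite A carrier]
  e : Fin (m + 1) → carrier →ₗ[A] carrier
  rel1 : ∀ i x, e i (e i x) + q.lam i • e i x + q.gam i i • x = 0
  rel2 : ∀ i j, i ≠ j → ∀ x, e i (e j x) + e j (e i x) + q.lam i • e j x + q.lam j • e i x +
    (q.gam i j + q.gam j i) • x = 0

attribute [instance] CMod.acg CMod.mod CMod.fin

instance (q : QD A m) : CoeSort (CMod q) Type := ⟨CMod.carrier⟩

/-- short exact sequences -/
def CMod.Ses {q : QD A m} (X Y Z : CMod q) : Prop :=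
  ∃ (f : X →ₗ[A] Y) (h : Y →ₗ[A] Z), Injective f ∧ Surjective h ∧ Exact f h ∧
    (∀ i x, f (X.e i x) = Y.e i (f x)) ∧ ∀ i y, h (Y.e i y) = Z.e i (h y)

/-- the exact category of these modules -/
abbrev cC (q : QD A m) : EC where
  Ob := CMod q
  ses := CMod.Ses
  zero X := Subsingleton X

/-- the polynomial `∑ λ_i X_i` in `m + 1` variables -/
noncomputable def QD.L (q : QD A m) : MvPolynomial (Fin (m + 1)) A := ∑ i, C (q.lam i) * X i

/-- the polynomial `∑ γ_ij X_i X_j` in `m + 1` variables -/
noncomputable def QD.G (q : QD A m) : MvPolynomial (Fin (m + 1)) A :=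
  ∑ i, ∑ j, C (q.gam i j) * (X i * X j)

/-- dehomogenisation `X_0 ↦ 1` -/
noncomputable def dl (A : Type) [CommRing A] (m : ℕ) :
    MvPolynomial (Fin (m + 1)) A →ₐ[A] MvPolynomial (Fin m) A := aeval (yv A m)

/-- the defining relations of the algebra `Lam q` -/
inductive LRel (q : QD A m) : FreeAlgebra A (Fin (m + 1)) → FreeAlgebra A (Fin (m + 1)) → Prop
  | sq (i : Fin (m + 1)) : LRel q (FreeAlgebra.ι A i * FreeAlgebra.ι A i +
      q.lam i • FreeAlgebra.ι A i + algebraMap A _ (q.gam i i)) 0
  | mul (i j : Fin (m + 1)) (h : i ≠ j) : LRel q (FreeAlgebra.ι A i * FreeAlgebra.ι A j +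
      FreeAlgebra.ι A j * FreeAlgebra.ι A i + q.lam i • FreeAlgebra.ι A j +
      q.lam j • FreeAlgebra.ι A i + algebraMap A _ (q.gam i j + q.gam j i)) 0

/-- the algebra whose modules are the objects of `CMod q` (without finiteness) -/
abbrev Lam (q : QD A m) : Type := RingQuot (LRel q)

end

end Pool.Agent.TQF
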