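import Pool.Agent.TQF.StT

/-!
# TQF: the final theorem from the statements of part T
-/

set_option autoImplicit false
set_option linter.style.haveILetI false

namespace Pool.Agent.TQF

open Function MvPolynomial Pool.Agent.Helper11 Pool.Agent.Helper67.Bass

/-- two quadrics -/
theorem fin_b (hTc : St_Tc) (hTb : St_Tb) (k : Type) [Field k] [Finite k] (n : ℕ)
    (f g : MvPolynomial (Fin n) k) (hf : f.totalDegree ≤ 2) (hg : g.totalDegree ≤ 2) :
    AddGroup.FG (G0 (MvPolynomial (Fin n) k ⧸ Ideal.span {f, g})) := by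
  have h1 : FinGn (MvPolynomial (Fin 2) (MvPolynomial (Fin n) k) ⧸
      Ideal.span {bigF (![f, g] : Fin 2 → MvPolynomial (Fin n) k)}) := by
    apply hTc k n 1
    intro d hd
    unfold bigF at hd ⊢
    rw [Fin.sum_univ_two] at hd ⊢
    simp only [Matrix.cons_val_zero, Matrix.cons_val_one] at hd ⊢
    rw [mul_comm (X 0), mul_comm (X 1), coeff_add, coeff_C_mul, coeff_C_mul, coeff_X,
      coeff_X] at hd ⊢
    by_cases h0 : Finsupp.single 0 1 = d
    · subst h0
      have h01 : ¬ Finsupp.single (1 : Fin 2) 1 = Finsupp.single (0 : Fin 2) 1 := by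
        intro h
        have := congrArg (fun e : Fin 2 →₀ ℕ => e 0) h
        simp at this
      rw [if_pos rfl, if_neg h01, mul_one, mul_zero, add_zero, Finsupp.degree_single]
      exact ⟨le_rfl, by omega⟩
    · by_cases h1 : Finsupp.single 1 1 = d
      · subst h1
        rw [if_neg h0, if_pos rfl, mul_one, mul_zero, zero_add, Finsupp.degree_single]
        exact ⟨le_rfl, by omega⟩
      · rw [if_neg h0, if_neg h1, mul_zero, mul_zero, add_zero] at hd
        exact absurd rfl hd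
  have h2 := hTb (MvPolynomial (Fin n) k) (Fin 2) ![f, g] h1.fg
  have h3 : Set.range (![f, g] : Fin 2 → MvPolynomial (Fin n) k) = {f, g} := by
    rw [Matrix.range_cons, Matrix.range_cons, Matrix.range_empty, Set.union_empty, Set.insert_eq]
  rwa [h3] at h2

theorem fin_all (hTa : St_Ta) (hTb : St_Tb) (hTc : St_Tc) (hTf : St_Tf) :
    (∀ (R : Type) [CommRing R] [Algebra.FiniteType ℤ R],
      (∀ (P : Ideal R) [P.IsPrime], KroneckerLeOne (FractionRing (R ⧸ P))) →
      ∀ (n : ℕ) (f : MvPolynomial (Fin n) R), f.totalDegree ≤ 2 →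
        AddGroup.FG (G0 (MvPolynomial (Fin n) R ⧸ Ideal.span {f}))) ∧
    (∀ (k : Type) [Field k] [Finite k] (n : ℕ) (f g : MvPolynomial (Fin n) k),
      f.totalDegree ≤ 2 → g.totalDegree ≤ 2 →
        AddGroup.FG (G0 (MvPolynomial (Fin n) k ⧸ Ideal.span {f, g}))) ∧
    (∀ (k : Type) [Field k] [Finite k] (n N : ℕ) (F : MvPolynomial (Fin 2 ⊕ Fin n) k),
      F.totalDegree ≤ N + 2 →
      F ∈ (Ideal.span {X (Sum.inl 0), X (Sum.inl 1)} :
        Ideal (MvPolynomial (Fin 2 ⊕ Fin n) k)) ^ N →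
      AddGroup.FG (G0 (MvPolynomial (Fin 2 ⊕ Fin n) k ⧸ Ideal.span {F}))) :=
  ⟨fun R _ _ h n f hf => (hTa R h n f hf).fg, fun k _ _ n f g hf hg => fin_b hTc hTb k n f g hf hg,
    fun k _ _ n N F hF hm => (hTf k n N F hF hm).fg⟩

end Pool.Agent.TQF
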