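import Pool.Agent.BassH.All
import Pool.Agent.TQF.Final0

/-!
# TQF: `K₁` of the complements
-/

set_option autoImplicit false
set_option linter.style.haveILetI false

namespace Pool.Agent.TQF

open Function MvPolynomial Pool.Agent.Helper11 Pool.Agent.Helper67.Bass BassH

theorem K1_higman : St_Higman := thm_Higman thm_KcMul thm_KcIdx thm_KcBlock thm_KcGen

theorem K1_nil : BassH.St_Nil :=
  BassH.thm_Nil thm_RL (thm_NilWD thm_KcMul thm_KcIdx thm_KcBlock) thm_NilExt
    (thm_NilRes thm_Shift thm_SF)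

theorem K1_euc : St_KEuc := thm_KEuc thm_KcMul thm_KcIdx thm_KcBlock thm_KcGen

/-- a Euclidean domain with finitely generated unit group -/
theorem K1_units (R : Type) [EuclideanDomain R] (h : Group.FG Rˣ) : AddGroup.FG (K1 R) := by
  have hu : ∀ u : Rˣ, IsUnit (Matrix.of fun _ _ : Fin 1 => (u : R)) := by
    intro u
    rw [Matrix.isUnit_iff_isUnit_det, Matrix.det_unique]
    exact u.isUnit
  let f : Additive Rˣ →+ K1 R := AddMonoidHom.mk'
    (fun u => kc (Matrix.of fun _ _ : Fin 1 => ((Additive.toMul u : Rˣ) : R))) (fun u v => by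
      rw [← thm_KcMul R (Fin 1) _ _ (hu _) (hu _)]
      congr 1
      ext i j
      rw [Matrix.mul_apply]
      simp)
  haveI : AddGroup.FG (Additive Rˣ) := GroupFG.iff_add_fg.1 h
  refine AddGroup.fg_of_surjective (f := f) (fun x => ?_)
  obtain ⟨u, hx⟩ := K1_euc R x
  exact ⟨Additive.ofMul u, hx.symm⟩

theorem K1_pid_ffr (R : Type) [CommRing R] [IsDomain R] [IsPrincipalIdealRing R] (n : ℕ) :
    AllFFR (MvPolynomial (Fin n) R) := by
  induction n with
  | zero => exact AllFFR.of_equiv (isEmptyRingEquiv R (Fin 0)).symm (AllFFR.pid R)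
  | succ n ih =>
    exact AllFFR.of_equiv (finSuccEquiv R n).toRingEquiv.symm (AllFFR.polynomial ih)

theorem K1_poly (R : Type) [CommRing R] [IsDomain R] [IsPrincipalIdealRing R]
    (h : AddGroup.FG (K1 R)) (n : ℕ) : AddGroup.FG (K1 (MvPolynomial (Fin n) R)) := by
  induction n with
  | zero => exact kpoly_equiv thm_KcGen (isEmptyRingEquiv R (Fin 0)).symm h
  | succ n ih =>
    exact kpoly_equiv thm_KcGen (finSuccEquiv R n).toRingEquiv.symm
      (kpoly_poly K1_higman K1_nil _ (K1_pid_ffr R n) ih)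

/-- `K₁` of the complement of a hypersurface -/
theorem K1_compl (R : Type) [CommRing R] [IsDomain R] [IsPrincipalIdealRing R]
    (h : AddGroup.FG (K1 R)) (σ : Type) [Finite σ] (F : MvPolynomial σ R) (hF : F ≠ 0)
    (h0 : AddGroup.FG (G0 (MvPolynomial σ R ⧸ Ideal.span {F}))) :
    AddGroup.FG (K1 (Localization.Away F)) := by
  obtain ⟨n, ⟨e⟩⟩ := Finite.exists_equiv_fin σ
  exact ((all_Loc (MvPolynomial σ R) (Localization.Away F) F hF
    (AllFFR.of_equiv (renameEquiv R e).toRingEquiv.symm (K1_pid_ffr R n))).1 h0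
    (kpoly_equiv thm_KcGen (renameEquiv R e).toRingEquiv.symm (K1_poly R h n)))

end Pool.Agent.TQF
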