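import Pool.Agent.TQF.Noeth
import Pool.Agent.TQF.K1

/-!
# TQF: the final theorem, assembly
-/

set_option autoImplicit false
set_option linter.style.haveILetI false

namespace Pool.Agent.TQF

open Function MvPolynomial Pool.Agent.Helper11 Pool.Agent.Helper67.Bass

theorem fin_reindex {R : Type} [CommRing R] {σ τ : Type} (e : σ ≃ τ) (F : MvPolynomial σ R)
    (h : FinGn (MvPolynomial τ R ⧸ Ideal.span {rename e F})) :
    FinGn (MvPolynomial σ R ⧸ Ideal.span {F}) := by
  refine FinGn.of_equiv (Ideal.quotientEquiv (Ideal.span {F}) (Ideal.span {rename e F})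
    (renameEquiv R e).toRingEquiv ?_).symm h
  rw [Ideal.map_span, Set.image_singleton]
  rfl

/-- the ideal generated by the variables `x_0, …, x_e` -/
noncomputable def xIdeal (R : Type) [CommRing R] (e n : ℕ) :
    Ideal (MvPolynomial (Fin (e + 1) ⊕ Fin n) R) :=
  Ideal.span (Set.range fun i => X (Sum.inl i))

theorem totDeg_X_le {R : Type} [CommRing R] {σ : Type} (i : σ) :
    (X i : MvPolynomial σ R).totalDegree ≤ 1 := by
  classical
  rw [MvPolynomial.totalDegree]
  refine Finset.sup_le fun d hd => ?_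
  have h1 := MvPolynomial.support_monomial_subset hd
  rw [Finset.mem_singleton] at h1
  subst h1
  simp [Finsupp.sum_single_index]

theorem fin_zero (hTa : St_Ta) (hPow : St_Pow) (R : Type) [CommRing R] [Algebra.FiniteType ℤ R]
    (hR : ∀ (P : Ideal R) [P.IsPrime], KroneckerLeOne (FractionRing (R ⧸ P))) (n N : ℕ)
    (F : MvPolynomial (Fin (0 + 1) ⊕ Fin n) R) (hF : F.totalDegree ≤ N + 2)
    (hm : F ∈ xIdeal R 0 n ^ N) :
    FinGn (MvPolynomial (Fin (0 + 1) ⊕ Fin n) R ⧸ Ideal.span {F}) := by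
  haveI : IsNoetherianRing R := Algebra.FiniteType.isNoetherianRing ℤ R
  have hq : ∀ q : MvPolynomial (Fin (0 + 1) ⊕ Fin n) R, q.totalDegree ≤ 2 →
      FinGn (MvPolynomial (Fin (0 + 1) ⊕ Fin n) R ⧸ Ideal.span {q}) := by
    intro q hq
    refine fin_reindex finSumFinEquiv q (hTa R hR _ _ ?_)
    exact (totalDegree_rename_le _ _).trans hq
  have hx : xIdeal R 0 n = Ideal.span {X (Sum.inl 0)} := by
    unfold xIdeal
    congr 1
    ext p
    constructor
    · rintro ⟨i, rfl⟩
      rw [Fin.fin_one_eq_zero i]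
      rfl
    · rintro rfl
      exact ⟨0, rfl⟩
  rw [hx, Ideal.span_singleton_pow] at hm
  obtain ⟨q, rfl⟩ := Ideal.mem_span_singleton'.1 hm
  have hdq : q.totalDegree ≤ 2 := by
    rw [MvPolynomial.totalDegree]
    refine Finset.sup_le fun d hd => ?_
    have h1 : coeff (d + Finsupp.single (Sum.inl 0) N) (q * X (Sum.inl 0) ^ N) ≠ 0 := by
      rw [X_pow_eq_monomial, coeff_mul_monomial, mul_one]
      exact mem_support_iff.1 hd
    have h2 : (d + Finsupp.single (Sum.inl 0) N).degree ≤ N + 2 :=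
      (le_totalDegree (mem_support_iff.2 h1)).trans hF
    rw [map_add, Finsupp.degree_single] at h2
    have h3 : d.degree ≤ 2 := by omega
    exact h3
  rw [mul_comm]
  refine hPow _ _ q N (hq _ ?_) (hq q hdq)
  exact (totDeg_X_le _).trans (by norm_num)

theorem fin_one (hTf : St_Tf) (R : Type) [CommRing R] [Finite R] (n N : ℕ)
    (F : MvPolynomial (Fin (1 + 1) ⊕ Fin n) R) (hF : F.totalDegree ≤ N + 2)
    (hm : F ∈ xIdeal R 1 n ^ N) :
    FinGn (MvPolynomial (Fin (1 + 1) ⊕ Fin n) R ⧸ Ideal.span {F}) := by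
  haveI : IsNoetherianRing R := inferInstance
  refine fin_noeth F fun I hI _ => ?_
  obtain ⟨e⟩ := noeth_quot F I
  haveI : I.IsMaximal := inferInstance
  haveI hfin : Finite (R ⧸ I) := Finite.of_surjective _ (Ideal.Quotient.mk_surjective (I := I))
  letI : Field (R ⧸ I) := Ideal.Quotient.field I
  refine FinGn.of_equiv e (hTf (R ⧸ I) n N _ ?_ ?_)
  · exact (Finset.sup_mono (support_map_subset _ F)).trans hF
  · have h1 := Ideal.mem_map_of_mem (MvPolynomial.map (Ideal.Quotient.mk I)) hm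
    rw [Ideal.map_pow] at h1
    have h2 : (xIdeal R 1 n).map (MvPolynomial.map (Ideal.Quotient.mk I)) ≤
        Ideal.span {X (Sum.inl 0), X (Sum.inl 1)} := by
      unfold xIdeal
      rw [Ideal.map_span, Ideal.span_le]
      rintro _ ⟨_, ⟨i, rfl⟩, rfl⟩
      rw [map_X]
      apply Ideal.subset_span
      by_cases h : i = 0
      · subst h; exact Or.inl rfl
      · have h2 := Fin.eq_one_of_ne_zero _ h
        subst h2; exact Or.inr rfl
    exact Ideal.pow_right_mono h2 N h1

/-- the hypothesis on the base ring: `e = 0` and all residue fields of `R` have Kronecker dimension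
at most one, or `e = 1` and `R` is finite -/
def BaseOK (R : Type) [CommRing R] (e : ℕ) : Prop :=
  (e = 0 ∧ ∀ (P : Ideal R) [P.IsPrime], KroneckerLeOne (FractionRing (R ⧸ P))) ∨
    (e = 1 ∧ Finite R)

theorem fin_i (hTa : St_Ta) (hPow : St_Pow) (hTf : St_Tf) (R : Type) [CommRing R]
    [Algebra.FiniteType ℤ R] (e : ℕ) (he : BaseOK R e) (n N : ℕ)
    (F : MvPolynomial (Fin (e + 1) ⊕ Fin n) R) (hF : F.totalDegree ≤ N + 2)
    (hm : F ∈ xIdeal R e n ^ N) :
    FinGn (MvPolynomial (Fin (e + 1) ⊕ Fin n) R ⧸ Ideal.span {F}) := by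
  rcases he with ⟨rfl, h⟩ | ⟨rfl, h⟩
  · exact fin_zero hTa hPow R h n N F hF hm
  · exact fin_one hTf R n N F hF hm

theorem fin_ii (hTa : St_Ta) (hPow : St_Pow) (hTf : St_Tf) (hTb : St_Tb) (R : Type) [CommRing R]
    [Algebra.FiniteType ℤ R] (e : ℕ) (he : BaseOK R e) (n : ℕ)
    (f : Fin (e + 1) → MvPolynomial (Fin n) R) (hf : ∀ i, (f i).totalDegree ≤ 2) :
    AddGroup.FG (G0 (MvPolynomial (Fin n) R ⧸ Ideal.span (Set.range f))) := by
  haveI : IsNoetherianRing R := Algebra.FiniteType.isNoetherianRing ℤ R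
  apply hTb
  let F : MvPolynomial (Fin (e + 1) ⊕ Fin n) R :=
    ∑ i, X (Sum.inl i) * rename Sum.inr (f i)
  have h1 : FinGn (MvPolynomial (Fin (e + 1) ⊕ Fin n) R ⧸ Ideal.span {F}) := by
    apply fin_i hTa hPow hTf R e he n 1
    · refine (totalDegree_finsetSum _ _).trans (Finset.sup_le fun i _ => ?_)
      refine (totalDegree_mul _ _).trans ?_
      have h2 := totDeg_X_le (R := R) (Sum.inl i : Fin (e + 1) ⊕ Fin n)
      have h3 := (totalDegree_rename_le (R := R) (Sum.inr : Fin n → Fin (e + 1) ⊕ Fin n)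
        (f i)).trans (hf i)
      omega
    · rw [pow_one]
      unfold xIdeal
      exact Ideal.sum_mem _ fun i _ => Ideal.mul_mem_right _ _ (Ideal.subset_span ⟨i, rfl⟩)
  refine (FinGn.of_equiv (Ideal.quotientEquiv (Ideal.span {F}) (Ideal.span {bigF f})
    (sumRingEquiv R (Fin (e + 1)) (Fin n)) ?_) h1).fg
  rw [Ideal.map_span, Set.image_singleton]
  congr 2
  have h4 : ∀ p : MvPolynomial (Fin n) R,
      sumRingEquiv R (Fin (e + 1)) (Fin n) (rename Sum.inr p) = C p := by
    intro p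
    induction p using MvPolynomial.induction_on with
    | C a => rw [rename_C, sumRingEquiv_C]
    | add p q hp hq => rw [map_add, map_add, hp, hq, C_add]
    | mul_X p i hp => rw [map_mul, map_mul, hp, rename_X, sumRingEquiv_X_inr, C_mul]
  show bigF f = sumRingEquiv R (Fin (e + 1)) (Fin n) F
  rw [map_sum]
  unfold bigF
  refine Finset.sum_congr rfl fun i _ => ?_
  rw [map_mul, sumRingEquiv_X_inl, h4]

/-- `R` is a Euclidean domain with finitely generated group of units -/
def EuclFG (R : Type) [CommRing R] : Prop :=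
  ∃ E : EuclideanDomain R, E.toCommRing = ‹CommRing R› ∧ Group.FG Rˣ

theorem fin_iii (R : Type) [CommRing R] (hE : EuclFG R) (σ : Type) [Finite σ]
    (F : MvPolynomial σ R) (hF : F ≠ 0)
    (h0 : AddGroup.FG (G0 (MvPolynomial σ R ⧸ Ideal.span {F}))) :
    AddGroup.FG (K1 (Localization.Away F)) := by
  obtain ⟨E, rfl, hu⟩ := hE
  exact K1_compl R (K1_units R hu) σ F hF h0

end Pool.Agent.TQF
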