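import Pool.Agent.TQF.StN

/-!
# TQF, module NWed: Wedderburn theory for finite dimensional algebras
-/

set_option autoImplicit false

namespace Pool.Agent.TQF

open Function

theorem thm_Wed : St_Wed := by
  intro K _ Λ _ _ _
  have : IsArtinianRing Λ := IsArtinianRing.of_finite K Λ
  have hs : IsSemisimpleRing (Λ ⧸ Ring.jacobson Λ) := IsSemiprimaryRing.isSemisimpleRing
  have hn : IsNilpotent (Ring.jacobson Λ) := IsSemiprimaryRing.isNilpotent
  have : Module.Finite K (Λ ⧸ Ring.jacobson Λ) :=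
    Module.Finite.of_surjective (Ideal.Quotient.mkₐ K (Ring.jacobson Λ)).toLinearMap
      (Ideal.Quotient.mkₐ_surjective K _)
  obtain ⟨n, D, d, h1, h2, h3, -, ⟨e⟩⟩ :=
    IsSemisimpleRing.exists_algEquiv_pi_matrix_divisionRing_finite K (Λ ⧸ Ring.jacobson Λ)
  refine ⟨n, d, D, h1, h2, h3, e.toAlgHom.comp (Ideal.Quotient.mkₐ K (Ring.jacobson Λ)), ?_, ?_⟩
  · intro x
    obtain ⟨y, hy⟩ := Ideal.Quotient.mkₐ_surjective K (Ring.jacobson Λ) (e.symm x)
    refine ⟨y, ?_⟩
    show e (Ideal.Quotient.mkₐ K (Ring.jacobson Λ) y) = x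
    rw [hy, AlgEquiv.apply_symm_apply]
  · have hk : RingHom.ker (e.toAlgHom.comp (Ideal.Quotient.mkₐ K (Ring.jacobson Λ))) =
        Ring.jacobson Λ := by
      ext x
      rw [RingHom.mem_ker]
      show e (Ideal.Quotient.mk (Ring.jacobson Λ) x) = 0 ↔ _
      rw [map_eq_zero_iff e e.injective]
      exact Ideal.Quotient.eq_zero_iff_mem
    rw [hk]
    exact hn

end Pool.Agent.TQF
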