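import Pool.Agent.TQF.StT

/-!
# TQF: noetherian induction on the ideals of the base ring
-/

set_option autoImplicit false
set_option linter.style.haveILetI false

namespace Pool.Agent.TQF

open Function MvPolynomial Pool.Agent.Helper11 Pool.Agent.Helper67.Bass

theorem noeth_eq {R : Type} [CommRing R] {σ : Type} (F : MvPolynomial σ R) (I : Ideal R) (x : R) :
    (I.map (C : R →+* MvPolynomial σ R) ⊔ Ideal.span {F}) ⊔ Ideal.span {C x} =
      (I ⊔ Ideal.span {x}).map (C : R →+* MvPolynomial σ R) ⊔ Ideal.span {F} := by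
  rw [Ideal.map_sup, Ideal.map_span, Set.image_singleton, sup_right_comm]

/-- noetherian induction -/
theorem fin_noeth {R : Type} [CommRing R] [IsNoetherianRing R] {σ : Type} [Finite σ]
    (F : MvPolynomial σ R)
    (h : ∀ I : Ideal R, I.IsPrime →
      (∀ J : Ideal R, I < J → FinGn (MvPolynomial σ R ⧸
        (J.map (C : R →+* MvPolynomial σ R) ⊔ Ideal.span {F}))) →
      FinGn (MvPolynomial σ R ⧸ (I.map (C : R →+* MvPolynomial σ R) ⊔ Ideal.span {F}))) :
    FinGn (MvPolynomial σ R ⧸ Ideal.span {F}) := by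
  have key : ∀ I : Ideal R, FinGn (MvPolynomial σ R ⧸
      (I.map (C : R →+* MvPolynomial σ R) ⊔ Ideal.span {F})) := by
    intro I
    refine IsNoetherian.induction (R := R) (M := R)
      (P := fun I : Ideal R => FinGn (MvPolynomial σ R ⧸
        (I.map (C : R →+* MvPolynomial σ R) ⊔ Ideal.span {F}))) ?_ I
    intro (I : Ideal R) ih
    by_cases htop : I = ⊤
    · subst htop
      have h1 : (⊤ : Ideal R).map (C : R →+* MvPolynomial σ R) ⊔ Ideal.span {F} = ⊤ := by
        rw [Ideal.map_top, top_sup_eq]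
      haveI : Subsingleton (MvPolynomial σ R ⧸
          ((⊤ : Ideal R).map (C : R →+* MvPolynomial σ R) ⊔ Ideal.span {F})) :=
        Ideal.Quotient.subsingleton_iff.2 h1
      exact FinGn.of_subsingleton _
    by_cases hprime : I.IsPrime
    · exact h I hprime ih
    · obtain ⟨x, hxI, y, hyI, hxy⟩ : ∃ x, x ∉ I ∧ ∃ y, y ∉ I ∧ x * y ∈ I := by
        by_contra hcon
        apply hprime
        refine ⟨htop, fun {x y} hxy => ?_⟩
        by_contra hne
        rw [not_or] at hne
        exact hcon ⟨x, hne.1, y, hne.2, hxy⟩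
      have hlt : ∀ s : R, s ∉ I → I < I ⊔ Ideal.span {s} := by
        intro s hsI
        refine lt_of_le_of_ne le_sup_left (fun h2 => hsI ?_)
        rw [h2]
        exact Ideal.mem_sup_right (Ideal.mem_span_singleton_self s)
      have h1 := ih _ (hlt x hxI)
      have h2 := ih _ (hlt y hyI)
      rw [← noeth_eq] at h1 h2
      refine FinGn.of_mul
        (I := (Ideal.span {(C x : MvPolynomial σ R)}).map (Ideal.Quotient.mk
          (I.map (C : R →+* MvPolynomial σ R) ⊔ Ideal.span {F})))
        (J := (Ideal.span {(C y : MvPolynomial σ R)}).map (Ideal.Quotient.mk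
          (I.map (C : R →+* MvPolynomial σ R) ⊔ Ideal.span {F}))) ?_
        (FinGn.of_equiv (DoubleQuot.quotQuotEquivQuotSup _ (Ideal.span {C x})).symm h1)
        (FinGn.of_equiv (DoubleQuot.quotQuotEquivQuotSup _ (Ideal.span {C y})).symm h2)
      rw [← Ideal.map_mul, Ideal.span_singleton_mul_span_singleton, Ideal.map_span,
        Set.image_singleton, Ideal.span_singleton_eq_bot, Ideal.Quotient.eq_zero_iff_mem, ← C_mul]
      exact Ideal.mem_sup_left (Ideal.mem_map_of_mem _ hxy)
  have h0 := key ⊥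
  rwa [Ideal.map_bot, bot_sup_eq] at h0

/-- the case of a prime ideal -/
theorem noeth_quot {R : Type} [CommRing R] {σ : Type} (F : MvPolynomial σ R) (I : Ideal R) :
    Nonempty ((MvPolynomial σ (R ⧸ I) ⧸
        Ideal.span {MvPolynomial.map (Ideal.Quotient.mk I) F}) ≃+*
      (MvPolynomial σ R ⧸ (I.map (C : R →+* MvPolynomial σ R) ⊔ Ideal.span {F}))) := by
  let π : MvPolynomial σ R →+* MvPolynomial σ (R ⧸ I) := MvPolynomial.map (Ideal.Quotient.mk I)
  have hπ : Surjective π := MvPolynomial.map_surjective _ Ideal.Quotient.mk_surjective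
  have hker : RingHom.ker π = I.map (C : R →+* MvPolynomial σ R) := by
    show RingHom.ker (MvPolynomial.map (Ideal.Quotient.mk I)) = _
    rw [MvPolynomial.ker_map, Ideal.mk_ker]
  have h1 : Ideal.span {MvPolynomial.map (Ideal.Quotient.mk I) F} =
      (Ideal.span {F}).map π := by
    rw [Ideal.map_span, Set.image_singleton]
  let ρ : MvPolynomial σ R →+* (MvPolynomial σ (R ⧸ I) ⧸
      Ideal.span {MvPolynomial.map (Ideal.Quotient.mk I) F}) :=
    (Ideal.Quotient.mk _).comp π
  have hρ : Surjective ρ := Ideal.Quotient.mk_surjective.comp hπ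
  have hkρ : RingHom.ker ρ = I.map (C : R →+* MvPolynomial σ R) ⊔ Ideal.span {F} := by
    ext x
    rw [RingHom.mem_ker]
    show Ideal.Quotient.mk _ (π x) = 0 ↔ _
    rw [Ideal.Quotient.eq_zero_iff_mem, h1, ← Ideal.mem_comap,
      Ideal.comap_map_of_surjective π hπ, sup_comm]
    show x ∈ RingHom.ker π ⊔ Ideal.span {F} ↔ _
    rw [hker]
  exact ⟨((Ideal.quotEquivOfEq hkρ.symm).trans
    (RingHom.quotientKerEquivOfSurjective hρ)).symm⟩

end Pool.Agent.TQF
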