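import Pool.Agent.TQF.StQ2
import Pool.Agent.TQF.QH
import Pool.Agent.TQF.Final2

/-!
# TQF, part Q2: noetherian induction, arbitrary weights, and the final theorem
-/

set_option autoImplicit false
set_option linter.style.haveILetI false

namespace Pool.Agent.TQF

open Function MvPolynomial Pool.Agent.Helper11 Pool.Agent.Helper67.Bass

theorem thm_QH2 (h1 : St_QF2) (h2 : St_QB) (h3 : St_Loc) : St_QH2 := by
  classical
  intro ι _ _ _ A _ _ 𝒜 _ n f γ α hdeg hhom' hcond
  have hhom : Hom2 𝒜 f γ 0 α := by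
    intro d
    rw [smul_zero, sub_zero]
    exact hhom' d
  have : IsNoetherianRing A := Algebra.FiniteType.isNoetherianRing ℤ A
  have hrat : ∀ (P : Ideal A) [P.IsPrime], P.IsHomogeneous 𝒜 →
      RationalOverKroneckerLeOne (K0 𝒜 (toFrac P)) := by
    intro P hP hPh
    obtain h | h := hcond P hPh
    · obtain ⟨Q, hQ, hQP, h⟩ := h
      refine (KroneckerLeOne.mono 𝒜 (toFrac Q) (toFrac P) ?_ h).ratSmall
      rw [ker_toFrac, ker_toFrac]; exact hQP
    · exact h.1
  have hquot := finGn_graded_quotient 𝒜 hrat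
  have key : ∀ I : Ideal A, I.IsHomogeneous 𝒜 → FinGn (MvPolynomial (Fin n) A ⧸
      (I.map (C : A →+* MvPolynomial (Fin n) A) ⊔ Ideal.span {f})) := by
    intro I
    refine IsNoetherian.induction (R := A) (M := A)
      (P := fun I : Ideal A => I.IsHomogeneous 𝒜 → FinGn (MvPolynomial (Fin n) A ⧸
        (I.map (C : A →+* MvPolynomial (Fin n) A) ⊔ Ideal.span {f}))) ?_ I
    intro (I : Ideal A) ih hI
    by_cases htop : I = ⊤
    · subst htop
      have : Subsingleton (MvPolynomial (Fin n) A ⧸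
          ((⊤ : Ideal A).map (C : A →+* MvPolynomial (Fin n) A) ⊔ Ideal.span {f})) := by
        apply Ideal.Quotient.subsingleton_iff.2
        rw [Ideal.map_top, top_sup_eq]
      exact FinGn.of_subsingleton _
    by_cases hprime : I.IsPrime
    · obtain h | h := hcond I hI
      · obtain ⟨Q, hQ, hQI, h⟩ := h
        have hk := ker_toFrac I
        have hkr : KroneckerLeOne (K0 𝒜 (toFrac I)) := by
          refine KroneckerLeOne.mono 𝒜 (toFrac Q) (toFrac I) ?_ h
          rw [ker_toFrac, ker_toFrac]; exact hQI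
        obtain ⟨s, hs, hs0, hV⟩ := h1 ι A 𝒜 (FractionRing (A ⧸ I)) (toFrac I)
          (by rw [hk]; exact hI) hkr n f γ 0 α hdeg hhom
        have hsI : s ∉ I := by
          intro h1
          rw [← hk] at h1
          exact hs0 h1
        have hq := ih _ (TTa_lt I hsI) (isHomogeneous_sup_span 𝒜 hI hs)
        have := QH_loc h3 (toFrac I) s hs0 f hV (by rw [hk]; exact hq)
        rwa [hk] at this
      · obtain ⟨-, S, hS⟩ := h
        refine h2 ι A 𝒜 hquot n f γ 0 α (Finset.univ.filter (· ∈ S))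
          (Finset.univ.filter (· ∉ S)) I hI hdeg hhom ?_ ?_ ?_
        · exact Finset.filter_union_filter_not_eq _ _
        · intro i hi j hj
          rw [Finset.mem_filter] at hi hj
          exact hS i j (by simp [hi.2, hj.2])
        · intro i hi j hj
          rw [Finset.mem_filter] at hi hj
          exact hS i j (by simp [hi.2, hj.2])
    · have hex : ∃ x y : A, SetLike.IsHomogeneousElem 𝒜 x ∧ SetLike.IsHomogeneousElem 𝒜 y ∧
          x * y ∈ I ∧ x ∉ I ∧ y ∉ I := by
        by_contra hcon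
        apply hprime
        apply hI.isPrime_of_homogeneous_mem_or_mem htop
        intro x y hx hy hxy
        by_contra hne
        push Not at hne
        exact hcon ⟨x, y, hx, hy, hxy, hne.1, hne.2⟩
      obtain ⟨x, y, hx, hy, hxy, hxI, hyI⟩ := hex
      exact TTa_step f I x y hxy (ih _ (TTa_lt I hxI) (isHomogeneous_sup_span 𝒜 hI hx))
        (ih _ (TTa_lt I hyI) (isHomogeneous_sup_span 𝒜 hI hy))
  have e : (⊥ : Ideal A).map (C : A →+* MvPolynomial (Fin n) A) ⊔ Ideal.span {f} =
      Ideal.span {f} := by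
    rw [Ideal.map_bot, bot_sup_eq]
  have := key ⊥ (Ideal.IsHomogeneous.bot 𝒜)
  rwa [e] at this

/-- the final theorem -/
theorem fin_QT2 (hQH : St_QH2) (hTb : St_Tb) {ι : Type} [AddCommGroup ι] [LinearOrder ι]
    [IsOrderedAddMonoid ι] {A : Type} [CommRing A] [Algebra.FiniteType ℤ A] {r n : ℕ}
    (ℬ : ι → AddSubgroup (MvPolynomial (Fin r) A)) [GradedRing ℬ]
    (f : Fin r → MvPolynomial (Fin n) A) (hf : ∀ l, (f l).totalDegree ≤ 2) (γ : ι)
    (α : Fin n → ι)
    (hom : ∀ d : Fin n →₀ ℕ, ∑ l, X l * C ((f l).coeff d) ∈ ℬ (γ - ∑ i, d i • α i))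
    (h : ∀ (P : Ideal (MvPolynomial (Fin r) A)) [P.IsPrime], P.IsHomogeneous ℬ →
      (∃ (Q : Ideal (MvPolynomial (Fin r) A)) (_ : Q.IsPrime), Q ≤ P ∧
        KroneckerLeOne (K0 ℬ (toFrac Q))) ∨
      (RationalOverKroneckerLeOne (K0 ℬ (toFrac P)) ∧ ∃ S : Set (Fin n), ∀ i j, (i ∈ S ↔ j ∈ S) →
        ∑ l, X l * C ((f l).coeff (Finsupp.single i 1 + Finsupp.single j 1)) ∈ P)) :
    AddGroup.FG (G0 (MvPolynomial (Fin n) A ⧸ Ideal.span (Set.range f))) := by
  haveI : IsNoetherianRing A := Algebra.FiniteType.isNoetherianRing ℤ A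
  have hft : @Algebra.FiniteType ℤ (MvPolynomial (Fin r) A) _ _ (Ring.toIntAlgebra _) := by
    have h0 : Algebra.FiniteType ℤ (MvPolynomial (Fin r) A) :=
      Algebra.FiniteType.trans (S := A) (inferInstance : Algebra.FiniteType ℤ A)
        (inferInstance : Algebra.FiniteType A (MvPolynomial (Fin r) A))
    have key : ∀ (i j : Algebra ℤ (MvPolynomial (Fin r) A)),
        @Algebra.FiniteType ℤ (MvPolynomial (Fin r) A) _ _ i →
        @Algebra.FiniteType ℤ (MvPolynomial (Fin r) A) _ _ j := by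
      intro i j h
      have e : i = j := Subsingleton.elim _ _
      rw [← e]
      exact h
    exact key _ _ h0
  apply hTb
  have h1 : FinGn (MvPolynomial (Fin n) (MvPolynomial (Fin r) A) ⧸ Ideal.span {cay f}) := by
    refine @hQH ι _ _ _ (MvPolynomial (Fin r) A) _ hft ℬ _ n (cay f) γ α (deg_cay f hf) ?_ ?_
    · intro d
      rw [coeff_cay]
      exact hom d
    · intro P _ hP
      obtain h1 | ⟨h1, S, hS⟩ := h P hP
      · exact Or.inl h1
      · refine Or.inr ⟨h1, S, fun i j hij => ?_⟩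
        rw [coeff_cay]
        exact hS i j hij
  refine (FinGn.of_equiv (Ideal.quotientEquiv (Ideal.span {cay f}) (Ideal.span {bigF f})
    (commAlgEquiv A (Fin n) (Fin r)).toRingEquiv ?_) h1).fg
  rw [Ideal.map_span, Set.image_singleton]
  congr 2
  exact (comm_cay f).symm

end Pool.Agent.TQF
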