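import Pool.Agent.TQF.All2
import Pool.Agent.TQF.QH2
import Pool.Agent.QTG.All

/-!
# Finite generation of `K'₀` for systems of quadrics over graded rings of complexity at most one
-/

namespace Pool.Agent.Results.MP_e17fa799_al.QuadricSystems

open Pool.Agent.Helper11 Pool.Agent.Helper67.Bass MvPolynomial

/-- Let `A` be a finitely generated commutative ring and let `f_1, …, f_r ∈ A[y_1, …, y_n]` be
polynomials of degree at most two. Suppose that `B = A[x_1, …, x_r]` has a grading by a totally
ordered abelian group for which the form `F = ∑ x_l f_l` is homogeneous for suitable weights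
`α_i` of the variables `y_i`: the coefficient of `y^d` in `F` is homogeneous of degree
`γ - ∑ d_i α_i`. Suppose that for every homogeneous prime ideal `P` of `B`
* `K0 (Q)` (the field of homogeneous fractions of degree zero of `B ⧸ Q`) has Kronecker dimension at
  most one for some prime ideal `Q ⊆ P`, or
* `K0 (P)` is a rational function field over a field of Kronecker dimension at most one, and for some
  set `S` of indices no monomial `y_i y_j` with `i, j` both in `S` or both not in `S` occurs in `F`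
  modulo `P`.
Then `K'₀` of the ring `A[y_1, …, y_n] ⧸ (f_1, …, f_r)` is finitely generated. -/
theorem result {ι : Type} [AddCommGroup ι] [LinearOrder ι] [IsOrderedAddMonoid ι] {A : Type}
    [CommRing A] [Algebra.FiniteType ℤ A] {r n : ℕ} (ℬ : ι → AddSubgroup (MvPolynomial (Fin r) A))
    [GradedRing ℬ] (f : Fin r → MvPolynomial (Fin n) A) (hf : ∀ l, (f l).totalDegree ≤ 2) (γ : ι)
    (α : Fin n → ι)
    (hom : ∀ d : Fin n →₀ ℕ, ∑ l, X l * C ((f l).coeff d) ∈ ℬ (γ - ∑ i, d i • α i))
    (h : ∀ (P : Ideal (MvPolynomial (Fin r) A)) [P.IsPrime], P.IsHomogeneous ℬ →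
      (∃ (Q : Ideal (MvPolynomial (Fin r) A)) (_ : Q.IsPrime), Q ≤ P ∧
        KroneckerLeOne (K0 ℬ (toFrac Q))) ∨
      (RationalOverKroneckerLeOne (K0 ℬ (toFrac P)) ∧ ∃ S : Set (Fin n), ∀ i j, (i ∈ S ↔ j ∈ S) →
        ∑ l, X l * C ((f l).coeff (Finsupp.single i 1 + Finsupp.single j 1)) ∈ P)) :
    AddGroup.FG (G0 (MvPolynomial (Fin n) A ⧸ Ideal.span (Set.range f))) :=
  Pool.Agent.TQF.fin_QT2 (Pool.Agent.TQF.thm_QH2 Pool.Agent.QTG.thm_QF2 Pool.Agent.TQF.all_QB
    Pool.Agent.TQF.thm_Loc) Pool.Agent.TQF.thm_Tb ℬ f hf γ α hom h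

end Pool.Agent.Results.MP_e17fa799_al.QuadricSystems
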