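import Pool.Agent.TQF.StT
import Pool.Agent.Helper67.Bass.Bil

/-!
# TQF, statements, part Q: quadric hypersurfaces over graded rings of complexity at most one

`A` is graded by an abelian group `ι`; `f ∈ A[y_1, …, y_n]` has degree at most two and is homogeneous
when `y_i` has weight `α i`, a further variable `y_0` has weight `ω` and `y_0` is put equal to `1`.
-/

set_option autoImplicit false

namespace Pool.Agent.TQF

open Function MvPolynomial Pool.Agent.Helper11 Pool.Agent.Helper67.Bass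

/-- the coefficient of `y ^ d` is homogeneous of degree `γ - (2 - |d|) ω - ∑ d_i α_i` -/
def Hom2 {ι : Type} [AddCommGroup ι] {A : Type} [CommRing A] (𝒜 : ι → AddSubgroup A) {n : ℕ}
    (f : MvPolynomial (Fin n) A) (γ ω : ι) (α : Fin n → ι) : Prop :=
  ∀ d : Fin n →₀ ℕ, f.coeff d ∈ 𝒜 (γ - (2 - d.degree) • ω - ∑ i, d i • α i)

/-- modulo `P` the polynomial `f` contains no monomial `y_i y_j` with `i, j ∈ S` -/
def Iso2 {A : Type} [CommRing A] {n : ℕ} (P : Ideal A) (f : MvPolynomial (Fin n) A)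
    (S : Finset (Fin n)) : Prop :=
  ∀ i ∈ S, ∀ j ∈ S, f.coeff (Finsupp.single i 1 + Finsupp.single j 1) ∈ P

/-- `V` is the Laurent polynomial ring in the `u i` over `B1`, inside the field `K` -/
structure Lau {K : Type} [Field K] {ρ : ℕ} (B1 : Subring K) (u : Fin ρ → K) (V : Subring K) :
    Prop where
  le : B1 ≤ V
  mem : ∀ i, u i ∈ V
  inv : ∀ i, (u i)⁻¹ ∈ V
  ne : ∀ i, u i ≠ 0
  inj : Injective (MvPolynomial.eval₂Hom B1.subtype u : MvPolynomial (Fin ρ) B1 →+* K)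
  frac : ∀ v ∈ V, ∃ (k : ℕ) (f : MvPolynomial (Fin ρ) B1),
    v * (∏ i, u i) ^ k = MvPolynomial.eval₂ B1.subtype u f

/-- the map from `A` to the ring of fractions `π(a) / π(s) ^ k` -/
noncomputable def awHom {A K : Type} [CommRing A] [Field K] (π : A →+* K) (s : A) :
    A →+* aw π.range (π s) ⟨s, rfl⟩ :=
  π.codRestrict _ (fun a => le_aw _ ⟨a, rfl⟩)

/-- **QS** (1 h, helper71 does it). The structure of the generic stratum; the proof is that of
`exists_stratum` (`Pool/Agent/Helper67/Bass/Graded.lean`). -/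
def St_QS : Prop :=
  ∀ (ι : Type) [AddCommGroup ι] [DecidableEq ι] [Module.IsTorsionFree ℤ ι] (A : Type) [CommRing A]
    [Algebra.FiniteType ℤ A] (𝒜 : ι → AddSubgroup A) [GradedRing 𝒜] (K : Type) [Field K]
    (π : A →+* K), (RingHom.ker π).IsHomogeneous 𝒜 →
    ∃ (ρ : ℕ) (m : Fin ρ → ι) (u : Fin ρ → K) (B0 : Subalgebra ℤ K), B0.FG ∧
      LinearIndependent ℤ m ∧ (∀ b ∈ B0, b ∈ K0 𝒜 π) ∧
      (∀ y ∈ K0 𝒜 π, ∃ a ∈ B0, ∃ b ∈ B0, b ≠ 0 ∧ y * b = a) ∧
      (∀ (j : ι), ∀ a ∈ 𝒜 j, π a = 0 ∨ ∃ z : Fin ρ → ℤ, ∑ k, z k • m k = j ∧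
        ∃ β ∈ B0, π a = β * ∏ k, u k ^ z k) ∧
      (∀ (s0 : K) (h0 : s0 ∈ B0.toSubring), s0 ≠ 0 → ∃ s : A, SetLike.IsHomogeneousElem 𝒜 s ∧
        π s ≠ 0 ∧ Lau (aw B0.toSubring s0 h0) u (aw π.range (π s) ⟨s, rfl⟩))

/-- **QV** (1.5 h). Proof. Let `W = MvPolynomial (Fin ρ) B1`, `s = ∏ X_i`; by `isLocAway`
(`Pool/Agent/Helper67/Bass/Aw.lean`, see the proof of `finGn_laurent` there) `V` is the localisation of `W`
away from `s` (algebra map `X_i ↦ u_i`). First `FinGn (W[y] ⧸ (f))`: this ring is isomorphic to the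
polynomial ring in `ρ` variables over `B1[y] ⧸ (f)` (`FinGn.mvPolynomial`,
`MvPolynomial.quotientEquivQuotientMvPolynomial`, `sumRingEquiv` / `MvPolynomial.commAlgEquiv`).
Secondly `V[y] ⧸ (f)` is the localisation of `W[y] ⧸ (f)` away from the class of `C s`:
use `TLoc_isLoc`, `TLoc_surj`, `TLoc_inj` of `Pool/Agent/TQF/TLoc.lean` (ideal `p = ⊥`; see the proof
of `thm_Loc` there, which does exactly this for `(R ⧸ p)[y] ⧸ (f) → V[y] ⧸ (f)`), then `FinGn.away`. -/
def St_QV : Prop :=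
  ∀ (K : Type) [Field K] (ρ : ℕ) (B1 V : Subring K) [IsNoetherianRing B1] (u : Fin ρ → K)
    (h : Lau B1 u V) (n : ℕ) (f : MvPolynomial (Fin n) B1),
    FinGn (MvPolynomial (Fin n) B1 ⧸ Ideal.span {f}) →
    FinGn (MvPolynomial (Fin n) V ⧸
      Ideal.span {MvPolynomial.map (Subring.inclusion h.le) f})

/-- **QK** (40 min). Proof. The automorphism `X_i ↦ t_i X_i` of `V[y]` (inverse `X_i ↦ t_i⁻¹ X_i`) maps
`f` to `τ g`, which generates the same ideal as `g`. -/
def St_QK : Prop :=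
  ∀ (V : Type) [CommRing V] (n : ℕ) (t : Fin n → Vˣ) (τ : Vˣ) (f g : MvPolynomial (Fin n) V),
    (∀ d, f.coeff d * ∏ i, (t i : V) ^ d i = τ * g.coeff d) →
    Nonempty ((MvPolynomial (Fin n) V ⧸ Ideal.span {f}) ≃+*
      (MvPolynomial (Fin n) V ⧸ Ideal.span {g}))

/-- **QG** (1 h), with the hypothesis `St_Gen`. Proof. `B0` is a finitely generated domain and the subfield
`F` is its fraction field (`IsFractionRing` for the inclusion of `B0` in `F`, third and fourth
hypothesis). Apply `St_Gen` to `B0`, `F`, `f`: there are `x ∈ B0`, `x ≠ 0`, and a localisation `V` of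
`B0` away from `x` with `FinGn (V[y] ⧸ (f))`. The ring `aw B0 x` is also a localisation of `B0` away
from `x` (`isLocAway`, as in `pid_aw` in `Pool/Agent/Helper67/Bass/Aw.lean`), so it is isomorphic to
`V` over `B0` (`IsLocalization.algEquiv`); `FinGn.of_equiv`. -/
def St_QG : Prop :=
  ∀ (K : Type) [Field K] (F : Subfield K) (B0 : Subalgebra ℤ K), B0.FG → (∀ b ∈ B0, b ∈ F) →
    (∀ y ∈ F, ∃ a ∈ B0, ∃ b ∈ B0, b ≠ 0 ∧ y * b = a) → KroneckerLeOne F →
    ∀ (n : ℕ) (f : MvPolynomial (Fin n) B0.toSubring), f.totalDegree ≤ 2 →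
      ∃ (s0 : K) (h0 : s0 ∈ B0.toSubring), s0 ≠ 0 ∧
        FinGn (MvPolynomial (Fin n) (aw B0.toSubring s0 h0) ⧸
          Ideal.span {MvPolynomial.map (Subring.inclusion (le_aw h0)) f})

/-- weights of the variables `y_0 = 1` (index `none`) and `y_i` -/
def wt {ι : Type} {n : ℕ} (ω : ι) (α : Fin n → ι) : Option (Fin n) → ι := fun i => i.elim ω α

/-- **QC** (1 h). Rescaling exponents. Proof. Let `Γ` be the subgroup generated by the `m k`, `[x]` the class
of `x` in `ι ⧸ Γ`, and `rp x` for `x ∈ Γ` the coordinate vector (unique by independence; additive).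
Case 1, `γ - 2 ω ∈ Γ`: put `γ' = 2 ω`. Case 2, otherwise: put `γ' = γ`. In both cases
`γ - γ' ∈ Γ`; put `w = rp (γ - γ')`. Choose a section `r : ι ⧸ Γ → ι` (`[r c] = c`) with
`r [ω] = ω` and `r [γ' - ω] = γ' - ω`; this is consistent: if `[ω] = [γ' - ω]` then `γ - 2 ω ∈ Γ`, so
`γ' = 2 ω` and `γ' - ω = ω` (`Function.update` twice on `Quotient.out`). Let `z none = 0`; for `i ∈ S`
let `z i = rp (α i - r [α i])`; for `i ∉ S`, `i ∈ T` let `z i = rp (α i - (γ' - r [γ' - α i]))` (in `Γ`,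
since `[γ' - r [γ' - α i]] = [α i]`); for `i ∉ S ∪ T` let `z i = 0` (there `α i = ω`).
Verification. Let `γ - wt i - wt j = ∑ ζ_k m_k`, so `ζ = rp (γ - wt i - wt j)`, not both in `S`, not
both in `T`. (a) both of weight `ω` (`none` or outside `S ∪ T`): then `γ - 2 ω ∈ Γ`, case 1, and
`ζ = w`. (b) `i ∈ S`, `wt j = ω`, `z j = 0`: `[α i] = [γ' - ω]`, `r [α i] = γ' - ω`, so
`w - z i = rp (γ - γ' - α i + γ' - ω) = ζ`. (c) `i ∈ T \ S`, `wt j = ω`, `z j = 0`:
`[γ' - α i] = [ω]`, the same. (d) `i ∈ S`, `j ∈ T \ S`: `[γ' - α j] = [α i]`, so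
`z i + z j = rp (α i + α j - γ')` and `w - z i - z j = ζ`. (e) `i, j ∈ T`, or `i, j ∈ S`: excluded. -/
def St_QC : Prop :=
  ∀ (ι : Type) [AddCommGroup ι] (ρ n : ℕ) (m : Fin ρ → ι), LinearIndependent ℤ m →
    ∀ (γ ω : ι) (α : Fin n → ι) (S T : Finset (Fin n)), (∀ i, i ∉ S → i ∉ T → α i = ω) →
    ∃ (w : Fin ρ → ℤ) (z : Option (Fin n) → Fin ρ → ℤ), z none = 0 ∧
      ∀ i j : Option (Fin n), ¬ ((∃ a ∈ S, i = some a) ∧ ∃ a ∈ S, j = some a) →
        ¬ ((∃ a ∈ T, i = some a) ∧ ∃ a ∈ T, j = some a) → ∀ ζ : Fin ρ → ℤ,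
        ∑ k, ζ k • m k = γ - wt ω α i - wt ω α j → ζ = w - z i - z j

/-- **QF** (2 h), with the hypotheses `St_QS`, `St_QV`, `St_QK`, `St_QG`, `St_QC`: the generic stratum of a
homogeneous prime with residue field of Kronecker dimension at most one.
Proof. Take the data of `St_QS` and `w, z` of `St_QC` for `γ, ω, α, S, T`. For `d` with
`π (f.coeff d) ≠ 0` one has `d = 0`, `e_i` or `e_i + e_j`, i.e. `d = e_i + e_j` with
`i, j ∈ Option (Fin n)`, `e_none = 0`, not both in `S` and not both in `T` (`Iso2`), and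
`f.coeff d` is homogeneous of degree `γ - wt i - wt j`; by `St_QS` it is `β_d u ^ ζ_d` with `β_d ∈ B0`
and `ζ_d = w - z i - z j` by `St_QC`, i.e. `ζ_d = w - ∑ d_l z_l`. Put `β_d = 0` if
`π (f.coeff d) = 0`. Let `f0 = ∑ β_d y ^ d` over `B0` (support inside `f.support`, total degree `≤ 2`).
By `St_QG` with `F = K0 𝒜 π` there is `s0` with `FinGn (B1[y] ⧸ (f0))`, `B1 = aw B0 s0`; let `s` be the
element of the last part of `St_QS`; `B1` is noetherian (a localisation of `B0`; as in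
`exists_stratum`). `St_QV` gives `FinGn (V[y] ⧸ (f0))`, `V = aw π.range (π s)`. By `St_QK` with
`t i = u ^ (z i)`, `τ = u ^ w` (units of `V`) the ring `V[y] ⧸ (f)` is isomorphic to `V[y] ⧸ (f0)`. -/
def St_QF : Prop :=
  ∀ (ι : Type) [AddCommGroup ι] [DecidableEq ι] [Module.IsTorsionFree ℤ ι] (A : Type) [CommRing A]
    [Algebra.FiniteType ℤ A] (𝒜 : ι → AddSubgroup A) [GradedRing 𝒜] (K : Type) [Field K]
    (π : A →+* K), (RingHom.ker π).IsHomogeneous 𝒜 → KroneckerLeOne (K0 𝒜 π) →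
    ∀ (n : ℕ) (f : MvPolynomial (Fin n) A) (γ ω : ι) (α : Fin n → ι) (S T : Finset (Fin n)),
      f.totalDegree ≤ 2 → Hom2 𝒜 f γ ω α → (∀ i, i ∉ S → i ∉ T → α i = ω) →
      Iso2 (RingHom.ker π) f S → Iso2 (RingHom.ker π) f T →
      ∃ s : A, SetLike.IsHomogeneousElem 𝒜 s ∧ π s ≠ 0 ∧
        FinGn (MvPolynomial (Fin n) (aw π.range (π s) ⟨s, rfl⟩) ⧸
          Ideal.span {MvPolynomial.map (awHom π s) f})

/-- the ideal generated by `I` and the affine linear forms with coefficients `φ k j` and constant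
terms `c k` -/
noncomputable def LA {A κ σ : Type} [CommRing A] [Fintype σ] (I : Ideal A) (φ : κ → σ → A)
    (c : κ → A) : Ideal (MvPolynomial σ A) :=
  I.map C ⊔ Ideal.span (Set.range fun k => C (c k) + ∑ j, C (φ k j) * X j)

/-- **LAP** (1 h). Pivot step for affine linear systems. Proof: that of `finGn_pivot`
(`Pool/Agent/Helper67/Bass/Lin.lean`), with the constant terms carried along: on the open set where
`s = φ k0 j0` is invertible `X_j0 = - s⁻¹ (c k0 + ∑_l φ k0 l X_l)`. -/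
def St_LAP : Prop :=
  ∀ (A κ σ : Type) [CommRing A] [IsNoetherianRing A] [Fintype σ] [DecidableEq σ] (I : Ideal A)
    (φ : κ → σ → A) (c : κ → A) (k0 : κ) (j0 : σ),
    FinGn (MvPolynomial σ A ⧸ LA (I ⊔ Ideal.span {φ k0 j0}) φ c) →
    FinGn (MvPolynomial {l : σ // l ≠ j0} A ⧸
      LA I (elim φ k0 j0) (fun k => φ k0 j0 * c k - φ k j0 * c k0)) →
    FinGn (MvPolynomial σ A ⧸ LA I φ c)

/-- **LAL** (1 h), with the hypothesis `St_LAP`. Homogeneous affine linear systems. Proof: that of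
`finGn_linear` (`Pool/Agent/Helper67/Bass/Bil.lean`). If all `φ k j ∈ I` (in particular if `σ` is empty)
then `LA I φ c` is the extension of the homogeneous ideal `I ⊔ Ideal.span (Set.range c)`
(`quotientEquivQuotientMvPolynomial`, `FinGn.mvPolynomial`, `Ideal.homogeneous_span`). In the pivot
step the new constant terms lie in degree `(δ + (β j0 - α k0)) - α k`. -/
def St_LAL : Prop :=
  ∀ (ι : Type) [AddCommGroup ι] [DecidableEq ι] (A : Type) [CommRing A] [IsNoetherianRing A]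
    (𝒜 : ι → AddSubgroup A) [GradedRing 𝒜], (∀ I : Ideal A, I.IsHomogeneous 𝒜 → FinGn (A ⧸ I)) →
    ∀ (κ σ : Type) [Fintype σ] [DecidableEq σ] (φ : κ → σ → A) (c : κ → A) (α : κ → ι) (β : σ → ι)
      (δ : ι), (∀ k j, φ k j ∈ 𝒜 (β j - α k)) → (∀ k, c k ∈ 𝒜 (δ - α k)) →
      ∀ I : Ideal A, I.IsHomogeneous 𝒜 → FinGn (MvPolynomial σ A ⧸ LA I φ c)

/-- the affine linear form with coefficients `Φ k (some j)` and constant term `Φ k none` -/
noncomputable def arow {A κ σ : Type} [CommRing A] [Fintype σ] (Φ : Option κ → Option σ → A)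
    (k : Option κ) : MvPolynomial σ A := C (Φ k none) + ∑ j, C (Φ k (some j)) * X j

/-- the polynomial `∑ Φ k j u_k v_j` with `u_none = v_none = 1` -/
noncomputable def aBil {A κ σ : Type} [CommRing A] [Fintype κ] [Fintype σ]
    (Φ : Option κ → Option σ → A) : MvPolynomial κ (MvPolynomial σ A) :=
  C (arow Φ none) + ∑ k, C (arow Φ (some k)) * X k

/-- **LAB** (1 h), with the hypotheses `St_LAP`, `St_LAL`. Proof: that of `finGn_bilinear`
(`Pool/Agent/Helper67/Bass/Bil.lean`). For a finite set `S` of indices `k` let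
`J S = I A[v] + (arow Φ (some k), k ∈ S)`; show by induction on the number of `k ∉ S` that
`FinGn (A[v][u] ⧸ LA (J S) ψ c)`, `ψ () k = arow Φ (some k)`, `c () = arow Φ none`; the claim is the
case `S = ∅`. No `k ∉ S`: the ideal is the extension of `J S + (arow Φ none)`, an affine linear system
(`St_LAL` for the index set of all `k ∈ S` and one more). Step: `St_LAP` with `k0 ∉ S`: the first
condition is the case `insert k0 S`, in the second one the eliminated coefficients and the constant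
term are `0`, so the ideal is the extension of `J S` (`St_LAL`). -/
def St_LAB : Prop :=
  ∀ (ι : Type) [AddCommGroup ι] [DecidableEq ι] (A : Type) [CommRing A] [IsNoetherianRing A]
    (𝒜 : ι → AddSubgroup A) [GradedRing 𝒜], (∀ I : Ideal A, I.IsHomogeneous 𝒜 → FinGn (A ⧸ I)) →
    ∀ (κ σ : Type) [Fintype κ] [DecidableEq κ] [Fintype σ] [DecidableEq σ]
      (Φ : Option κ → Option σ → A) (α : Option κ → ι) (β : Option σ → ι),
      (∀ k j, Φ k j ∈ 𝒜 (β j - α k)) → ∀ I : Ideal A, I.IsHomogeneous 𝒜 →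
      FinGn (MvPolynomial κ (MvPolynomial σ A) ⧸ ((I.map C).map C ⊔ Ideal.span {aBil Φ}))

/-- **QB** (1.5 h), with the hypothesis `St_LAB`: hypersurfaces which are affine-bilinear modulo `I`.
Proof. Let `κ = {i // i ∈ S}`, `σ = {i // i ∉ S}` (contained in `T`), `Fin n ≃ κ ⊕ σ`
(`Equiv.sumCompl`), `A[y] ≅ A[v][u]` (`MvPolynomial.renameEquiv`, `sumRingEquiv` as in `finGn_homF` in
`Pool/Agent/HPow/Aff.lean`). Let `Φ none none = f.coeff 0`,
`Φ (some i) none = f.coeff e_i`, `Φ none (some j) = f.coeff e_j`,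
`Φ (some i) (some j) = f.coeff (e_i + e_j)`; the weights are `α' none = ω`, `α' (some i) = α i`,
`β' none = γ - ω`, `β' (some j) = γ - α j`. The image of `f` is `aBil Φ` modulo `I`, since all other
coefficients of `f` are in `I` (degree `≤ 2`, `Iso2`). So the two ideals agree. -/
def St_QB : Prop :=
  ∀ (ι : Type) [AddCommGroup ι] [DecidableEq ι] (A : Type) [CommRing A] [IsNoetherianRing A]
    (𝒜 : ι → AddSubgroup A) [GradedRing 𝒜], (∀ I : Ideal A, I.IsHomogeneous 𝒜 → FinGn (A ⧸ I)) →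
    ∀ (n : ℕ) (f : MvPolynomial (Fin n) A) (γ ω : ι) (α : Fin n → ι) (S T : Finset (Fin n))
      (I : Ideal A), I.IsHomogeneous 𝒜 → f.totalDegree ≤ 2 → Hom2 𝒜 f γ ω α →
      S ∪ T = Finset.univ → Iso2 I f S → Iso2 I f T →
      FinGn (MvPolynomial (Fin n) A ⧸ (I.map C ⊔ Ideal.span {f}))

/-- the condition at the prime `P` -/
def QCond {ι : Type} [AddCommGroup ι] [DecidableEq ι] {A : Type} [CommRing A]
    (𝒜 : ι → AddSubgroup A) [GradedRing 𝒜] {n : ℕ} (f : MvPolynomial (Fin n) A) (ω : ι)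
    (α : Fin n → ι) (P : Ideal A) [P.IsPrime] : Prop :=
  ∃ S T : Finset (Fin n), Iso2 P f S ∧ Iso2 P f T ∧ (∀ i, i ∉ S → i ∉ T → α i = ω) ∧
    ((∃ (Q : Ideal A) (_ : Q.IsPrime), Q ≤ P ∧ KroneckerLeOne (K0 𝒜 (toFrac Q))) ∨
      (S ∪ T = Finset.univ ∧ RationalOverKroneckerLeOne (K0 𝒜 (toFrac P))))

/-- **QH** (1.5 h), with the hypotheses `St_QF`, `St_QB`, `St_Loc`: the hypersurface theorem.
Proof. First, `RationalOverKroneckerLeOne (K0 𝒜 (toFrac P))` for all homogeneous primes `P`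
(`KroneckerLeOne.mono`, `KroneckerLeOne.ratSmall`; see
`Pool/Agent/Results/MP_e17fa799_al/TorusBilinear.lean`), so `FinGn (A ⧸ I)` for all homogeneous ideals
`I` (`finGn_graded_quotient`). Show by noetherian induction over the homogeneous ideals `I` that
`FinGn (A[y] ⧸ (I.map C ⊔ (f)))`, as in the proof of `finGn_graded_quotient`
(`Pool/Agent/Helper67/Bass/Main1.lean`). `I = ⊤`: zero ring. `I` not prime: homogeneous
`x, y ∉ I` with `x y ∈ I`, `FinGn.of_mul` in `A[y] ⧸ (I.map C ⊔ (f))` (as in `thm_Ta`,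
`Pool/Agent/TQF/TTa.lean`). `I` prime: let `S, T` be given by `QCond`. Second alternative: `St_QB`.
First alternative: `KroneckerLeOne (K0 𝒜 (toFrac I))` by `KroneckerLeOne.mono`; `St_QF` with
`π = toFrac I` (`ker_toFrac`) gives `s`; apply `St_Loc` with `R = A`, `p = I`, this `s` and
`V = aw π.range (π s)` (the localisation of `A ⧸ I` away from `s`, as in `finGn_step`,
`Pool/Agent/Helper67/Bass/Aw.lean`), the remaining hypothesis being the induction hypothesis for
`I ⊔ (s)`. -/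
def St_QH : Prop :=
  ∀ (ι : Type) [AddCommGroup ι] [LinearOrder ι] [IsOrderedAddMonoid ι] (A : Type) [CommRing A]
    [Algebra.FiniteType ℤ A] (𝒜 : ι → AddSubgroup A) [GradedRing 𝒜] (n : ℕ)
    (f : MvPolynomial (Fin n) A) (γ ω : ι) (α : Fin n → ι), f.totalDegree ≤ 2 → Hom2 𝒜 f γ ω α →
    (∀ (P : Ideal A) [P.IsPrime], P.IsHomogeneous 𝒜 → QCond 𝒜 f ω α P) →
    FinGn (MvPolynomial (Fin n) A ⧸ Ideal.span {f})

end Pool.Agent.TQF
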