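import Pool.Agent.TQF.StQ

/-!
# TQF, statements, part Q2: arbitrary weights
-/

set_option autoImplicit false

namespace Pool.Agent.TQF

open Function MvPolynomial Pool.Agent.Helper11 Pool.Agent.Helper67.Bass

/-- **QF2** (helper67): the generic stratum of a homogeneous prime with residue field of Kronecker
dimension at most one, arbitrary weights. -/
def St_QF2 : Prop :=
  ∀ (ι : Type) [AddCommGroup ι] [DecidableEq ι] [Module.IsTorsionFree ℤ ι] (A : Type) [CommRing A]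
    [Algebra.FiniteType ℤ A] (𝒜 : ι → AddSubgroup A) [GradedRing 𝒜] (K : Type) [Field K]
    (π : A →+* K), (RingHom.ker π).IsHomogeneous 𝒜 → KroneckerLeOne (K0 𝒜 π) →
    ∀ (n : ℕ) (f : MvPolynomial (Fin n) A) (γ ω : ι) (α : Fin n → ι),
      f.totalDegree ≤ 2 → Hom2 𝒜 f γ ω α →
      ∃ s : A, SetLike.IsHomogeneousElem 𝒜 s ∧ π s ≠ 0 ∧
        FinGn (MvPolynomial (Fin n) (aw π.range (π s) ⟨s, rfl⟩) ⧸
          Ideal.span {MvPolynomial.map (awHom π s) f})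

/-- the hypersurface theorem, arbitrary weights -/
def St_QH2 : Prop :=
  ∀ (ι : Type) [AddCommGroup ι] [LinearOrder ι] [IsOrderedAddMonoid ι] (A : Type) [CommRing A]
    [Algebra.FiniteType ℤ A] (𝒜 : ι → AddSubgroup A) [GradedRing 𝒜] (n : ℕ)
    (f : MvPolynomial (Fin n) A) (γ : ι) (α : Fin n → ι), f.totalDegree ≤ 2 →
    (∀ d : Fin n →₀ ℕ, f.coeff d ∈ 𝒜 (γ - ∑ i, d i • α i)) →
    (∀ (P : Ideal A) [P.IsPrime], P.IsHomogeneous 𝒜 →
      (∃ (Q : Ideal A) (_ : Q.IsPrime), Q ≤ P ∧ KroneckerLeOne (K0 𝒜 (toFrac Q))) ∨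
      (RationalOverKroneckerLeOne (K0 𝒜 (toFrac P)) ∧ ∃ S : Set (Fin n), ∀ i j, (i ∈ S ↔ j ∈ S) →
        f.coeff (Finsupp.single i 1 + Finsupp.single j 1) ∈ P)) →
    FinGn (MvPolynomial (Fin n) A ⧸ Ideal.span {f})

end Pool.Agent.TQF
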